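import Pool.Agent.LibTwHL.Defs

namespace TwHL

/-- Row H1a. `∑_{n ≤ x} F(n)/n ≤ ∏_{p ≤ x} (1 + w p / p) ≤ exp (∑ w p / p)`.
(Every squarefree `n ≤ x` is the product of a subset of `PP x`, `Finset.prod_one_add`,
`Nat.prod_primeFactors_of_squarefree`.) -/
theorem sum_FF_div (w : ℕ → ℝ) (hw : ∀ p, 0 ≤ w p) (x : ℕ) :
    ∑ n ∈ Finset.Icc 1 x, FF w n / n ≤ Real.exp (∑ p ∈ PP x, w p / p) := by
  have hnn : ∀ p : ℕ, 0 ≤ w p / p := fun p => div_nonneg (hw p) (Nat.cast_nonneg p)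
  have h1 : ∑ n ∈ Finset.Icc 1 x, FF w n / n
      = ∑ n ∈ (Finset.Icc 1 x).filter Squarefree, ∏ p ∈ n.primeFactors, (w p / p) := by
    rw [Finset.sum_filter]
    refine Finset.sum_congr rfl fun n _ => ?_
    unfold FF
    split_ifs with h
    · rw [Finset.prod_div_distrib]
      congr 1
      have h2 := Nat.prod_primeFactors_of_squarefree h
      calc (n : ℝ) = ((∏ p ∈ n.primeFactors, p : ℕ) : ℝ) := by rw [h2]
        _ = ∏ p ∈ n.primeFactors, (p : ℝ) := by push_cast; rfl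
    · simp
  have h2 : ∑ n ∈ (Finset.Icc 1 x).filter Squarefree, ∏ p ∈ n.primeFactors, (w p / p)
      ≤ ∑ S ∈ (PP x).powerset, ∏ p ∈ S, (w p / p) := by
    have hinj : Set.InjOn Nat.primeFactors (((Finset.Icc 1 x).filter Squarefree : Finset ℕ) : Set ℕ) := by
      intro a ha b hb hab
      have ha' : Squarefree a := (Finset.mem_filter.1 (Finset.mem_coe.1 ha)).2
      have hb' : Squarefree b := (Finset.mem_filter.1 (Finset.mem_coe.1 hb)).2
      rw [← Nat.prod_primeFactors_of_squarefree ha', ← Nat.prod_primeFactors_of_squarefree hb', hab]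
    rw [← Finset.sum_image (f := fun S : Finset ℕ => ∏ p ∈ S, (w p / (p : ℝ))) hinj]
    refine Finset.sum_le_sum_of_subset_of_nonneg ?_ fun S _ _ => Finset.prod_nonneg fun p _ => hnn p
    intro S hS
    obtain ⟨n, hn, rfl⟩ := Finset.mem_image.1 hS
    obtain ⟨hn1, -⟩ := Finset.mem_filter.1 hn
    rw [Finset.mem_Icc] at hn1
    rw [Finset.mem_powerset]
    intro p hp
    have hp1 := Nat.prime_of_mem_primeFactors hp
    unfold PP
    rw [Finset.mem_filter, Finset.mem_Icc]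
    exact ⟨⟨hp1.one_lt.le, (Nat.le_of_mem_primeFactors hp).trans hn1.2⟩, hp1⟩
  have h3 : ∑ S ∈ (PP x).powerset, ∏ p ∈ S, (w p / p) = ∏ p ∈ PP x, (1 + w p / (p : ℝ)) :=
    (Finset.prod_one_add (f := fun p : ℕ => w p / (p : ℝ)) (PP x)).symm
  rw [h1, Real.exp_sum]
  refine h2.trans (h3.le.trans ?_)
  refine Finset.prod_le_prod (fun p _ => by have := hnn p; positivity) fun p _ => ?_
  rw [add_comm]
  exact Real.add_one_le_exp _

end TwHL
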