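import Pool.Agent.LibTwHL.Defs

namespace TwHL

private theorem h1b_nonneg (w : ℕ → ℝ) (hw : ∀ p, 0 ≤ w p) (n : ℕ) : 0 ≤ FF w n := by
  unfold FF
  split_ifs
  · exact Finset.prod_nonneg fun p _ => hw p
  · exact le_rfl

/-- the factor of one prime -/
private theorem h1b_step (w : ℕ → ℝ) {n p : ℕ} (hn : Squarefree n) (hp : p ∈ n.primeFactors) :
    FF w n = w p * FF w (n / p) := by
  have hpp := Nat.prime_of_mem_primeFactors hp
  have hpd := Nat.dvd_of_mem_primeFactors hp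
  have hn0 : n ≠ 0 := hn.ne_zero
  obtain ⟨m, rfl⟩ := hpd
  have hm0 : m ≠ 0 := fun h => hn0 (by rw [h, mul_zero])
  have hcop : Nat.Coprime p m := Nat.coprime_of_squarefree_mul hn
  have hm : Squarefree m := hn.squarefree_of_dvd (Dvd.intro_left p rfl)
  rw [Nat.mul_div_cancel_left m hpp.pos]
  unfold FF
  rw [if_pos hn, if_pos hm, hcop.primeFactors_mul, Finset.prod_union hcop.disjoint_primeFactors,
    hpp.primeFactors, Finset.prod_singleton]

private theorem h1b_log {n : ℕ} (hn : Squarefree n) :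
    Real.log n = ∑ p ∈ n.primeFactors, Real.log p := by
  conv_lhs => rw [← Nat.prod_primeFactors_of_squarefree hn]
  rw [Nat.cast_prod, Real.log_prod]
  intro p hp
  have := (Nat.prime_of_mem_primeFactors hp).pos
  positivity

/-- Row H1b. `log n = ∑_{p | n} log p` for squarefree `n`; exchange:
`∑_{n ≤ x} F(n) log n = ∑_{m ≤ x} F(m) ∑_{p ≤ x/m, p ∤ m} w p log p ≤ 2 ∑_m F(m) θ(x/m)`, and
`θ(y) ≤ log 4 * y` (`Chebyshev.theta_le_log4_mul_x` or `primorial_le_4_pow`). -/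
theorem sum_FF_log (w : ℕ → ℝ) (hw : ∀ p, 0 ≤ w p) (hw2 : ∀ p, w p ≤ 2) (x : ℕ) :
    ∑ n ∈ Finset.Icc 1 x, FF w n * Real.log n
      ≤ 2 * Real.log 4 * x * ∑ n ∈ Finset.Icc 1 x, FF w n / n := by
  classical
  set g : (Σ _ : ℕ, ℕ) → ℝ := fun q => FF w q.1 * (2 * Real.log q.2) with hg
  have hg0 : ∀ q, 0 ≤ g q := fun q =>
    mul_nonneg (h1b_nonneg w hw _) (mul_nonneg (by norm_num) (Real.log_natCast_nonneg _))
  have e1 : ∀ n ∈ Finset.Icc 1 x, FF w n * Real.log n ≤ ∑ p ∈ n.primeFactors, g ⟨n / p, p⟩ := by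
    intro n _
    by_cases hn : Squarefree n
    · rw [h1b_log hn, Finset.mul_sum]
      refine Finset.sum_le_sum fun p hp => ?_
      rw [h1b_step w hn hp]
      have h1 : 0 ≤ FF w (n / p) * Real.log p :=
        mul_nonneg (h1b_nonneg w hw _) (Real.log_natCast_nonneg _)
      have h2 := mul_le_mul_of_nonneg_right (hw2 p) h1
      simp only [hg]
      linarith
    · have h0 : FF w n = 0 := by
        unfold FF
        rw [if_neg hn]
      rw [h0, zero_mul]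
      exact Finset.sum_nonneg fun p _ => hg0 _
  set A : Finset (Σ _ : ℕ, ℕ) := (Finset.Icc 1 x).sigma fun n => n.primeFactors with hA
  set B : Finset (Σ _ : ℕ, ℕ) := (Finset.Icc 1 x).sigma fun m =>
    (Finset.Icc 0 (x / m)).filter Nat.Prime with hB
  set f : (Σ _ : ℕ, ℕ) → (Σ _ : ℕ, ℕ) := fun q => ⟨q.1 / q.2, q.2⟩ with hf
  have hinj : Set.InjOn f (A : Set (Σ _ : ℕ, ℕ)) := by
    rintro ⟨n, p⟩ h1 ⟨n', p'⟩ h2 h3
    rw [Finset.mem_coe, hA, Finset.mem_sigma] at h1 h2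
    simp only [hf, Sigma.mk.injEq, heq_eq_eq] at h3
    obtain ⟨h4, h5⟩ := h3
    subst h5
    have d1 : p ∣ n := Nat.dvd_of_mem_primeFactors h1.2
    have d2 : p ∣ n' := Nat.dvd_of_mem_primeFactors h2.2
    have h6 : n = n' := by
      rw [← Nat.div_mul_cancel d1, ← Nat.div_mul_cancel d2, h4]
    rw [h6]
  have hmaps : A.image f ⊆ B := by
    intro q hq
    obtain ⟨⟨n, p⟩, h1, rfl⟩ := Finset.mem_image.1 hq
    rw [hA, Finset.mem_sigma] at h1
    obtain ⟨h2, h3⟩ := h1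
    have hpp : p.Prime := Nat.prime_of_mem_primeFactors h3
    have hpd : p ∣ n := Nat.dvd_of_mem_primeFactors h3
    have h4 : 1 ≤ n ∧ n ≤ x := Finset.mem_Icc.1 h2
    clear hq h2 h3
    obtain ⟨m, rfl⟩ := hpd
    have hm0 : 0 < m := by
      rcases Nat.eq_zero_or_pos m with h | h
      · rw [h, mul_zero] at h4
        omega
      · exact h
    simp only [hf, Nat.mul_div_cancel_left m hpp.pos]
    rw [hB, Finset.mem_sigma, Finset.mem_Icc, Finset.mem_filter, Finset.mem_Icc]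
    refine ⟨⟨hm0, ?_⟩, ⟨Nat.zero_le _, ?_⟩, hpp⟩
    · exact (Nat.le_mul_of_pos_left m hpp.pos).trans h4.2
    · rw [Nat.le_div_iff_mul_le hm0]
      exact h4.2
  have e2 : ∑ n ∈ Finset.Icc 1 x, ∑ p ∈ n.primeFactors, g ⟨n / p, p⟩ ≤
      ∑ m ∈ Finset.Icc 1 x, ∑ p ∈ (Finset.Icc 0 (x / m)).filter Nat.Prime, g ⟨m, p⟩ := by
    rw [Finset.sum_sigma' (Finset.Icc 1 x) (fun n => n.primeFactors)
      (fun n p => g ⟨n / p, p⟩), Finset.sum_sigma' (Finset.Icc 1 x)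
      (fun m => (Finset.Icc 0 (x / m)).filter Nat.Prime) (fun m p => g ⟨m, p⟩)]
    calc ∑ q ∈ A, g ⟨q.1 / q.2, q.2⟩ = ∑ q ∈ A.image f, g q := by
          rw [Finset.sum_image hinj]
      _ ≤ ∑ q ∈ B, g q := Finset.sum_le_sum_of_subset_of_nonneg hmaps fun q _ _ => hg0 q
  have e3 : ∀ m ∈ Finset.Icc 1 x, ∑ p ∈ (Finset.Icc 0 (x / m)).filter Nat.Prime, g ⟨m, p⟩ ≤
      2 * Real.log 4 * x * (FF w m / m) := by
    intro m hm
    have hm1 := (Finset.mem_Icc.1 hm).1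
    have hm0 : (0 : ℝ) < m := by exact_mod_cast hm1
    have h1 : ∑ p ∈ (Finset.Icc 0 (x / m)).filter Nat.Prime, g ⟨m, p⟩ =
        2 * FF w m * Chebyshev.theta ((x / m : ℕ) : ℝ) := by
      rw [Chebyshev.theta_eq_sum_Icc, Nat.floor_natCast, Finset.mul_sum]
      refine Finset.sum_congr rfl fun p _ => ?_
      simp only [hg]
      ring
    have h2 : Chebyshev.theta ((x / m : ℕ) : ℝ) ≤ Real.log 4 * (x / m) := by
      refine (Chebyshev.theta_le_log4_mul_x (Nat.cast_nonneg _)).trans ?_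
      exact mul_le_mul_of_nonneg_left Nat.cast_div_le (Real.log_nonneg (by norm_num))
    rw [h1]
    calc 2 * FF w m * Chebyshev.theta ((x / m : ℕ) : ℝ) ≤ 2 * FF w m * (Real.log 4 * (x / m)) :=
          mul_le_mul_of_nonneg_left h2 (mul_nonneg (by norm_num) (h1b_nonneg w hw _))
      _ = 2 * Real.log 4 * x * (FF w m / m) := by ring
  calc ∑ n ∈ Finset.Icc 1 x, FF w n * Real.log n
      ≤ ∑ n ∈ Finset.Icc 1 x, ∑ p ∈ n.primeFactors, g ⟨n / p, p⟩ := Finset.sum_le_sum e1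
    _ ≤ _ := e2
    _ ≤ ∑ m ∈ Finset.Icc 1 x, 2 * Real.log 4 * x * (FF w m / m) := Finset.sum_le_sum e3
    _ = 2 * Real.log 4 * x * ∑ n ∈ Finset.Icc 1 x, FF w n / n := by rw [Finset.mul_sum]

end TwHL
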