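import Pool.Agent.LibTwHL.H1a
import Pool.Agent.LibTwHL.H1b

namespace TwHL

private theorem H1_FF_nonneg (w : ℕ → ℝ) (hw : ∀ p, 0 ≤ w p) (n : ℕ) : 0 ≤ FF w n := by
  unfold FF
  split_ifs
  · exact Finset.prod_nonneg (fun p _ => hw p)
  · exact le_refl 0

/-- Row H1. `(1 + log x) ∑ F(n) = ∑ F(n) (1 + log (x/n)) + ∑ F(n) log n`, with
`1 + log (x/n) ≤ x/n`; then `sum_FF_log` and `sum_FF_div`. `C = 1 + 2 log 4`. -/
theorem HR : ∃ C : ℝ, 0 < C ∧ ∀ w : ℕ → ℝ, (∀ p, 0 ≤ w p) → (∀ p, w p ≤ 2) → ∀ x : ℕ, 1 ≤ x →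
    ∑ n ∈ Finset.Icc 1 x, FF w n
      ≤ C * (x / (1 + Real.log x)) * Real.exp (∑ p ∈ PP x, w p / p) := by
  have hlog4 : 0 < Real.log 4 := Real.log_pos (by norm_num)
  refine ⟨1 + 2 * Real.log 4, by positivity, ?_⟩
  intro w hw hw2 x hx
  have hx1 : (1 : ℝ) ≤ x := by exact_mod_cast hx
  have hlx : 0 ≤ Real.log x := Real.log_nonneg hx1
  have hL : 0 < 1 + Real.log x := by linarith
  have hdiv := sum_FF_div w hw x
  have hlog := sum_FF_log w hw hw2 x
  have h1 : (1 + Real.log x) * ∑ n ∈ Finset.Icc 1 x, FF w n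
      ≤ x * ∑ n ∈ Finset.Icc 1 x, FF w n / n + ∑ n ∈ Finset.Icc 1 x, FF w n * Real.log n := by
    rw [Finset.mul_sum, Finset.mul_sum, ← Finset.sum_add_distrib]
    apply Finset.sum_le_sum
    intro n hn
    rw [Finset.mem_Icc] at hn
    have hn0 : (0 : ℝ) < n := by exact_mod_cast hn.1
    have hxn : (0 : ℝ) < x / n := by positivity
    have h2 : Real.log (x / n) ≤ x / n - 1 := Real.log_le_sub_one_of_pos hxn
    rw [Real.log_div (by positivity) (by positivity)] at h2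
    have h3 : 1 + Real.log x ≤ x / n + Real.log n := by linarith
    calc (1 + Real.log x) * FF w n ≤ (x / n + Real.log n) * FF w n :=
          mul_le_mul_of_nonneg_right h3 (H1_FF_nonneg w hw n)
      _ = x * (FF w n / n) + FF w n * Real.log n := by ring
  have h4 : (1 + Real.log x) * ∑ n ∈ Finset.Icc 1 x, FF w n
      ≤ (1 + 2 * Real.log 4) * x * Real.exp (∑ p ∈ PP x, w p / p) := by
    calc (1 + Real.log x) * ∑ n ∈ Finset.Icc 1 x, FF w n
        ≤ x * ∑ n ∈ Finset.Icc 1 x, FF w n / n + 2 * Real.log 4 * x * ∑ n ∈ Finset.Icc 1 x, FF w n / n := by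
          linarith
      _ = (1 + 2 * Real.log 4) * x * ∑ n ∈ Finset.Icc 1 x, FF w n / n := by ring
      _ ≤ _ := mul_le_mul_of_nonneg_left hdiv (by positivity)
  calc ∑ n ∈ Finset.Icc 1 x, FF w n
      = ((1 + Real.log x) * ∑ n ∈ Finset.Icc 1 x, FF w n) / (1 + Real.log x) := by
        field_simp
    _ ≤ ((1 + 2 * Real.log 4) * x * Real.exp (∑ p ∈ PP x, w p / p)) / (1 + Real.log x) :=
        div_le_div_of_nonneg_right h4 hL.le
    _ = _ := by ring

end TwHL
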