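import Pool.Agent.LibTwHL.L4

namespace TwHL

private lemma l5_mem {j p : ℕ} (hp : p ∈ PB j) : 2 ^ j < p ∧ p ≤ 2 ^ (j + 1) ∧ p.Prime := by
  unfold PB at hp
  rw [Finset.mem_filter, Finset.mem_Ioc] at hp
  exact ⟨hp.1.1, hp.1.2, hp.2⟩

private lemma l5_jac (a : ℤ) (b : ℕ) : |(jacobiSym a b : ℝ)| ≤ 1 := by
  rcases jacobiSym.trichotomy a b with h | h | h <;> rw [h] <;> simp

/-- Row L5. Dual large sieve. With `σ_g = ±1` the sign of `SS s j g` and
`A(n) = ∑_{g ∈ E} σ_g J(g|n)`: `|E| δ ≤ ∑_g σ_g SS s j g = ∑_{p} (s p / p) A(p)`, so by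
Cauchy-Schwarz `|E|^2 δ^2 ≤ (∑ 1/p^2) ∑_{n odd in (2^j, 2^(j+1)]} A(n)^2
≤ 2^(-j) (2^j |E| + 16 Y^2 |E|^2)` (diagonal `g = g'`: at most `2^j` terms each at most 1; other
pairs: `sum_jacobi_odd` with `Δ = g g' ≤ 4 Y^2`, `jacobiSym.mul_left`), and
`16 Y^2 / 2^j ≤ δ^2 / 2`. -/
theorem ls_dual (s : ℕ → ℝ) (hs : ∀ p, |s p| ≤ 1) (j : ℕ) (hj : 1 ≤ j) (Y : ℕ) (δ : ℝ)
    (hδ : 0 < δ) (hjY : 32 * (Y : ℝ) ^ 2 / δ ^ 2 ≤ 2 ^ j) (E : Finset ℕ)
    (hE : ∀ g ∈ E, Y < g ∧ g ≤ 2 * Y ∧ Squarefree g ∧ δ < |SS s j g|) :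
    (E.card : ℝ) ≤ 2 / δ ^ 2 := by
  classical
  set c : ℝ := (E.card : ℝ) with hc
  have hc0 : 0 ≤ c := Nat.cast_nonneg _
  set σ : ℕ → ℝ := fun g => if 0 ≤ SS s j g then 1 else -1 with hσ
  have hσ1 : ∀ g, |σ g| ≤ 1 := by
    intro g
    simp only [hσ]
    split_ifs <;> simp
  have hσa : ∀ g, σ g * SS s j g = |SS s j g| := by
    intro g
    simp only [hσ]
    split_ifs with h
    · rw [abs_of_nonneg h, one_mul]
    · push Not at h
      rw [abs_of_neg h]; ring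
  set A : ℕ → ℝ := fun n => ∑ g ∈ E, σ g * (jacobiSym (g : ℤ) n : ℝ) with hA
  set O : Finset ℕ := (Finset.Ioc (2 ^ j) (2 ^ (j + 1))).filter Odd with hO
  have h2j : (0 : ℝ) < 2 ^ j := by positivity
  -- lower bound
  have hlow : c * δ ≤ ∑ p ∈ PB j, (s p / p) * A p := by
    have h1 : ∑ p ∈ PB j, (s p / p) * A p = ∑ g ∈ E, |SS s j g| := by
      simp only [hA, Finset.mul_sum]
      rw [Finset.sum_comm]
      refine Finset.sum_congr rfl fun g _ => ?_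
      rw [← hσa]
      unfold SS
      rw [Finset.mul_sum]
      refine Finset.sum_congr rfl fun p _ => ?_
      ring
    rw [h1]
    calc c * δ = ∑ g ∈ E, δ := by rw [Finset.sum_const, nsmul_eq_mul]
      _ ≤ ∑ g ∈ E, |SS s j g| := Finset.sum_le_sum fun g hg => (hE g hg).2.2.2.le
  -- Cauchy-Schwarz
  have hcs : (∑ p ∈ PB j, (s p / p) * A p) ^ 2 ≤ (∑ p ∈ PB j, (s p / p) ^ 2) * ∑ p ∈ PB j, A p ^ 2 :=
    Finset.sum_mul_sq_le_sq_mul_sq _ _ _
  have hfirst : ∑ p ∈ PB j, (s p / (p : ℝ)) ^ 2 ≤ 1 / 2 ^ j := by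
    have hcard : ((PB j).card : ℝ) ≤ 2 ^ j := by
      have : (PB j).card ≤ 2 ^ j := by
        unfold PB
        refine (Finset.card_filter_le _ _).trans ?_
        rw [Nat.card_Ioc, pow_succ]
        omega
      exact_mod_cast this
    calc ∑ p ∈ PB j, (s p / (p : ℝ)) ^ 2 ≤ ∑ p ∈ PB j, (1 / (2 ^ j) ^ 2 : ℝ) := by
          refine Finset.sum_le_sum fun p hp => ?_
          have hpr : (2 : ℝ) ^ j ≤ p := by exact_mod_cast (l5_mem hp).1.le
          rw [div_pow]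
          have h5 : s p ^ 2 ≤ 1 := by
            have h2 := abs_le.1 (hs p)
            nlinarith
          apply div_le_div₀ (by norm_num) h5 (by positivity)
          gcongr
      _ = ((PB j).card : ℝ) * (1 / (2 ^ j) ^ 2) := by rw [Finset.sum_const, nsmul_eq_mul]
      _ ≤ 2 ^ j * (1 / (2 ^ j) ^ 2) := by gcongr
      _ = 1 / 2 ^ j := by field_simp
  have hsub : PB j ⊆ O := by
    intro p hp
    obtain ⟨hp1, hp2, hp3⟩ := l5_mem hp
    rw [hO, Finset.mem_filter, Finset.mem_Ioc]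
    refine ⟨⟨hp1, hp2⟩, hp3.odd_of_ne_two ?_⟩
    have h2 : 2 ≤ 2 ^ j := by
      calc 2 = 2 ^ 1 := by norm_num
        _ ≤ 2 ^ j := Nat.pow_le_pow_right (by norm_num) hj
    omega
  have hsecond : ∑ p ∈ PB j, A p ^ 2 ≤ ∑ n ∈ O, A n ^ 2 :=
    Finset.sum_le_sum_of_subset_of_nonneg hsub fun _ _ _ => sq_nonneg _
  have hOcard : (O.card : ℝ) ≤ 2 ^ j := by
    have : O.card ≤ 2 ^ j := by
      rw [hO]
      refine (Finset.card_filter_le _ _).trans ?_
      rw [Nat.card_Ioc, pow_succ]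
      omega
    exact_mod_cast this
  have hthird : ∑ n ∈ O, A n ^ 2 ≤ 2 ^ j * c + 16 * (Y : ℝ) ^ 2 * c ^ 2 := by
    have h1 : ∑ n ∈ O, A n ^ 2 = ∑ g ∈ E, ∑ g' ∈ E, (σ g * σ g') *
        ∑ n ∈ O, ((jacobiSym (g : ℤ) n : ℝ) * (jacobiSym (g' : ℤ) n : ℝ)) := by
      have h2 : ∀ n, A n ^ 2 = ∑ g ∈ E, ∑ g' ∈ E, (σ g * σ g') *
          ((jacobiSym (g : ℤ) n : ℝ) * (jacobiSym (g' : ℤ) n : ℝ)) := by
        intro n
        simp only [hA]
        rw [sq, Finset.sum_mul_sum]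
        refine Finset.sum_congr rfl fun g _ => Finset.sum_congr rfl fun g' _ => ?_
        ring
      simp_rw [h2]
      rw [Finset.sum_comm]
      refine Finset.sum_congr rfl fun g _ => ?_
      rw [Finset.sum_comm]
      refine Finset.sum_congr rfl fun g' _ => ?_
      rw [Finset.mul_sum]
    rw [h1]
    have hrow : ∀ g ∈ E, ∑ g' ∈ E, (σ g * σ g') *
        ∑ n ∈ O, ((jacobiSym (g : ℤ) n : ℝ) * (jacobiSym (g' : ℤ) n : ℝ)) ≤
          2 ^ j + 16 * (Y : ℝ) ^ 2 * c := by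
      intro g hg
      obtain ⟨hg1, hg2, hg3, _⟩ := hE g hg
      rw [← Finset.add_sum_erase _ _ hg]
      have hss : ∀ g', |σ g * σ g'| ≤ 1 := by
        intro g'
        rw [abs_mul]
        have := hσ1 g
        have := hσ1 g'
        nlinarith [abs_nonneg (σ g), abs_nonneg (σ g')]
      refine add_le_add ?_ ?_
      · refine (le_abs_self _).trans ?_
        rw [abs_mul]
        have h3 : |∑ n ∈ O, ((jacobiSym (g : ℤ) n : ℝ) * (jacobiSym (g : ℤ) n : ℝ))| ≤ 2 ^ j := by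
          calc |∑ n ∈ O, ((jacobiSym (g : ℤ) n : ℝ) * (jacobiSym (g : ℤ) n : ℝ))|
              ≤ ∑ n ∈ O, |((jacobiSym (g : ℤ) n : ℝ) * (jacobiSym (g : ℤ) n : ℝ))| :=
                Finset.abs_sum_le_sum_abs _ _
            _ ≤ ∑ n ∈ O, (1 : ℝ) := by
                refine Finset.sum_le_sum fun n _ => ?_
                rw [abs_mul]
                have := l5_jac (g : ℤ) n
                nlinarith [abs_nonneg (jacobiSym (g : ℤ) n : ℝ)]
            _ = (O.card : ℝ) := by rw [Finset.sum_const, nsmul_eq_mul, mul_one]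
            _ ≤ 2 ^ j := hOcard
        calc |σ g * σ g| * |∑ n ∈ O, ((jacobiSym (g : ℤ) n : ℝ) * (jacobiSym (g : ℤ) n : ℝ))|
            ≤ 1 * 2 ^ j := mul_le_mul (hss g) h3 (abs_nonneg _) (by norm_num)
          _ = 2 ^ j := one_mul _
      · have h4 : ∀ g' ∈ E.erase g, (σ g * σ g') *
            ∑ n ∈ O, ((jacobiSym (g : ℤ) n : ℝ) * (jacobiSym (g' : ℤ) n : ℝ)) ≤
              16 * (Y : ℝ) ^ 2 := by
          intro g' hg'
          rw [Finset.mem_erase] at hg'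
          obtain ⟨hne, hgE⟩ := hg'
          obtain ⟨hg1', hg2', hg3', _⟩ := hE g' hgE
          have hns := not_square_mul hg3 hg3' (Ne.symm hne)
          have h5 := sum_jacobi_odd ((g : ℤ) * g') hns (2 ^ j) (2 ^ (j + 1))
          have h6 : ∑ n ∈ O, ((jacobiSym (g : ℤ) n : ℝ) * (jacobiSym (g' : ℤ) n : ℝ)) =
              ∑ n ∈ (Finset.Ioc (2 ^ j) (2 ^ (j + 1))).filter Odd,
                (jacobiSym ((g : ℤ) * g') n : ℝ) := by
            refine Finset.sum_congr rfl fun n _ => ?_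
            rw [jacobiSym.mul_left]
            push_cast
            ring
          have h7 : (((((g : ℤ) * g').natAbs : ℕ)) : ℝ) = (g : ℝ) * g' := by
            rw [Int.natAbs_mul, Int.natAbs_natCast, Int.natAbs_natCast]
            push_cast
            ring
          rw [h7, ← h6] at h5
          have h8 : (g : ℝ) * g' ≤ 4 * (Y : ℝ) ^ 2 := by
            have h9 : (g : ℝ) ≤ 2 * Y := by exact_mod_cast hg2
            have h10 : (g' : ℝ) ≤ 2 * Y := by exact_mod_cast hg2'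
            have h11 : (0 : ℝ) ≤ g := Nat.cast_nonneg _
            have h12 : (0 : ℝ) ≤ g' := Nat.cast_nonneg _
            nlinarith
          refine (le_abs_self _).trans ?_
          rw [abs_mul]
          calc |σ g * σ g'| * |∑ n ∈ O, ((jacobiSym (g : ℤ) n : ℝ) * (jacobiSym (g' : ℤ) n : ℝ))|
              ≤ 1 * (16 * (Y : ℝ) ^ 2) :=
                mul_le_mul (hss g') (by linarith) (abs_nonneg _) (by norm_num)
            _ = 16 * (Y : ℝ) ^ 2 := one_mul _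
        calc ∑ g' ∈ E.erase g, (σ g * σ g') *
              ∑ n ∈ O, ((jacobiSym (g : ℤ) n : ℝ) * (jacobiSym (g' : ℤ) n : ℝ))
            ≤ ∑ g' ∈ E.erase g, 16 * (Y : ℝ) ^ 2 := Finset.sum_le_sum h4
          _ = ((E.erase g).card : ℝ) * (16 * (Y : ℝ) ^ 2) := by
              rw [Finset.sum_const, nsmul_eq_mul]
          _ ≤ c * (16 * (Y : ℝ) ^ 2) := by
              have : ((E.erase g).card : ℝ) ≤ c := by
                rw [hc]; exact_mod_cast Finset.card_erase_le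
              gcongr
          _ = 16 * (Y : ℝ) ^ 2 * c := by ring
    calc _ ≤ ∑ g ∈ E, (2 ^ j + 16 * (Y : ℝ) ^ 2 * c) := Finset.sum_le_sum hrow
      _ = c * (2 ^ j + 16 * (Y : ℝ) ^ 2 * c) := by rw [Finset.sum_const, nsmul_eq_mul]
      _ = 2 ^ j * c + 16 * (Y : ℝ) ^ 2 * c ^ 2 := by ring
  -- combine
  have hA2 : 0 ≤ ∑ n ∈ O, A n ^ 2 := Finset.sum_nonneg fun _ _ => sq_nonneg _
  have hmain : (c * δ) ^ 2 ≤ (1 / 2 ^ j) * (2 ^ j * c + 16 * (Y : ℝ) ^ 2 * c ^ 2) := by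
    calc (c * δ) ^ 2 ≤ (∑ p ∈ PB j, (s p / p) * A p) ^ 2 :=
          pow_le_pow_left₀ (by positivity) hlow 2
      _ ≤ (∑ p ∈ PB j, (s p / p) ^ 2) * ∑ p ∈ PB j, A p ^ 2 := hcs
      _ ≤ (1 / 2 ^ j) * (2 ^ j * c + 16 * (Y : ℝ) ^ 2 * c ^ 2) :=
          mul_le_mul hfirst (hsecond.trans hthird) (Finset.sum_nonneg fun _ _ => sq_nonneg _)
            (by positivity)
  have hjY2 : 16 * (Y : ℝ) ^ 2 / 2 ^ j ≤ δ ^ 2 / 2 := by
    rw [div_le_iff₀ (by positivity)] at hjY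
    rw [div_le_iff₀ h2j]
    linarith
  have hmain2 : c ^ 2 * δ ^ 2 ≤ c + (δ ^ 2 / 2) * c ^ 2 := by
    have h1 : (1 / 2 ^ j) * (2 ^ j * c + 16 * (Y : ℝ) ^ 2 * c ^ 2) =
        c + (16 * (Y : ℝ) ^ 2 / 2 ^ j) * c ^ 2 := by
      field_simp
    rw [h1] at hmain
    have h2 : (16 * (Y : ℝ) ^ 2 / 2 ^ j) * c ^ 2 ≤ (δ ^ 2 / 2) * c ^ 2 := by gcongr
    calc c ^ 2 * δ ^ 2 = (c * δ) ^ 2 := by ring
      _ ≤ _ := hmain
      _ ≤ _ := by linarith
  rw [le_div_iff₀ (by positivity)]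
  rcases hc0.eq_or_lt with h | h
  · rw [← h]; norm_num
  · have h1 : c * (c * δ ^ 2) ≤ c * 2 := by nlinarith
    exact le_of_mul_le_mul_left h1 h

end TwHL
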