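import Pool.Agent.LibTwHL.L2
import Pool.Agent.LibTwHL.L5

namespace TwHL

/-- the telescoping function of `j ^ 2 / 2 ^ j` -/
noncomputable def L6_G (j : ℕ) : ℝ := (2 * (j : ℝ) ^ 2 + 4 * j + 6) / 2 ^ j

theorem L6_G_nonneg (j : ℕ) : 0 ≤ L6_G j := by
  unfold L6_G
  positivity

theorem L6_G_sub (j : ℕ) : (j : ℝ) ^ 2 / 2 ^ j = L6_G j - L6_G (j + 1) := by
  unfold L6_G
  have h : (2 : ℝ) ^ j ≠ 0 := pow_ne_zero _ (by norm_num)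
  rw [pow_succ]
  push_cast
  field_simp
  ring

theorem L6_sum (j₀ n : ℕ) :
    ∑ j ∈ Finset.Ico j₀ (j₀ + n), (j : ℝ) ^ 2 / 2 ^ j = L6_G j₀ - L6_G (j₀ + n) := by
  induction n with
  | zero => simp
  | succ n ih =>
    rw [← add_assoc, Finset.sum_Ico_succ_top (Nat.le_add_right _ _), ih, L6_G_sub (j₀ + n)]
    ring

theorem L6_sum_le (j₀ J : ℕ) (hj : 1 ≤ j₀) :
    ∑ j ∈ Finset.Icc j₀ J, (j : ℝ) ^ 2 / 2 ^ j ≤ 12 * (j₀ : ℝ) ^ 2 / 2 ^ j₀ := by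
  have h1 : Finset.Icc j₀ J ⊆ Finset.Ico j₀ (j₀ + (J + 1)) := by
    intro j hj
    rw [Finset.mem_Icc] at hj
    rw [Finset.mem_Ico]
    omega
  have h2 : ∑ j ∈ Finset.Icc j₀ J, (j : ℝ) ^ 2 / 2 ^ j ≤
      ∑ j ∈ Finset.Ico j₀ (j₀ + (J + 1)), (j : ℝ) ^ 2 / 2 ^ j :=
    Finset.sum_le_sum_of_subset_of_nonneg h1 (fun j _ _ => by positivity)
  rw [L6_sum] at h2
  have h3 := L6_G_nonneg (j₀ + (J + 1))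
  have h4 : L6_G j₀ ≤ 12 * (j₀ : ℝ) ^ 2 / 2 ^ j₀ := by
    unfold L6_G
    have hj' : (1 : ℝ) ≤ j₀ := by exact_mod_cast hj
    apply div_le_div_of_nonneg_right _ (by positivity)
    nlinarith
  linarith

theorem L6_j1 (ε : ℝ) (hε : 0 < ε) : ∃ j₁ : ℕ, 1 ≤ j₁ ∧ ∀ j : ℕ, j₁ ≤ j → ∀ Y : ℕ, Y ^ 3 ≤ 2 ^ j →
    32 * (Y : ℝ) ^ 2 / (ε / j) ^ 2 ≤ 2 ^ j := by
  have ht := tendsto_pow_const_div_const_pow_of_one_lt 6 (r := (2 : ℝ)) (by norm_num)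
  have hc : (0 : ℝ) < (ε ^ 2 / 32) ^ 3 := by positivity
  obtain ⟨N, hN⟩ := Filter.eventually_atTop.1 (ht.eventually (ge_mem_nhds hc))
  refine ⟨max N 1, le_max_right _ _, ?_⟩
  intro j hj Y hY
  have h1 := hN j (le_trans (le_max_left _ _) hj)
  have hj1 : 1 ≤ j := le_trans (le_max_right _ _) hj
  have hj0 : (0 : ℝ) < j := by exact_mod_cast hj1
  have h2 : (0 : ℝ) < 2 ^ j := by positivity
  have h3 : ((j : ℝ) ^ 6) ≤ (ε ^ 2 / 32) ^ 3 * 2 ^ j := by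
    rwa [div_le_iff₀ h2] at h1
  have hY' : ((Y : ℝ) ^ 3) ≤ 2 ^ j := by exact_mod_cast hY
  have hY0 : (0 : ℝ) ≤ Y := Nat.cast_nonneg _
  have e1 : 32 * (Y : ℝ) ^ 2 / (ε / j) ^ 2 = (32 / ε ^ 2) * ((Y : ℝ) ^ 2 * (j : ℝ) ^ 2) := by
    field_simp
  rw [e1]
  have h4 : ((32 / ε ^ 2) * ((Y : ℝ) ^ 2 * (j : ℝ) ^ 2)) ^ 3 ≤ ((2 : ℝ) ^ j) ^ 3 := by
    have e2 : ((32 / ε ^ 2) * ((Y : ℝ) ^ 2 * (j : ℝ) ^ 2)) ^ 3 =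
        (32 / ε ^ 2) ^ 3 * (((Y : ℝ) ^ 3) ^ 2 * (j : ℝ) ^ 6) := by ring
    rw [e2]
    have h5 : ((Y : ℝ) ^ 3) ^ 2 ≤ ((2 : ℝ) ^ j) ^ 2 := pow_le_pow_left₀ (by positivity) hY' 2
    have h6 : ((Y : ℝ) ^ 3) ^ 2 * (j : ℝ) ^ 6 ≤ ((2 : ℝ) ^ j) ^ 2 * ((ε ^ 2 / 32) ^ 3 * 2 ^ j) :=
      mul_le_mul h5 h3 (by positivity) (by positivity)
    have h7 : (32 / ε ^ 2) ^ 3 * (((Y : ℝ) ^ 3) ^ 2 * (j : ℝ) ^ 6) ≤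
        (32 / ε ^ 2) ^ 3 * (((2 : ℝ) ^ j) ^ 2 * ((ε ^ 2 / 32) ^ 3 * 2 ^ j)) :=
      mul_le_mul_of_nonneg_left h6 (by positivity)
    refine h7.trans (le_of_eq ?_)
    have hε' : ε ≠ 0 := hε.ne'
    field_simp
  exact le_of_pow_le_pow_left₀ (by norm_num) h2.le h4

theorem L6_block (ε : ℝ) (hε : 0 < ε) (s : ℕ → ℝ) (hs : ∀ p, |s p| ≤ 1) (j : ℕ) (hj : 1 ≤ j)
    (Y : ℕ) (hdual : Y ^ 3 ≤ 2 ^ j → 32 * (Y : ℝ) ^ 2 / (ε / j) ^ 2 ≤ 2 ^ j)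
    (hc : 16 * 2 ^ (4 * j) ≤ Y ∨ Y ^ 3 ≤ 2 ^ j) (E : Finset ℕ)
    (hE : ∀ g ∈ E, Y < g ∧ g ≤ 2 * Y ∧ Squarefree g ∧ ε / j < |SS s j g|) :
    (E.card : ℝ) ≤ (j : ℝ) ^ 2 / ε ^ 2 * ((Y : ℝ) / 2 ^ j + √(Y : ℝ) / 4 + 2) := by
  have hj0 : (0 : ℝ) < j := by exact_mod_cast hj
  have hδ : 0 < ε / j := by positivity
  have hε' : ε ≠ 0 := hε.ne'
  rcases hc with hc | hc
  · have h1 := ls_direct s hs j hj Y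
    have h2 : (E.card : ℝ) * (ε / j) ^ 2 ≤ ∑ g ∈ Finset.Ioc Y (2 * Y), (SS s j g) ^ 2 := by
      have h3 : ∑ g ∈ E, (ε / j) ^ 2 ≤ ∑ g ∈ E, (SS s j g) ^ 2 := by
        refine Finset.sum_le_sum fun g hg => ?_
        obtain ⟨-, -, -, h4⟩ := hE g hg
        rw [← sq_abs (SS s j g)]
        exact pow_le_pow_left₀ hδ.le h4.le 2
      rw [Finset.sum_const, nsmul_eq_mul] at h3
      refine h3.trans (Finset.sum_le_sum_of_subset_of_nonneg ?_ (fun _ _ _ => sq_nonneg _))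
      intro g hg
      obtain ⟨h4, h5, -, -⟩ := hE g hg
      rw [Finset.mem_Ioc]
      exact ⟨h4, h5⟩
    have h5 : (4 : ℝ) ^ j ≤ √(Y : ℝ) / 4 := by
      have h6 : ((4 : ℝ) ^ j * 4) ^ 2 ≤ (Y : ℝ) := by
        have h7 : ((16 * 2 ^ (4 * j) : ℕ) : ℝ) ≤ (Y : ℝ) := by exact_mod_cast hc
        have e1 : ((4 : ℝ) ^ j * 4) ^ 2 = ((16 * 2 ^ (4 * j) : ℕ) : ℝ) := by
          have e2 : (4 : ℝ) ^ j = 2 ^ (2 * j) := by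
            rw [pow_mul]
            norm_num
          rw [e2]
          push_cast
          rw [mul_pow, ← pow_mul]
          have e3 : 2 * j * 2 = 4 * j := by ring
          rw [e3]
          ring
        rw [e1]
        exact h7
      have h8 : (4 : ℝ) ^ j * 4 ≤ √(Y : ℝ) := Real.le_sqrt_of_sq_le h6
      linarith
    have h9 : (E.card : ℝ) * (ε / j) ^ 2 ≤ (Y : ℝ) / 2 ^ j + √(Y : ℝ) / 4 + 2 := by linarith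
    have e4 : (E.card : ℝ) = (j : ℝ) ^ 2 / ε ^ 2 * ((E.card : ℝ) * (ε / j) ^ 2) := by
      field_simp
    rw [e4]
    exact mul_le_mul_of_nonneg_left h9 (by positivity)
  · have h1 := ls_dual s hs j hj Y (ε / j) hδ (hdual hc) E hE
    have e1 : 2 / (ε / j) ^ 2 = (j : ℝ) ^ 2 / ε ^ 2 * 2 := by
      field_simp
    rw [e1] at h1
    refine h1.trans (mul_le_mul_of_nonneg_left ?_ (by positivity))
    have h2 : 0 ≤ (Y : ℝ) / 2 ^ j := by positivity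
    have h3 : 0 ≤ √(Y : ℝ) / 4 := by positivity
    linarith

/-- Row L6. Union over `j`. If `16 * 2^(4j) ≤ Y`: Markov with `ls_direct`, number
`≤ (j/ε)^2 (Y/2^j + 4^j)`, `4^j ≤ √Y / 4`, and `∑_{j ≥ j0} j^2 / 2^j ≤ C j0^2 / 2^j0`. If
`Y^3 ≤ 2^j`: `ls_dual` with `δ = ε / j` (its hypothesis `32 Y^2 j^2/ε^2 ≤ 2^j` follows from
`Y^2 ≤ 2^(2j/3)` and `32 j^2/ε^2 ≤ 2^(j/3)` for `j ≥ j1`), number `≤ 2 j^2/ε^2`. -/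
theorem exc_card (ε : ℝ) (hε : 0 < ε) (hε1 : ε ≤ 1) : ∃ C : ℝ, 0 < C ∧ ∃ j₁ : ℕ, 1 ≤ j₁ ∧
    ∀ s : ℕ → ℝ, (∀ p, |s p| ≤ 1) → ∀ j₀ J Y : ℕ, j₁ ≤ j₀ → 1 ≤ Y →
    ((Exc s ε j₀ J Y).card : ℝ)
      ≤ C * ((Y : ℝ) * (j₀ : ℝ) ^ 2 / 2 ^ j₀ + √(Y : ℝ) * (J : ℝ) ^ 3 + (J : ℝ) ^ 3) := by
  classical
  obtain ⟨j₁, hj₁, hdual⟩ := L6_j1 ε hε
  refine ⟨12 / ε ^ 2, by positivity, j₁, hj₁, ?_⟩
  intro s hs j₀ J Y hj₀ hY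
  have hj₀1 : 1 ≤ j₀ := hj₁.trans hj₀
  set E : ℕ → Finset ℕ := fun j => (Finset.Ioc Y (2 * Y)).filter (fun g => Squarefree g ∧
    (16 * 2 ^ (4 * j) ≤ Y ∨ Y ^ 3 ≤ 2 ^ j) ∧ ε / j < |SS s j g|) with hE
  have hsub : Exc s ε j₀ J Y ⊆ (Finset.Icc j₀ J).biUnion E := by
    intro g hg
    unfold Exc at hg
    rw [Finset.mem_filter] at hg
    obtain ⟨h1, h2, j, hj, h3, h4⟩ := hg
    rw [Finset.mem_biUnion]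
    refine ⟨j, hj, ?_⟩
    rw [hE, Finset.mem_filter]
    exact ⟨h1, h2, h3, h4⟩
  have hblock : ∀ j ∈ Finset.Icc j₀ J, ((E j).card : ℝ) ≤
      (j : ℝ) ^ 2 / ε ^ 2 * ((Y : ℝ) / 2 ^ j + √(Y : ℝ) / 4 + 2) := by
    intro j hj
    rw [Finset.mem_Icc] at hj
    have hj1 : 1 ≤ j := hj₀1.trans hj.1
    by_cases hc : 16 * 2 ^ (4 * j) ≤ Y ∨ Y ^ 3 ≤ 2 ^ j
    · refine L6_block ε hε s hs j hj1 Y (hdual j (hj₀.trans hj.1) Y) hc (E j) ?_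
      intro g hg
      rw [hE, Finset.mem_filter, Finset.mem_Ioc] at hg
      exact ⟨hg.1.1, hg.1.2, hg.2.1, hg.2.2.2⟩
    · have h0 : E j = ∅ := by
        rw [hE, Finset.filter_eq_empty_iff]
        rintro g - ⟨-, h, -⟩
        exact hc h
      rw [h0, Finset.card_empty, Nat.cast_zero]
      positivity
  have h1 : ((Exc s ε j₀ J Y).card : ℝ) ≤ ∑ j ∈ Finset.Icc j₀ J, ((E j).card : ℝ) := by
    have h2 : (Exc s ε j₀ J Y).card ≤ ∑ j ∈ Finset.Icc j₀ J, (E j).card :=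
      (Finset.card_le_card hsub).trans Finset.card_biUnion_le
    exact_mod_cast h2
  have h3 : ∑ j ∈ Finset.Icc j₀ J, ((E j).card : ℝ) ≤ ∑ j ∈ Finset.Icc j₀ J,
      ((Y : ℝ) / ε ^ 2 * ((j : ℝ) ^ 2 / 2 ^ j) + (√(Y : ℝ) / 4 + 2) / ε ^ 2 * (J : ℝ) ^ 2) := by
    refine Finset.sum_le_sum fun j hj => (hblock j hj).trans ?_
    rw [Finset.mem_Icc] at hj
    have h4 : (j : ℝ) ^ 2 ≤ (J : ℝ) ^ 2 := by
      have : (j : ℝ) ≤ J := by exact_mod_cast hj.2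
      exact pow_le_pow_left₀ (Nat.cast_nonneg _) this 2
    have h5 : 0 ≤ (√(Y : ℝ) / 4 + 2) / ε ^ 2 := by positivity
    have e1 : (j : ℝ) ^ 2 / ε ^ 2 * ((Y : ℝ) / 2 ^ j + √(Y : ℝ) / 4 + 2) =
        (Y : ℝ) / ε ^ 2 * ((j : ℝ) ^ 2 / 2 ^ j) + (√(Y : ℝ) / 4 + 2) / ε ^ 2 * (j : ℝ) ^ 2 := by
      ring
    rw [e1]
    have h6 := mul_le_mul_of_nonneg_left h4 h5
    linarith
  rw [Finset.sum_add_distrib, ← Finset.mul_sum, Finset.sum_const, nsmul_eq_mul] at h3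
  have h7 := L6_sum_le j₀ J hj₀1
  have hcard : ((Finset.Icc j₀ J).card : ℝ) ≤ J := by
    rw [Nat.card_Icc]
    have : J + 1 - j₀ ≤ J := by omega
    exact_mod_cast this
  have h8 : (Y : ℝ) / ε ^ 2 * ∑ j ∈ Finset.Icc j₀ J, (j : ℝ) ^ 2 / 2 ^ j ≤
      (Y : ℝ) / ε ^ 2 * (12 * (j₀ : ℝ) ^ 2 / 2 ^ j₀) := mul_le_mul_of_nonneg_left h7 (by positivity)
  have h9 : ((Finset.Icc j₀ J).card : ℝ) * ((√(Y : ℝ) / 4 + 2) / ε ^ 2 * (J : ℝ) ^ 2) ≤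
      J * ((√(Y : ℝ) / 4 + 2) / ε ^ 2 * (J : ℝ) ^ 2) :=
    mul_le_mul_of_nonneg_right hcard (by positivity)
  have h10 : (J : ℝ) * ((√(Y : ℝ) / 4 + 2) / ε ^ 2 * (J : ℝ) ^ 2) ≤
      12 / ε ^ 2 * (√(Y : ℝ) * (J : ℝ) ^ 3 + (J : ℝ) ^ 3) := by
    have e2 : (J : ℝ) * ((√(Y : ℝ) / 4 + 2) / ε ^ 2 * (J : ℝ) ^ 2) =
        1 / ε ^ 2 * ((√(Y : ℝ) / 4 + 2) * (J : ℝ) ^ 3) := by ring
    have e3 : 12 / ε ^ 2 * (√(Y : ℝ) * (J : ℝ) ^ 3 + (J : ℝ) ^ 3) =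
        1 / ε ^ 2 * ((12 * √(Y : ℝ) + 12) * (J : ℝ) ^ 3) := by ring
    rw [e2, e3]
    apply mul_le_mul_of_nonneg_left _ (by positivity)
    apply mul_le_mul_of_nonneg_right _ (by positivity)
    have := Real.sqrt_nonneg (Y : ℝ)
    linarith
  have e4 : (Y : ℝ) / ε ^ 2 * (12 * (j₀ : ℝ) ^ 2 / 2 ^ j₀) =
      12 / ε ^ 2 * ((Y : ℝ) * (j₀ : ℝ) ^ 2 / 2 ^ j₀) := by ring
  rw [e4] at h8
  have e5 : 12 / ε ^ 2 * ((Y : ℝ) * (j₀ : ℝ) ^ 2 / 2 ^ j₀ + √(Y : ℝ) * (J : ℝ) ^ 3 + (J : ℝ) ^ 3) =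
      12 / ε ^ 2 * ((Y : ℝ) * (j₀ : ℝ) ^ 2 / 2 ^ j₀) +
        12 / ε ^ 2 * (√(Y : ℝ) * (J : ℝ) ^ 3 + (J : ℝ) ^ 3) := by ring
  rw [e5]
  linarith

end TwHL
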