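import Pool.Agent.LibTwHL.K7a
import Pool.Agent.LibTwHL.L6

namespace TwHL

private lemma k7b_jac (a : ℤ) (p : ℕ) : |((jacobiSym a p : ℤ) : ℝ)| ≤ 1 := by
  rcases jacobiSym.trichotomy a p with h | h | h <;> rw [h] <;> norm_num

private lemma k7b_LL (B : ℝ) : ∃ N₀ : ℕ, ∀ N : ℕ, N₀ ≤ N → B ≤ LL N := by
  have h1 : Filter.Tendsto (fun N : ℕ => LL N) Filter.atTop Filter.atTop := by
    unfold LL
    exact Real.tendsto_log_atTop.comp (Filter.tendsto_atTop_add_const_left _ _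
      (Real.tendsto_log_atTop.comp tendsto_natCast_atTop_atTop))
  exact Filter.eventually_atTop.1 (h1.eventually_ge_atTop B)

/-- the numbers in one dyadic interval -/
private lemma k7b_class {C L j J : ℝ} {i : ℕ} {F : Finset ℕ} (hC : 0 < C) (hL : 1 ≤ L)
    (hj : 0 ≤ j) (hJ : 0 ≤ J)
    (hF : ∀ g ∈ F, L ^ 10 < (g : ℝ) ∧ 2 ^ i < g ∧ g ≤ 2 * 2 ^ i)
    (hcard : (F.card : ℝ) ≤ 2 * (C * (((2 ^ i : ℕ) : ℝ) * j + √(((2 ^ i : ℕ) : ℝ)) * J + J))) :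
    ∑ g ∈ F, 1 / (g : ℝ) ≤ 2 * C * (j + 4 * J / L ^ 5) := by
  have hL5 : 0 < L ^ 5 := by positivity
  rcases F.eq_empty_or_nonempty with h0 | ⟨g0, hg0⟩
  · rw [h0, Finset.sum_empty]
    positivity
  · obtain ⟨y, hy⟩ : ∃ y : ℝ, y = ((2 ^ i : ℕ) : ℝ) := ⟨_, rfl⟩
    rw [← hy] at hcard
    have hy1 : 1 ≤ y := by
      rw [hy]
      exact_mod_cast Nat.one_le_two_pow
    obtain ⟨h1, -, h3⟩ := hF g0 hg0
    have hyg : L ^ 10 < 2 * y := by
      have h4 : (g0 : ℝ) ≤ 2 * y := by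
        rw [hy]
        exact_mod_cast h3
      linarith
    obtain ⟨q, hq⟩ : ∃ q : ℝ, q = √y := ⟨_, rfl⟩
    rw [← hq] at hcard
    have hqq : q * q = y := by
      rw [hq]
      exact Real.mul_self_sqrt (by linarith)
    have hq1 : 1 ≤ q := by
      rw [hq]
      exact Real.one_le_sqrt.2 hy1
    have hqL : L ^ 5 / 2 ≤ q := by
      rw [hq]
      refine Real.le_sqrt_of_sq_le ?_
      have e : (L ^ 5 / 2) ^ 2 = L ^ 10 / 4 := by ring
      rw [e]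
      have : 0 < L ^ 10 := by positivity
      linarith
    have h5 : ∑ g ∈ F, 1 / (g : ℝ) ≤ F.card * (1 / y) := by
      rw [← nsmul_eq_mul]
      refine Finset.sum_le_card_nsmul _ _ _ fun g hg => ?_
      refine one_div_le_one_div_of_le (by linarith) ?_
      have h6 := (hF g hg).2.1.le
      rw [hy]
      exact_mod_cast h6
    refine h5.trans ?_
    have h6 : (F.card : ℝ) * (1 / y) ≤ 2 * (C * (y * j + q * J + J)) * (1 / y) :=
      mul_le_mul_of_nonneg_right hcard (by positivity)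
    refine h6.trans ?_
    have hq0 : 0 < q := by linarith
    have h7 : 2 * (C * (y * j + q * J + J)) * (1 / y) =
        2 * C * (j + (J / q + J / (q * q))) := by
      rw [← hqq]
      field_simp
      ring
    rw [h7]
    refine mul_le_mul_of_nonneg_left ?_ (by linarith)
    have h8 : J / q ≤ 2 * J / L ^ 5 := by
      rw [div_le_div_iff₀ hq0 hL5]
      nlinarith
    have h9 : J / (q * q) ≤ J / q := by
      refine div_le_div_of_nonneg_left hJ hq0 ?_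
      nlinarith
    have e2 : 4 * J / L ^ 5 = 2 * J / L ^ 5 + 2 * J / L ^ 5 := by ring
    linarith

/-- Row K7b. Sum over dyadic `Y = 2^i`, `(log N)^10 ≤ 2^(i+1)`, `2^i ≤ N`, of `exc_card`:
`∑_{g not good} 1/g ≤ ∑_Y |Exc(Y)|/Y ≤ C ∑_i (j₀^2 2^(-j₀) + J^3 2^(-i/2) + J^3 2^(-i))
≤ C (J j₀^2 2^(-j₀) + J^3 (log N)^(-5))`, `2^(-20 LL N) = (1 + log N)^(-13.8)`. -/
theorem sum_not_good (Δ κ : ℤ) : ∃ C : ℝ, 0 < C ∧ ∃ N₀ : ℕ, ∀ N : ℕ, N₀ ≤ N → ∀ E : Finset ℕ,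
    (∀ g ∈ E, (Real.log N) ^ 10 < (g : ℝ) ∧ g ≤ N ∧ Squarefree g ∧ ¬ Good Δ κ N g) →
    ∑ g ∈ E, 1 / (g : ℝ) ≤ C * Real.exp (- LL N) := by
  obtain ⟨C, hC, j₁, hj₁, hexc⟩ := exc_card (1 / 4000) (by norm_num) (by norm_num)
  obtain ⟨N₁, hN₁⟩ := not_good Δ κ
  obtain ⟨N₂, hN₂⟩ := k7b_LL (j₁ : ℝ)
  refine ⟨5696 * C, by positivity, max (max N₁ N₂) 3, fun N hN E hE => ?_⟩
  have hNa : N₁ ≤ N := le_trans (le_trans (le_max_left _ _) (le_max_left _ _)) hN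
  have hNb : N₂ ≤ N := le_trans (le_trans (le_max_right _ _) (le_max_left _ _)) hN
  have hN3 : 3 ≤ N := le_trans (le_max_right _ _) hN
  have hN3' : (3 : ℝ) ≤ N := by exact_mod_cast hN3
  obtain ⟨L, hL⟩ : ∃ L : ℝ, L = Real.log N := ⟨_, rfl⟩
  have hL1 : 1 ≤ L := by
    rw [hL, Real.le_log_iff_exp_le (by linarith)]
    linarith [Real.exp_one_lt_d9]
  have hLL : LL N = Real.log (1 + L) := by
    rw [hL]
    rfl
  have hLL0 : 0 ≤ LL N := by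
    rw [hLL]
    exact Real.log_nonneg (by linarith)
  have hLLL : LL N ≤ L := by
    rw [hLL]
    have := Real.log_le_sub_one_of_pos (show (0 : ℝ) < 1 + L by linarith)
    linarith
  obtain ⟨j₀, hj₀⟩ : ∃ j₀ : ℕ, j₀ = ⌈20 * LL N⌉₊ := ⟨_, rfl⟩
  obtain ⟨J, hJ⟩ : ∃ J : ℕ, J = Nat.log 2 N + 1 := ⟨_, rfl⟩
  have hj1 : 20 * LL N ≤ j₀ := by
    rw [hj₀]
    exact Nat.le_ceil _
  have hj2 : (j₀ : ℝ) ≤ 20 * (1 + L) := by
    rw [hj₀]
    have := Nat.ceil_lt_add_one (a := 20 * LL N) (by linarith)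
    linarith
  have hjj : j₁ ≤ j₀ := by
    have h1 := hN₂ N hNb
    have h2 : (j₁ : ℝ) ≤ j₀ := by linarith
    exact_mod_cast h2
  have hlog2 : 1 / 2 ≤ Real.log 2 := by linarith [Real.log_two_gt_d9]
  have hJ2 : (J : ℝ) ≤ 2 * (1 + L) := by
    have h1 : (2 : ℝ) ^ Nat.log 2 N ≤ N := by
      exact_mod_cast Nat.pow_log_le_self 2 (by omega : N ≠ 0)
    have h2 := Real.log_le_log (by positivity) h1
    rw [Real.log_pow, ← hL] at h2
    have h3 : (Nat.log 2 N : ℝ) * (1 / 2) ≤ (Nat.log 2 N : ℝ) * Real.log 2 :=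
      mul_le_mul_of_nonneg_left hlog2 (Nat.cast_nonneg _)
    rw [hJ]
    push_cast
    linarith
  have h2j : (1 + L) ^ 4 ≤ (2 : ℝ) ^ j₀ := by
    rw [← Real.log_le_log_iff (by positivity) (by positivity), Real.log_pow, Real.log_pow, ← hLL]
    have h3 : (j₀ : ℝ) * (1 / 2) ≤ (j₀ : ℝ) * Real.log 2 :=
      mul_le_mul_of_nonneg_left hlog2 (Nat.cast_nonneg _)
    push_cast
    linarith
  have hpow : ∀ g ∈ E, 2 ^ Nat.log 2 (g - 1) < g ∧ g ≤ 2 * 2 ^ Nat.log 2 (g - 1) := by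
    intro g hg
    obtain ⟨h1, -, -, -⟩ := hE g hg
    rw [← hL] at h1
    have h2 : (1 : ℝ) < g := lt_of_le_of_lt (one_le_pow₀ hL1) h1
    have h3 : 1 < g := by exact_mod_cast h2
    have h4 := Nat.pow_log_le_self 2 (by omega : g - 1 ≠ 0)
    have h5 := Nat.lt_pow_succ_log_self (b := 2) (by norm_num) (g - 1)
    rw [pow_succ] at h5
    constructor
    · omega
    · omega
  have hbound : ∀ i ∈ Finset.range J, ∑ g ∈ E.filter (fun g => Nat.log 2 (g - 1) = i),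
      1 / (g : ℝ) ≤ 2 * C * ((j₀ : ℝ) ^ 2 / 2 ^ j₀ + 4 * (J : ℝ) ^ 3 / L ^ 5) := by
    intro i _
    refine k7b_class hC hL1 (by positivity) (by positivity) (i := i) ?_ ?_
    · intro g hg
      obtain ⟨hgE, hgi⟩ := Finset.mem_filter.1 hg
      have h1 := hpow g hgE
      rw [hgi] at h1
      refine ⟨?_, h1⟩
      rw [hL]
      exact (hE g hgE).1
    · have hsub : E.filter (fun g => Nat.log 2 (g - 1) = i) ⊆
          Exc (fun p => (jacobiSym κ p : ℝ)) (1 / 4000) j₀ J (2 ^ i) ∪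
          Exc (fun p => (jacobiSym (κ * Δ) p : ℝ)) (1 / 4000) j₀ J (2 ^ i) := by
        intro g hg
        obtain ⟨hgE, hgi⟩ := Finset.mem_filter.1 hg
        have h1 := hpow g hgE
        rw [hgi] at h1
        have h2 := hN₁ N hNa (2 ^ i) g Nat.one_le_two_pow h1.1 h1.2 (hE g hgE).2.2.1
          (hE g hgE).2.2.2
        rw [← hj₀, ← hJ] at h2
        exact Finset.mem_union.2 h2
      have h1 := (Finset.card_le_card hsub).trans (Finset.card_union_le _ _)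
      have h2 : ((E.filter (fun g => Nat.log 2 (g - 1) = i)).card : ℝ) ≤
          ((Exc (fun p => (jacobiSym κ p : ℝ)) (1 / 4000) j₀ J (2 ^ i)).card : ℝ) +
          ((Exc (fun p => (jacobiSym (κ * Δ) p : ℝ)) (1 / 4000) j₀ J (2 ^ i)).card : ℝ) := by
        exact_mod_cast h1
      have h3 := hexc (fun p => (jacobiSym κ p : ℝ)) (fun p => k7b_jac κ p) j₀ J (2 ^ i) hjj
        Nat.one_le_two_pow
      have h4 := hexc (fun p => (jacobiSym (κ * Δ) p : ℝ)) (fun p => k7b_jac (κ * Δ) p) j₀ J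
        (2 ^ i) hjj Nat.one_le_two_pow
      have e : ((2 ^ i : ℕ) : ℝ) * ((j₀ : ℝ) ^ 2 / 2 ^ j₀) =
          ((2 ^ i : ℕ) : ℝ) * (j₀ : ℝ) ^ 2 / 2 ^ j₀ := by ring
      rw [e]
      linarith
  have hmaps : ∀ g ∈ E, Nat.log 2 (g - 1) ∈ Finset.range J := by
    intro g hg
    rw [Finset.mem_range, hJ]
    have h1 : Nat.log 2 (g - 1) ≤ Nat.log 2 N :=
      Nat.log_mono_right (le_trans (Nat.sub_le _ _) (hE g hg).2.1)
    omega
  rw [← Finset.sum_fiberwise_of_maps_to hmaps]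
  refine (Finset.sum_le_sum hbound).trans ?_
  rw [Finset.sum_const, Finset.card_range, nsmul_eq_mul]
  have hexp : Real.exp (-LL N) = 1 / (1 + L) := by
    rw [Real.exp_neg, hLL, Real.exp_log (by linarith), one_div]
  rw [hexp]
  obtain ⟨M, hM⟩ : ∃ M : ℝ, M = 1 + L := ⟨_, rfl⟩
  rw [← hM] at hj2 hJ2 h2j ⊢
  have hM0 : 0 < M := by rw [hM]; linarith
  have hLM : M / 2 ≤ L := by rw [hM]; linarith
  have hJ0 : (0 : ℝ) ≤ J := Nat.cast_nonneg _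
  have hj00 : (0 : ℝ) ≤ j₀ := Nat.cast_nonneg _
  have t1 : (J : ℝ) * ((j₀ : ℝ) ^ 2 / 2 ^ j₀) ≤ 800 / M := by
    have h1 : (j₀ : ℝ) ^ 2 ≤ (20 * M) ^ 2 := pow_le_pow_left₀ hj00 hj2 2
    have h2 : (J : ℝ) * (j₀ : ℝ) ^ 2 ≤ (2 * M) * (20 * M) ^ 2 :=
      mul_le_mul hJ2 h1 (by positivity) (by positivity)
    have h3 : (J : ℝ) * ((j₀ : ℝ) ^ 2 / 2 ^ j₀) = (J : ℝ) * (j₀ : ℝ) ^ 2 / 2 ^ j₀ := by ring
    rw [h3]
    calc (J : ℝ) * (j₀ : ℝ) ^ 2 / 2 ^ j₀ ≤ (2 * M) * (20 * M) ^ 2 / M ^ 4 :=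
          div_le_div₀ (by positivity) h2 (by positivity) h2j
      _ = 800 / M := by field_simp; norm_num
  have t2 : (J : ℝ) * (4 * (J : ℝ) ^ 3 / L ^ 5) ≤ 2048 / M := by
    have h1 : (J : ℝ) ^ 4 ≤ (2 * M) ^ 4 := pow_le_pow_left₀ hJ0 hJ2 4
    have h2 : (M / 2) ^ 5 ≤ L ^ 5 := pow_le_pow_left₀ (by positivity) hLM 5
    have h3 : (J : ℝ) * (4 * (J : ℝ) ^ 3 / L ^ 5) = 4 * (J : ℝ) ^ 4 / L ^ 5 := by ring
    rw [h3]
    calc 4 * (J : ℝ) ^ 4 / L ^ 5 ≤ 4 * (2 * M) ^ 4 / (M / 2) ^ 5 :=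
          div_le_div₀ (by positivity) (by linarith) (by positivity) h2
      _ = 2048 / M := by field_simp; norm_num
  have e3 : (J : ℝ) * (2 * C * ((j₀ : ℝ) ^ 2 / 2 ^ j₀ + 4 * (J : ℝ) ^ 3 / L ^ 5)) =
      2 * C * ((J : ℝ) * ((j₀ : ℝ) ^ 2 / 2 ^ j₀) + (J : ℝ) * (4 * (J : ℝ) ^ 3 / L ^ 5)) := by
    ring
  rw [e3]
  have e4 : 5696 * C * (1 / M) = 2 * C * (800 / M + 2048 / M) := by ring
  rw [e4]
  exact mul_le_mul_of_nonneg_left (add_le_add t1 t2) (by linarith)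

end TwHL
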