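import Pool.Agent.LibTwHL.Defs
import Pool.Agent.LibMaier.Mertens2

namespace TwHL

open Filter Topology

private theorem m1_LL {x : ℕ} (hx : 3 ≤ x) :
    0 ≤ LL x - Real.log (Real.log x) ∧ LL x - Real.log (Real.log x) ≤ Real.log 2 := by
  have hx3 : (3 : ℝ) ≤ x := by exact_mod_cast hx
  have h1 : 1 ≤ Real.log x := by
    rw [Real.le_log_iff_exp_le (by linarith)]
    linarith [Real.exp_one_lt_d9]
  have h0 : 0 < Real.log x := by linarith
  unfold LL
  constructor
  · have := Real.log_le_log h0 (show Real.log x ≤ 1 + Real.log x by linarith)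
    linarith
  · rw [← Real.log_div (by linarith) h0.ne']
    apply Real.log_le_log (div_pos (by linarith) h0)
    rw [div_le_iff₀ h0]
    linarith

private theorem m1_small {x : ℕ} (hx : 1 ≤ x) : |∑ p ∈ PP x, 1 / (p : ℝ) - LL x| ≤ 2 * x := by
  have hx1 : (1 : ℝ) ≤ x := by exact_mod_cast hx
  have h1 : ∑ p ∈ PP x, 1 / (p : ℝ) ≤ x := by
    calc ∑ p ∈ PP x, 1 / (p : ℝ) ≤ ∑ p ∈ PP x, (1 : ℝ) := by
          refine Finset.sum_le_sum fun p hp => ?_
          have hp1 : (1 : ℝ) ≤ p := by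
            have := (Finset.mem_Icc.1 (Finset.mem_filter.1 hp).1).1
            exact_mod_cast this
          rw [div_le_one (by linarith)]
          exact hp1
      _ = ((PP x).card : ℝ) := by simp
      _ ≤ x := by
          have : (PP x).card ≤ x := by
            calc (PP x).card ≤ (Finset.Icc 1 x).card := Finset.card_filter_le _ _
              _ = x := by simp
          exact_mod_cast this
  have h2 : 0 ≤ ∑ p ∈ PP x, 1 / (p : ℝ) := Finset.sum_nonneg fun p _ => by positivity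
  have h3 : 0 ≤ Real.log x := Real.log_nonneg hx1
  have h4 : 0 ≤ LL x := Real.log_nonneg (by linarith)
  have h5 : LL x ≤ x := by
    have h6 : LL x ≤ (1 + Real.log x) - 1 := Real.log_le_sub_one_of_pos (by linarith)
    have h7 : Real.log x ≤ x - 1 := Real.log_le_sub_one_of_pos (by linarith)
    linarith
  rw [abs_le]
  constructor <;> linarith

theorem mertens : ∃ C : ℝ, 0 < C ∧ ∀ x : ℕ, 1 ≤ x →
    |∑ p ∈ PP x, 1 / (p : ℝ) - LL x| ≤ C := by
  obtain ⟨M, hM⟩ := Pool.Agent.LibMaier.mertens_second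
  obtain ⟨t0, ht0⟩ := (Metric.tendsto_atTop.1 hM) 1 one_pos
  have hl2 : 0 < Real.log 2 := Real.log_pos (by norm_num)
  refine ⟨|M| + 1 + Real.log 2 + 2 * (⌈|t0|⌉₊ + 3), by positivity, fun x hx => ?_⟩
  by_cases hbig : ⌈|t0|⌉₊ + 3 ≤ x
  · have hx3 : 3 ≤ x := by omega
    have ht : t0 ≤ (x : ℝ) := by
      have h1 : |t0| ≤ (⌈|t0|⌉₊ : ℝ) := Nat.le_ceil _
      have h2 : ((⌈|t0|⌉₊ : ℕ) : ℝ) + 3 ≤ x := by exact_mod_cast hbig
      linarith [le_abs_self t0]
    have h1 := ht0 (x : ℝ) ht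
    rw [Real.dist_eq] at h1
    have h2 : Pool.Agent.LibMaier.DR (x : ℝ) =
        ∑ p ∈ PP x, 1 / (p : ℝ) - Real.log (Real.log x) := by
      unfold Pool.Agent.LibMaier.DR Pool.Agent.LibMaier.RN
      rw [Nat.floor_natCast]
      have h0 : Pool.Agent.LibMaier.PN x = PP x := by
        ext p
        unfold Pool.Agent.LibMaier.PN PP
        rw [Finset.mem_filter, Finset.mem_filter, Finset.mem_Icc, Finset.mem_Icc]
        constructor
        · rintro ⟨h3, h4⟩
          exact ⟨⟨h4.one_le, h3.2⟩, h4⟩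
        · rintro ⟨h3, h4⟩
          exact ⟨⟨Nat.zero_le _, h3.2⟩, h4⟩
      rw [h0]
    rw [h2] at h1
    obtain ⟨h3, h4⟩ := m1_LL hx3
    have h5 := abs_lt.1 h1
    have h6 := le_abs_self M
    have h7 := neg_abs_le M
    have h8 : (0 : ℝ) ≤ 2 * ((⌈|t0|⌉₊ : ℕ) + 3) := by positivity
    rw [abs_le]
    constructor <;> linarith [h5.1, h5.2]
  · have h1 := m1_small hx
    have h2 : (x : ℝ) ≤ ((⌈|t0|⌉₊ : ℕ) : ℝ) + 3 := by
      have : x ≤ ⌈|t0|⌉₊ + 3 := by omega
      exact_mod_cast this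
    have h3 := abs_nonneg M
    linarith

end TwHL
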