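import Pool.Agent.LibTwHL.M1

namespace TwHL

/-- Row S2a. Sum of `1/p` over the prime divisors of `g`: those `≤ 1 + log g` by `mertens`, the others
are at most `log g / log 2` many, each `≤ 1/(log g)`. -/
theorem sum_dvd : ∃ C : ℝ, 0 < C ∧ ∀ g : ℕ, 1 ≤ g →
    ∑ p ∈ g.primeFactors, 1 / (p : ℝ) ≤ Real.log (1 + LL g) + C := by
  obtain ⟨C, hC, hM⟩ := mertens
  refine ⟨C + 2, by linarith, ?_⟩
  intro g hg
  have hlg : 0 ≤ Real.log (g : ℝ) := Real.log_nonneg (by exact_mod_cast hg)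
  have hb : (0 : ℝ) ≤ 1 + Real.log g := by linarith
  have hx1 : 1 ≤ ⌊1 + Real.log (g : ℝ)⌋₊ := by
    rw [Nat.one_le_floor_iff]
    linarith
  have hxle : ((⌊1 + Real.log (g : ℝ)⌋₊ : ℕ) : ℝ) ≤ 1 + Real.log g := Nat.floor_le hb
  have hLLg : 0 ≤ LL g := by
    unfold LL
    exact Real.log_nonneg (by linarith)
  have hx := hM ⌊1 + Real.log (g : ℝ)⌋₊ hx1
  have hx' := (abs_le.mp hx).2
  have hLLx : LL ⌊1 + Real.log (g : ℝ)⌋₊ ≤ Real.log (1 + LL g) := by
    unfold LL
    have h1 : (1 : ℝ) ≤ ((⌊1 + Real.log (g : ℝ)⌋₊ : ℕ) : ℝ) := by exact_mod_cast hx1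
    have h2 : Real.log ((⌊1 + Real.log (g : ℝ)⌋₊ : ℕ) : ℝ) ≤ Real.log (1 + Real.log g) :=
      Real.log_le_log (by linarith) hxle
    have h3 : 0 ≤ Real.log ((⌊1 + Real.log (g : ℝ)⌋₊ : ℕ) : ℝ) := Real.log_nonneg h1
    exact Real.log_le_log (by linarith) (by linarith)
  have hsplit : ∑ p ∈ g.primeFactors, 1 / (p : ℝ)
      = ∑ p ∈ g.primeFactors.filter (fun p => p ≤ ⌊1 + Real.log (g : ℝ)⌋₊), 1 / (p : ℝ)
        + ∑ p ∈ g.primeFactors.filter (fun p => ¬ p ≤ ⌊1 + Real.log (g : ℝ)⌋₊), 1 / (p : ℝ) :=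
    (Finset.sum_filter_add_sum_filter_not _ _ _).symm
  have hA : ∑ p ∈ g.primeFactors.filter (fun p => p ≤ ⌊1 + Real.log (g : ℝ)⌋₊), 1 / (p : ℝ)
      ≤ ∑ p ∈ PP ⌊1 + Real.log (g : ℝ)⌋₊, 1 / (p : ℝ) := by
    apply Finset.sum_le_sum_of_subset_of_nonneg
    · intro p hp
      rw [Finset.mem_filter, Nat.mem_primeFactors] at hp
      unfold PP
      rw [Finset.mem_filter, Finset.mem_Icc]
      exact ⟨⟨hp.1.1.one_le, hp.2⟩, hp.1.1⟩
    · intro p _ _
      positivity
  have hcard : (g.primeFactors.card : ℝ) * Real.log 2 ≤ Real.log g := by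
    have h1 : 2 ^ g.primeFactors.card ≤ g := by
      calc 2 ^ g.primeFactors.card = ∏ _p ∈ g.primeFactors, 2 := by
            rw [Finset.prod_const]
        _ ≤ ∏ p ∈ g.primeFactors, p := by
            apply Finset.prod_le_prod'
            intro p hp
            exact (Nat.prime_of_mem_primeFactors hp).two_le
        _ ≤ g := Nat.le_of_dvd (by omega) (Nat.prod_primeFactors_dvd g)
    have h2 : ((2 : ℝ)) ^ g.primeFactors.card ≤ g := by exact_mod_cast h1
    have h3 := Real.log_le_log (by positivity) h2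
    rw [Real.log_pow] at h3
    exact h3
  have hB : ∑ p ∈ g.primeFactors.filter (fun p => ¬ p ≤ ⌊1 + Real.log (g : ℝ)⌋₊), 1 / (p : ℝ)
      ≤ 2 := by
    have h1 : ∀ p ∈ g.primeFactors.filter (fun p => ¬ p ≤ ⌊1 + Real.log (g : ℝ)⌋₊),
        1 / (p : ℝ) ≤ 1 / (1 + Real.log g) := by
      intro p hp
      rw [Finset.mem_filter] at hp
      have h2 : 1 + Real.log (g : ℝ) < p := by
        have := hp.2
        rw [not_le] at this
        exact (Nat.floor_lt hb).mp this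
      exact one_div_le_one_div_of_le (by linarith) h2.le
    have h2 := Finset.sum_le_sum h1
    rw [Finset.sum_const, nsmul_eq_mul] at h2
    have h3 : ((g.primeFactors.filter (fun p => ¬ p ≤ ⌊1 + Real.log (g : ℝ)⌋₊)).card : ℝ)
        ≤ (g.primeFactors.card : ℝ) := by
      exact_mod_cast Finset.card_filter_le _ _
    have h4 : (g.primeFactors.card : ℝ) ≤ 2 * (1 + Real.log g) := by
      have hl2 : (1 : ℝ) / 2 < Real.log 2 := by
        have := Real.log_two_gt_d9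
        linarith
      have h5 : (g.primeFactors.card : ℝ) * (1 / 2) ≤ (g.primeFactors.card : ℝ) * Real.log 2 :=
        mul_le_mul_of_nonneg_left hl2.le (by positivity)
      linarith
    have h6 : (0 : ℝ) < 1 + Real.log g := by linarith
    calc ∑ p ∈ g.primeFactors.filter (fun p => ¬ p ≤ ⌊1 + Real.log (g : ℝ)⌋₊), 1 / (p : ℝ)
        ≤ ((g.primeFactors.filter (fun p => ¬ p ≤ ⌊1 + Real.log (g : ℝ)⌋₊)).card : ℝ)
          * (1 / (1 + Real.log g)) := h2
      _ ≤ (2 * (1 + Real.log g)) * (1 / (1 + Real.log g)) := by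
          apply mul_le_mul_of_nonneg_right (le_trans h3 h4)
          positivity
      _ = 2 := by
          field_simp
  linarith

end TwHL
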