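import Pool.Agent.LibTwHL.Defs

namespace TwHL

/-- The prime sums up to `x + 1`. -/
private theorem m2d_succ (f : ℕ → ℝ) (x : ℕ) :
    ∑ p ∈ PP (x + 1), f p = ∑ p ∈ PP x, f p + if (x + 1).Prime then f (x + 1) else 0 := by
  unfold PP
  rw [Finset.sum_filter, Finset.sum_filter, Finset.sum_Icc_succ_top (by omega)]

private theorem m2d_one (f : ℕ → ℝ) : ∑ p ∈ PP 1, f p = 0 := by
  unfold PP
  rw [Finset.sum_filter]
  simp [Nat.not_prime_one]

/-- Abel summation. -/
private theorem m2d_abel (c : ℕ → ℝ) (x : ℕ) (hx : 1 ≤ x) :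
    ∑ p ∈ PP x, c p / p = (∑ p ∈ PP x, c p * (Real.log p / p)) / Real.log (x + 1) +
      ∑ n ∈ Finset.Icc 2 x, (∑ p ∈ PP n, c p * (Real.log p / p)) *
        (1 / Real.log n - 1 / Real.log (n + 1)) := by
  induction x, hx using Nat.le_induction with
  | base => rw [m2d_one, m2d_one]; simp
  | succ x hx ih =>
    rw [m2d_succ, ih, Finset.sum_Icc_succ_top (by omega), m2d_succ (fun p => c p * (Real.log p / p))]
    have hx1 : (1:ℝ) ≤ x := by exact_mod_cast hx
    have h1 : Real.log ((x:ℝ) + 1) ≠ 0 := by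
      have := Real.log_pos (show (1:ℝ) < x + 1 by linarith)
      exact this.ne'
    have h2 : Real.log ((x:ℝ) + 1 + 1) ≠ 0 := by
      have := Real.log_pos (show (1:ℝ) < x + 1 + 1 by linarith)
      exact this.ne'
    have h3 : (x:ℝ) + 1 ≠ 0 := by positivity
    push_cast
    by_cases hp : (x + 1).Prime
    · rw [if_pos hp, if_pos hp]
      field_simp
      ring
    · rw [if_neg hp, if_neg hp]
      field_simp
      ring

/-- Telescoping bound. -/
private theorem m2d_tele (x : ℕ) (hx : 1 ≤ x) :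
    ∑ n ∈ Finset.Icc 2 x, Real.log n * (1 / Real.log n - 1 / Real.log (n + 1)) ≤
      Real.log (Real.log (x + 1)) - Real.log (Real.log 2) := by
  induction x, hx using Nat.le_induction with
  | base => norm_num
  | succ x hx ih =>
    rw [Finset.sum_Icc_succ_top (by omega)]
    have hx1 : (1:ℝ) ≤ x := by exact_mod_cast hx
    have h1 : 0 < Real.log ((x:ℝ) + 1) := Real.log_pos (by linarith)
    have h2 : 0 < Real.log ((x:ℝ) + 1 + 1) := Real.log_pos (by linarith)
    push_cast
    have h3 : Real.log ((x:ℝ) + 1) * (1 / Real.log ((x:ℝ) + 1) - 1 / Real.log ((x:ℝ) + 1 + 1)) =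
        1 - (Real.log ((x:ℝ) + 1 + 1) / Real.log ((x:ℝ) + 1))⁻¹ := by
      rw [inv_div]
      field_simp
    have h4 := Real.one_sub_inv_le_log_of_pos (div_pos h2 h1)
    rw [Real.log_div h2.ne' h1.ne'] at h4
    rw [h3]
    linarith

private theorem m2d_tele' (x : ℕ) (hx : 1 ≤ x) :
    ∑ n ∈ Finset.Icc 2 x, (1 / Real.log n - 1 / Real.log (n + 1)) ≤ 1 / Real.log 2 := by
  have h : ∑ n ∈ Finset.Icc 2 x, (1 / Real.log n - 1 / Real.log (n + 1)) =
      1 / Real.log 2 - 1 / Real.log (x + 1) := by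
    induction x, hx using Nat.le_induction with
    | base => norm_num
    | succ x hx ih =>
      rw [Finset.sum_Icc_succ_top (by omega), ih]
      push_cast
      ring
  rw [h]
  have hx1 : (1:ℝ) ≤ x := by exact_mod_cast hx
  have h1 : 0 < Real.log ((x:ℝ) + 1) := Real.log_pos (by linarith)
  have : 0 < 1 / Real.log ((x:ℝ) + 1) := by positivity
  linarith

/-- Row M2d. Partial summation: a sequence of coefficients `|c p| ≤ 1` whose `log p / p` sums are
`≤ ε log x + K` has `1 / p` sums `≤ ε log (1 + log x) + K'`.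
`∑_{2 ≤ n ≤ x} u_n / log n = S(x) / log (x+1) + ∑_{n ≤ x} S(n) (1/log n - 1/log (n+1))` with
`u_n = c_n log n / n` (`n` prime), `S(n) ≤ ε log n + K`, and
`log n (1/log n - 1/log (n+1)) ≤ (log (n+1) - log n) / log (n+1) ≤ log log (n+1) - log log n`. -/
theorem abel (ε K : ℝ) (hε : 0 < ε) : ∃ K' : ℝ, ∀ c : ℕ → ℝ,
    (∀ x : ℕ, 1 ≤ x → |∑ p ∈ PP x, c p * (Real.log p / p)| ≤ ε * Real.log x + K) →
    ∀ x : ℕ, 1 ≤ x → |∑ p ∈ PP x, c p / p| ≤ ε * LL x + K' := by
  have hl2 : 0 < Real.log 2 := Real.log_pos (by norm_num)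
  refine ⟨ε + 2 * (|K| / Real.log 2) - ε * Real.log (Real.log 2), ?_⟩
  intro c hc x hx
  have hx1 : (1:ℝ) ≤ x := by exact_mod_cast hx
  have hlx : 0 ≤ Real.log x := Real.log_nonneg hx1
  have hl1 : 0 < Real.log ((x:ℝ) + 1) := Real.log_pos (by linarith)
  have hlm : Real.log 2 ≤ Real.log ((x:ℝ) + 1) := Real.log_le_log (by norm_num) (by linarith)
  have hlm' : Real.log x ≤ Real.log ((x:ℝ) + 1) := Real.log_le_log (by linarith) (by linarith)
  have hK : K ≤ |K| := le_abs_self K
  have hK0 : 0 ≤ |K| := abs_nonneg K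
  rw [m2d_abel c x hx]
  have hA : |(∑ p ∈ PP x, c p * (Real.log p / p)) / Real.log (x + 1)| ≤ ε + |K| / Real.log 2 := by
    rw [abs_div, abs_of_pos hl1, div_le_iff₀ hl1]
    have h1 : |K| ≤ |K| / Real.log 2 * Real.log ((x:ℝ) + 1) := by
      rw [div_mul_eq_mul_div, le_div_iff₀ hl2]
      exact mul_le_mul_of_nonneg_left hlm hK0
    have h2 : ε * Real.log x ≤ ε * Real.log ((x:ℝ) + 1) := mul_le_mul_of_nonneg_left hlm' hε.le
    have h3 := hc x hx
    nlinarith
  have hB : |∑ n ∈ Finset.Icc 2 x, (∑ p ∈ PP n, c p * (Real.log p / p)) *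
        (1 / Real.log n - 1 / Real.log (n + 1))| ≤
      ε * (Real.log (Real.log (x + 1)) - Real.log (Real.log 2)) + |K| * (1 / Real.log 2) := by
    calc |∑ n ∈ Finset.Icc 2 x, (∑ p ∈ PP n, c p * (Real.log p / p)) * (1 / Real.log n - 1 / Real.log (n + 1))|
        ≤ ∑ n ∈ Finset.Icc 2 x, |(∑ p ∈ PP n, c p * (Real.log p / p)) * (1 / Real.log n - 1 / Real.log (n + 1))| :=
          Finset.abs_sum_le_sum_abs _ _
      _ ≤ ∑ n ∈ Finset.Icc 2 x, (ε * (Real.log n * (1 / Real.log n - 1 / Real.log (n + 1))) +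
            |K| * (1 / Real.log n - 1 / Real.log (n + 1))) := by
          refine Finset.sum_le_sum fun n hn => ?_
          have hn2 : 2 ≤ n := (Finset.mem_Icc.mp hn).1
          have hn2' : (2:ℝ) ≤ n := by exact_mod_cast hn2
          have h1 : 0 < Real.log (n:ℝ) := Real.log_pos (by linarith)
          have h2 : Real.log (n:ℝ) ≤ Real.log ((n:ℝ) + 1) := Real.log_le_log (by linarith) (by linarith)
          have h3 : 0 ≤ 1 / Real.log (n:ℝ) - 1 / Real.log ((n:ℝ) + 1) :=
            sub_nonneg.mpr (one_div_le_one_div_of_le h1 h2)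
          rw [abs_mul, abs_of_nonneg h3]
          have h4 := hc n (by omega)
          have h5 : |∑ p ∈ PP n, c p * (Real.log p / p)| ≤ ε * Real.log n + |K| := by linarith
          calc |∑ p ∈ PP n, c p * (Real.log p / p)| * (1 / Real.log (n:ℝ) - 1 / Real.log ((n:ℝ) + 1))
              ≤ (ε * Real.log n + |K|) * (1 / Real.log (n:ℝ) - 1 / Real.log ((n:ℝ) + 1)) :=
                mul_le_mul_of_nonneg_right h5 h3
            _ = _ := by ring
      _ = ε * ∑ n ∈ Finset.Icc 2 x, (Real.log n * (1 / Real.log n - 1 / Real.log (n + 1))) +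
            |K| * ∑ n ∈ Finset.Icc 2 x, (1 / Real.log n - 1 / Real.log (n + 1)) := by
          rw [Finset.sum_add_distrib, ← Finset.mul_sum, ← Finset.mul_sum]
      _ ≤ _ := add_le_add (mul_le_mul_of_nonneg_left (m2d_tele x hx) hε.le)
            (mul_le_mul_of_nonneg_left (m2d_tele' x hx) hK0)
  have hC : Real.log (Real.log ((x:ℝ) + 1)) ≤ LL x := by
    unfold LL
    apply Real.log_le_log hl1
    have h1 : Real.log ((x:ℝ) + 1) = Real.log x + Real.log (1 + 1 / x) := by
      rw [← Real.log_mul (by positivity) (by positivity)]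
      congr 1
      field_simp
    have h2 : Real.log (1 + 1 / (x:ℝ)) ≤ 1 := by
      have h3 := Real.log_le_sub_one_of_pos (show 0 < 1 + 1 / (x:ℝ) by positivity)
      have h4 : 1 / (x:ℝ) ≤ 1 := by
        rw [div_le_one (by linarith)]; exact hx1
      linarith
    linarith
  have hD := mul_le_mul_of_nonneg_left hC hε.le
  refine (abs_add_le _ _).trans ?_
  have hE : |K| * (1 / Real.log 2) = |K| / Real.log 2 := by ring
  rw [hE] at hB
  linarith

end TwHL
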