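import Pool.Agent.LibTwHL.M2c
import Pool.Agent.LibTwHL.M2d

namespace TwHL

theorem sum_chi (Δ : ℤ) (h : ¬ IsSquare Δ) (ε : ℝ) (hε : 0 < ε) : ∃ K : ℝ, ∀ x : ℕ, 1 ≤ x →
    |∑ p ∈ PP x, (jacobiSym Δ p : ℝ) / p| ≤ ε * LL x + K := by
  obtain ⟨K, hK⟩ := sum_log Δ h ε hε
  obtain ⟨K', hK'⟩ := abel ε K hε
  exact ⟨K', hK' (fun p => (jacobiSym Δ p : ℝ)) hK⟩

end TwHL
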