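import Pool.Agent.LibTwHL.M2a

namespace TwHL

private theorem M2b_odd_of_coprime {Δ : ℤ} {r : ℕ} (h : r.Coprime (4 * Δ.natAbs)) : Odd r := by
  have h1 : r.Coprime 4 := Nat.Coprime.coprime_mul_right_right h
  rw [← Nat.not_even_iff_odd]
  intro h2
  obtain ⟨k, hk⟩ := h2
  have h3 : 2 ∣ r.gcd 4 := Nat.dvd_gcd ⟨k, by omega⟩ ⟨2, rfl⟩
  rw [h1] at h3
  omega

/-- Row M2b. The sum of `J(Δ | r)` over the odd residues `r` modulo `4|Δ|` is zero, also when
restricted to `r` coprime to `4|Δ|` (where the other terms vanish or are even). Multiply by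
the `n` of `exists_neg`: `r ↦ n r mod 4|Δ|` permutes the coprime residues,
`jacobiSym.mod_right`, `jacobiSym.mul_right`. -/
theorem sum_coprime (Δ : ℤ) (h : ¬ IsSquare Δ) :
    ∑ r ∈ (Finset.range (4 * Δ.natAbs)).filter (fun r => r.Coprime (4 * Δ.natAbs)),
      jacobiSym Δ r = 0 := by
  obtain ⟨n, hn1, hn2, hn3⟩ := exists_neg Δ h
  have hΔ : Δ ≠ 0 := by
    rintro rfl
    exact h ⟨0, by simp⟩
  have hM : 0 < 4 * Δ.natAbs := by
    have := Int.natAbs_pos.2 hΔ
    omega
  set M := 4 * Δ.natAbs with hMdef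
  set F := (Finset.range M).filter (fun r => r.Coprime M) with hF
  have himg : F.image (fun r => (n * r) % M) = F := by
    apply Finset.eq_of_subset_of_card_le
    · intro x hx
      rw [Finset.mem_image] at hx
      obtain ⟨r, hr, rfl⟩ := hx
      rw [hF, Finset.mem_filter, Finset.mem_range] at hr ⊢
      refine ⟨Nat.mod_lt _ hM, ?_⟩
      have h1 : (n * r).Coprime M := Nat.Coprime.mul_left hn2 hr.2
      unfold Nat.Coprime at h1 ⊢
      rw [(Nat.mod_modEq (n * r) M).gcd_eq]
      exact h1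
    · rw [Finset.card_image_of_injOn]
      intro a ha b hb hab
      rw [Finset.mem_coe, hF, Finset.mem_filter, Finset.mem_range] at ha hb
      have h1 : n * a ≡ n * b [MOD M] := hab
      have h2 : a ≡ b [MOD M] := Nat.ModEq.cancel_left_of_coprime (by
        have := hn2
        rw [Nat.coprime_comm] at this
        exact this) h1
      rw [Nat.ModEq, Nat.mod_eq_of_lt ha.1, Nat.mod_eq_of_lt hb.1] at h2
      exact h2
  have hinj : Set.InjOn (fun r => (n * r) % M) (F : Set ℕ) := by
    apply Finset.injOn_of_card_image_eq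
    rw [himg]
  have h1 : ∑ r ∈ F, jacobiSym Δ r = ∑ r ∈ F, jacobiSym Δ ((n * r) % M : ℕ) := by
    conv_lhs => rw [← himg]
    rw [Finset.sum_image hinj]
  have h2 : ∑ r ∈ F, jacobiSym Δ ((n * r) % M : ℕ) = ∑ r ∈ F, -jacobiSym Δ r := by
    apply Finset.sum_congr rfl
    intro r hr
    rw [hF, Finset.mem_filter, Finset.mem_range] at hr
    have hr1 : Odd r := M2b_odd_of_coprime (Δ := Δ) hr.2
    rw [← jacobiSym.mod_right Δ (hn1.mul hr1)]
    have : NeZero n := ⟨by rintro rfl; exact absurd hn1 (by decide)⟩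
    have : NeZero r := ⟨by rintro rfl; exact absurd hr1 (by decide)⟩
    rw [jacobiSym.mul_right, hn3]
    ring
  rw [h2, Finset.sum_neg_distrib] at h1
  omega

theorem sum_odd (Δ : ℤ) (h : ¬ IsSquare Δ) :
    ∑ r ∈ Finset.range (4 * Δ.natAbs), (if Odd r then jacobiSym Δ r else 0) = 0 := by
  refine Eq.trans ?_ (sum_coprime Δ h)
  rw [Finset.sum_filter]
  apply Finset.sum_congr rfl
  intro r _
  by_cases hr : r.Coprime (4 * Δ.natAbs)
  · rw [if_pos hr, if_pos (M2b_odd_of_coprime hr)]
  · rw [if_neg hr]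
    by_cases hr1 : Odd r
    · rw [if_pos hr1]
      have : NeZero r := ⟨by rintro rfl; exact absurd hr1 (by decide)⟩
      rw [jacobiSym.eq_zero_iff_not_coprime]
      intro hcon
      apply hr
      apply Nat.Coprime.mul_right
      · have h1 : r.Coprime 2 := Nat.Coprime.symm (Nat.coprime_two_left.2 hr1)
        exact (Nat.Coprime.pow_right 2 h1)
      · rw [Int.gcd_eq_natAbs, Int.natAbs_natCast] at hcon
        exact Nat.Coprime.symm hcon
    · rw [if_neg hr1]

end TwHL
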