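import Pool.Agent.LibTwHL.L0
import Pool.Agent.LibTwHL.M2b

namespace TwHL

/-- Row L4. From `sum_odd`, `per_sum`, `jacobiSym.mod_right`. -/
theorem sum_jacobi_odd (Δ : ℤ) (h : ¬ IsSquare Δ) (A B : ℕ) :
    |∑ n ∈ (Finset.Ioc A B).filter Odd, (jacobiSym Δ n : ℝ)| ≤ 4 * (Δ.natAbs : ℝ) := by
  have hΔ : Δ ≠ 0 := by
    rintro rfl
    exact h ⟨0, by simp⟩
  have hq : 0 < 4 * Δ.natAbs := by
    have := Int.natAbs_pos.2 hΔ
    omega
  have heven : Even (4 * Δ.natAbs) := ⟨2 * Δ.natAbs, by ring⟩
  have key := per_sum (fun n : ℕ => if Odd n then (jacobiSym Δ n : ℝ) else 0) (4 * Δ.natAbs) hq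
    (by
      intro n
      by_cases hn : Odd n
      · have hn2 : Odd (n + 4 * Δ.natAbs) := hn.add_even heven
        simp only [hn, hn2, if_true]
        rw [jacobiSym.mod_right Δ hn2, jacobiSym.mod_right Δ hn, Nat.add_mod_right]
      · have hn2 : ¬ Odd (n + 4 * Δ.natAbs) := by
          rw [Nat.not_odd_iff_even] at hn ⊢
          exact hn.add heven
        simp only [hn, hn2, if_false])
    (by
      intro n
      by_cases hn : Odd n
      · simp only [hn, if_true]
        rcases jacobiSym.trichotomy Δ n with h | h | h <;> rw [h] <;> simp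
      · simp only [hn, if_false, abs_zero]
        norm_num)
    (by
      have h1 := sum_odd Δ h
      have h2 : ((∑ r ∈ Finset.range (4 * Δ.natAbs), (if Odd r then jacobiSym Δ r else 0) : ℤ) : ℝ) =
          ((0 : ℤ) : ℝ) := by rw [h1]
      push_cast at h2
      exact h2) A B
  rw [Finset.sum_filter]
  refine key.trans (le_of_eq ?_)
  push_cast
  ring

/-- the product of two different squarefree numbers is not a square -/
theorem not_square_mul {g g' : ℕ} (h : Squarefree g) (h' : Squarefree g') (hne : g ≠ g') :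
    ¬ IsSquare ((g : ℤ) * g') := by
  rintro ⟨r, hr⟩
  have hg0 : g ≠ 0 := h.ne_zero
  have hg0' : g' ≠ 0 := h'.ne_zero
  have h1 : g * g' = r.natAbs * r.natAbs := by
    have : ((g * g' : ℕ) : ℤ) = ((r.natAbs * r.natAbs : ℕ) : ℤ) := by
      push_cast
      rw [hr]
      exact (abs_mul_abs_self r).symm
    exact_mod_cast this
  have hr0 : r.natAbs ≠ 0 := by
    intro h0
    rw [h0] at h1
    simp only [mul_zero] at h1
    rcases Nat.mul_eq_zero.1 h1 with h2 | h2
    · exact hg0 h2
    · exact hg0' h2
  apply hne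
  apply Nat.eq_of_factorization_eq hg0 hg0'
  intro p
  have h2 : (g * g').factorization p = (r.natAbs * r.natAbs).factorization p := by rw [h1]
  rw [Nat.factorization_mul hg0 hg0', Nat.factorization_mul hr0 hr0] at h2
  simp only [Finsupp.add_apply] at h2
  have h3 := h.natFactorization_le_one p
  have h4 := h'.natFactorization_le_one p
  omega

end TwHL
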