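import Pool.Agent.LibTwHL.M1
import Pool.Agent.LibTwHL.L4
import Pool.Agent.LibMaier.Mertens1

set_option autoImplicit false

namespace TwHL

open Finset

private theorem ua_id (c f : ℕ → ℝ) (A n : ℕ) (hAn : A ≤ n) :
    ∑ k ∈ Ioc A (n + 1), c k * f k =
      (∑ k ∈ Ioc A (n + 1), c k) * f (n + 1) +
        ∑ k ∈ Ioc A n, (∑ j ∈ Ioc A k, c j) * (f k - f (k + 1)) := by
  induction n, hAn using Nat.le_induction with
  | base => simp [Finset.sum_Ioc_succ_top]
  | succ n hn ih =>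
    rw [Finset.sum_Ioc_succ_top (by omega : A ≤ n + 1), ih,
      Finset.sum_Ioc_succ_top (by omega : A ≤ n) (fun k => (∑ j ∈ Ioc A k, c j) * (f k - f (k + 1))),
      Finset.sum_Ioc_succ_top (by omega : A ≤ n + 1) c]
    ring

/-- Row Ua. Abel summation: `c` with sums over all intervals bounded by `q`, `f` antitone (from 1
on) and nonnegative: `|∑_{A < n ≤ B} c n f n| ≤ q f (A + 1)`. -/
theorem abel_anti (c f : ℕ → ℝ) (q : ℝ) (hq : 0 ≤ q)
    (hc : ∀ A B : ℕ, |∑ n ∈ Ioc A B, c n| ≤ q) (hf : ∀ n, 0 ≤ f n)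
    (hm : ∀ m n : ℕ, 1 ≤ m → m ≤ n → f n ≤ f m) (A B : ℕ) :
    |∑ n ∈ Ioc A B, c n * f n| ≤ q * f (A + 1) := by
  rcases Nat.lt_or_ge A B with h | h
  · obtain ⟨n, rfl⟩ : ∃ n, B = n + 1 := ⟨B - 1, by omega⟩
    have hAn : A ≤ n := by omega
    rw [ua_id c f A n hAn]
    have h1 : |(∑ k ∈ Ioc A (n + 1), c k) * f (n + 1)| ≤ q * f (n + 1) := by
      rw [abs_mul, abs_of_nonneg (hf _)]
      exact mul_le_mul_of_nonneg_right (hc _ _) (hf _)
    have h2 : |∑ k ∈ Ioc A n, (∑ j ∈ Ioc A k, c j) * (f k - f (k + 1))| ≤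
        ∑ k ∈ Ioc A n, q * (f k - f (k + 1)) := by
      refine (Finset.abs_sum_le_sum_abs _ _).trans (Finset.sum_le_sum fun k hk => ?_)
      have hk' := Finset.mem_Ioc.1 hk
      have h3 : 0 ≤ f k - f (k + 1) := sub_nonneg.2 (hm k (k + 1) (by omega) (by omega))
      rw [abs_mul, abs_of_nonneg h3]
      exact mul_le_mul_of_nonneg_right (hc _ _) h3
    have h3 : ∑ k ∈ Ioc A n, q * (f k - f (k + 1)) = q * (f (A + 1) - f (n + 1)) := by
      rw [← Finset.mul_sum]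
      congr 1
      clear h1 h2 h
      induction n, hAn using Nat.le_induction with
      | base => simp
      | succ n hn ih =>
        rw [Finset.sum_Ioc_succ_top (by omega), ih]; ring
    refine (abs_add_le _ _).trans ?_
    rw [h3] at h2
    linarith
  · rw [Finset.Ioc_eq_empty (by omega), Finset.sum_empty, abs_zero]
    exact mul_nonneg hq (hf _)

/-- The real character `n ↦ (Δ/n)` on odd numbers. -/
def chi (Δ : ℤ) (n : ℕ) : ℝ := if Odd n then (jacobiSym Δ n : ℝ) else 0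

/-- The divisor sum of `chi`. -/
noncomputable def rr (Δ : ℤ) (n : ℕ) : ℝ := ∑ d ∈ n.divisors, chi Δ d

/-- Row Ub1. `chi Δ` is completely multiplicative with values in `{-1, 0, 1}`
(`jacobiSym.mul_right`, `Nat.odd_mul`, `jacobiSym.trichotomy`). -/
theorem chi_mul (Δ : ℤ) (m n : ℕ) : chi Δ (m * n) = chi Δ m * chi Δ n := by
  unfold chi
  by_cases hm : Odd m
  · by_cases hn : Odd n
    · rw [if_pos hm, if_pos hn, if_pos (hm.mul hn),
        jacobiSym.mul_right' Δ hm.pos.ne' hn.pos.ne']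
      push_cast; ring
    · rw [if_neg hn, if_neg (fun h => hn (Nat.odd_mul.1 h).2), mul_zero]
  · rw [if_neg hm, if_neg (fun h => hm (Nat.odd_mul.1 h).1), zero_mul]

theorem chi_cases (Δ : ℤ) (n : ℕ) : chi Δ n = -1 ∨ chi Δ n = 0 ∨ chi Δ n = 1 := by
  unfold chi
  split_ifs
  · rcases jacobiSym.trichotomy Δ n with h | h | h <;> rw [h] <;> norm_num
  · exact Or.inr (Or.inl rfl)

theorem chi_one (Δ : ℤ) : chi Δ 1 = 1 := by
  unfold chi; rw [if_pos (by decide)]; simp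

private noncomputable def cf (Δ : ℤ) : ArithmeticFunction ℝ := ⟨chi Δ, by unfold chi; simp⟩

private theorem cf_mult (Δ : ℤ) : (cf Δ).IsMultiplicative :=
  ⟨chi_one Δ, fun {m n} _ => chi_mul Δ m n⟩

private theorem rr_eq_cf (Δ : ℤ) (n : ℕ) :
    rr Δ n = (((ArithmeticFunction.zeta : ArithmeticFunction ℕ) : ArithmeticFunction ℝ) * cf Δ) n := by
  rw [ArithmeticFunction.coe_zeta_mul_apply]; rfl

/-- Row Ub2. `rr Δ` is multiplicative on coprime arguments (`Nat.Coprime.sum_divisors_mul` or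
`Nat.divisors_mul`, `Nat.Coprime.sum_divisors_mul_of_isMultiplicative`...). -/
theorem rr_mul (Δ : ℤ) {m n : ℕ} (h : m.Coprime n) : rr Δ (m * n) = rr Δ m * rr Δ n := by
  rw [rr_eq_cf, rr_eq_cf, rr_eq_cf]
  exact (ArithmeticFunction.isMultiplicative_zeta.natCast.mul (cf_mult Δ)).2 h

private theorem chi_pow (Δ : ℤ) (p i : ℕ) : chi Δ (p ^ i) = chi Δ p ^ i := by
  induction i with
  | zero => simp [chi_one]
  | succ i ih => rw [pow_succ, chi_mul, ih, pow_succ]

/-- Row Ub3. `rr Δ n ≥ 0`: multiplicative (`Nat.recOnPosPrimePosCoprime`), and at prime powers a sum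
`1 + c + ... + c^k` with `c ∈ {-1, 0, 1}` (`Nat.sum_divisors_prime_pow`). -/
theorem rr_nonneg (Δ : ℤ) (n : ℕ) : 0 ≤ rr Δ n := by
  induction n using Nat.recOnPosPrimePosCoprime with
  | prime_pow p k hp hk =>
    unfold rr
    rw [Nat.sum_divisors_prime_pow hp]
    simp only [chi_pow]
    rcases chi_cases Δ p with h | h | h
    · rw [h]
      rcases Nat.even_or_odd k with he | ho
      · rw [Finset.sum_range_succ]
        have : ∑ x ∈ Finset.range k, (-1 : ℝ) ^ x = 0 := by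
          rw [neg_one_geom_sum, if_pos he]
        rw [this, he.neg_one_pow]; norm_num
      · rw [neg_one_geom_sum, if_pos (ho.add_odd (by decide))]
    · rw [h]
      exact Finset.sum_nonneg fun i _ => by positivity
    · rw [h]
      exact Finset.sum_nonneg fun i _ => by positivity
  | zero => unfold rr; simp
  | one => unfold rr; simp [chi_one]
  | coprime a b _ _ hc ha hb => rw [rr_mul Δ hc]; exact mul_nonneg ha hb

/-- Row Ub4. For a finite set `t` of primes, `rr Δ (∏ p) = ∏ (1 + chi Δ p)` (induction on `t`,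
`rr_mul`, `Nat.Prime.divisors`). -/
theorem rr_prod (Δ : ℤ) (t : Finset ℕ) (ht : ∀ p ∈ t, p.Prime) :
    rr Δ (∏ p ∈ t, p) = ∏ p ∈ t, (1 + chi Δ p) := by
  classical
  induction t using Finset.induction_on with
  | empty => unfold rr; simp [chi_one]
  | insert a s ha ih =>
    rw [Finset.prod_insert ha, Finset.prod_insert ha]
    have hap := ht a (Finset.mem_insert_self _ _)
    have hs : ∀ p ∈ s, p.Prime := fun p hp => ht p (Finset.mem_insert_of_mem hp)
    have hcop : a.Coprime (∏ p ∈ s, p) := by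
      refine Nat.Coprime.prod_right fun p hp => ?_
      exact (Nat.coprime_primes hap (hs p hp)).2 (fun h => ha (h ▸ hp))
    rw [rr_mul Δ hcop, ih hs]
    congr 1
    unfold rr
    rw [hap.divisors, Finset.sum_pair hap.one_lt.ne, chi_one]

/-- Truncated zeta. -/
noncomputable def ZZ (s : ℝ) (n : ℕ) : ℝ := ∑ k ∈ Icc 1 n, (k : ℝ) ^ (-s)

/-- Row Uc1. `|∑_{A < n ≤ B} chi Δ n| ≤ 4 |Δ|` (`sum_jacobi_odd`). -/
theorem chi_sum (Δ : ℤ) (h : ¬ IsSquare Δ) (A B : ℕ) :
    |∑ n ∈ Ioc A B, chi Δ n| ≤ 4 * (Δ.natAbs : ℝ) := by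
  have h1 := sum_jacobi_odd Δ h A B
  rw [Finset.sum_filter] at h1
  exact h1

theorem ZZ_nonneg (s : ℝ) (n : ℕ) : 0 ≤ ZZ s n :=
  Finset.sum_nonneg fun k _ => Real.rpow_nonneg (Nat.cast_nonneg k) _

theorem ZZ_mono (s : ℝ) {m n : ℕ} (h : m ≤ n) : ZZ s m ≤ ZZ s n :=
  Finset.sum_le_sum_of_subset_of_nonneg (Finset.Icc_subset_Icc le_rfl h)
    (fun k _ _ => Real.rpow_nonneg (Nat.cast_nonneg k) _)

private theorem uc_step (s : ℝ) (hs : 1 < s) (n : ℕ) (hn : 1 ≤ n) :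
    ((n + 1 : ℕ) : ℝ) ^ (-s) * (s - 1) ≤ (n : ℝ) ^ (1 - s) - ((n + 1 : ℕ) : ℝ) ^ (1 - s) := by
  have hn0 : (0 : ℝ) < n := by exact_mod_cast hn
  have hn1 : (0 : ℝ) < ((n + 1 : ℕ) : ℝ) := by positivity
  set E := ((n + 1 : ℕ) : ℝ) ^ (1 - s) with hE
  have hE0 : 0 < E := Real.rpow_pos_of_pos hn1 _
  have h1 : ((n + 1 : ℕ) : ℝ) ^ (-s) = E / ((n + 1 : ℕ) : ℝ) := by
    rw [hE, show (1 - s) = -s + 1 by ring, Real.rpow_add hn1, Real.rpow_one]
    field_simp
  have hlog : 1 / ((n + 1 : ℕ) : ℝ) ≤ Real.log ((n + 1 : ℕ) : ℝ) - Real.log n := by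
    have h2 := Real.log_le_sub_one_of_pos (show 0 < (n : ℝ) / ((n + 1 : ℕ) : ℝ) by positivity)
    rw [Real.log_div hn0.ne' hn1.ne'] at h2
    have h3 : (n : ℝ) / ((n + 1 : ℕ) : ℝ) - 1 = -(1 / ((n + 1 : ℕ) : ℝ)) := by
      push_cast; field_simp; ring
    linarith
  have h4 : (n : ℝ) ^ (1 - s) = E * Real.exp ((s - 1) *
      (Real.log ((n + 1 : ℕ) : ℝ) - Real.log n)) := by
    rw [hE, Real.rpow_def_of_pos hn0, Real.rpow_def_of_pos hn1, ← Real.exp_add]
    congr 1; ring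
  have h5 : 1 + (s - 1) * (1 / ((n + 1 : ℕ) : ℝ)) ≤ Real.exp ((s - 1) *
      (Real.log ((n + 1 : ℕ) : ℝ) - Real.log n)) := by
    have h6 := Real.add_one_le_exp ((s - 1) * (Real.log ((n + 1 : ℕ) : ℝ) - Real.log n))
    have h7 : (s - 1) * (1 / ((n + 1 : ℕ) : ℝ)) ≤
        (s - 1) * (Real.log ((n + 1 : ℕ) : ℝ) - Real.log n) :=
      mul_le_mul_of_nonneg_left hlog (by linarith)
    linarith
  rw [h1, h4]
  have h8 := mul_le_mul_of_nonneg_left h5 hE0.le
  have h9 : E * (1 + (s - 1) * (1 / ((n + 1 : ℕ) : ℝ))) = E + E / ((n + 1 : ℕ) : ℝ) * (s - 1) := by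
    ring
  linarith

/-- Row Uc2. `ZZ s n ≤ 1 + 1/(s-1)` for `s > 1`. -/
theorem ZZ_le (s : ℝ) (hs : 1 < s) (n : ℕ) : ZZ s n ≤ 1 + 1 / (s - 1) := by
  have hs0 : 0 < s - 1 := by linarith
  have key : ∀ n : ℕ, 1 ≤ n → ZZ s n ≤ 1 + (1 - (n : ℝ) ^ (1 - s)) / (s - 1) := by
    intro n hn
    induction n, hn using Nat.le_induction with
    | base => unfold ZZ; simp
    | succ n hn ih =>
      have h1 : ZZ s (n + 1) = ZZ s n + ((n + 1 : ℕ) : ℝ) ^ (-s) := by
        unfold ZZ; rw [Finset.sum_Icc_succ_top (by omega)]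
      have h2 := uc_step s hs n hn
      have h3 : ((n + 1 : ℕ) : ℝ) ^ (-s) ≤
          ((n : ℝ) ^ (1 - s) - ((n + 1 : ℕ) : ℝ) ^ (1 - s)) / (s - 1) := by
        rw [le_div_iff₀ hs0]; exact h2
      rw [h1]
      have h4 : (1 - ((n + 1 : ℕ) : ℝ) ^ (1 - s)) / (s - 1) = (1 - (n : ℝ) ^ (1 - s)) / (s - 1) +
          ((n : ℝ) ^ (1 - s) - ((n + 1 : ℕ) : ℝ) ^ (1 - s)) / (s - 1) := by
        rw [← add_div]; congr 1; ring
      rw [h4]; linarith
  rcases Nat.eq_zero_or_pos n with h0 | h0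
  · subst h0
    have : ZZ s 0 = 0 := by unfold ZZ; simp
    rw [this]; positivity
  · refine (key n h0).trans ?_
    have h1 : 0 ≤ (n : ℝ) ^ (1 - s) := Real.rpow_nonneg (Nat.cast_nonneg n) _
    have h2 : (1 - (n : ℝ) ^ (1 - s)) / (s - 1) ≤ 1 / (s - 1) :=
      div_le_div_of_nonneg_right (by linarith) hs0.le
    linarith

theorem ZZ_le_log (s : ℝ) (hs : 1 < s) (n : ℕ) (hn : 1 ≤ n) : ZZ s n ≤ 1 + Real.log n := by
  have h1 := harmonic_le_one_add_log n
  have h2 : ((harmonic n : ℚ) : ℝ) = ∑ k ∈ Icc 1 n, ((k : ℝ))⁻¹ := by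
    rw [harmonic_eq_sum_Icc]; push_cast; rfl
  rw [h2] at h1
  refine le_trans (Finset.sum_le_sum fun k hk => ?_) h1
  have hk1 : (1 : ℝ) ≤ k := by exact_mod_cast (Finset.mem_Icc.1 hk).1
  rw [← Real.rpow_neg_one]
  exact Real.rpow_le_rpow_of_exponent_le hk1 (by linarith)

private theorem uc_swap (F : ℕ → ℕ → ℝ) (M : ℕ) :
    ∑ m ∈ Icc 1 M, ∑ d ∈ m.divisors, F d (m / d) = ∑ d ∈ Icc 1 M, ∑ k ∈ Icc 1 (M / d), F d k := by
  rw [Finset.sum_sigma', Finset.sum_sigma']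
  refine Finset.sum_nbij' (fun x => ⟨x.2, x.1 / x.2⟩) (fun y => ⟨y.1 * y.2, y.1⟩) ?_ ?_ ?_ ?_ ?_
  · rintro ⟨m, d⟩ h
    simp only [Finset.mem_sigma, Finset.mem_Icc, Nat.mem_divisors] at h ⊢
    obtain ⟨⟨h1, h2⟩, h3, h4⟩ := h
    have hd : 0 < d := Nat.pos_of_dvd_of_pos h3 h1
    refine ⟨⟨hd, (Nat.le_of_dvd h1 h3).trans h2⟩, Nat.div_pos (Nat.le_of_dvd h1 h3) hd,
      Nat.div_le_div_right h2⟩
  · rintro ⟨d, k⟩ h
    simp only [Finset.mem_sigma, Finset.mem_Icc, Nat.mem_divisors] at h ⊢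
    obtain ⟨⟨h1, h2⟩, h3, h4⟩ := h
    have h5 : d * k ≤ M := by
      have := Nat.mul_le_mul_left d h4
      exact this.trans (Nat.mul_div_le M d)
    exact ⟨⟨Nat.mul_pos h1 h3, h5⟩, Dvd.intro _ rfl, (Nat.mul_pos h1 h3).ne'⟩
  · rintro ⟨m, d⟩ h
    simp only [Finset.mem_sigma, Finset.mem_Icc, Nat.mem_divisors] at h
    simp only [Nat.mul_div_cancel' h.2.1]
  · rintro ⟨d, k⟩ h
    simp only [Finset.mem_sigma, Finset.mem_Icc] at h
    simp only [Nat.mul_div_cancel_left k h.1.1]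
  · rintro ⟨m, d⟩ _
    rfl

/-- Row Uc3. -/
theorem rr_sum (Δ : ℤ) (h : ¬ IsSquare Δ) (s : ℝ) (hs : 1 < s) (M : ℕ) :
    ∑ m ∈ Icc 1 M, rr Δ m * (m : ℝ) ^ (-s) ≤ (4 + Real.log Δ.natAbs) * ZZ s M := by
  have hΔ : Δ ≠ 0 := by
    rintro rfl
    exact h ⟨0, by simp⟩
  have hΔ1 : 1 ≤ Δ.natAbs := Int.natAbs_pos.2 hΔ
  have hΔr : (1 : ℝ) ≤ Δ.natAbs := by exact_mod_cast hΔ1
  set q := 4 * Δ.natAbs with hq
  have hq1 : 1 ≤ q := by omega
  have hqr : (1 : ℝ) ≤ q := by exact_mod_cast hq1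
  set f : ℕ → ℝ := fun d => (d : ℝ) ^ (-s) * ZZ s (M / d) with hf
  have hf0 : ∀ d, 0 ≤ f d := fun d => mul_nonneg (Real.rpow_nonneg (Nat.cast_nonneg d) _)
    (ZZ_nonneg _ _)
  have hfm : ∀ m n : ℕ, 1 ≤ m → m ≤ n → f n ≤ f m := by
    intro m n hm hmn
    have hm0 : (0 : ℝ) < m := by exact_mod_cast hm
    have h1 : (n : ℝ) ^ (-s) ≤ (m : ℝ) ^ (-s) :=
      Real.rpow_le_rpow_of_nonpos hm0 (by exact_mod_cast hmn) (by linarith)
    exact mul_le_mul h1 (ZZ_mono s (Nat.div_le_div_left hmn hm)) (ZZ_nonneg _ _)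
      (Real.rpow_nonneg hm0.le _)
  have e1 : ∑ m ∈ Icc 1 M, rr Δ m * (m : ℝ) ^ (-s) = ∑ d ∈ Icc 1 M, chi Δ d * f d := by
    have h1 : ∀ m ∈ Icc 1 M, rr Δ m * (m : ℝ) ^ (-s) =
        ∑ d ∈ m.divisors, chi Δ d * ((d : ℝ) ^ (-s) * ((m / d : ℕ) : ℝ) ^ (-s)) := by
      intro m hm
      unfold rr
      rw [Finset.sum_mul]
      refine Finset.sum_congr rfl fun d hd => ?_
      have hd' := Nat.mem_divisors.1 hd
      rw [← Real.mul_rpow (Nat.cast_nonneg d) (Nat.cast_nonneg _), ← Nat.cast_mul,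
        Nat.mul_div_cancel' hd'.1]
    rw [Finset.sum_congr rfl h1, uc_swap (fun d k => chi Δ d * ((d : ℝ) ^ (-s) * (k : ℝ) ^ (-s))) M]
    refine Finset.sum_congr rfl fun d _ => ?_
    rw [hf]
    simp only [ZZ]
    rw [Finset.mul_sum, Finset.mul_sum]
  rw [e1]
  have hchi : ∀ d, chi Δ d ≤ 1 := by
    intro d; rcases chi_cases Δ d with h | h | h <;> rw [h] <;> norm_num
  have hsmall : ∀ K : ℕ, K ≤ M → ∑ d ∈ Icc 1 K, chi Δ d * f d ≤ ZZ s K * ZZ s M := by
    intro K _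
    have : ZZ s K * ZZ s M = ∑ d ∈ Icc 1 K, (d : ℝ) ^ (-s) * ZZ s M := by
      rw [← Finset.sum_mul]; rfl
    rw [this]
    refine Finset.sum_le_sum fun d hd => ?_
    have h1 : f d ≤ (d : ℝ) ^ (-s) * ZZ s M :=
      mul_le_mul_of_nonneg_left (ZZ_mono s (Nat.div_le_self M d))
        (Real.rpow_nonneg (Nat.cast_nonneg d) _)
    have h2 : chi Δ d * f d ≤ 1 * f d := mul_le_mul_of_nonneg_right (hchi d) (hf0 d)
    linarith
  have hZM := ZZ_nonneg s M
  have hlogq : Real.log q ≤ 2 + Real.log Δ.natAbs := by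
    rw [hq, Nat.cast_mul, Real.log_mul (by norm_num) (by positivity)]
    have : Real.log ((4 : ℕ) : ℝ) ≤ 2 := by
      have h4 : ((4 : ℕ) : ℝ) = 2 ^ 2 := by norm_num
      rw [h4, Real.log_pow]
      have := Real.log_two_lt_d9
      push_cast; linarith
    linarith
  have hlogΔ : 0 ≤ Real.log (Δ.natAbs : ℝ) := Real.log_nonneg hΔr
  rcases Nat.lt_or_ge q M with hM | hM
  · have hsplit : Icc 1 M = Icc 1 q ∪ Ioc q M := by
      ext x; simp only [Finset.mem_union, Finset.mem_Icc, Finset.mem_Ioc]; omega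
    have hdisj : Disjoint (Icc 1 q) (Ioc q M) := by
      rw [Finset.disjoint_left]; intro x hx hx'
      have := Finset.mem_Icc.1 hx; have := Finset.mem_Ioc.1 hx'; omega
    rw [hsplit, Finset.sum_union hdisj]
    have h1 := hsmall q hM.le
    have h2 := abel_anti (chi Δ) f q (by linarith) (fun A B => by
      have := chi_sum Δ h A B
      rw [hq]; push_cast; exact this) hf0 hfm q M
    have h3 : (q : ℝ) * f (q + 1) ≤ ZZ s M := by
      have h4 : f (q + 1) ≤ 1 / ((q + 1 : ℕ) : ℝ) * ZZ s M := by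
        refine mul_le_mul ?_ (ZZ_mono s (Nat.div_le_self _ _)) (ZZ_nonneg _ _) (by positivity)
        rw [one_div, ← Real.rpow_neg_one]
        exact Real.rpow_le_rpow_of_exponent_le (by push_cast; linarith) (by linarith)
      have h5 : (q : ℝ) * (1 / ((q + 1 : ℕ) : ℝ) * ZZ s M) ≤ ZZ s M := by
        have h6 : (q : ℝ) * (1 / ((q + 1 : ℕ) : ℝ)) ≤ 1 := by
          rw [mul_one_div, div_le_one (by positivity)]; push_cast; linarith
        calc (q : ℝ) * (1 / ((q + 1 : ℕ) : ℝ) * ZZ s M)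
            = (q : ℝ) * (1 / ((q + 1 : ℕ) : ℝ)) * ZZ s M := by ring
          _ ≤ 1 * ZZ s M := mul_le_mul_of_nonneg_right h6 hZM
          _ = ZZ s M := one_mul _
      exact (mul_le_mul_of_nonneg_left h4 (by linarith)).trans h5
    have h4 := (abs_le.1 (h2.trans h3)).2
    have h5 := ZZ_le_log s hs q hq1
    have h6 : ZZ s q * ZZ s M ≤ (1 + Real.log q) * ZZ s M := mul_le_mul_of_nonneg_right h5 hZM
    have h7 : (1 + Real.log q) * ZZ s M + ZZ s M ≤ (4 + Real.log Δ.natAbs) * ZZ s M := by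
      have : (1 + Real.log q) + 1 ≤ 4 + Real.log Δ.natAbs := by linarith
      have h8 := mul_le_mul_of_nonneg_right this hZM
      linarith
    linarith
  · rcases Nat.eq_zero_or_pos M with h0 | h0
    · rw [h0]
      have : ZZ s 0 = 0 := by unfold ZZ; simp
      rw [this]; simp
    · have h1 := hsmall M le_rfl
      have h2 := ZZ_le_log s hs M h0
      have h3 : Real.log M ≤ Real.log q := Real.log_le_log (by exact_mod_cast h0)
        (by exact_mod_cast hM)
      have h4 : ZZ s M * ZZ s M ≤ (4 + Real.log Δ.natAbs) * ZZ s M :=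
        mul_le_mul_of_nonneg_right (by linarith) hZM
      linarith

/-- Row Ud. `Finset.prod_one_add` (or `Finset.prod_add`): the product is the sum over subsets `t`
of `PP X` of `∏_{p ∈ t} (1 + chi p) p^(-s) = rr (∏ t) (∏ t)^(-s)`. -/
theorem prod_le (Δ : ℤ) (s : ℝ) (X : ℕ) :
    ∏ p ∈ PP X, (1 + (1 + chi Δ p) * (p : ℝ) ^ (-s))
      ≤ ∑ m ∈ Icc 1 (∏ p ∈ PP X, p), rr Δ m * (m : ℝ) ^ (-s) := by
  classical
  have hprime : ∀ p ∈ PP X, p.Prime := fun p hp => (mem_filter.1 hp).2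
  rw [Finset.prod_one_add]
  have h1 : ∀ t ∈ (PP X).powerset, ∏ p ∈ t, ((1 + chi Δ p) * (p : ℝ) ^ (-s)) =
      rr Δ (∏ p ∈ t, p) * ((∏ p ∈ t, p : ℕ) : ℝ) ^ (-s) := by
    intro t ht
    have ht' := Finset.mem_powerset.1 ht
    rw [Finset.prod_mul_distrib, rr_prod Δ t (fun p hp => hprime p (ht' hp)),
      Real.finsetProd_rpow t (fun p => (p : ℝ)) (fun p _ => Nat.cast_nonneg p) (-s)]
    push_cast
    rfl
  rw [Finset.sum_congr rfl h1]
  have hinj : Set.InjOn (fun t : Finset ℕ => ∏ p ∈ t, p) ((PP X).powerset : Set (Finset ℕ)) := by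
    intro t ht t' ht' h
    have ht1 := Finset.mem_powerset.1 (Finset.mem_coe.1 ht)
    have ht2 := Finset.mem_powerset.1 (Finset.mem_coe.1 ht')
    have h3 := Nat.primeFactors_prod (s := t) (fun p hp => hprime p (ht1 hp))
    have h4 := Nat.primeFactors_prod (s := t') (fun p hp => hprime p (ht2 hp))
    simp only at h
    rw [← h3, ← h4, h]
  rw [← Finset.sum_image (f := fun m : ℕ => rr Δ m * (m : ℝ) ^ (-s)) hinj]
  refine Finset.sum_le_sum_of_subset_of_nonneg ?_ (fun m _ _ =>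
    mul_nonneg (rr_nonneg Δ m) (Real.rpow_nonneg (Nat.cast_nonneg m) _))
  intro m hm
  obtain ⟨t, ht, rfl⟩ := Finset.mem_image.1 hm
  have ht' := Finset.mem_powerset.1 ht
  have hpos : ∀ t' ⊆ PP X, 0 < ∏ p ∈ t', p := fun t' h' =>
    Finset.prod_pos fun p hp => (hprime p (h' hp)).pos
  rw [Finset.mem_Icc]
  exact ⟨hpos t ht', Nat.le_of_dvd (hpos _ (Finset.Subset.refl _))
    (Finset.prod_dvd_prod_of_subset _ _ _ ht')⟩

private theorem u_sq (X : ℕ) : ∑ n ∈ Icc 1 X, 1 / (n : ℝ) ^ 2 ≤ 2 := by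
  have h : ∀ n : ℕ, 1 ≤ n → ∑ k ∈ Icc 1 n, 1 / (k : ℝ) ^ 2 ≤ 2 - 1 / (n : ℝ) := by
    intro n hn
    induction n, hn using Nat.le_induction with
    | base => norm_num
    | succ n hn ih =>
      rw [Finset.sum_Icc_succ_top (by omega)]
      have hn0 : (0 : ℝ) < n := by exact_mod_cast hn
      have h1 : 1 / ((n + 1 : ℕ) : ℝ) ^ 2 ≤ 1 / n - 1 / ((n + 1 : ℕ) : ℝ) := by
        push_cast
        rw [div_sub_div _ _ hn0.ne' (by positivity), div_le_div_iff₀ (by positivity) (by positivity)]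
        nlinarith
      linarith
  rcases Nat.eq_zero_or_pos X with h0 | h0
  · subst h0; simp
  · have := h X h0
    have h1 : (0 : ℝ) ≤ 1 / X := by positivity
    linarith

theorem jacobi_upper : ∃ C : ℝ, 0 < C ∧ ∀ κ : ℤ, ¬ IsSquare κ → ∀ X : ℕ, 1 ≤ X →
    ∑ p ∈ PP X, (jacobiSym κ p : ℝ) / p ≤ Real.log (1 + Real.log κ.natAbs) + C := by
  obtain ⟨C0, hC0, hM⟩ := mertens
  have hlog2 : 0 < Real.log 2 := Real.log_pos (by norm_num)
  have hlog4 : Real.log 4 = 2 * Real.log 2 := by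
    rw [show (4 : ℝ) = 2 ^ 2 by norm_num, Real.log_pow]; push_cast; ring
  refine ⟨C0 + 11 + Real.log 4, by positivity, fun κ hκ X hX => ?_⟩
  have hκ0 : κ ≠ 0 := by
    rintro rfl; exact hκ ⟨0, by ring⟩
  have hκ1 : (1 : ℝ) ≤ κ.natAbs := by
    have : 1 ≤ κ.natAbs := Int.natAbs_pos.2 hκ0
    exact_mod_cast this
  have hv : 0 ≤ Real.log (κ.natAbs : ℝ) := Real.log_nonneg hκ1
  have hv2 : 0 ≤ Real.log (1 + Real.log (κ.natAbs : ℝ)) := Real.log_nonneg (by linarith)
  have hprime : ∀ p ∈ PP X, p.Prime := fun p hp => (mem_filter.1 hp).2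
  have hle : ∀ p ∈ PP X, p ≤ X := fun p hp => (mem_Icc.1 (mem_filter.1 hp).1).2
  rcases Nat.lt_or_ge X 2 with h2 | h2
  · have hX1 : X = 1 := by omega
    have : PP X = ∅ := by
      apply Finset.eq_empty_of_forall_notMem
      intro p hp
      have h3 := (hprime p hp).two_le
      have h4 := hle p hp
      omega
    rw [this, Finset.sum_empty]
    positivity
  · have hXr : (2 : ℝ) ≤ X := by exact_mod_cast h2
    have hl : Real.log 2 ≤ Real.log X := Real.log_le_log (by norm_num) hXr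
    have hl0 : 0 < Real.log X := by linarith
    set l := Real.log X with hldef
    set s := 1 + 1 / l with hs
    have hs1 : 1 < s := by
      have : 0 < 1 / l := by positivity
      linarith
    have hp2 : ∀ p ∈ PP X, (2 : ℝ) ≤ p := fun p hp => by exact_mod_cast (hprime p hp).two_le
    have hpow : ∀ p ∈ PP X, (p : ℝ) ^ (-s) = 1 / p * Real.exp (-(Real.log p / l)) := by
      intro p hp
      have h0 : (0 : ℝ) < p := by have := hp2 p hp; linarith
      rw [Real.rpow_def_of_pos h0, hs]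
      have : Real.log p * -(1 + 1 / l) = -Real.log p + -(Real.log p / l) := by ring
      rw [this, Real.exp_add, Real.exp_neg, Real.exp_log h0, one_div]
    have hpow_le : ∀ p ∈ PP X, (p : ℝ) ^ (-s) ≤ 1 / p := by
      intro p hp
      have h0 := hp2 p hp
      rw [hpow p hp]
      have h1 : 0 ≤ Real.log p := Real.log_nonneg (by linarith)
      have h2 : Real.exp (-(Real.log p / l)) ≤ 1 := by
        rw [Real.exp_le_one_iff]
        have : 0 ≤ Real.log p / l := div_nonneg h1 hl0.le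
        linarith
      have h3 : (0 : ℝ) ≤ 1 / p := by positivity
      calc 1 / (p : ℝ) * Real.exp (-(Real.log p / l)) ≤ 1 / p * 1 :=
            mul_le_mul_of_nonneg_left h2 h3
        _ = 1 / p := mul_one _
    have hchi : ∀ p : ℕ, 0 ≤ 1 + chi κ p ∧ 1 + chi κ p ≤ 2 := by
      intro p
      rcases chi_cases κ p with h | h | h <;> rw [h] <;> norm_num
    -- the product
    have hprod : ∏ p ∈ PP X, (1 + (1 + chi κ p) * (p : ℝ) ^ (-s))
        ≤ (4 + Real.log κ.natAbs) * (1 + l) := by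
      refine (prod_le κ s X).trans ((rr_sum κ hκ s hs1 _).trans ?_)
      refine mul_le_mul_of_nonneg_left ?_ (by linarith)
      refine (ZZ_le s hs1 _).trans ?_
      have : s - 1 = 1 / l := by rw [hs]; ring
      rw [this, one_div_one_div]
    have hy0 : ∀ p ∈ PP X, 0 ≤ (1 + chi κ p) * (p : ℝ) ^ (-s) := fun p _ =>
      mul_nonneg (hchi p).1 (Real.rpow_nonneg (Nat.cast_nonneg p) _)
    have hlog : ∑ p ∈ PP X, Real.log (1 + (1 + chi κ p) * (p : ℝ) ^ (-s))
        ≤ Real.log (4 + Real.log κ.natAbs) + LL X := by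
      rw [← Real.log_prod (fun p hp => by have := hy0 p hp; positivity)]
      have h1 := Real.log_le_log (Finset.prod_pos fun p hp => by
        have := hy0 p hp; positivity) hprod
      rw [Real.log_mul (by positivity) (by positivity)] at h1
      exact h1
    have hterm : ∀ p ∈ PP X, (1 + chi κ p) * (p : ℝ) ^ (-s) - 2 * (1 / (p : ℝ) ^ 2)
        ≤ Real.log (1 + (1 + chi κ p) * (p : ℝ) ^ (-s)) := by
      intro p hp
      set y := (1 + chi κ p) * (p : ℝ) ^ (-s) with hy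
      have hy0' : 0 ≤ y := hy0 p hp
      have h0 := hp2 p hp
      have h1 : y ≤ 2 * (1 / p) :=
        mul_le_mul (hchi p).2 (hpow_le p hp) (Real.rpow_nonneg (Nat.cast_nonneg p) _) (by norm_num)
      have h2 := Real.le_log_one_add_of_nonneg hy0'
      have h3 : y - y ^ 2 / 2 ≤ 2 * y / (y + 2) := by
        rw [le_div_iff₀ (by linarith)]
        nlinarith [mul_nonneg hy0' (sq_nonneg y)]
      have h4 : y ^ 2 ≤ 4 * (1 / (p : ℝ) ^ 2) := by
        have h5 : y ^ 2 ≤ (2 * (1 / (p : ℝ))) ^ 2 := pow_le_pow_left₀ hy0' h1 2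
        calc y ^ 2 ≤ (2 * (1 / (p : ℝ))) ^ 2 := h5
          _ = 4 * (1 / (p : ℝ) ^ 2) := by ring
      linarith
    have hsq : ∑ p ∈ PP X, 2 * (1 / (p : ℝ) ^ 2) ≤ 4 := by
      rw [← Finset.mul_sum]
      have h1 : ∑ p ∈ PP X, 1 / (p : ℝ) ^ 2 ≤ ∑ n ∈ Icc 1 X, 1 / (n : ℝ) ^ 2 :=
        Finset.sum_le_sum_of_subset_of_nonneg (Finset.filter_subset _ _)
          (fun _ _ _ => by positivity)
      have h2 := u_sq X
      linarith
    have hmain : ∑ p ∈ PP X, (1 + chi κ p) * (p : ℝ) ^ (-s)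
        ≤ Real.log (4 + Real.log κ.natAbs) + LL X + 4 := by
      have h1 := Finset.sum_le_sum hterm
      rw [Finset.sum_sub_distrib] at h1
      linarith
    -- from p^(-s) to 1/p
    have hdiff : ∀ p ∈ PP X, (1 + chi κ p) * (1 / p) - (1 + chi κ p) * (p : ℝ) ^ (-s)
        ≤ 2 / l * (Real.log p / p) := by
      intro p hp
      have h0 := hp2 p hp
      have hp0 : (0 : ℝ) < p := by linarith
      have h1 : 0 ≤ Real.log p := Real.log_nonneg (by linarith)
      have h2 : 1 - Real.log p / l ≤ Real.exp (-(Real.log p / l)) := by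
        have := Real.add_one_le_exp (-(Real.log p / l))
        linarith
      have h3 : 1 / (p : ℝ) - (p : ℝ) ^ (-s) ≤ 1 / p * (Real.log p / l) := by
        rw [hpow p hp]
        have h4 : 1 / (p : ℝ) * (1 - Real.log p / l) ≤ 1 / p * Real.exp (-(Real.log p / l)) :=
          mul_le_mul_of_nonneg_left h2 (by positivity)
        linarith
      have h5 : 0 ≤ 1 / (p : ℝ) - (p : ℝ) ^ (-s) := by
        have := hpow_le p hp; linarith
      calc (1 + chi κ p) * (1 / p) - (1 + chi κ p) * (p : ℝ) ^ (-s)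
          = (1 + chi κ p) * (1 / p - (p : ℝ) ^ (-s)) := by ring
        _ ≤ 2 * (1 / p * (Real.log p / l)) :=
            mul_le_mul (hchi p).2 h3 h5 (by norm_num)
        _ = 2 / l * (Real.log p / p) := by ring
    have hTN : ∑ p ∈ PP X, 2 / l * (Real.log p / p) ≤ 6 := by
      rw [← Finset.mul_sum]
      have h1 : ∑ p ∈ PP X, Real.log p / p ≤ l + Real.log 4 := by
        have h2 := Pool.Agent.LibMaier.TN_le X hX
        have h3 : Pool.Agent.LibMaier.TN X = ∑ p ∈ PP X, Real.log p / p := by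
          unfold Pool.Agent.LibMaier.TN
          refine Finset.sum_congr ?_ fun _ _ => rfl
          ext p
          rw [Pool.Agent.LibMaier.mem_PN, PP, Finset.mem_filter, Finset.mem_Icc]
          constructor
          · rintro ⟨a, b⟩; exact ⟨⟨b.one_lt.le, a⟩, b⟩
          · rintro ⟨⟨_, a⟩, b⟩; exact ⟨a, b⟩
        rw [← h3]; exact h2
      have h4 : 2 / l * ∑ p ∈ PP X, Real.log p / p ≤ 2 / l * (l + Real.log 4) :=
        mul_le_mul_of_nonneg_left h1 (by positivity)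
      have h5 : 2 / l * (l + Real.log 4) = 2 + 2 * Real.log 4 / l := by
        field_simp
      have h6 : 2 * Real.log 4 / l ≤ 4 := by
        rw [div_le_iff₀ hl0, hlog4]; linarith
      linarith
    have hsum1 : ∑ p ∈ PP X, (1 + chi κ p) * (1 / (p : ℝ))
        ≤ Real.log (4 + Real.log κ.natAbs) + LL X + 10 := by
      have h1 := Finset.sum_le_sum hdiff
      rw [Finset.sum_sub_distrib] at h1
      linarith
    have hsum2 : ∑ p ∈ PP X, (1 + chi κ p) * (1 / (p : ℝ)) =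
        ∑ p ∈ PP X, 1 / (p : ℝ) + ∑ p ∈ PP X, chi κ p / p := by
      rw [← Finset.sum_add_distrib]
      exact Finset.sum_congr rfl fun p _ => by ring
    have hM1 := (abs_le.1 (hM X hX)).1
    have hJ : ∑ p ∈ PP X, (jacobiSym κ p : ℝ) / p ≤ ∑ p ∈ PP X, chi κ p / p + 1 := by
      have h1 : ∀ p ∈ PP X, (jacobiSym κ p : ℝ) / p ≤ chi κ p / p + (if p = 2 then 1 else 0) := by
        intro p hp
        rcases (hprime p hp).eq_two_or_odd' with h | h
        · subst h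
          have h3 : chi κ 2 = 0 := by
            unfold chi; rw [if_neg (by decide)]
          rw [h3, if_pos rfl, zero_div, zero_add]
          rcases jacobiSym.trichotomy κ 2 with h4 | h4 | h4 <;> rw [h4] <;> norm_num
        · unfold chi
          rw [if_pos h]
          split_ifs <;> linarith
      refine (Finset.sum_le_sum h1).trans ?_
      rw [Finset.sum_add_distrib, Finset.sum_ite_eq']
      split_ifs <;> linarith
    have hfin : Real.log (4 + Real.log κ.natAbs) ≤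
        Real.log 4 + Real.log (1 + Real.log κ.natAbs) := by
      rw [← Real.log_mul (by norm_num) (by positivity)]
      exact Real.log_le_log (by positivity) (by linarith)
    linarith

/-- Row U1. -/
theorem chi_upper : ∃ C : ℝ, 0 < C ∧ ∀ κ : ℤ, ¬ IsSquare κ → ∀ x : ℕ, 1 ≤ x →
    ∑ p ∈ PP x, (jacobiSym κ p : ℝ) / p ≤ LL κ.natAbs + C := jacobi_upper

end TwHL
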