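import Pool.Agent.LibTwHL.Defs2

namespace TwHL

/-- Row A1. `G = gcd(x, D)`, `x = G X`, `D = G D₁`, so `G^3 X q(X, D₁) = y^2`; `G` squarefree gives
`G^2 | y`, `y = G^2 v`, `G v^2 = X q(X, D₁)`. `X = ξ u^2`, `ξ` squarefree (`Nat.sq_mul_squarefree`),
`h = gcd(G, ξ)`, `G = h g`, `ξ = h k`; `g, k, h` pairwise coprime. Then `g v^2 = k u^2 q`, so
`g k q` is a square of a rational and `q = g k w^2` with `w` an integer as `g k` is squarefree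
(`(g v)^2 = g k (u^2 q)`, ...). `q ≠ 0` since `Δ = a^2 - 4b` is no square. `k | b`: a prime `p | k`
divides `X` and `q(X, D₁)`, hence `b D₁^2`, and `gcd(X, D₁) = 1`; `k` squarefree. -/
theorem decomp (a b D x y : ℤ) (hD : Squarefree D) (hx : 0 < x) (hb : b ≠ 0)
    (hΔ : ¬ IsSquare (a ^ 2 - 4 * b)) (h : y ^ 2 = x * (x ^ 2 + a * x * D + b * D ^ 2)) :
    ∃ (h g k u w : ℕ) (D₁ : ℤ), Dec a b D h g k u w D₁ ∧
      x = ((h * g * (h * k * u ^ 2) : ℕ) : ℤ) := by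
  have hD0 : D ≠ 0 := hD.ne_zero
  obtain ⟨G, X, D₁, hG0, hc, hxG, hDG⟩ : ∃ (G : ℕ) (X D₁ : ℤ), 0 < G ∧ IsCoprime X D₁ ∧
      x = G * X ∧ D = G * D₁ := by
    obtain ⟨G, X, D₁, h0, hc, h1, h2⟩ := Int.exists_gcd_one' (m := x) (n := D)
      (Int.gcd_pos_of_ne_zero_left D hx.ne')
    exact ⟨G, X, D₁, h0, Int.isCoprime_iff_gcd_eq_one.mpr hc, by rw [h1]; ring, by rw [h2]; ring⟩
  have hGz : (0 : ℤ) < G := by exact_mod_cast hG0
  have hX0 : 0 < X := by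
    rw [hxG] at hx
    exact (mul_pos_iff_of_pos_left hGz).mp hx
  have hD1 : D₁ ≠ 0 := by
    rintro rfl
    exact hD0 (by rw [hDG]; ring)
  have hGsq : Squarefree (G : ℤ) := hD.squarefree_of_dvd ⟨D₁, hDG⟩
  have hGsqN : Squarefree G := Int.squarefree_natCast.mp hGsq
  -- the form does not vanish
  have hq0 : qf a b X D₁ ≠ 0 := by
    intro h0
    apply hΔ
    rw [qf] at h0
    have e1 : (2 * X + a * D₁) ^ 2 = (a ^ 2 - 4 * b) * D₁ ^ 2 := by linear_combination 4 * h0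
    have e2 : D₁ ^ 2 ∣ (2 * X + a * D₁) ^ 2 := ⟨a ^ 2 - 4 * b, by rw [e1]; ring⟩
    rw [Int.pow_dvd_pow_iff two_ne_zero] at e2
    obtain ⟨t, ht⟩ := e2
    refine ⟨t, ?_⟩
    have e3 : D₁ ^ 2 * (a ^ 2 - 4 * b) = D₁ ^ 2 * (t * t) := by
      rw [ht] at e1
      linear_combination -e1
    exact mul_left_cancel₀ (pow_ne_zero 2 hD1) e3
  -- `y = G^2 v`
  have hy : y ^ 2 = (G : ℤ) ^ 3 * (X * qf a b X D₁) := by
    rw [h, hxG, hDG, qf]; ring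
  obtain ⟨v, hv⟩ : ∃ v : ℤ, (G : ℤ) * v ^ 2 = X * qf a b X D₁ := by
    have e1 : (G : ℤ) ∣ y := by
      have : (G : ℤ) ^ 2 ∣ y ^ 2 := ⟨G * (X * qf a b X D₁), by rw [hy]; ring⟩
      rwa [Int.pow_dvd_pow_iff two_ne_zero] at this
    obtain ⟨y', hy'⟩ := e1
    have e2 : y' ^ 2 = G * (X * qf a b X D₁) := by
      rw [hy'] at hy
      have : (G : ℤ) ^ 2 * y' ^ 2 = (G : ℤ) ^ 2 * (G * (X * qf a b X D₁)) := by
        linear_combination hy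
      exact mul_left_cancel₀ (pow_ne_zero 2 hGz.ne') this
    have e3 : (G : ℤ) ∣ y' := by
      have : (G : ℤ) ∣ y' ^ 2 := ⟨X * qf a b X D₁, e2⟩
      exact (hGsq.dvd_pow_iff_dvd two_ne_zero).mp this
    obtain ⟨v, hv⟩ := e3
    refine ⟨v, ?_⟩
    rw [hv] at e2
    have : (G : ℤ) * (G * v ^ 2) = G * (X * qf a b X D₁) := by linear_combination e2
    exact mul_left_cancel₀ hGz.ne' this
  -- `X = ξ u^2`
  obtain ⟨XN, rfl⟩ := Int.eq_ofNat_of_zero_le hX0.le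
  have hXN : 0 < XN := by exact_mod_cast hX0
  obtain ⟨ξ, u, hξ0, hu0, hξu, hξsq⟩ := Nat.sq_mul_squarefree_of_pos hXN
  -- gcds
  obtain ⟨hh, g, k, hh0, hgk, hGe, hξe⟩ : ∃ hh g k : ℕ, 0 < hh ∧ Nat.Coprime g k ∧
      G = g * hh ∧ ξ = k * hh :=
    Nat.exists_coprime' (m := G) (n := ξ) (Nat.gcd_pos_of_pos_left ξ hG0)
  have hg0 : 0 < g := by
    rcases Nat.eq_zero_or_pos g with h0 | h0
    · rw [h0, zero_mul] at hGe; omega
    · exact h0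
  have hk0 : 0 < k := by
    rcases Nat.eq_zero_or_pos k with h0 | h0
    · rw [h0, zero_mul] at hξe; omega
    · exact h0
  have hgsq : Squarefree g := hGsqN.squarefree_of_dvd ⟨hh, hGe⟩
  have hksq : Squarefree k := hξsq.squarefree_of_dvd ⟨hh, hξe⟩
  have hgksq : Squarefree (g * k) := (Nat.squarefree_mul_iff).mpr ⟨hgk, hgsq, hksq⟩
  have hgksqZ : Squarefree ((g * k : ℕ) : ℤ) := Int.squarefree_natCast.mpr hgksq
  have hXe : XN = hh * k * u ^ 2 := by rw [← hξu, hξe]; ring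
  set q : ℤ := qf a b (XN : ℤ) D₁ with hqdef
  -- `g v^2 = k u^2 q`
  have hhz : (hh : ℤ) ≠ 0 := by exact_mod_cast hh0.ne'
  have hgz : (g : ℤ) ≠ 0 := by exact_mod_cast hg0.ne'
  have hkz : (k : ℤ) ≠ 0 := by exact_mod_cast hk0.ne'
  have huz : (u : ℤ) ≠ 0 := by exact_mod_cast hu0.ne'
  have e1 : (g : ℤ) * v ^ 2 = k * u ^ 2 * q := by
    have e0 : (hh : ℤ) * (g * v ^ 2) = hh * (k * u ^ 2 * q) := by
      have hX' : (XN : ℤ) = hh * k * u ^ 2 := by rw [hXe]; push_cast; ring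
      have hG' : (G : ℤ) = g * hh := by rw [hGe]; push_cast; ring
      rw [hG'] at hv
      linear_combination hv + q * hX'
    exact mul_left_cancel₀ hhz e0
  have e2 : ((g : ℤ) * v) ^ 2 = (u : ℤ) ^ 2 * (((g * k : ℕ) : ℤ) * q) := by
    push_cast
    linear_combination (g : ℤ) * e1
  have e3 : (u : ℤ) ∣ g * v := by
    have : (u : ℤ) ^ 2 ∣ ((g : ℤ) * v) ^ 2 := ⟨_, e2⟩
    rwa [Int.pow_dvd_pow_iff two_ne_zero] at this
  obtain ⟨t, ht⟩ := e3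
  have e4 : t ^ 2 = ((g * k : ℕ) : ℤ) * q := by
    rw [ht] at e2
    have : (u : ℤ) ^ 2 * t ^ 2 = (u : ℤ) ^ 2 * (((g * k : ℕ) : ℤ) * q) := by
      linear_combination e2
    exact mul_left_cancel₀ (pow_ne_zero 2 huz) this
  have e5 : ((g * k : ℕ) : ℤ) ∣ t := by
    have : ((g * k : ℕ) : ℤ) ∣ t ^ 2 := ⟨q, e4⟩
    exact (hgksqZ.dvd_pow_iff_dvd two_ne_zero).mp this
  obtain ⟨w, hw⟩ := e5
  have hgkz : ((g * k : ℕ) : ℤ) ≠ 0 := by
    exact_mod_cast (Nat.mul_pos hg0 hk0).ne'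
  have e6 : q = ((g * k : ℕ) : ℤ) * w ^ 2 := by
    rw [hw] at e4
    have : ((g * k : ℕ) : ℤ) * q = ((g * k : ℕ) : ℤ) * (((g * k : ℕ) : ℤ) * w ^ 2) := by
      linear_combination -e4
    exact mul_left_cancel₀ hgkz this
  have hw0 : w ≠ 0 := by
    rintro rfl
    exact hq0 (by rw [e6]; ring)
  refine ⟨hh, g, k, u, w.natAbs, D₁, ⟨hh0, hg0, hk0, hu0, Int.natAbs_pos.mpr hw0, hD, ?_, ?_, ?_,
    ?_, hgksq, ?_⟩, ?_⟩
  · rw [hDG, hGe]; push_cast; ring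
  · rw [← hXe]; exact hc
  · rw [← hXe, ← hqdef, e6]
    push_cast
    rw [sq_abs]
  · have : ξ = hh * k := by rw [hξe]; ring
    rw [← this]; exact hξsq
  · have k1 : (k : ℤ) ∣ (XN : ℤ) := by
      rw [hXe]; push_cast
      exact ⟨hh * u ^ 2, by ring⟩
    have k2 : (k : ℤ) ∣ q := by
      rw [e6]; push_cast
      exact ⟨g * w ^ 2, by ring⟩
    have k3 : (k : ℤ) ∣ D₁ ^ 2 * b := by
      have : D₁ ^ 2 * b = q - XN * (XN + a * D₁) := by rw [hqdef, qf]; ring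
      rw [this]
      exact dvd_sub k2 (k1.mul_right _)
    have k4 : IsCoprime (k : ℤ) (D₁ ^ 2) := (hc.of_isCoprime_of_dvd_left k1).pow_right
    exact k4.dvd_of_dvd_mul_left k3
  · rw [hxG, hXe, hGe]; push_cast; ring

end TwHL
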