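import Pool.Agent.LibTwHL.Defs2

namespace TwHL

private theorem prime_not_dvd_D₁ {D D₁ m : ℤ} {p c : ℕ} (hp : p.Prime) (hD : Squarefree D)
    (hDD : D = (c : ℤ) * m * D₁) (hpc : p ∣ c) : ¬ (p : ℤ) ∣ D₁ := by
  intro h1
  have h2 : (p : ℤ) * p ∣ D := by
    rw [hDD]
    have hc : (p : ℤ) ∣ (c : ℤ) := Int.natCast_dvd_natCast.mpr hpc
    exact mul_dvd_mul (hc.mul_right m) h1
  have h3 := hD (p : ℤ) h2
  exact (Nat.prime_iff_prime_int.mp hp).not_isUnit h3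

/-- Row A2. `p | h`: `X = h k u^2 ≡ 0`, so `b D₁^2 ≡ g k w^2 mod p`; `p ∤ D₁` (`D = h g D₁`
squarefree), `p ∤ b`: `(b k g) w^2 ≡ (b D₁)^2 ≢ 0`. -/
theorem dec_h {a b D : ℤ} {h g k u w : ℕ} {D₁ : ℤ} (H : Dec a b D h g k u w D₁) {p : ℕ}
    (hp : p.Prime) (hph : p ∣ h) (hpb : ¬ (p : ℤ) ∣ 2 * b) :
    jacobiSym (b * k * g) p = 1 := by
  obtain ⟨hh, hg, hk, hu, hw, hD, hDD, hc, hq, hsq1, hsq2, hkb⟩ := H
  have : Fact p.Prime := ⟨hp⟩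
  have hpD : ¬ (p : ℤ) ∣ D₁ := prime_not_dvd_D₁ (m := (g : ℤ)) hp hD hDD hph
  have hbz : (b : ZMod p) ≠ 0 := by
    intro h0
    rw [ZMod.intCast_zmod_eq_zero_iff_dvd] at h0
    exact hpb (h0.mul_left 2)
  have hDz : (D₁ : ZMod p) ≠ 0 := by
    intro h0
    rw [ZMod.intCast_zmod_eq_zero_iff_dvd] at h0
    exact hpD h0
  have hhz : (h : ZMod p) = 0 := (ZMod.natCast_eq_zero_iff h p).mpr hph
  have hq' := congrArg (fun z : ℤ => (z : ZMod p)) hq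
  simp only [qf] at hq'
  push_cast at hq'
  rw [hhz] at hq'
  have hE : ((b : ZMod p) * D₁) ^ 2 = (b * k * g) * (w : ZMod p) ^ 2 := by
    linear_combination (b : ZMod p) * hq'
  have hne : ((b : ZMod p) * D₁) ^ 2 ≠ 0 := pow_ne_zero 2 (mul_ne_zero hbz hDz)
  have hne2 : (b * k * g : ZMod p) * (w : ZMod p) ^ 2 ≠ 0 := by rw [← hE]; exact hne
  have hw0 : (w : ZMod p) ≠ 0 := by
    intro h0
    exact hne2 (by rw [h0]; ring)
  have hbkg : (b * k * g : ZMod p) ≠ 0 := left_ne_zero_of_mul hne2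
  rw [← jacobiSym.legendreSym.to_jacobiSym]
  have hcast : (((b * k * g : ℤ)) : ZMod p) = (b * k * g : ZMod p) := by push_cast; rfl
  rw [legendreSym.eq_one_iff p (by rw [hcast]; exact hbkg), hcast]
  refine ⟨(b * D₁) / w, ?_⟩
  rw [div_mul_div_comm, eq_div_iff (mul_ne_zero hw0 hw0)]
  linear_combination -hE

/-- `p | g`: `4 q = (2X + a D₁)^2 - Δ D₁^2 ≡ 0 mod p`, `p ∤ D₁`, `p ∤ Δ`. -/
theorem dec_g {a b D : ℤ} {h g k u w : ℕ} {D₁ : ℤ} (H : Dec a b D h g k u w D₁) {p : ℕ}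
    (hp : p.Prime) (hph : p ∣ g) (hpb : ¬ (p : ℤ) ∣ 2 * (a ^ 2 - 4 * b)) :
    jacobiSym (a ^ 2 - 4 * b) p = 1 := by
  obtain ⟨hh, hg, hk, hu, hw, hD, hDD, hc, hq, hsq1, hsq2, hkb⟩ := H
  have : Fact p.Prime := ⟨hp⟩
  have hpD : ¬ (p : ℤ) ∣ D₁ := prime_not_dvd_D₁ (m := (h : ℤ)) hp hD (by rw [hDD]; ring) hph
  have hDz : (D₁ : ZMod p) ≠ 0 := by
    intro h0
    rw [ZMod.intCast_zmod_eq_zero_iff_dvd] at h0
    exact hpD h0
  have hΔz : ((a ^ 2 - 4 * b : ℤ) : ZMod p) ≠ 0 := by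
    intro h0
    rw [ZMod.intCast_zmod_eq_zero_iff_dvd] at h0
    exact hpb (h0.mul_left 2)
  have hgz : (g : ZMod p) = 0 := (ZMod.natCast_eq_zero_iff g p).mpr hph
  have hq' := congrArg (fun z : ℤ => (z : ZMod p)) hq
  simp only [qf] at hq'
  push_cast at hq'
  rw [hgz] at hq'
  rw [← jacobiSym.legendreSym.to_jacobiSym]
  rw [legendreSym.eq_one_iff p hΔz]
  refine ⟨(2 * (h * k * u ^ 2) + a * D₁) / D₁, ?_⟩
  push_cast
  field_simp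
  linear_combination -4 * hq'

/-- `p | D₁`: `X^2 ≡ g k w^2 mod p` and `p ∤ X`. -/
theorem dec_D {a b D : ℤ} {h g k u w : ℕ} {D₁ : ℤ} (H : Dec a b D h g k u w D₁) {p : ℕ}
    (hp : p.Prime) (hph : (p : ℤ) ∣ D₁) (hpb : p ≠ 2) :
    jacobiSym (k * g) p = 1 := by
  obtain ⟨hh, hg, hk, hu, hw, hD, hDD, hc, hq, hsq1, hsq2, hkb⟩ := H
  have : Fact p.Prime := ⟨hp⟩
  have hpX : ¬ (p : ℤ) ∣ ((h * k * u ^ 2 : ℕ) : ℤ) := by
    intro h0
    exact (Nat.prime_iff_prime_int.mp hp).not_isUnit (hc.isUnit_of_dvd' h0 hph)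
  have hXz : (((h * k * u ^ 2 : ℕ) : ℤ) : ZMod p) ≠ 0 := by
    intro h0
    rw [ZMod.intCast_zmod_eq_zero_iff_dvd] at h0
    exact hpX h0
  have hDz : (D₁ : ZMod p) = 0 := (ZMod.intCast_zmod_eq_zero_iff_dvd _ _).mpr hph
  have hq' := congrArg (fun z : ℤ => (z : ZMod p)) hq
  simp only [qf] at hq'
  rw [Int.cast_add, Int.cast_add, Int.cast_pow, Int.cast_mul, Int.cast_mul, Int.cast_mul,
    Int.cast_pow, hDz] at hq'
  generalize (((h * k * u ^ 2 : ℕ) : ℤ) : ZMod p) = X at *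
  push_cast at hq'
  have hE : X ^ 2 = (k * g : ZMod p) * (w : ZMod p) ^ 2 := by
    linear_combination hq'
  have hne : X ^ 2 ≠ 0 := pow_ne_zero 2 hXz
  have hne2 : (k * g : ZMod p) * (w : ZMod p) ^ 2 ≠ 0 := by rw [← hE]; exact hne
  have hw0 : (w : ZMod p) ≠ 0 := by
    intro h0
    exact hne2 (by rw [h0]; ring)
  have hkg : (k * g : ZMod p) ≠ 0 := left_ne_zero_of_mul hne2
  rw [← jacobiSym.legendreSym.to_jacobiSym]
  have hcast : (((k * g : ℤ)) : ZMod p) = (k * g : ZMod p) := by push_cast; rfl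
  rw [legendreSym.eq_one_iff p (by rw [hcast]; exact hkg), hcast]
  refine ⟨X / w, ?_⟩
  field_simp
  linear_combination -hE

end TwHL
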