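import Pool.Agent.LibTwHL.Defs2

namespace TwHL

/-- `g k = 1`: `(2X + a D₁ - 2w)(2X + a D₁ + 2w) = Δ D₁^2 ≠ 0`; for nonzero integers
`|f₁| + |f₂| ≤ 1 + |f₁ f₂|`. -/
theorem dec_one {a b D : ℤ} {h g k u w : ℕ} {D₁ : ℤ} (H : Dec a b D h g k u w D₁)
    (hΔ : ¬ IsSquare (a ^ 2 - 4 * b)) (hgk : IsSquare (g * k)) :
    ((h * k * u ^ 2 : ℕ) : ℤ) ≤ |a ^ 2 - 4 * b| * D₁ ^ 2 + |a| * |D₁| := by
  obtain ⟨hh, hg, hk, hu, hw, hD, hDD, hc, hq, hsq1, hsq2, hkb⟩ := H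
  have hgk1 : g * k = 1 := by
    obtain ⟨r, hr⟩ := hgk
    have hr1 : IsUnit r := hsq2 r ⟨1, by rw [hr]; ring⟩
    rw [Nat.isUnit_iff] at hr1
    rw [hr, hr1]
  generalize ((h * k * u ^ 2 : ℕ) : ℤ) = X at *
  rw [hgk1, one_mul, qf] at hq
  push_cast at hq
  generalize (w : ℤ) = W at *
  have hD0 : D ≠ 0 := hD.ne_zero
  have hD1 : D₁ ≠ 0 := by
    rintro rfl
    exact hD0 (by rw [hDD]; ring)
  have hΔ0 : a ^ 2 - 4 * b ≠ 0 := fun h0 => hΔ (by rw [h0]; exact ⟨0, by ring⟩)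
  set f₁ : ℤ := 2 * X + a * D₁ - 2 * W with hf₁
  set f₂ : ℤ := 2 * X + a * D₁ + 2 * W with hf₂
  have hprod : f₁ * f₂ = (a ^ 2 - 4 * b) * D₁ ^ 2 := by
    rw [hf₁, hf₂]
    linear_combination 4 * hq
  have hne : f₁ * f₂ ≠ 0 := by
    rw [hprod]
    exact mul_ne_zero hΔ0 (pow_ne_zero 2 hD1)
  have h1 : 1 ≤ |f₁| := Int.one_le_abs (left_ne_zero_of_mul hne)
  have h2 : 1 ≤ |f₂| := Int.one_le_abs (right_ne_zero_of_mul hne)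
  have habs : |f₁| * |f₂| = |a ^ 2 - 4 * b| * D₁ ^ 2 := by
    rw [← abs_mul, hprod, abs_mul, abs_of_nonneg (sq_nonneg D₁)]
  have h3 : |f₁| + |f₂| ≤ 1 + |f₁| * |f₂| := by nlinarith
  have h4 : 4 * X + 2 * (a * D₁) ≤ |f₁| + |f₂| := by
    have e1 := le_abs_self f₁
    have e2 := le_abs_self f₂
    have e3 : f₁ + f₂ = 4 * X + 2 * (a * D₁) := by rw [hf₁, hf₂]; ring
    linarith
  have h5 : 1 ≤ |f₁| * |f₂| := by nlinarith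
  have h6 : -(|a| * |D₁|) ≤ a * D₁ := by
    rw [← abs_mul]
    exact neg_abs_le _
  have h7 : 0 ≤ |a| * |D₁| := by positivity
  rw [← habs]
  linarith

end TwHL
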