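import Mathlib

/-! Twists of an elliptic curve with a rational 2-torsion point: definitions.
No row may use straight double quotes, the tactic `convert` or macros. -/

set_option autoImplicit false

namespace TwHL

/-- the primes up to `x` -/
def PP (x : ℕ) : Finset ℕ := (Finset.Icc 1 x).filter Nat.Prime

/-- the primes in `(2^j, 2^(j+1)]` -/
def PB (j : ℕ) : Finset ℕ := (Finset.Ioc (2 ^ j) (2 ^ (j + 1))).filter Nat.Prime

/-- `log (1 + log x)`, defined and nonnegative for every natural number `x` -/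
noncomputable def LL (x : ℕ) : ℝ := Real.log (1 + Real.log x)

/-- the multiplicative function supported on squarefree numbers with values `w p` at primes -/
noncomputable def FF (w : ℕ → ℝ) (n : ℕ) : ℝ :=
  if Squarefree n then ∏ p ∈ n.primeFactors, w p else 0

/-- number of prime factors `p` of `n`, not dividing `W`, with `(Δ/p) = 1` -/
def op (Δ : ℤ) (W n : ℕ) : ℕ :=
  (n.primeFactors.filter (fun p => ¬ p ∣ W ∧ jacobiSym Δ p = 1)).card

/-- block sum of signs times `(g/p)/p` -/
noncomputable def SS (s : ℕ → ℝ) (j g : ℕ) : ℝ :=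
  ∑ p ∈ PB j, s p * (jacobiSym (g : ℤ) p : ℝ) / p

open Classical in
/-- exceptional `g` in `(Y, 2Y]` -/
noncomputable def Exc (s : ℕ → ℝ) (ε : ℝ) (j₀ J Y : ℕ) : Finset ℕ :=
  (Finset.Ioc Y (2 * Y)).filter (fun g => Squarefree g ∧
    ∃ j ∈ Finset.Icc j₀ J, (16 * 2 ^ (4 * j) ≤ Y ∨ Y ^ 3 ≤ 2 ^ j) ∧ ε / j < |SS s j g|)

/-- the binary quadratic form -/
def qf (a b X Y : ℤ) : ℤ := X ^ 2 + a * X * Y + b * Y ^ 2

/-- trace of the product of `X - ω D` and `X' - ω D'` plus `2 m w w'` -/
def tau (a b m X D w X' D' w' : ℤ) : ℤ :=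
  2 * X * X' + a * (X * D' + X' * D) + (a ^ 2 - 2 * b) * D * D' + 2 * m * w * w'

end TwHL
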