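import Pool.Agent.LibTwHL.Defs

set_option autoImplicit false

namespace TwHL

/-- decomposition data of a point `(x, y)` of `y^2 = x (x^2 + a x D + b D^2)`:
`x = h g (h k u^2)`, `D = h g D₁` -/
def Dec (a b D : ℤ) (h g k u w : ℕ) (D₁ : ℤ) : Prop :=
  0 < h ∧ 0 < g ∧ 0 < k ∧ 0 < u ∧ 0 < w ∧ Squarefree D ∧ D = h * g * D₁ ∧
  IsCoprime (((h * k * u ^ 2 : ℕ)) : ℤ) D₁ ∧
  qf a b ((h * k * u ^ 2 : ℕ) : ℤ) D₁ = ((g * k * w ^ 2 : ℕ) : ℤ) ∧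
  Squarefree (h * k) ∧ Squarefree (g * k) ∧ (k : ℤ) ∣ b

/-- weights for `g` -/
noncomputable def wg (Δ : ℤ) (W p : ℕ) : ℝ :=
  if p ∣ W then 1 else if jacobiSym Δ p = 1 then 4 / 5 else 0

/-- weights for `h`; `κ` stands for `κ g` -/
noncomputable def wh (Δ κ : ℤ) (W p : ℕ) : ℝ :=
  if p ∣ W then 1 else if jacobiSym κ p = 1 then (if jacobiSym Δ p = 1 then 4 / 5 else 1) else 0

/-- `g` is good for `κ`, `Δ` up to `N` -/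
def Good (Δ κ : ℤ) (N g : ℕ) : Prop :=
  ∀ x : ℕ, 1 ≤ x → x ≤ N →
    |∑ p ∈ PP x, (jacobiSym (κ * g) p : ℝ) / p| ≤ 1 / 1000 * LL N ∧
    |∑ p ∈ PP x, (jacobiSym (κ * g) p : ℝ) * (jacobiSym Δ p : ℝ) / p| ≤ 1 / 1000 * LL N

end TwHL
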