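import Pool.Agent.LibTwHL.Defs2
import Pool.Agent.LibTwHL.A1
import Pool.Agent.LibTwHL.A3

namespace TwHL

private theorem point_dec_int (A₀ B₀ e : ℤ) (he : e ^ 3 + A₀ * e + B₀ = 0)
    (hb : 3 * e ^ 2 + A₀ ≠ 0)
    (hΔ : ¬ IsSquare (-3 * e ^ 2 - 4 * A₀)) (D x y : ℤ) (hD : Squarefree D)
    (hxy : y ^ 2 = x ^ 3 + A₀ * D ^ 2 * x + B₀ * D ^ 3)
    (hx : (2 * (|-3 * e ^ 2 - 4 * A₀| + |3 * e|) + 2 * |e| + |A₀| + |B₀| + 1) * D ^ 2 < |x|) :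
    ∃ (h g k u w : ℕ) (D₁ : ℤ), Dec (3 * e) (3 * e ^ 2 + A₀) D h g k u w D₁ ∧
      ¬ IsSquare (g * k) ∧ |x| ≤ 2 * ((h * g * (h * k * u ^ 2) : ℕ) : ℤ) ∧
      ((h * g * (h * k * u ^ 2) : ℕ) : ℤ) ≤ 2 * |x| := by
  have hD0 : D ≠ 0 := hD.ne_zero
  have hDabs : 1 ≤ |D| := Int.one_le_abs hD0
  have hD2 : 1 ≤ D ^ 2 := by
    rw [← sq_abs]
    nlinarith
  have hDD2 : |D| ≤ D ^ 2 := by
    rw [← sq_abs]
    nlinarith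
  have p1 := abs_nonneg (-3 * e ^ 2 - 4 * A₀)
  have p2 := abs_nonneg (3 * e)
  have p3 := abs_nonneg e
  have p4 := abs_nonneg A₀
  have p5 := abs_nonneg B₀
  have hx1 : D ^ 2 < |x| := by nlinarith
  have hxAB : (|A₀| + |B₀|) < |x| := by nlinarith
  have hxe : 2 * |e| * D ^ 2 < |x| := by nlinarith
  have hxΔ : 2 * (|-3 * e ^ 2 - 4 * A₀| + |3 * e|) * D ^ 2 < |x| := by nlinarith
  have hxpos : 0 < x := by
    by_contra hneg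
    have hx' : |x| = -x := abs_of_nonpos (by omega)
    have q1 : A₀ * D ^ 2 * x ≤ |A₀| * |x| ^ 2 := by
      calc A₀ * D ^ 2 * x ≤ |A₀ * D ^ 2 * x| := le_abs_self _
        _ = |A₀| * (D ^ 2 * |x|) := by
            rw [abs_mul, abs_mul, abs_of_nonneg (sq_nonneg D)]
            ring
        _ ≤ |A₀| * |x| ^ 2 := by
            apply mul_le_mul_of_nonneg_left _ p4
            rw [sq (|x|)]
            exact mul_le_mul_of_nonneg_right hx1.le (abs_nonneg x)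
    have q2 : B₀ * D ^ 3 ≤ |B₀| * |x| ^ 2 := by
      calc B₀ * D ^ 3 ≤ |B₀ * D ^ 3| := le_abs_self _
        _ = |B₀| * (D ^ 2 * |D|) := by
            rw [abs_mul, abs_pow, ← sq_abs]
            ring
        _ ≤ |B₀| * |x| ^ 2 := by
            apply mul_le_mul_of_nonneg_left _ p5
            rw [sq (|x|)]
            exact mul_le_mul hx1.le (by omega) (abs_nonneg D) (abs_nonneg x)
    have q3 : x ^ 3 = - |x| ^ 3 := by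
      rw [hx']
      ring
    have q4 : 0 ≤ y ^ 2 := sq_nonneg y
    have q5 : 0 < |x| := by omega
    have q6 : 0 < |x| ^ 2 := by positivity
    have q7 : |x| ^ 3 = |x| * |x| ^ 2 := by ring
    have q8 : (|A₀| + |B₀|) * |x| ^ 2 < |x| * |x| ^ 2 := mul_lt_mul_of_pos_right hxAB q6
    rw [hxy, q3, q7] at q4
    nlinarith
  have hxx : |x| = x := abs_of_pos hxpos
  have heD : |e * D| ≤ |e| * D ^ 2 := by
    rw [abs_mul]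
    exact mul_le_mul_of_nonneg_left hDD2 p3
  have heD1 := abs_le.mp heD
  have hx'1 : |x| ≤ 2 * (x - e * D) := by
    rw [hxx] at hxe ⊢
    linarith [heD1.2]
  have hx'2 : x - e * D ≤ 2 * |x| := by
    rw [hxx] at hxe ⊢
    linarith [heD1.1]
  have hx'pos : 0 < x - e * D := by
    rw [hxx] at hx'1
    omega
  have hΔ' : ¬ IsSquare ((3 * e) ^ 2 - 4 * (3 * e ^ 2 + A₀)) := by
    have : (3 * e) ^ 2 - 4 * (3 * e ^ 2 + A₀) = -3 * e ^ 2 - 4 * A₀ := by ring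
    rw [this]
    exact hΔ
  have hy' : y ^ 2 = (x - e * D) * ((x - e * D) ^ 2 + (3 * e) * (x - e * D) * D
      + (3 * e ^ 2 + A₀) * D ^ 2) := by
    rw [hxy]
    linear_combination D ^ 3 * he
  obtain ⟨h, g, k, u, w, D₁, hdec, hxeq⟩ :=
    decomp (3 * e) (3 * e ^ 2 + A₀) D (x - e * D) y hD hx'pos hb hΔ' hy'
  refine ⟨h, g, k, u, w, D₁, hdec, ?_, ?_, ?_⟩
  · intro hsq
    have hone := dec_one hdec hΔ' hsq
    have hΔe : (3 * e) ^ 2 - 4 * (3 * e ^ 2 + A₀) = -3 * e ^ 2 - 4 * A₀ := by ring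
    rw [hΔe] at hone
    have hh : 0 < h := hdec.1
    have hg : 0 < g := hdec.2.1
    have hDeq : D = h * g * D₁ := hdec.2.2.2.2.2.2.1
    have hD1 : D₁ ≠ 0 := by
      rintro rfl
      exact hD0 (by rw [hDeq]; ring)
    have r1 : 1 ≤ |D₁| := Int.one_le_abs hD1
    have r2 : |D₁| ≤ D₁ ^ 2 := by
      rw [← sq_abs]
      nlinarith
    have r3 : ((h * k * u ^ 2 : ℕ) : ℤ) ≤ (|-3 * e ^ 2 - 4 * A₀| + |3 * e|) * D₁ ^ 2 := by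
      nlinarith
    have r4 : (1 : ℤ) ≤ ((h * g : ℕ) : ℤ) := by
      exact_mod_cast Nat.mul_pos hh hg
    have r5 : ((h * g : ℕ) : ℤ) * ((h * k * u ^ 2 : ℕ) : ℤ)
        ≤ (|-3 * e ^ 2 - 4 * A₀| + |3 * e|) * D ^ 2 := by
      have s1 : D ^ 2 = ((h * g : ℕ) : ℤ) ^ 2 * D₁ ^ 2 := by
        rw [hDeq]
        push_cast
        ring
      rw [s1]
      have s2 : ((h * g : ℕ) : ℤ) ≤ ((h * g : ℕ) : ℤ) ^ 2 := by nlinarith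
      have s3 : 0 ≤ (|-3 * e ^ 2 - 4 * A₀| + |3 * e|) * D₁ ^ 2 := by positivity
      calc ((h * g : ℕ) : ℤ) * ((h * k * u ^ 2 : ℕ) : ℤ)
          ≤ ((h * g : ℕ) : ℤ) * ((|-3 * e ^ 2 - 4 * A₀| + |3 * e|) * D₁ ^ 2) :=
            mul_le_mul_of_nonneg_left r3 (by omega)
        _ ≤ ((h * g : ℕ) : ℤ) ^ 2 * ((|-3 * e ^ 2 - 4 * A₀| + |3 * e|) * D₁ ^ 2) :=
            mul_le_mul_of_nonneg_right s2 s3
        _ = (|-3 * e ^ 2 - 4 * A₀| + |3 * e|) * (((h * g : ℕ) : ℤ) ^ 2 * D₁ ^ 2) := by ring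
    have r6 : ((h * g * (h * k * u ^ 2) : ℕ) : ℤ)
        = ((h * g : ℕ) : ℤ) * ((h * k * u ^ 2 : ℕ) : ℤ) := by
      push_cast
      ring
    rw [r6] at hxeq
    rw [hxeq] at hx'1
    linarith
  · rw [← hxeq]
    exact hx'1
  · rw [← hxeq]
    exact hx'2

/-- Row F1. `a = 3e`, `b = 3e^2 + A₀`, `x' = x - e D`; `a^2 - 4b = -3e^2 - 4A₀`. For `|D| ≥ D₀` and
`|D|^(2+δ) < |x|`: `x > 0` (otherwise `x^3 + A₀D^2x + B₀D^3 < 0`), `x/2 ≤ x' ≤ 2x`, `decomp` for `x'`;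
`g k` is no square by `dec_one` (`x' = h g (h k u^2) ≤ |D| (|Δ| D₁^2 + |a||D₁|)/|D₁|`-ish
`≤ C D^2`). -/
theorem point_dec (A₀ B₀ e : ℤ) (he : e ^ 3 + A₀ * e + B₀ = 0) (hb : 3 * e ^ 2 + A₀ ≠ 0)
    (hΔ : ¬ IsSquare (-3 * e ^ 2 - 4 * A₀)) (δ : ℝ) (hδ : 0 < δ) : ∃ D₀ : ℕ, ∀ D x y : ℤ,
    (D₀ : ℤ) ≤ |D| → Squarefree D → y ^ 2 = x ^ 3 + A₀ * D ^ 2 * x + B₀ * D ^ 3 →
    ((|D| : ℤ) : ℝ) ^ (2 + δ) < ((|x| : ℤ) : ℝ) →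
    ∃ (h g k u w : ℕ) (D₁ : ℤ), Dec (3 * e) (3 * e ^ 2 + A₀) D h g k u w D₁ ∧
      ¬ IsSquare (g * k) ∧
      ((|D| : ℤ) : ℝ) ^ (2 + δ) ≤ 2 * ((h * g * (h * k * u ^ 2) : ℕ) : ℝ) ∧
      ((h * g * (h * k * u ^ 2) : ℕ) : ℝ) ≤ 2 * ((|x| : ℤ) : ℝ) := by
  obtain ⟨K, hKdef⟩ : ∃ K : ℤ, K = 2 * (|-3 * e ^ 2 - 4 * A₀| + |3 * e|) + 2 * |e| + |A₀|
    + |B₀| + 1 := ⟨_, rfl⟩
  have hKpos : 0 < K := by
    rw [hKdef]
    positivity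
  have hKr : (0 : ℝ) < (K : ℝ) := by exact_mod_cast hKpos
  refine ⟨⌈(K : ℝ) ^ (1 / δ)⌉₊ + 1, ?_⟩
  intro D x y hD₀ hD hxy hbig
  have hDr : (K : ℝ) ^ (1 / δ) ≤ ((|D| : ℤ) : ℝ) := by
    have h1 : ((⌈(K : ℝ) ^ (1 / δ)⌉₊ + 1 : ℕ) : ℝ) ≤ ((|D| : ℤ) : ℝ) := by exact_mod_cast hD₀
    have h2 := Nat.le_ceil ((K : ℝ) ^ (1 / δ))
    have h3 : ((⌈(K : ℝ) ^ (1 / δ)⌉₊ + 1 : ℕ) : ℝ) = (⌈(K : ℝ) ^ (1 / δ)⌉₊ : ℝ) + 1 := by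
      push_cast
      ring
    rw [h3] at h1
    linarith
  have hDpos : (0 : ℝ) < ((|D| : ℤ) : ℝ) := lt_of_lt_of_le (Real.rpow_pos_of_pos hKr _) hDr
  have hKD : (K : ℝ) ≤ ((|D| : ℤ) : ℝ) ^ δ := by
    have h1 := Real.rpow_le_rpow (Real.rpow_nonneg hKr.le _) hDr hδ.le
    rw [← Real.rpow_mul hKr.le, one_div, inv_mul_cancel₀ hδ.ne', Real.rpow_one] at h1
    exact h1
  have hpow : ((|D| : ℤ) : ℝ) ^ (2 + δ) = ((|D| : ℤ) : ℝ) ^ 2 * ((|D| : ℤ) : ℝ) ^ δ := by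
    rw [Real.rpow_add hDpos, Real.rpow_two]
  have hxK : K * D ^ 2 < |x| := by
    have h1 : (K : ℝ) * ((|D| : ℤ) : ℝ) ^ 2 < ((|x| : ℤ) : ℝ) := by
      calc (K : ℝ) * ((|D| : ℤ) : ℝ) ^ 2 = ((|D| : ℤ) : ℝ) ^ 2 * (K : ℝ) := by ring
        _ ≤ ((|D| : ℤ) : ℝ) ^ 2 * ((|D| : ℤ) : ℝ) ^ δ :=
            mul_le_mul_of_nonneg_left hKD (by positivity)
        _ = ((|D| : ℤ) : ℝ) ^ (2 + δ) := hpow.symm
        _ < _ := hbig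
    have h2 : K * |D| ^ 2 < |x| := by exact_mod_cast h1
    rwa [sq_abs] at h2
  rw [hKdef] at hxK
  obtain ⟨h, g, k, u, w, D₁, hdec, hns, h1, h2⟩ :=
    point_dec_int A₀ B₀ e he hb hΔ D x y hD hxy hxK
  refine ⟨h, g, k, u, w, D₁, hdec, hns, ?_, ?_⟩
  · have h3 : ((|x| : ℤ) : ℝ) ≤ 2 * ((h * g * (h * k * u ^ 2) : ℕ) : ℝ) := by exact_mod_cast h1
    linarith
  · exact_mod_cast h2

end TwHL
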