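import Pool.Agent.LibTwHL.Defs

namespace TwHL

private theorem g6_harm (n : ℕ) : ∑ i ∈ Finset.Icc 1 n, (1 : ℝ) / i ≤ 1 + Real.log n := by
  have h1 := harmonic_le_one_add_log n
  rw [harmonic_eq_sum_Icc] at h1
  push_cast at h1
  simpa [one_div] using h1

private theorem g6_inner (z : ℕ) :
    ∑ g ∈ Finset.Icc 1 z, (g.divisors.card : ℝ) ≤ z * (1 + Real.log z) := by
  have h1 : ∀ g ∈ Finset.Icc 1 z, (g.divisors.card : ℝ) =
      ∑ d ∈ Finset.Icc 1 z, if d ∣ g then (1 : ℝ) else 0 := by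
    intro g hg
    rw [Finset.mem_Icc] at hg
    rw [← Finset.sum_filter, Finset.sum_const, nsmul_eq_mul, mul_one]
    congr 1
    congr 1
    ext d
    rw [Nat.mem_divisors, Finset.mem_filter, Finset.mem_Icc]
    constructor
    · rintro ⟨h2, h3⟩
      exact ⟨⟨Nat.pos_of_dvd_of_pos h2 (by omega), (Nat.le_of_dvd (by omega) h2).trans hg.2⟩, h2⟩
    · rintro ⟨_, h3⟩
      exact ⟨h3, by omega⟩
  rw [Finset.sum_congr rfl h1, Finset.sum_comm]
  have h2 : ∀ d ∈ Finset.Icc 1 z, (∑ g ∈ Finset.Icc 1 z, if d ∣ g then (1 : ℝ) else 0) ≤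
      z * ((1 : ℝ) / d) := by
    intro d _
    rw [← Finset.sum_filter, Finset.sum_const, nsmul_eq_mul, mul_one]
    have h3 : ((Finset.Icc 1 z).filter (fun g => d ∣ g)).card = z / d := by
      have h4 := Nat.Ioc_filter_dvd_card_eq_div z d
      rw [← h4]
      congr 1
    rw [h3]
    refine Nat.cast_div_le.trans (le_of_eq ?_)
    ring
  refine (Finset.sum_le_sum h2).trans ?_
  rw [← Finset.mul_sum]
  exact mul_le_mul_of_nonneg_left (g6_harm z) (Nat.cast_nonneg z)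

/-- Row G6. `∑_{g ≤ z} d(g) ≤ z (1 + log z)`, then `∑_{h ≤ y} 1/h ≤ 1 + log y`. -/
theorem div_sum (y : ℕ) (hy : 1 ≤ y) :
    ∑ h ∈ Finset.Icc 1 y, ∑ g ∈ Finset.Icc 1 (y / h), (g.divisors.card : ℝ)
      ≤ y * (1 + Real.log y) ^ 2 := by
  have hy' : (1 : ℝ) ≤ y := by exact_mod_cast hy
  have hl : 0 ≤ Real.log y := Real.log_nonneg hy'
  have h1 : ∀ h ∈ Finset.Icc 1 y, (∑ g ∈ Finset.Icc 1 (y / h), (g.divisors.card : ℝ)) ≤
      (y * (1 + Real.log y)) * ((1 : ℝ) / h) := by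
    intro h hh
    rw [Finset.mem_Icc] at hh
    refine (g6_inner (y / h)).trans ?_
    have h2 : ((y / h : ℕ) : ℝ) ≤ (y : ℝ) / h := Nat.cast_div_le
    have h3 : 1 ≤ y / h := (Nat.one_le_div_iff (by omega)).2 hh.2
    have h3' : (1 : ℝ) ≤ ((y / h : ℕ) : ℝ) := by exact_mod_cast h3
    have h4 : Real.log ((y / h : ℕ) : ℝ) ≤ Real.log y := by
      apply Real.log_le_log (by linarith)
      exact_mod_cast Nat.div_le_self y h
    have h5 : 0 ≤ Real.log ((y / h : ℕ) : ℝ) := Real.log_nonneg h3'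
    calc ((y / h : ℕ) : ℝ) * (1 + Real.log ((y / h : ℕ) : ℝ))
        ≤ ((y : ℝ) / h) * (1 + Real.log y) :=
          mul_le_mul h2 (by linarith) (by linarith) (by positivity)
      _ = (y * (1 + Real.log y)) * ((1 : ℝ) / h) := by ring
  refine (Finset.sum_le_sum h1).trans ?_
  rw [← Finset.mul_sum]
  have h2 := mul_le_mul_of_nonneg_left (g6_harm y)
    (by positivity : (0 : ℝ) ≤ (y : ℝ) * (1 + Real.log y))
  refine h2.trans (le_of_eq ?_)
  ring

end TwHL
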