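import Pool.Agent.LibTwHL.Defs2
import Pool.Agent.LibTwHL.M1
import Pool.Agent.LibTwHL.M3
import Pool.Agent.LibTwHL.H1

namespace TwHL

private lemma K1b_point (Δ κ : ℤ) (hΔ0 : Δ ≠ 0) (W : ℕ) (hW : W ≠ 0) (p : ℕ) (hp : p.Prime) :
    wh Δ κ W p / p ≤ 45 / 100 * (1 / (p : ℝ)) + 45 / 100 * ((jacobiSym κ p : ℝ) / p)
      - 5 / 100 * ((jacobiSym Δ p : ℝ) / p)
      - 5 / 100 * ((jacobiSym κ p : ℝ) * (jacobiSym Δ p : ℝ) / p)
      + (if p ∈ (W * Δ.natAbs).primeFactors then 1 else 0) := by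
  have hp0 : (0 : ℝ) < p := by exact_mod_cast hp.pos
  have hp1 : (1 : ℝ) ≤ p := by exact_mod_cast hp.one_le
  have hmain : wh Δ κ W p ≤ 45 / 100 + 45 / 100 * (jacobiSym κ p : ℝ)
      - 5 / 100 * (jacobiSym Δ p : ℝ) - 5 / 100 * ((jacobiSym κ p : ℝ) * (jacobiSym Δ p : ℝ))
      + (if p ∈ (W * Δ.natAbs).primeFactors then 1 else 0) := by
    have hne : W * Δ.natAbs ≠ 0 := mul_ne_zero hW (Int.natAbs_ne_zero.2 hΔ0)
    have hmem : (p ∣ W ∨ jacobiSym Δ p = 0) → p ∈ (W * Δ.natAbs).primeFactors := by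
      rintro (h1 | h1)
      · exact Nat.mem_primeFactors.2 ⟨hp, h1.mul_right _, hne⟩
      · have : NeZero p := ⟨hp.ne_zero⟩
        have h2 := jacobiSym.eq_zero_iff_not_coprime.1 h1
        have h3 : p ∣ Δ.natAbs := by
          by_contra h4
          have h5 : Nat.Coprime p Δ.natAbs := (Nat.Prime.coprime_iff_not_dvd hp).2 h4
          apply h2
          have h6 : Int.gcd Δ (p : ℤ) = Nat.gcd Δ.natAbs p := by
            rw [Int.gcd_def, Int.natAbs_natCast]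
          rw [h6]
          exact h5.symm
        exact Nat.mem_primeFactors.2 ⟨hp, h3.mul_left _, hne⟩
    have hi : (0 : ℝ) ≤ (if p ∈ (W * Δ.natAbs).primeFactors then (1 : ℝ) else 0) := by
      split_ifs <;> norm_num
    unfold wh
    by_cases hpW : p ∣ W
    · rw [if_pos hpW, if_pos (hmem (Or.inl hpW))]
      rcases jacobiSym.trichotomy κ p with h1 | h1 | h1 <;>
      rcases jacobiSym.trichotomy Δ p with h2 | h2 | h2 <;>
      · rw [h1, h2]; norm_num
    · rw [if_neg hpW]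
      rcases jacobiSym.trichotomy κ p with h1 | h1 | h1
      · rw [if_neg (by rw [h1]; decide)]
        rcases jacobiSym.trichotomy Δ p with h2 | h2 | h2 <;>
        · rw [h1, h2]; push_cast; linarith
      · rw [if_pos h1]
        rcases jacobiSym.trichotomy Δ p with h2 | h2 | h2
        · rw [if_neg (by rw [h2]; decide), if_pos (hmem (Or.inr h2))]
          rw [h1, h2]; norm_num
        · rw [if_pos h2]
          rw [h1, h2]; push_cast; linarith
        · rw [if_neg (by rw [h2]; decide)]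
          rw [h1, h2]; push_cast; linarith
      · rw [if_neg (by rw [h1]; decide)]
        rcases jacobiSym.trichotomy Δ p with h2 | h2 | h2 <;>
        · rw [h1, h2]; push_cast; linarith
  have h1 := div_le_div_of_nonneg_right hmain hp0.le
  refine h1.trans ?_
  have h2 : (if p ∈ (W * Δ.natAbs).primeFactors then (1 : ℝ) else 0) / p
      ≤ (if p ∈ (W * Δ.natAbs).primeFactors then (1 : ℝ) else 0) := by
    refine div_le_self ?_ hp1
    split_ifs <;> norm_num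
  have h3 : (45 / 100 + 45 / 100 * (jacobiSym κ p : ℝ)
      - 5 / 100 * (jacobiSym Δ p : ℝ) - 5 / 100 * ((jacobiSym κ p : ℝ) * (jacobiSym Δ p : ℝ))
      + (if p ∈ (W * Δ.natAbs).primeFactors then (1 : ℝ) else 0)) / p
      = 45 / 100 * (1 / (p : ℝ)) + 45 / 100 * ((jacobiSym κ p : ℝ) / p)
      - 5 / 100 * ((jacobiSym Δ p : ℝ) / p)
      - 5 / 100 * ((jacobiSym κ p : ℝ) * (jacobiSym Δ p : ℝ) / p)
      + (if p ∈ (W * Δ.natAbs).primeFactors then (1 : ℝ) else 0) / p := by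
    ring
  rw [h3]
  linarith

/-- `wh ≤ (1 + J(κ|p))/2 * (9/10 - J(Δ|p)/10) + C 1_{p | W Δ}` (value at `p ∤ WΔ`:
`9/10 - J(Δ|p)/10` is `4/5` or `1`), so
`∑ wh p / p ≤ 0.45 LL x + 0.45 |∑ J(κ|p)/p| + 0.05 |∑ J(Δ|p)/p| + 0.05 |∑ J(κ|p)J(Δ|p)/p| + C`. -/
theorem sum_wh (Δ : ℤ) (h : ¬ IsSquare Δ) (W : ℕ) (hW : W ≠ 0) : ∃ C : ℝ, 0 < C ∧
    ∀ (κ : ℤ) (B : ℝ) (x : ℕ), 1 ≤ x → |∑ p ∈ PP x, (jacobiSym κ p : ℝ) / p| ≤ B →
    |∑ p ∈ PP x, (jacobiSym κ p : ℝ) * (jacobiSym Δ p : ℝ) / p| ≤ B →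
    ∑ n ∈ Finset.Icc 1 x, FF (wh Δ κ W) n
      ≤ C * x * Real.exp (- (549 / 1000) * LL x) * Real.exp B := by
  obtain ⟨C0, hC0, hHR⟩ := HR
  obtain ⟨C1, hC1, hM⟩ := mertens
  obtain ⟨K, hK⟩ := sum_chi Δ h (1 / 50) (by norm_num)
  have hΔ0 : Δ ≠ 0 := by
    rintro rfl
    exact h ⟨0, by simp⟩
  refine ⟨C0 * Real.exp (45 / 100 * C1 + 5 / 100 * |K| + ((W * Δ.natAbs).primeFactors.card : ℝ)),
    mul_pos hC0 (Real.exp_pos _), ?_⟩
  intro κ B x hx h1 h2
  have hB : 0 ≤ B := (abs_nonneg _).trans h1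
  have hx1 : (1 : ℝ) ≤ x := by exact_mod_cast hx
  have hlog : 0 ≤ Real.log x := Real.log_nonneg hx1
  have hLL : 0 ≤ LL x := Real.log_nonneg (by linarith)
  have hpos : ∀ p, 0 ≤ wh Δ κ W p := by
    intro p
    unfold wh
    split_ifs <;> norm_num
  have hle2 : ∀ p, wh Δ κ W p ≤ 2 := by
    intro p
    unfold wh
    split_ifs <;> norm_num
  have h3 := hHR (wh Δ κ W) hpos hle2 x hx
  have hsum : ∑ p ∈ PP x, wh Δ κ W p / p ≤ 45 / 100 * (∑ p ∈ PP x, 1 / (p : ℝ))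
      + 45 / 100 * (∑ p ∈ PP x, (jacobiSym κ p : ℝ) / p)
      - 5 / 100 * (∑ p ∈ PP x, (jacobiSym Δ p : ℝ) / p)
      - 5 / 100 * (∑ p ∈ PP x, (jacobiSym κ p : ℝ) * (jacobiSym Δ p : ℝ) / p)
      + ∑ p ∈ PP x, (if p ∈ (W * Δ.natAbs).primeFactors then (1 : ℝ) else 0) := by
    rw [Finset.mul_sum, Finset.mul_sum, Finset.mul_sum, Finset.mul_sum,
      ← Finset.sum_add_distrib, ← Finset.sum_sub_distrib, ← Finset.sum_sub_distrib,
      ← Finset.sum_add_distrib]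
    refine Finset.sum_le_sum fun p hp => ?_
    exact K1b_point Δ κ hΔ0 W hW p (Finset.mem_filter.1 hp).2
  have hcard : ∑ p ∈ PP x, (if p ∈ (W * Δ.natAbs).primeFactors then (1 : ℝ) else 0)
      ≤ ((W * Δ.natAbs).primeFactors.card : ℝ) := by
    rw [Finset.sum_ite_mem, Finset.sum_const, nsmul_eq_mul, mul_one]
    exact_mod_cast Finset.card_le_card Finset.inter_subset_right
  have hM' := (abs_le.1 (hM x hx)).2
  have hK' := (abs_le.1 (hK x hx)).1
  have h1' := (abs_le.1 h1).2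
  have h2' := (abs_le.1 h2).1
  have hKK := le_abs_self K
  have hexp : ∑ p ∈ PP x, wh Δ κ W p / p ≤ (45 / 100 * C1 + 5 / 100 * |K|
      + ((W * Δ.natAbs).primeFactors.card : ℝ)) + (1 - 549 / 1000) * LL x + B := by
    linarith
  have hxe : (x : ℝ) / (1 + Real.log x) = x * Real.exp (- LL x) := by
    have h4 : (0 : ℝ) < 1 + Real.log x := by linarith
    unfold LL
    rw [Real.exp_neg, Real.exp_log h4]
    rfl
  calc ∑ n ∈ Finset.Icc 1 x, FF (wh Δ κ W) n
      ≤ C0 * (x / (1 + Real.log x)) * Real.exp (∑ p ∈ PP x, wh Δ κ W p / p) := h3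
    _ ≤ C0 * (x / (1 + Real.log x)) * Real.exp ((45 / 100 * C1 + 5 / 100 * |K|
      + ((W * Δ.natAbs).primeFactors.card : ℝ)) + (1 - 549 / 1000) * LL x + B) := by
        refine mul_le_mul_of_nonneg_left (Real.exp_le_exp.2 hexp) ?_
        rw [hxe]
        exact mul_nonneg hC0.le (mul_nonneg (by linarith) (Real.exp_pos _).le)
    _ = C0 * Real.exp (45 / 100 * C1 + 5 / 100 * |K| + ((W * Δ.natAbs).primeFactors.card : ℝ))
        * x * Real.exp (- (549 / 1000) * LL x) * Real.exp B := by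
        rw [hxe, Real.exp_add, Real.exp_add]
        have h5 : Real.exp (- (549 / 1000) * LL x)
            = Real.exp (- LL x) * Real.exp ((1 - 549 / 1000) * LL x) := by
          rw [← Real.exp_add]
          congr 1
          ring
        rw [h5]
        ring

end TwHL
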