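import Pool.Agent.LibTwHL.Defs

namespace TwHL

private theorem K3_sum (α : ℝ) (hα : 0 < α) (hα1 : α < 1) (J : ℕ) :
    ∑ i ∈ Finset.range (J + 1), (1 + (i : ℝ)) ^ (-α) ≤ (1 + (J : ℝ)) ^ (1 - α) / (1 - α) := by
  have h1 : 0 < 1 - α := by linarith
  induction J with
  | zero =>
    simp only [zero_add, Finset.sum_range_one, Nat.cast_zero, add_zero, Real.one_rpow]
    rw [le_div_iff₀ h1]
    linarith
  | succ J ih =>
    rw [Finset.sum_range_succ]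
    set x : ℝ := 1 + ((J + 1 : ℕ) : ℝ) with hx
    have hx1 : 1 + (J : ℝ) = x - 1 := by rw [hx]; push_cast; ring
    have hx2 : 1 < x := by
      rw [hx]
      push_cast
      have : (0 : ℝ) ≤ J := Nat.cast_nonneg J
      linarith
    have hx0 : 0 < x := by linarith
    rw [hx1] at ih
    have h2 : (x - 1) ^ (1 - α) ≤ x ^ (1 - α) - (1 - α) * x ^ (-α) := by
      have e1 : x - 1 = x * (1 + -(1 / x)) := by field_simp; ring
      have e2 : 0 ≤ 1 + -(1 / x) := by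
        have : 1 / x ≤ 1 := by rw [div_le_one hx0]; exact hx2.le
        linarith
      have e3 : (1 + -(1 / x)) ^ (1 - α) ≤ 1 + (1 - α) * -(1 / x) :=
        rpow_one_add_le_one_add_mul_self (by linarith) h1.le (by linarith)
      rw [e1, Real.mul_rpow hx0.le e2]
      have e4 : x ^ (-α) = x ^ (1 - α) * (1 / x) := by
        rw [show -α = (1 - α) + -1 by ring, Real.rpow_add hx0, Real.rpow_neg_one, one_div]
      calc x ^ (1 - α) * (1 + -(1 / x)) ^ (1 - α) ≤ x ^ (1 - α) * (1 + (1 - α) * -(1 / x)) :=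
            mul_le_mul_of_nonneg_left e3 (Real.rpow_nonneg hx0.le _)
        _ = _ := by rw [e4]; ring
    calc _ ≤ (x - 1) ^ (1 - α) / (1 - α) + x ^ (-α) := by linarith
      _ ≤ (x ^ (1 - α) - (1 - α) * x ^ (-α)) / (1 - α) + x ^ (-α) := by
          have := div_le_div_of_nonneg_right h2 h1.le
          linarith
      _ = x ^ (1 - α) / (1 - α) := by field_simp; ring

private theorem K3_half (β : ℝ) (hβ : 0 < β) (hβ1 : β < 1) {x y : ℝ} (hx : 0 < x)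
    (h : x ≤ 2 * y) : y ^ (-β) ≤ 2 * x ^ (-β) := by
  have hy : 0 < y := by linarith
  have h1 : y ^ (-β) ≤ (x / 2) ^ (-β) :=
    Real.rpow_le_rpow_of_nonpos (by positivity) (by linarith) (by linarith)
  refine h1.trans ?_
  rw [Real.div_rpow hx.le (by norm_num), div_eq_mul_inv, mul_comm, ← Real.rpow_neg (by norm_num),
    neg_neg]
  refine mul_le_mul_of_nonneg_right ?_ (Real.rpow_nonneg hx.le _)
  calc (2 : ℝ) ^ β ≤ 2 ^ (1 : ℝ) := Real.rpow_le_rpow_of_exponent_le (by norm_num) hβ1.le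
    _ = 2 := Real.rpow_one 2

/-- Row K3. Discrete Beta sum: for `i ≤ J/2` the second factor is `≤ ((1+J)/2)^(-β)` and
`∑_{i ≤ J} (1+i)^(-α) ≤ (1+J)^(1-α)/(1-α)`; symmetric for `i > J/2`. -/
theorem beta_sum (α β : ℝ) (hα : 0 < α) (hα1 : α < 1) (hβ : 0 < β) (hβ1 : β < 1) :
    ∃ C : ℝ, 0 < C ∧ ∀ J : ℕ,
    ∑ i ∈ Finset.range (J + 1), (1 + (i : ℝ)) ^ (-α) * (1 + ((J - i : ℕ) : ℝ)) ^ (-β)
      ≤ C * (1 + (J : ℝ)) ^ (1 - α - β) := by
  have h1 : 0 < 1 - α := by linarith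
  have h2 : 0 < 1 - β := by linarith
  refine ⟨2 / (1 - α) + 2 / (1 - β), by positivity, fun J => ?_⟩
  have hJ : (0 : ℝ) < 1 + (J : ℝ) := by positivity
  have hterm : ∀ i ∈ Finset.range (J + 1), (1 + (i : ℝ)) ^ (-α) * (1 + ((J - i : ℕ) : ℝ)) ^ (-β) ≤
      2 * (1 + (J : ℝ)) ^ (-β) * (1 + (i : ℝ)) ^ (-α) +
        2 * (1 + (J : ℝ)) ^ (-α) * (1 + ((J - i : ℕ) : ℝ)) ^ (-β) := by
    intro i hi
    have hiJ : i ≤ J := by
      have := Finset.mem_range.1 hi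
      omega
    have hc : ((J - i : ℕ) : ℝ) = J - i := by push_cast [Nat.cast_sub hiJ]; ring
    have hi0 : (0 : ℝ) ≤ i := Nat.cast_nonneg i
    have hiJ' : (i : ℝ) ≤ J := by exact_mod_cast hiJ
    have p1 : 0 ≤ (1 + (i : ℝ)) ^ (-α) := Real.rpow_nonneg (by linarith) _
    have p2 : 0 ≤ (1 + ((J - i : ℕ) : ℝ)) ^ (-β) := Real.rpow_nonneg (by rw [hc]; linarith) _
    have p3 : 0 ≤ (1 + (J : ℝ)) ^ (-β) := Real.rpow_nonneg hJ.le _
    have p4 : 0 ≤ (1 + (J : ℝ)) ^ (-α) := Real.rpow_nonneg hJ.le _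
    rcases le_total (2 * (i : ℝ)) J with h | h
    · have h3 : (1 + ((J - i : ℕ) : ℝ)) ^ (-β) ≤ 2 * (1 + (J : ℝ)) ^ (-β) :=
        K3_half β hβ hβ1 hJ (by rw [hc]; linarith)
      have h4 := mul_le_mul_of_nonneg_left h3 p1
      have h5 : 0 ≤ 2 * (1 + (J : ℝ)) ^ (-α) * (1 + ((J - i : ℕ) : ℝ)) ^ (-β) := by positivity
      linarith
    · have h3 : (1 + (i : ℝ)) ^ (-α) ≤ 2 * (1 + (J : ℝ)) ^ (-α) :=
        K3_half α hα hα1 hJ (by linarith)
      have h4 := mul_le_mul_of_nonneg_right h3 p2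
      have h5 : 0 ≤ 2 * (1 + (J : ℝ)) ^ (-β) * (1 + (i : ℝ)) ^ (-α) := by positivity
      linarith
  have hrev : ∑ i ∈ Finset.range (J + 1), (1 + ((J - i : ℕ) : ℝ)) ^ (-β) =
      ∑ i ∈ Finset.range (J + 1), (1 + (i : ℝ)) ^ (-β) := by
    have := Finset.sum_range_reflect (fun i : ℕ => (1 + (i : ℝ)) ^ (-β)) (J + 1)
    simpa using this
  have hA := K3_sum α hα hα1 J
  have hB := K3_sum β hβ hβ1 J
  have q1 : 0 ≤ 2 * (1 + (J : ℝ)) ^ (-β) := by positivity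
  have q2 : 0 ≤ 2 * (1 + (J : ℝ)) ^ (-α) := by positivity
  calc _ ≤ ∑ i ∈ Finset.range (J + 1), (2 * (1 + (J : ℝ)) ^ (-β) * (1 + (i : ℝ)) ^ (-α) +
        2 * (1 + (J : ℝ)) ^ (-α) * (1 + ((J - i : ℕ) : ℝ)) ^ (-β)) := Finset.sum_le_sum hterm
    _ = 2 * (1 + (J : ℝ)) ^ (-β) * ∑ i ∈ Finset.range (J + 1), (1 + (i : ℝ)) ^ (-α) +
        2 * (1 + (J : ℝ)) ^ (-α) * ∑ i ∈ Finset.range (J + 1), (1 + (i : ℝ)) ^ (-β) := by
        rw [Finset.sum_add_distrib, ← Finset.mul_sum, ← Finset.mul_sum, hrev]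
    _ ≤ 2 * (1 + (J : ℝ)) ^ (-β) * ((1 + (J : ℝ)) ^ (1 - α) / (1 - α)) +
        2 * (1 + (J : ℝ)) ^ (-α) * ((1 + (J : ℝ)) ^ (1 - β) / (1 - β)) :=
        add_le_add (mul_le_mul_of_nonneg_left hA q1) (mul_le_mul_of_nonneg_left hB q2)
    _ = (2 / (1 - α) + 2 / (1 - β)) * (1 + (J : ℝ)) ^ (1 - α - β) := by
        have e1 : (1 + (J : ℝ)) ^ (1 - α - β) = (1 + (J : ℝ)) ^ (-β) * (1 + (J : ℝ)) ^ (1 - α) := by
          rw [← Real.rpow_add hJ]
          congr 1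
          ring
        have e2 : (1 + (J : ℝ)) ^ (1 - α - β) = (1 + (J : ℝ)) ^ (-α) * (1 + (J : ℝ)) ^ (1 - β) := by
          rw [← Real.rpow_add hJ]
          congr 1
          ring
        rw [add_mul]
        congr 1
        · rw [e1]; ring
        · rw [e2]; ring

end TwHL
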