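import Pool.Agent.LibTwHL.K1a
import Pool.Agent.LibTwHL.K1b
import Pool.Agent.LibTwHL.K3

namespace TwHL

private lemma K5_one_le_log {x : ℕ} (hx : 1 ≤ x) : 1 ≤ 1 + Real.log x := by
  have h : (1 : ℝ) ≤ x := by exact_mod_cast hx
  linarith [Real.log_nonneg h]

private lemma K5_exp (c : ℝ) {x : ℕ} (hx : 1 ≤ x) :
    Real.exp (-c * LL x) = (1 + Real.log x) ^ (-c) := by
  have h : 0 < 1 + Real.log x := by linarith [K5_one_le_log hx]
  rw [Real.rpow_def_of_pos h, LL]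
  congr 1
  ring

private lemma K5_mono {β x z : ℝ} (hβ0 : 0 ≤ β) (hβ1 : β ≤ 1) (hx : 1 ≤ x) (hxz : x ≤ z) :
    x * (1 + Real.log x) ^ (-β) ≤ z * (1 + Real.log z) ^ (-β) := by
  have hx0 : 0 < x := by linarith
  have hz0 : 0 < z := by linarith
  have hA1 : 1 ≤ 1 + Real.log x := by linarith [Real.log_nonneg hx]
  have hB1 : 1 ≤ 1 + Real.log z := by linarith [Real.log_nonneg (hx.trans hxz)]
  have hA0 : 0 < 1 + Real.log x := by linarith
  have hB0 : 0 < 1 + Real.log z := by linarith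
  have hzx : 1 ≤ z / x := by rw [le_div_iff₀ hx0]; linarith
  have h1 : 1 + Real.log z ≤ (1 + Real.log x) * (z / x) := by
    have h2 : Real.log z = Real.log x + Real.log (z / x) := by
      rw [Real.log_div hz0.ne' hx0.ne']; ring
    have h3 : Real.log (z / x) ≤ z / x - 1 := Real.log_le_sub_one_of_pos (by positivity)
    nlinarith
  have h4 : (1 + Real.log z) ^ β ≤ (1 + Real.log x) ^ β * (z / x) := by
    calc (1 + Real.log z) ^ β ≤ ((1 + Real.log x) * (z / x)) ^ β :=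
          Real.rpow_le_rpow hB0.le h1 hβ0
      _ = (1 + Real.log x) ^ β * (z / x) ^ β := Real.mul_rpow hA0.le (by linarith)
      _ ≤ (1 + Real.log x) ^ β * (z / x) ^ (1 : ℝ) :=
          mul_le_mul_of_nonneg_left (Real.rpow_le_rpow_of_exponent_le hzx hβ1)
            (Real.rpow_nonneg hA0.le _)
      _ = _ := by rw [Real.rpow_one]
  rw [Real.rpow_neg hA0.le, Real.rpow_neg hB0.le, ← div_eq_mul_inv, ← div_eq_mul_inv,
    div_le_div_iff₀ (Real.rpow_pos_of_pos hA0 _) (Real.rpow_pos_of_pos hB0 _)]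
  calc x * (1 + Real.log z) ^ β ≤ x * ((1 + Real.log x) ^ β * (z / x)) :=
        mul_le_mul_of_nonneg_left h4 hx0.le
    _ = z * (1 + Real.log x) ^ β := by field_simp

private lemma K5_FF_nonneg {w : ℕ → ℝ} (hw : ∀ p, 0 ≤ w p) (n : ℕ) : 0 ≤ FF w n := by
  unfold FF
  split_ifs
  · exact Finset.prod_nonneg fun p _ => hw p
  · exact le_rfl

private lemma K5_wg (Δ : ℤ) (W p : ℕ) : 0 ≤ wg Δ W p := by
  unfold wg
  split_ifs <;> norm_num

private lemma K5_wh (Δ κ : ℤ) (W p : ℕ) : 0 ≤ wh Δ κ W p := by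
  unfold wh
  split_ifs <;> norm_num

/-- `(1 + n log 2)^(-c) ≤ 2 (1 + n)^(-c)` -/
private lemma K5_log2 {c y t : ℝ} (hc : 0 ≤ c) (hc1 : c ≤ 1) (ht : 0 ≤ t)
    (hy : (1 + t) / 2 ≤ y) : y ^ (-c) ≤ 2 * (1 + t) ^ (-c) := by
  have h1 : 0 < (1 + t) / 2 := by linarith
  calc y ^ (-c) ≤ ((1 + t) / 2) ^ (-c) :=
        Real.rpow_le_rpow_of_nonpos h1 hy (by linarith)
    _ = (1 + t) ^ (-c) * (2 : ℝ) ^ c := by
        rw [Real.div_rpow (by linarith) (by norm_num), Real.rpow_neg (by norm_num : (0 : ℝ) ≤ 2),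
          div_inv_eq_mul]
    _ ≤ (1 + t) ^ (-c) * (2 : ℝ) ^ (1 : ℝ) :=
        mul_le_mul_of_nonneg_left (Real.rpow_le_rpow_of_exponent_le (by norm_num) hc1)
          (Real.rpow_nonneg (by linarith) _)
    _ = _ := by rw [Real.rpow_one]; ring

/-- Row K5. Split `g` into `2^i ≤ g < 2^(i+1)`, `i ≤ J = Nat.log 2 M`. For good `g` the inner sum is
`≤ C (M/g) exp(-0.549 LL(M/g)) exp(0.001 LL N)` (`sum_wh`), with `M / g ≥ 2^(J-i-1)`-ish
(`x ↦ x exp(-0.549 LL x)` is increasing up to a constant; `LL (2^i) ≥ log (1+i) - 1`), and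
`∑_{2^i ≤ g < 2^(i+1)} FF wg ≤ C 2^i (1+i)^(-0.599)` (`sum_wg`); `beta_sum` with
`α = 0.599, β = 0.549`. -/
theorem double_sum (Δ : ℤ) (h : ¬ IsSquare Δ) (W : ℕ) (hW : W ≠ 0) : ∃ C : ℝ, 0 < C ∧
    ∀ (κ : ℤ) (N M : ℕ) (E : Finset ℕ), 1 ≤ M → M ≤ N → (∀ g ∈ E, 1 ≤ g ∧ g ≤ M ∧ Good Δ κ N g) →
    ∑ g ∈ E, FF (wg Δ W) g * ∑ n ∈ Finset.Icc 1 (M / g), FF (wh Δ (κ * g) W) n
      ≤ C * M * Real.exp (- (148 / 1000) * LL M) * Real.exp (1 / 1000 * LL N) := by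
  obtain ⟨Cg, hCg, hg⟩ := sum_wg Δ h W hW
  obtain ⟨Ch, hCh, hh⟩ := sum_wh Δ h W hW
  obtain ⟨Cb, hCb, hb⟩ := beta_sum (599 / 1000) (549 / 1000) (by norm_num) (by norm_num)
    (by norm_num) (by norm_num)
  refine ⟨16 * Cg * Ch * Cb, by positivity, ?_⟩
  intro κ N M E hM hMN hE
  set J := Nat.log 2 M with hJ
  set B := Real.exp (1 / 1000 * LL N) with hB
  have hB0 : 0 < B := Real.exp_pos _
  have hlog2 : (1 : ℝ) / 2 ≤ Real.log 2 := by
    have := Real.log_two_gt_d9; linarith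
  have hlog2' : Real.log 2 ≤ 1 := by
    have := Real.log_two_lt_d9; linarith
  -- the inner sum
  have hinner : ∀ g ∈ E, ∀ i, Nat.log 2 g = i →
      ∑ n ∈ Finset.Icc 1 (M / g), FF (wh Δ (κ * g) W) n ≤
        2 * Ch * B * ((M : ℝ) / 2 ^ i * (1 + ((J - i : ℕ) : ℝ)) ^ (-(549 / 1000) : ℝ)) := by
    intro g hgE i hi
    obtain ⟨hg1, hgM, hgood⟩ := hE g hgE
    have hx1 : 1 ≤ M / g := (Nat.one_le_div_iff (by omega)).2 hgM
    have hxN : M / g ≤ N := (Nat.div_le_self _ _).trans hMN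
    obtain ⟨G1, G2⟩ := hgood (M / g) hx1 hxN
    have h1 := hh (κ * g) (1 / 1000 * LL N) (M / g) hx1 G1 G2
    rw [K5_exp (549 / 1000) hx1] at h1
    have hgi : 2 ^ i ≤ g := by
      rw [← hi]; exact Nat.pow_log_le_self 2 (by omega)
    have hiJ : i ≤ J := by
      rw [← hi]; exact Nat.log_mono_right hgM
    have h2i : (0 : ℝ) < 2 ^ i := by positivity
    have hz : ((M / g : ℕ) : ℝ) ≤ (M : ℝ) / 2 ^ i := by
      calc ((M / g : ℕ) : ℝ) ≤ (M : ℝ) / g := Nat.cast_div_le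
        _ ≤ (M : ℝ) / 2 ^ i := by
          apply div_le_div_of_nonneg_left (by positivity) h2i
          exact_mod_cast hgi
    have hx1' : (1 : ℝ) ≤ ((M / g : ℕ) : ℝ) := by exact_mod_cast hx1
    have h2 := K5_mono (β := 549 / 1000) (by norm_num) (by norm_num) hx1' hz
    have hlow : ((2 : ℝ) ^ (J - i)) ≤ (M : ℝ) / 2 ^ i := by
      rw [le_div_iff₀ h2i, ← pow_add, Nat.sub_add_cancel hiJ]
      have h3 : 2 ^ J ≤ M := Nat.pow_log_le_self 2 (by omega)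
      exact_mod_cast h3
    have hlog : ((J - i : ℕ) : ℝ) * Real.log 2 ≤ Real.log ((M : ℝ) / 2 ^ i) := by
      rw [← Real.log_pow]
      exact Real.log_le_log (by positivity) hlow
    have h4 : (1 + ((J - i : ℕ) : ℝ)) / 2 ≤ 1 + Real.log ((M : ℝ) / 2 ^ i) := by
      have h5 : (0 : ℝ) ≤ ((J - i : ℕ) : ℝ) := Nat.cast_nonneg _
      nlinarith
    have h5 := K5_log2 (c := 549 / 1000) (by norm_num) (by norm_num)
      (Nat.cast_nonneg (J - i)) h4
    have hz0 : 0 ≤ (M : ℝ) / 2 ^ i := by positivity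
    calc ∑ n ∈ Finset.Icc 1 (M / g), FF (wh Δ (κ * g) W) n
        ≤ Ch * ((M / g : ℕ) : ℝ) * (1 + Real.log ((M / g : ℕ) : ℝ)) ^ (-(549 / 1000) : ℝ) * B :=
          h1
      _ = Ch * B * (((M / g : ℕ) : ℝ) * (1 + Real.log ((M / g : ℕ) : ℝ)) ^ (-(549 / 1000) : ℝ)) := by
          ring
      _ ≤ Ch * B * ((M : ℝ) / 2 ^ i *
            (1 + Real.log ((M : ℝ) / 2 ^ i)) ^ (-(549 / 1000) : ℝ)) :=
          mul_le_mul_of_nonneg_left h2 (by positivity)
      _ ≤ Ch * B * ((M : ℝ) / 2 ^ i *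
            (2 * (1 + ((J - i : ℕ) : ℝ)) ^ (-(549 / 1000) : ℝ))) :=
          mul_le_mul_of_nonneg_left (mul_le_mul_of_nonneg_left h5 hz0) (by positivity)
      _ = _ := by ring
  -- the outer sum over a dyadic range
  have houter : ∀ i, ∑ g ∈ E.filter (fun g => Nat.log 2 g = i), FF (wg Δ W) g ≤
      4 * Cg * (2 ^ i * (1 + (i : ℝ)) ^ (-(599 / 1000) : ℝ)) := by
    intro i
    have h1 := hg (2 ^ (i + 1)) (Nat.one_le_two_pow)
    rw [K5_exp (599 / 1000) Nat.one_le_two_pow] at h1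
    have h2 : ∑ g ∈ E.filter (fun g => Nat.log 2 g = i), FF (wg Δ W) g ≤
        ∑ n ∈ Finset.Icc 1 (2 ^ (i + 1)), FF (wg Δ W) n := by
      apply Finset.sum_le_sum_of_subset_of_nonneg
      · intro g hgm
        rw [Finset.mem_filter] at hgm
        obtain ⟨hgE, hgi⟩ := hgm
        rw [Finset.mem_Icc]
        refine ⟨(hE g hgE).1, ?_⟩
        rw [← hgi]
        exact (Nat.lt_pow_succ_log_self (by norm_num) g).le
      · intro n _ _
        exact K5_FF_nonneg (K5_wg Δ W) n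
    have h4 : (1 + (i : ℝ)) / 2 ≤ 1 + Real.log ((2 ^ (i + 1) : ℕ) : ℝ) := by
      push_cast
      rw [Real.log_pow]
      push_cast
      have h5 : (0 : ℝ) ≤ i := Nat.cast_nonneg _
      nlinarith
    have h5 := K5_log2 (c := 599 / 1000) (by norm_num) (by norm_num) (Nat.cast_nonneg i) h4
    calc _ ≤ _ := h2
      _ ≤ _ := h1
      _ ≤ Cg * ((2 ^ (i + 1) : ℕ) : ℝ) * (2 * (1 + (i : ℝ)) ^ (-(599 / 1000) : ℝ)) :=
          mul_le_mul_of_nonneg_left h5 (by positivity)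
      _ = _ := by push_cast; ring
  have hmaps : ∀ g ∈ E, Nat.log 2 g ∈ Finset.range (J + 1) := by
    intro g hgE
    rw [Finset.mem_range]
    have := Nat.log_mono_right (b := 2) (hE g hgE).2.1
    omega
  rw [← Finset.sum_fiberwise_of_maps_to hmaps]
  have hM0 : (0 : ℝ) < M := by exact_mod_cast hM
  have hstep : ∀ i ∈ Finset.range (J + 1),
      ∑ g ∈ E.filter (fun g => Nat.log 2 g = i), FF (wg Δ W) g *
        ∑ n ∈ Finset.Icc 1 (M / g), FF (wh Δ (κ * g) W) n ≤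
      8 * Cg * Ch * B * M * ((1 + (i : ℝ)) ^ (-(599 / 1000) : ℝ) *
        (1 + ((J - i : ℕ) : ℝ)) ^ (-(549 / 1000) : ℝ)) := by
    intro i _
    have h2i : (0 : ℝ) < 2 ^ i := by positivity
    have hpos : 0 ≤ 2 * Ch * B * ((M : ℝ) / 2 ^ i * (1 + ((J - i : ℕ) : ℝ)) ^ (-(549 / 1000) : ℝ)) := by
      positivity
    calc ∑ g ∈ E.filter (fun g => Nat.log 2 g = i), FF (wg Δ W) g *
        ∑ n ∈ Finset.Icc 1 (M / g), FF (wh Δ (κ * g) W) n
        ≤ ∑ g ∈ E.filter (fun g => Nat.log 2 g = i), FF (wg Δ W) g *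
          (2 * Ch * B * ((M : ℝ) / 2 ^ i * (1 + ((J - i : ℕ) : ℝ)) ^ (-(549 / 1000) : ℝ))) := by
          apply Finset.sum_le_sum
          intro g hgm
          rw [Finset.mem_filter] at hgm
          exact mul_le_mul_of_nonneg_left (hinner g hgm.1 i hgm.2)
            (K5_FF_nonneg (K5_wg Δ W) g)
      _ = (∑ g ∈ E.filter (fun g => Nat.log 2 g = i), FF (wg Δ W) g) *
          (2 * Ch * B * ((M : ℝ) / 2 ^ i * (1 + ((J - i : ℕ) : ℝ)) ^ (-(549 / 1000) : ℝ))) := by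
          rw [Finset.sum_mul]
      _ ≤ (4 * Cg * (2 ^ i * (1 + (i : ℝ)) ^ (-(599 / 1000) : ℝ))) *
          (2 * Ch * B * ((M : ℝ) / 2 ^ i * (1 + ((J - i : ℕ) : ℝ)) ^ (-(549 / 1000) : ℝ))) :=
          mul_le_mul_of_nonneg_right (houter i) hpos
      _ = _ := by field_simp; ring
  have hJM : (1 + Real.log M) / 2 ≤ 1 + (J : ℝ) := by
    have h1 : M < 2 ^ (J + 1) := Nat.lt_pow_succ_log_self (by norm_num) M
    have h2 : Real.log M ≤ ((J + 1 : ℕ) : ℝ) * Real.log 2 := by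
      rw [← Real.log_pow]
      exact Real.log_le_log hM0 (by exact_mod_cast h1.le)
    have h3 : (0 : ℝ) ≤ J := Nat.cast_nonneg _
    push_cast at h2
    nlinarith
  have hfin : (1 + (J : ℝ)) ^ (1 - 599 / 1000 - 549 / 1000 : ℝ) ≤
      2 * Real.exp (- (148 / 1000) * LL M) := by
    rw [K5_exp (148 / 1000) hM]
    have h1 := K5_log2 (c := 148 / 1000) (y := 1 + (J : ℝ)) (t := Real.log M) (by norm_num)
      (by norm_num) (by linarith [K5_one_le_log hM]) hJM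
    have h2 : (1 - 599 / 1000 - 549 / 1000 : ℝ) = -(148 / 1000) := by norm_num
    rw [h2]
    exact h1
  calc _ ≤ ∑ i ∈ Finset.range (J + 1), 8 * Cg * Ch * B * M * ((1 + (i : ℝ)) ^ (-(599 / 1000) : ℝ) *
        (1 + ((J - i : ℕ) : ℝ)) ^ (-(549 / 1000) : ℝ)) := Finset.sum_le_sum hstep
    _ = 8 * Cg * Ch * B * M * ∑ i ∈ Finset.range (J + 1), (1 + (i : ℝ)) ^ (-(599 / 1000) : ℝ) *
        (1 + ((J - i : ℕ) : ℝ)) ^ (-(549 / 1000) : ℝ) := by rw [Finset.mul_sum]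
    _ ≤ 8 * Cg * Ch * B * M * (Cb * (1 + (J : ℝ)) ^ (1 - 599 / 1000 - 549 / 1000 : ℝ)) :=
        mul_le_mul_of_nonneg_left (hb J) (by positivity)
    _ ≤ 8 * Cg * Ch * B * M * (Cb * (2 * Real.exp (- (148 / 1000) * LL M))) :=
        mul_le_mul_of_nonneg_left (mul_le_mul_of_nonneg_left hfin hCb.le) (by positivity)
    _ = _ := by ring

end TwHL
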