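import Pool.Agent.LibTwHL.K4
import Pool.Agent.LibTwHL.K5

namespace TwHL

private lemma K6_FF_nonneg {w : ℕ → ℝ} (hw : ∀ p, 0 ≤ w p) (n : ℕ) : 0 ≤ FF w n := by
  unfold FF
  split_ifs
  · exact Finset.prod_nonneg fun p _ => hw p
  · exact le_rfl

private lemma K6_wg (Δ : ℤ) (W p : ℕ) : 0 ≤ wg Δ W p := by
  unfold wg
  split_ifs <;> norm_num

private lemma K6_wh (Δ κ : ℤ) (W p : ℕ) : 0 ≤ wh Δ κ W p := by
  unfold wh
  split_ifs <;> norm_num

private lemma K6_log54 : Real.log (5 / 4) ≤ 22361 / 100000 := by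
  have h1 : Real.log ((5 / 4 : ℝ) ^ 31) ≤ Real.log ((2 : ℝ) ^ 10) :=
    Real.log_le_log (by positivity) (by norm_num)
  rw [Real.log_pow, Real.log_pow] at h1
  have := Real.log_two_lt_d9
  push_cast at h1
  linarith

/-- eventually `d ≤ (log N)^5` implies `LL N - 1 ≤ LL (N / d)` and `d ≤ N` -/
private lemma K6_large : ∃ N₀ : ℕ, 3 ≤ N₀ ∧ ∀ N : ℕ, N₀ ≤ N → ∀ d : ℕ, 1 ≤ d → (d : ℝ) ≤ (Real.log N) ^ 5 →
    1 ≤ N / d ∧ LL N - 1 ≤ LL (N / d) := by
  have h1 : ∀ᶠ x : ℝ in Filter.atTop, Real.log x ^ (12 : ℕ) ≤ x := by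
    have h2 := (Real.isLittleO_pow_log_id_atTop (n := 12)).bound (c := 1) one_pos
    filter_upwards [h2, Filter.eventually_ge_atTop (1 : ℝ)] with x hx hx1
    rw [id, Real.norm_eq_abs, Real.norm_eq_abs, abs_of_nonneg (by linarith : (0 : ℝ) ≤ x), one_mul] at hx
    exact (le_abs_self _).trans hx
  have h3 : ∀ᶠ N : ℕ in Filter.atTop, Real.log (N : ℝ) ^ (12 : ℕ) ≤ N :=
    tendsto_natCast_atTop_atTop.eventually h1
  obtain ⟨N₁, hN₁⟩ := Filter.eventually_atTop.1 h3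
  refine ⟨max N₁ 8, le_trans (by norm_num) (le_max_right _ _), ?_⟩
  intro N hN d hd hdN
  have hNN₁ : N₁ ≤ N := (le_max_left _ _).trans hN
  have hN8 : 8 ≤ N := (le_max_right _ _).trans hN
  have hlog12 := hN₁ N hNN₁
  have hN0 : (0 : ℝ) < N := by
    have : (8 : ℝ) ≤ N := by exact_mod_cast hN8
    linarith
  have hlog2 : 2 ≤ Real.log N := by
    have h4 : Real.log ((2 : ℝ) ^ 3) ≤ Real.log N := by
      apply Real.log_le_log (by positivity)
      have h8 : (8 : ℝ) ≤ N := by exact_mod_cast hN8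
      calc (2 : ℝ) ^ 3 = 8 := by norm_num
        _ ≤ N := h8
    rw [Real.log_pow] at h4
    have := Real.log_two_gt_d9
    push_cast at h4
    linarith
  have hd0 : (0 : ℝ) < d := by exact_mod_cast hd
  -- 2 d ≤ sqrt N, i.e. 4 d^2 ≤ N
  have hd2 : 4 * (d : ℝ) ^ 2 ≤ N := by
    have h5 : (d : ℝ) ^ 2 ≤ (Real.log N) ^ 10 := by
      calc (d : ℝ) ^ 2 ≤ ((Real.log N) ^ 5) ^ 2 := by
            apply pow_le_pow_left₀ hd0.le hdN
        _ = _ := by ring
    have h6 : 4 * (Real.log N) ^ 10 ≤ (Real.log N) ^ 12 := by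
      have : (Real.log N) ^ 12 = (Real.log N) ^ 2 * (Real.log N) ^ 10 := by ring
      rw [this]
      apply mul_le_mul_of_nonneg_right _ (by positivity)
      nlinarith
    linarith
  have hdN' : 2 * d ≤ N := by
    have h7 : (1 : ℝ) ≤ d := by exact_mod_cast hd
    have h8 : 2 * (d : ℝ) ≤ N := by nlinarith
    exact_mod_cast h8
  have hq1 : 1 ≤ N / d := (Nat.one_le_div_iff (by omega)).2 (by omega)
  refine ⟨hq1, ?_⟩
  -- N / d ≥ N / (2 d) ≥ sqrt N
  have hq : (N : ℝ) / (2 * d) ≤ ((N / d : ℕ) : ℝ) := by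
    rw [div_le_iff₀ (by positivity)]
    have h9 : N < d * (N / d + 1) := Nat.lt_mul_div_succ N (by omega)
    have h10 : (N : ℝ) ≤ d * (((N / d : ℕ) : ℝ) + 1) := by exact_mod_cast h9.le
    have h11 : (1 : ℝ) ≤ ((N / d : ℕ) : ℝ) := by exact_mod_cast hq1
    nlinarith
  have hlogq : (1 / 2 : ℝ) * Real.log N ≤ Real.log ((N / d : ℕ) : ℝ) := by
    have h12 : Real.log (N : ℝ) ≤ Real.log (((N / d : ℕ) : ℝ) ^ 2) := by
      apply Real.log_le_log hN0
      have h13 : (N : ℝ) ≤ ((N : ℝ) / (2 * d)) ^ 2 := by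
        rw [div_pow, le_div_iff₀ (by positivity)]
        nlinarith
      exact h13.trans (pow_le_pow_left₀ (by positivity) hq 2)
    rw [Real.log_pow] at h12
    push_cast at h12
    linarith
  unfold LL
  have h14 : 0 < 1 + Real.log ((N / d : ℕ) : ℝ) := by linarith
  have h15 : Real.log (1 + Real.log N) ≤ Real.log (Real.exp 1 * (1 + Real.log ((N / d : ℕ) : ℝ))) := by
    apply Real.log_le_log (by linarith)
    have h16 : (2 : ℝ) ≤ Real.exp 1 := by
      have := Real.add_one_le_exp (1 : ℝ); linarith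
    nlinarith
  rw [Real.log_mul (Real.exp_pos _).ne' h14.ne', Real.log_exp] at h15
  linarith

/-- Row K6. Typical `n` with a good decomposition. By `weight` and `double_sum` (with `M = N / d`,
for each `d ≤ (log N)^5`; `LL (N/d) ≥ LL N - 1` for `N ≥ N₀`):
`card S ≤ exp(0.6 log(5/4) LL N) ∑_d C (N/d) exp(-0.148 LL(N/d) + 0.001 LL N)
≤ C N (1 + log T) exp((0.13389 - 0.147) LL N)`, and `1 + log T ≤ C exp (0.001 LL N)`.
(`0.6 log (5/4) < 0.1339`.) -/
theorem main_count (Δ : ℤ) (h : ¬ IsSquare Δ) (W : ℕ) (hW : W ≠ 0) (κ : ℤ) : ∃ C : ℝ, 0 < C ∧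
    ∃ N₀ : ℕ, ∀ N : ℕ, N₀ ≤ N → ∀ S : Finset ℕ,
    (∀ n ∈ S, n ≤ N ∧ Squarefree n ∧ (op Δ W n : ℝ) ≤ 3 / 5 * LL N ∧
      ∃ h g d : ℕ, n = h * g * d ∧ (d : ℝ) ≤ (Real.log N) ^ 5 ∧
      (∀ p : ℕ, p.Prime → p ∣ h → ¬ p ∣ W → jacobiSym (κ * g) p = 1) ∧
      (∀ p : ℕ, p.Prime → p ∣ g → ¬ p ∣ W → jacobiSym Δ p = 1) ∧ Good Δ κ N g) →
    (S.card : ℝ) ≤ C * N * Real.exp (- (1 / 100) * LL N) := by
  classical
  obtain ⟨C, hC, hds⟩ := double_sum Δ h W hW
  obtain ⟨N₀, hN₀3, hlarge⟩ := K6_large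
  refine ⟨15000 * C, by positivity, N₀, ?_⟩
  intro N hN S hS
  have hN3 : 3 ≤ N := hN₀3.trans hN
  have hN0 : (0 : ℝ) < N := by
    have : (3 : ℝ) ≤ N := by exact_mod_cast hN3
    linarith
  have hlogN : 1 ≤ Real.log N := by
    rw [Real.le_log_iff_exp_le hN0]
    have h1 := Real.exp_one_lt_d9
    have h2 : (3 : ℝ) ≤ N := by exact_mod_cast hN3
    linarith
  have hLL0 : 0 ≤ LL N := Real.log_nonneg (by linarith)
  set T := ⌊(Real.log N) ^ 5⌋₊ with hT
  set A := Real.exp (3 / 5 * Real.log (5 / 4) * LL N) with hA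
  set F : ℕ → ℕ → ℝ := fun g h' => FF (wg Δ W) g * FF (wh Δ (κ * g) W) h' with hF
  have hF0 : ∀ g h', 0 ≤ F g h' := fun g h' =>
    mul_nonneg (K6_FF_nonneg (K6_wg Δ W) g) (K6_FF_nonneg (K6_wh Δ (κ * g) W) h')
  choose! hn_le hsq hop a g d hnd hd hA1 hB1 hgood using hS
  have hpos : ∀ n ∈ S, 1 ≤ a n ∧ 1 ≤ g n ∧ 1 ≤ d n := by
    intro n hn
    have h0 : n ≠ 0 := (hsq n hn).ne_zero
    rw [hnd n hn] at h0
    have h1 := left_ne_zero_of_mul (left_ne_zero_of_mul h0)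
    have h2 := right_ne_zero_of_mul (left_ne_zero_of_mul h0)
    have h3 := right_ne_zero_of_mul h0
    omega
  set U : Finset (Σ _ : ℕ, Σ _ : ℕ, ℕ) := (Finset.Icc 1 T).sigma (fun d =>
    ((Finset.Icc 1 (N / d)).filter (fun g => Good Δ κ N g)).sigma (fun g => Finset.Icc 1 (N / d / g))) with hU
  set φ : ℕ → (Σ _ : ℕ, Σ _ : ℕ, ℕ) := fun n => ⟨d n, g n, a n⟩ with hφ
  have hinj : Set.InjOn φ (S : Set ℕ) := by
    intro n hn n' hn' hnn
    simp only [hφ, Sigma.mk.injEq, heq_eq_eq] at hnn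
    obtain ⟨e1, e2, e3⟩ := hnn
    rw [hnd n hn, hnd n' hn', e1, e2, e3]
  have hsub : S.image φ ⊆ U := by
    intro x hx
    rw [Finset.mem_image] at hx
    obtain ⟨n, hn, rfl⟩ := hx
    obtain ⟨p1, p2, p3⟩ := hpos n hn
    have hle : a n * g n * d n ≤ N := by rw [← hnd n hn]; exact hn_le n hn
    have hagN : a n * g n ≤ N / d n := (Nat.le_div_iff_mul_le (by omega)).2 hle
    have haN : a n ≤ N / d n / g n := (Nat.le_div_iff_mul_le (by omega)).2 hagN
    have hgN : g n ≤ N / d n := le_trans (Nat.le_mul_of_pos_left _ (by omega)) hagN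
    simp only [hU, hφ, Finset.mem_sigma, Finset.mem_Icc, Finset.mem_filter]
    exact ⟨⟨p3, Nat.le_floor (hd n hn)⟩, ⟨⟨p2, hgN⟩, hgood n hn⟩, p1, haN⟩
  have hA0 : 0 < A := Real.exp_pos _
  have hcard : (S.card : ℝ) ≤ A * ∑ x ∈ U, F x.2.1 x.2.2 := by
    calc (S.card : ℝ) = ∑ n ∈ S, (1 : ℝ) := by simp
      _ ≤ ∑ n ∈ S, A * F (φ n).2.1 (φ n).2.2 := by
          apply Finset.sum_le_sum
          intro n hn
          have h1 := weight Δ (κ * g n) W n (a n) (g n) (d n) N (hnd n hn) (hsq n hn) (hop n hn)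
            (hA1 n hn) (hB1 n hn)
          simp only [hF, hφ]
          rw [mul_comm (FF (wg Δ W) (g n))]
          exact h1
      _ = ∑ x ∈ S.image φ, A * F x.2.1 x.2.2 := by
          rw [Finset.sum_image (fun n hn n' hn' hnn => hinj hn hn' hnn)]
      _ = A * ∑ x ∈ S.image φ, F x.2.1 x.2.2 := by rw [Finset.mul_sum]
      _ ≤ A * ∑ x ∈ U, F x.2.1 x.2.2 := by
          apply mul_le_mul_of_nonneg_left _ hA0.le
          exact Finset.sum_le_sum_of_subset_of_nonneg hsub (fun x _ _ => hF0 _ _)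
  have hE1 : 0 ≤ Real.exp (- (148 / 1000) * LL N) := (Real.exp_pos _).le
  have hdsum : ∀ d ∈ Finset.Icc 1 T,
      ∑ x ∈ ((Finset.Icc 1 (N / d)).filter (fun g => Good Δ κ N g)).sigma
        (fun g => Finset.Icc 1 (N / d / g)), F x.1 x.2 ≤
      3 * C * N * (Real.exp (- (148 / 1000) * LL N) * Real.exp (1 / 1000 * LL N)) * (d : ℝ)⁻¹ := by
    intro d hdm
    rw [Finset.mem_Icc] at hdm
    have hdT : (d : ℝ) ≤ (Real.log N) ^ 5 := by
      have h1 : (d : ℝ) ≤ T := by exact_mod_cast hdm.2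
      exact h1.trans (Nat.floor_le (by positivity))
    obtain ⟨hq1, hq2⟩ := hlarge N hN d hdm.1 hdT
    rw [Finset.sum_sigma]
    have h1 := hds κ N (N / d) ((Finset.Icc 1 (N / d)).filter (fun g => Good Δ κ N g)) hq1
      (Nat.div_le_self _ _) (by
        intro g hg
        rw [Finset.mem_filter, Finset.mem_Icc] at hg
        exact ⟨hg.1.1, hg.1.2, hg.2⟩)
    have h2 : ∑ g ∈ (Finset.Icc 1 (N / d)).filter (fun g => Good Δ κ N g),
        ∑ h' ∈ Finset.Icc 1 (N / d / g), F g h' =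
        ∑ g ∈ (Finset.Icc 1 (N / d)).filter (fun g => Good Δ κ N g),
          FF (wg Δ W) g * ∑ n ∈ Finset.Icc 1 (N / d / g), FF (wh Δ (κ * g) W) n := by
      apply Finset.sum_congr rfl
      intro g _
      rw [Finset.mul_sum]
    have hd0 : (0 : ℝ) < d := by
      have : (1 : ℝ) ≤ d := by exact_mod_cast hdm.1
      linarith
    have h3 : ((N / d : ℕ) : ℝ) ≤ N * (d : ℝ)⁻¹ := by
      rw [← div_eq_mul_inv]; exact Nat.cast_div_le
    have h4 : Real.exp (- (148 / 1000) * LL (N / d)) ≤ 3 * Real.exp (- (148 / 1000) * LL N) := by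
      calc Real.exp (- (148 / 1000) * LL (N / d)) ≤ Real.exp (1 + - (148 / 1000) * LL N) := by
            apply Real.exp_le_exp.2
            linarith
        _ = Real.exp 1 * Real.exp (- (148 / 1000) * LL N) := Real.exp_add _ _
        _ ≤ 3 * Real.exp (- (148 / 1000) * LL N) := by
            apply mul_le_mul_of_nonneg_right _ hE1
            have := Real.exp_one_lt_d9
            linarith
    calc _ ≤ C * ((N / d : ℕ) : ℝ) * Real.exp (- (148 / 1000) * LL (N / d)) *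
            Real.exp (1 / 1000 * LL N) := h2 ▸ h1
      _ ≤ C * (N * (d : ℝ)⁻¹) * (3 * Real.exp (- (148 / 1000) * LL N)) *
            Real.exp (1 / 1000 * LL N) := by
          apply mul_le_mul_of_nonneg_right _ (Real.exp_pos _).le
          apply mul_le_mul _ h4 (Real.exp_pos _).le (by positivity)
          exact mul_le_mul_of_nonneg_left h3 hC.le
      _ = _ := by ring
  have hharm : ∑ d ∈ Finset.Icc 1 T, (d : ℝ)⁻¹ ≤ 5000 * Real.exp (1 / 1000 * LL N) := by
    have hT1 : 1 ≤ T := Nat.le_floor (by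
      have : (1 : ℝ) ≤ (Real.log N) ^ 5 := one_le_pow₀ hlogN
      simpa using this)
    have h1 := harmonic_le_one_add_log T
    rw [harmonic_eq_sum_Icc] at h1
    push_cast at h1
    have h2 : Real.log T ≤ 5 * LL N := by
      have hTle : (T : ℝ) ≤ (Real.log N) ^ 5 := Nat.floor_le (by positivity)
      have hT0 : (0 : ℝ) < T := by exact_mod_cast hT1
      have h3 : Real.log T ≤ Real.log ((Real.log N) ^ 5) := Real.log_le_log hT0 hTle
      rw [Real.log_pow] at h3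
      push_cast at h3
      have h4 : Real.log (Real.log N) ≤ LL N := by
        unfold LL
        apply Real.log_le_log (by linarith)
        linarith
      linarith
    have h5 := Real.add_one_le_exp (1 / 1000 * LL N)
    linarith
  have hfinal : A * Real.exp (- (148 / 1000) * LL N) * Real.exp (1 / 1000 * LL N) *
      Real.exp (1 / 1000 * LL N) ≤ Real.exp (- (1 / 100) * LL N) := by
    rw [hA, ← Real.exp_add, ← Real.exp_add, ← Real.exp_add]
    apply Real.exp_le_exp.2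
    have h1 := mul_le_mul_of_nonneg_right K6_log54 hLL0
    nlinarith
  have hpre : 0 ≤ 3 * C * N * (Real.exp (- (148 / 1000) * LL N) * Real.exp (1 / 1000 * LL N)) := by
    positivity
  calc (S.card : ℝ) ≤ A * ∑ x ∈ U, F x.2.1 x.2.2 := hcard
    _ ≤ A * (3 * C * N * (Real.exp (- (148 / 1000) * LL N) * Real.exp (1 / 1000 * LL N)) *
          ∑ d ∈ Finset.Icc 1 T, (d : ℝ)⁻¹) := by
        apply mul_le_mul_of_nonneg_left _ hA0.le
        rw [hU, Finset.sum_sigma, Finset.mul_sum]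
        exact Finset.sum_le_sum hdsum
    _ ≤ A * (3 * C * N * (Real.exp (- (148 / 1000) * LL N) * Real.exp (1 / 1000 * LL N)) *
          (5000 * Real.exp (1 / 1000 * LL N))) := by
        apply mul_le_mul_of_nonneg_left _ hA0.le
        exact mul_le_mul_of_nonneg_left hharm hpre
    _ = 15000 * C * N * (A * Real.exp (- (148 / 1000) * LL N) * Real.exp (1 / 1000 * LL N) *
      Real.exp (1 / 1000 * LL N)) := by ring
    _ ≤ 15000 * C * N * Real.exp (- (1 / 100) * LL N) :=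
        mul_le_mul_of_nonneg_left hfinal (by positivity)

end TwHL
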