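import Pool.Agent.LibTwHL.H2
import Pool.Agent.LibTwHL.K6
import Pool.Agent.LibTwHL.K7b

namespace TwHL

private theorem LL_tendsto : Filter.Tendsto LL Filter.atTop Filter.atTop := by
  unfold LL
  have h1 : Filter.Tendsto (fun x : ℕ => Real.log (x : ℝ)) Filter.atTop Filter.atTop :=
    Real.tendsto_log_atTop.comp tendsto_natCast_atTop_atTop
  have h2 : Filter.Tendsto (fun x : ℕ => 1 + Real.log (x : ℝ)) Filter.atTop Filter.atTop :=
    Filter.tendsto_atTop_add_const_left _ _ h1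
  exact Real.tendsto_log_atTop.comp h2

private theorem exp_LL_small (c C ε : ℝ) (hc : 0 < c) (hC : 0 < C) (hε : 0 < ε) :
    ∃ N₀ : ℕ, ∀ N : ℕ, N₀ ≤ N → C * Real.exp (-c * LL N) ≤ ε := by
  have h1 := LL_tendsto.eventually_ge_atTop (Real.log (C / ε) / c)
  rw [Filter.eventually_atTop] at h1
  obtain ⟨N₀, hN₀⟩ := h1
  refine ⟨N₀, fun N hN => ?_⟩
  have h2 := hN₀ N hN
  have h3 : Real.log (C / ε) ≤ c * LL N := by
    rw [div_le_iff₀ hc] at h2
    linarith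
  have h4 : C / ε ≤ Real.exp (c * LL N) := by
    rw [← Real.exp_log (div_pos hC hε)]
    exact Real.exp_le_exp.mpr h3
  have h5 : Real.exp (-c * LL N) = (Real.exp (c * LL N))⁻¹ := by
    rw [← Real.exp_neg]
    congr 1
    ring
  rw [h5]
  rw [div_le_iff₀ hε] at h4
  have h6 : 0 < Real.exp (c * LL N) := Real.exp_pos _
  rw [← div_eq_mul_inv, div_le_iff₀ h6]
  linarith

private theorem harm_bound (T : ℝ) (hT : 1 ≤ T) :
    ∑ d ∈ Finset.Icc 1 ⌊T⌋₊, 1 / (d : ℝ) ≤ 1 + Real.log T := by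
  have h1 := harmonic_floor_le_one_add_log T hT
  rw [harmonic_eq_sum_Icc] at h1
  push_cast at h1
  calc ∑ d ∈ Finset.Icc 1 ⌊T⌋₊, 1 / (d : ℝ) = ∑ d ∈ Finset.Icc 1 ⌊T⌋₊, ((d : ℝ))⁻¹ := by
        apply Finset.sum_congr rfl
        intro d _
        rw [one_div]
    _ ≤ _ := h1

private theorem union_bound (N : ℕ) (E D : Finset ℕ) (S : Finset ℕ)
    (hS : ∀ n ∈ S, ∃ h, ∃ g ∈ E, ∃ d ∈ D, n = h * g * d ∧ 1 ≤ h ∧ 1 ≤ g ∧ 1 ≤ d ∧ n ≤ N) :
    (S.card : ℝ) ≤ N * (∑ d ∈ D, 1 / (d : ℝ)) * ∑ g ∈ E, 1 / (g : ℝ) := by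
  classical
  have hsub : S ⊆ (E ×ˢ D).biUnion (fun q =>
      (Finset.Icc 1 (N / (q.1 * q.2))).image (fun h => h * q.1 * q.2)) := by
    intro n hn
    obtain ⟨h, g, hg, d, hd, hn1, h1, h2, h3, h4⟩ := hS n hn
    rw [Finset.mem_biUnion]
    refine ⟨(g, d), Finset.mem_product.mpr ⟨hg, hd⟩, ?_⟩
    rw [Finset.mem_image]
    refine ⟨h, ?_, hn1.symm⟩
    rw [Finset.mem_Icc]
    refine ⟨h1, ?_⟩
    have hgd : 0 < g * d := Nat.mul_pos h2 h3
    rw [Nat.le_div_iff_mul_le hgd, ← mul_assoc, ← hn1]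
    exact h4
  have hc1 : S.card ≤ ∑ q ∈ E ×ˢ D, N / (q.1 * q.2) := by
    calc S.card ≤ ((E ×ˢ D).biUnion (fun q =>
          (Finset.Icc 1 (N / (q.1 * q.2))).image (fun h => h * q.1 * q.2))).card :=
          Finset.card_le_card hsub
      _ ≤ ∑ q ∈ E ×ˢ D, ((Finset.Icc 1 (N / (q.1 * q.2))).image
          (fun h => h * q.1 * q.2)).card := Finset.card_biUnion_le
      _ ≤ ∑ q ∈ E ×ˢ D, N / (q.1 * q.2) := by
          apply Finset.sum_le_sum
          intro q _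
          have := Finset.card_image_le (s := Finset.Icc 1 (N / (q.1 * q.2)))
            (f := fun h => h * q.1 * q.2)
          rwa [Nat.card_Icc, Nat.add_sub_cancel] at this
  have hc2 : (S.card : ℝ) ≤ ∑ q ∈ E ×ˢ D, ((N / (q.1 * q.2) : ℕ) : ℝ) := by
    exact_mod_cast hc1
  calc (S.card : ℝ) ≤ ∑ q ∈ E ×ˢ D, ((N / (q.1 * q.2) : ℕ) : ℝ) := hc2
    _ ≤ ∑ q ∈ E ×ˢ D, (N : ℝ) * (1 / (q.2 : ℝ)) * (1 / (q.1 : ℝ)) := by
        apply Finset.sum_le_sum
        intro q _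
        have h1 : ((N / (q.1 * q.2) : ℕ) : ℝ) ≤ (N : ℝ) / ((q.1 * q.2 : ℕ) : ℝ) :=
          Nat.cast_div_le
        have h2 : (N : ℝ) / ((q.1 * q.2 : ℕ) : ℝ) = (N : ℝ) * (1 / (q.2 : ℝ)) * (1 / (q.1 : ℝ)) := by
          push_cast
          rw [div_eq_mul_inv, mul_inv, one_div, one_div]
          ring
        rw [← h2]
        exact h1
    _ = N * (∑ d ∈ D, 1 / (d : ℝ)) * ∑ g ∈ E, 1 / (g : ℝ) := by
        rw [Finset.sum_product, Finset.mul_sum]
        apply Finset.sum_congr rfl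
        intro g _
        rw [Finset.mul_sum, Finset.sum_mul]

/-- Row K8. Three classes: not typical (`typical`), typical with a good decomposition
(`main_count`), and with `g` not good: at most `∑_d ∑_g N/(g d) ≤ N (1 + log T) C exp(- LL N)`
(`sum_not_good`; `T = (log N)^5`), all `o(N)`. -/
theorem K_lemma (Δ : ℤ) (h : ¬ IsSquare Δ) (W : ℕ) (hW : W ≠ 0) (κ : ℤ) (η : ℝ) (hη : 0 < η) :
    ∃ N₀ : ℕ, ∀ N : ℕ, N₀ ≤ N → ∀ S : Finset ℕ,
    (∀ n ∈ S, n ≤ N ∧ Squarefree n ∧ ∃ h g d : ℕ, n = h * g * d ∧ (d : ℝ) ≤ (Real.log N) ^ 5 ∧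
      (Real.log N) ^ 10 < (g : ℝ) ∧
      (∀ p : ℕ, p.Prime → p ∣ h → ¬ p ∣ W → jacobiSym (κ * g) p = 1) ∧
      (∀ p : ℕ, p.Prime → p ∣ g → ¬ p ∣ W → jacobiSym Δ p = 1)) →
    (S.card : ℝ) ≤ η * N := by
  classical
  obtain ⟨C1, hC1, hT1⟩ := typical Δ h W
  obtain ⟨C2, hC2, N2, hM2⟩ := main_count Δ h W hW κ
  obtain ⟨C3, hC3, N3, hG3⟩ := sum_not_good Δ κ
  obtain ⟨M1, hM1⟩ := exp_LL_small (1 / 200) C1 (η / 3) (by norm_num) hC1 (by linarith)
  obtain ⟨M2, hM2'⟩ := exp_LL_small (1 / 100) C2 (η / 3) (by norm_num) hC2 (by linarith)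
  obtain ⟨M3, hM3⟩ := exp_LL_small (1 / 2) (10 * C3) (η / 3) (by norm_num) (by linarith)
    (by linarith)
  refine ⟨max (max (max 3 N2) (max N3 M1)) (max M2 M3), ?_⟩
  intro N hN S hS
  simp only [max_le_iff] at hN
  obtain ⟨⟨⟨hN3, hNN2⟩, hNN3, hNM1⟩, hNM2, hNM3⟩ := hN
  have hNr : (3 : ℝ) ≤ (N : ℝ) := by exact_mod_cast hN3
  have hNpos : (0 : ℝ) ≤ (N : ℝ) := by linarith
  have hlog1 : 1 ≤ Real.log (N : ℝ) := by
    rw [← Real.log_exp 1]
    apply Real.log_le_log (Real.exp_pos 1)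
    have := Real.exp_one_lt_d9
    linarith
  have hT : (1 : ℝ) ≤ (Real.log (N : ℝ)) ^ 5 := one_le_pow₀ hlog1
  have hLL0 : 0 ≤ LL N := by
    unfold LL
    exact Real.log_nonneg (by linarith)
  have hlogT : 1 + Real.log ((Real.log (N : ℝ)) ^ 5) ≤ 10 * Real.exp (1 / 2 * LL N) := by
    rw [Real.log_pow]
    have h1 : Real.log (Real.log (N : ℝ)) ≤ LL N := by
      unfold LL
      exact Real.log_le_log (by linarith) (by linarith)
    have h2 := Real.add_one_le_exp (1 / 2 * LL N)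
    push_cast
    linarith
  -- the three classes
  set S1 := S.filter (fun n => 3 / 5 * LL N < (op Δ W n : ℝ)) with hS1
  set S2 := S.filter (fun n => (op Δ W n : ℝ) ≤ 3 / 5 * LL N ∧
      ∃ h g d : ℕ, n = h * g * d ∧ (d : ℝ) ≤ (Real.log N) ^ 5 ∧
      (∀ p : ℕ, p.Prime → p ∣ h → ¬ p ∣ W → jacobiSym (κ * g) p = 1) ∧
      (∀ p : ℕ, p.Prime → p ∣ g → ¬ p ∣ W → jacobiSym Δ p = 1) ∧ Good Δ κ N g) with hS2
  set E : Finset ℕ := (Finset.Icc 1 N).filter (fun g : ℕ => (Real.log N) ^ 10 < (g : ℝ) ∧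
      Squarefree g ∧ ¬ Good Δ κ N g) with hE
  set S3 : Finset ℕ := S.filter (fun n : ℕ => ∃ h, ∃ g ∈ E, ∃ d ∈ Finset.Icc 1 ⌊(Real.log (N : ℝ)) ^ 5⌋₊,
      n = h * g * d ∧ 1 ≤ h ∧ 1 ≤ g ∧ 1 ≤ d ∧ n ≤ N) with hS3
  have hcover : S ⊆ S1 ∪ S2 ∪ S3 := by
    intro n hn
    obtain ⟨hnN, hsq, h', g, d, hneq, hd, hg, hp1, hp2⟩ := hS n hn
    rw [Finset.mem_union, Finset.mem_union]
    by_cases c1 : 3 / 5 * LL N < (op Δ W n : ℝ)
    · left
      left
      rw [hS1, Finset.mem_filter]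
      exact ⟨hn, c1⟩
    · rw [not_lt] at c1
      by_cases c2 : Good Δ κ N g
      · left
        right
        rw [hS2, Finset.mem_filter]
        exact ⟨hn, c1, h', g, d, hneq, hd, hp1, hp2, c2⟩
      · right
        rw [hS3, Finset.mem_filter]
        have hn0 : n ≠ 0 := hsq.ne_zero
        have hh0 : h' ≠ 0 := by
          rintro rfl
          exact hn0 (by rw [hneq]; ring)
        have hg0 : g ≠ 0 := by
          rintro rfl
          exact hn0 (by rw [hneq]; ring)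
        have hd0 : d ≠ 0 := by
          rintro rfl
          exact hn0 (by rw [hneq]; ring)
        have hgdvd : g ∣ n := ⟨h' * d, by rw [hneq]; ring⟩
        refine ⟨hn, h', g, ?_, d, ?_, hneq, by omega, by omega, by omega, hnN⟩
        · rw [hE, Finset.mem_filter, Finset.mem_Icc]
          refine ⟨⟨by omega, le_trans (Nat.le_of_dvd (by omega) hgdvd) hnN⟩, hg,
            hsq.squarefree_of_dvd hgdvd, c2⟩
        · rw [Finset.mem_Icc]
          exact ⟨by omega, Nat.le_floor hd⟩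
  have hb1 : (S1.card : ℝ) ≤ η / 3 * N := by
    have h1 : S1 ⊆ (Finset.Icc 1 N).filter
        (fun n => Squarefree n ∧ 3 / 5 * LL N < (op Δ W n : ℝ)) := by
      intro n hn
      rw [hS1, Finset.mem_filter] at hn
      obtain ⟨hnN, hsq, _⟩ := hS n hn.1
      rw [Finset.mem_filter, Finset.mem_Icc]
      have hn0 : n ≠ 0 := hsq.ne_zero
      exact ⟨⟨by omega, hnN⟩, hsq, hn.2⟩
    have h2 : (S1.card : ℝ) ≤ (((Finset.Icc 1 N).filter
        (fun n => Squarefree n ∧ 3 / 5 * LL N < (op Δ W n : ℝ))).card : ℝ) := by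
      exact_mod_cast Finset.card_le_card h1
    have h3 := hT1 N (by omega)
    have h4 : C1 * Real.exp (-(1 / 200) * LL N) ≤ η / 3 := hM1 N hNM1
    calc (S1.card : ℝ) ≤ C1 * N * Real.exp (- (1 / 200) * LL N) := le_trans h2 h3
      _ = (C1 * Real.exp (-(1 / 200) * LL N)) * N := by ring
      _ ≤ η / 3 * N := mul_le_mul_of_nonneg_right h4 hNpos
  have hb2 : (S2.card : ℝ) ≤ η / 3 * N := by
    have h3 := hM2 N hNN2 S2 (by
      intro n hn
      rw [hS2, Finset.mem_filter] at hn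
      obtain ⟨hnN, hsq, _⟩ := hS n hn.1
      exact ⟨hnN, hsq, hn.2.1, hn.2.2⟩)
    have h4 : C2 * Real.exp (-(1 / 100) * LL N) ≤ η / 3 := hM2' N hNM2
    calc (S2.card : ℝ) ≤ C2 * N * Real.exp (- (1 / 100) * LL N) := h3
      _ = (C2 * Real.exp (-(1 / 100) * LL N)) * N := by ring
      _ ≤ η / 3 * N := mul_le_mul_of_nonneg_right h4 hNpos
  have hb3 : (S3.card : ℝ) ≤ η / 3 * N := by
    have h1 := union_bound N E (Finset.Icc 1 ⌊(Real.log (N : ℝ)) ^ 5⌋₊) S3 (by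
      intro n hn
      rw [hS3, Finset.mem_filter] at hn
      exact hn.2)
    have h2 := harm_bound _ hT
    have h3 := hG3 N hNN3 E (by
      intro g hg
      rw [hE, Finset.mem_filter, Finset.mem_Icc] at hg
      exact ⟨hg.2.1, hg.1.2, hg.2.2.1, hg.2.2.2⟩)
    have h4 : 10 * C3 * Real.exp (-(1 / 2) * LL N) ≤ η / 3 := hM3 N hNM3
    have h5 : ∑ d ∈ Finset.Icc 1 ⌊(Real.log (N : ℝ)) ^ 5⌋₊, 1 / (d : ℝ)
        ≤ 10 * Real.exp (1 / 2 * LL N) := le_trans h2 hlogT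
    have h6 : (∑ d ∈ Finset.Icc 1 ⌊(Real.log (N : ℝ)) ^ 5⌋₊, 1 / (d : ℝ))
        * ∑ g ∈ E, 1 / (g : ℝ) ≤ (10 * Real.exp (1 / 2 * LL N)) * (C3 * Real.exp (- LL N)) := by
      apply mul_le_mul h5 h3
      · exact Finset.sum_nonneg (fun g _ => by positivity)
      · positivity
    have h7 : (10 * Real.exp (1 / 2 * LL N)) * (C3 * Real.exp (- LL N))
        = 10 * C3 * Real.exp (-(1 / 2) * LL N) := by
      have h8 : Real.exp (-(1 / 2) * LL N) = Real.exp (1 / 2 * LL N) * Real.exp (- LL N) := by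
        rw [← Real.exp_add]
        congr 1
        ring
      rw [h8]
      ring
    calc (S3.card : ℝ) ≤ N * (∑ d ∈ Finset.Icc 1 ⌊(Real.log (N : ℝ)) ^ 5⌋₊, 1 / (d : ℝ))
          * ∑ g ∈ E, 1 / (g : ℝ) := h1
      _ = N * ((∑ d ∈ Finset.Icc 1 ⌊(Real.log (N : ℝ)) ^ 5⌋₊, 1 / (d : ℝ))
          * ∑ g ∈ E, 1 / (g : ℝ)) := by ring
      _ ≤ N * (η / 3) := by
          apply mul_le_mul_of_nonneg_left _ hNpos
          rw [h7] at h6
          exact le_trans h6 h4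
      _ = η / 3 * N := by ring
  have hfin : (S.card : ℝ) ≤ (S1.card : ℝ) + S2.card + S3.card := by
    have h1 : S.card ≤ S1.card + S2.card + S3.card := by
      calc S.card ≤ (S1 ∪ S2 ∪ S3).card := Finset.card_le_card hcover
        _ ≤ (S1 ∪ S2).card + S3.card := Finset.card_union_le _ _
        _ ≤ S1.card + S2.card + S3.card := by
            have := Finset.card_union_le S1 S2
            omega
    exact_mod_cast h1
  linarith

end TwHL
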