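import Pool.Agent.LibTwHL.P1

namespace TwHL

private lemma P2_double {α : Type*} [DecidableEq α] (g : α → ℕ) (f : α → ℝ) (L : ℝ) :
    ∀ n : ℕ, ∀ G : Finset α, G.card = n + 1 →
      (∀ z ∈ G, ∀ z' ∈ G, g z = g z' → z = z') →
      (∀ z ∈ G, ∀ z' ∈ G, g z < g z' → 2 * f z ≤ f z') →
      (∀ z ∈ G, L ≤ f z) → ∃ z ∈ G, 2 ^ n * L ≤ f z := by
  intro n
  induction n with
  | zero =>
    intro G hG _ _ hL
    obtain ⟨z, hz⟩ := Finset.card_pos.1 (by omega : 0 < G.card)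
    exact ⟨z, hz, by simpa using hL z hz⟩
  | succ n ih =>
    intro G hG hinj hdb hL
    have hne : G.Nonempty := Finset.card_pos.1 (by omega)
    obtain ⟨z, hz, hmax⟩ := Finset.exists_max_image G g hne
    have hc : (G.erase z).card = n + 1 := by
      rw [Finset.card_erase_of_mem hz, hG]; rfl
    obtain ⟨z', hz', h1⟩ := ih (G.erase z) hc
      (fun a ha b hb => hinj a (Finset.mem_of_mem_erase ha) b (Finset.mem_of_mem_erase hb))
      (fun a ha b hb => hdb a (Finset.mem_of_mem_erase ha) b (Finset.mem_of_mem_erase hb))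
      (fun a ha => hL a (Finset.mem_of_mem_erase ha))
    have hz'G := Finset.mem_of_mem_erase hz'
    have hlt : g z' < g z := by
      refine lt_of_le_of_ne (hmax z' hz'G) fun h => ?_
      exact (Finset.ne_of_mem_erase hz') (hinj z' hz'G z hz h)
    refine ⟨z, hz, ?_⟩
    have h2 := hdb z' hz'G z hz hlt
    calc 2 ^ (n + 1) * L = 2 * (2 ^ n * L) := by ring
      _ ≤ 2 * f z' := by linarith
      _ ≤ f z := h2

private lemma P2_fiber (M : ℕ) (hM : 0 < M) (k : ℤ) (hk : k ≠ 0) (R : ℝ) (hR : 0 ≤ R)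
    (G : Finset (ℕ × ℕ)) (hG : ∀ z ∈ G, 0 < z.1 ∧ 0 < z.2 ∧
      (z.1 : ℤ) ^ 2 - M * (z.2 : ℤ) ^ 2 = k ∧ (z.1 : ℝ) ≤ Real.exp R)
    (hres : ∀ z ∈ G, ∀ z' ∈ G, k ∣ (z'.1 : ℤ) - z.1 ∧ k ∣ (z'.2 : ℤ) - z.2) :
    (G.card : ℝ) ≤ 2 * R + 4 := by
  rcases Nat.eq_zero_or_pos G.card with h0 | h0
  · rw [h0]; push_cast; linarith
  obtain ⟨n, hn⟩ : ∃ n, G.card = n + 1 := ⟨G.card - 1, by omega⟩
  set K : ℝ := |(k : ℝ)| with hK
  have hK1 : 1 ≤ K := by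
    have h1 : (1 : ℤ) ≤ |k| := Int.one_le_abs hk
    have h2 : ((1 : ℤ) : ℝ) ≤ ((|k| : ℤ) : ℝ) := Int.cast_le.2 h1
    simpa [hK, Int.cast_abs] using h2
  have hsK1 : 1 ≤ √K := by
    rw [show (1 : ℝ) = √1 by simp]
    exact Real.sqrt_le_sqrt hK1
  have hsK0 : 0 < √K := by linarith
  have hsqK : √K ^ 2 = K := Real.sq_sqrt (by linarith)
  have hM0 : (0 : ℝ) ≤ (M : ℝ) := Nat.cast_nonneg M
  have hsM : √(M : ℝ) ^ 2 = M := Real.sq_sqrt hM0
  have hsM0 : 0 ≤ √(M : ℝ) := Real.sqrt_nonneg _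
  -- the real equation
  have heq : ∀ z ∈ G, (z.1 : ℝ) ^ 2 - ((z.2 : ℝ) * √(M : ℝ)) ^ 2 = k := by
    intro z hz
    have h1 := (hG z hz).2.2.1
    have h2 : (((z.1 : ℤ) ^ 2 - M * (z.2 : ℤ) ^ 2 : ℤ) : ℝ) = (k : ℝ) := by rw [h1]
    push_cast at h2
    rw [mul_pow, hsM]
    linarith
  have hlow : ∀ z ∈ G, √K ≤ (z.1 : ℝ) + z.2 * √(M : ℝ) := by
    intro z hz
    have h1 := heq z hz
    have hx : (0 : ℝ) ≤ (z.1 : ℝ) := Nat.cast_nonneg _
    have hw : (0 : ℝ) ≤ (z.2 : ℝ) * √(M : ℝ) := mul_nonneg (Nat.cast_nonneg _) hsM0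
    have h2 : K ≤ ((z.1 : ℝ) + z.2 * √(M : ℝ)) ^ 2 := by
      rw [hK, abs_le']
      constructor <;> nlinarith [mul_nonneg hx hw]
    calc √K ≤ √(((z.1 : ℝ) + z.2 * √(M : ℝ)) ^ 2) := Real.sqrt_le_sqrt h2
      _ = (z.1 : ℝ) + z.2 * √(M : ℝ) := Real.sqrt_sq (by linarith)
  have hup : ∀ z ∈ G, (z.1 : ℝ) + z.2 * √(M : ℝ) ≤ 3 * Real.exp R * √K := by
    intro z hz
    have h1 := heq z hz
    have hx : (0 : ℝ) ≤ (z.1 : ℝ) := Nat.cast_nonneg _
    have hw : (0 : ℝ) ≤ (z.2 : ℝ) * √(M : ℝ) := mul_nonneg (Nat.cast_nonneg _) hsM0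
    have hle := (hG z hz).2.2.2
    have h3 : (z.2 : ℝ) * √(M : ℝ) ≤ z.1 + √K := by
      have h4 : ((z.2 : ℝ) * √(M : ℝ)) ^ 2 ≤ (z.1 + √K) ^ 2 := by
        have h5 : -(k : ℝ) ≤ K := neg_le_abs _
        nlinarith [mul_nonneg hx hsK0.le]
      exact abs_le_of_sq_le_sq' h4 (by linarith) |>.2
    have h6 : 1 ≤ Real.exp R := Real.one_le_exp hR
    have h7 : Real.exp R ≤ Real.exp R * √K := le_mul_of_one_le_right (by linarith) hsK1
    have h8 : √K ≤ Real.exp R * √K := le_mul_of_one_le_left hsK0.le h6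
    linarith
  have hinj : ∀ z ∈ G, ∀ z' ∈ G, z.1 = z'.1 → z = z' := by
    intro z hz z' hz' h
    have h1 := (hG z hz).2.2.1
    have h2 := (hG z' hz').2.2.1
    rw [← h] at h2
    have h3 : (M : ℤ) * ((z.2 : ℤ) ^ 2) = M * (z'.2 : ℤ) ^ 2 := by linarith
    have hM' : (M : ℤ) ≠ 0 := by exact_mod_cast hM.ne'
    have h4 := mul_left_cancel₀ hM' h3
    have h5 : (z.2 : ℕ) ^ 2 = z'.2 ^ 2 := by exact_mod_cast h4
    exact Prod.ext h (Nat.pow_left_injective (by norm_num : 2 ≠ 0) h5)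
  obtain ⟨z, hz, h1⟩ := P2_double (fun z : ℕ × ℕ => z.1)
    (fun z : ℕ × ℕ => (z.1 : ℝ) + z.2 * √(M : ℝ)) (√K) n G hn hinj (by
      intro z hz z' hz' hlt
      have h1 := pell_ratio (M : ℤ) z.1 z.2 z'.1 z'.2 k (by exact_mod_cast hM) hk
        (by exact_mod_cast (hG z hz).1) (by exact_mod_cast (hG z hz).2.1)
        (by exact_mod_cast (hG z' hz').2.1) (hG z hz).2.2.1 (hG z' hz').2.2.1
        (hres z hz z' hz').1 (hres z hz z' hz').2 (by exact_mod_cast hlt)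
      simpa using h1) hlow
  have h2 : (2 : ℝ) ^ n * √K ≤ 3 * Real.exp R * √K := h1.trans (hup z hz)
  have h3 : (2 : ℝ) ^ n ≤ 3 * Real.exp R := le_of_mul_le_mul_right h2 hsK0
  have h4 : (n : ℝ) * Real.log 2 ≤ Real.log 3 + R := by
    have h5 := Real.log_le_log (by positivity) h3
    rwa [Real.log_pow, Real.log_mul (by norm_num) (Real.exp_pos R).ne', Real.log_exp] at h5
  have hl2 : (0.6931471803 : ℝ) < Real.log 2 := Real.log_two_gt_d9
  have hl3 : Real.log 3 ≤ 2 * Real.log 2 := by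
    rw [show (2 : ℝ) * Real.log 2 = Real.log (2 ^ 2) by rw [Real.log_pow]; norm_num]
    exact Real.log_le_log (by norm_num) (by norm_num)
  rw [hn]
  push_cast
  have h6 : (n : ℝ) * Real.log 2 ≤ (2 * R + 2) * Real.log 2 := by
    nlinarith
  have h7 : (n : ℝ) ≤ 2 * R + 2 := le_of_mul_le_mul_right h6 (by linarith)
  linarith

/-- Row P2. `k^2` residue classes `(X, w) mod k`; in each class the numbers
`X + w √M` (distinct for distinct solutions: `X` determines `w`) at least double (`pell_ratio`)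
and lie in `[max 1 √|k|, 2 e^R + √|k|]` (as `w √M ≤ X + √|k|`, `|k| ≤ max X^2 (M w^2)`), an interval
of ratio at most `3 e^R`; so at most `1 + log (3 e^R) / log 2 ≤ 2 R + 4` of them. -/
theorem pell_count (M : ℕ) (hM : 0 < M) (k : ℤ) (hk : k ≠ 0) (R : ℝ) (hR : 0 ≤ R)
    (F : Finset (ℕ × ℕ)) (hF : ∀ z ∈ F, 0 < z.1 ∧ 0 < z.2 ∧
      (z.1 : ℤ) ^ 2 - M * (z.2 : ℤ) ^ 2 = k ∧ (z.1 : ℝ) ≤ Real.exp R) :
    (F.card : ℝ) ≤ (k : ℝ) ^ 2 * (2 * R + 4) := by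
  classical
  have hn0 : k.natAbs ≠ 0 := Int.natAbs_ne_zero.2 hk
  have : NeZero k.natAbs := ⟨hn0⟩
  have h1 := Finset.card_eq_sum_card_fiberwise
    (f := fun z : ℕ × ℕ => (((z.1 : ℕ) : ZMod k.natAbs), ((z.2 : ℕ) : ZMod k.natAbs)))
    (s := F) (t := Finset.univ) (fun z _ => Finset.mem_coe.2 (Finset.mem_univ _))
  have h2 : (F.card : ℝ) ≤ ∑ _b : ZMod k.natAbs × ZMod k.natAbs, (2 * R + 4) := by
    rw [h1]
    push_cast
    refine Finset.sum_le_sum fun b _ => ?_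
    refine P2_fiber M hM k hk R hR _ (fun z hz => hF z (Finset.mem_filter.1 hz).1) ?_
    intro z hz z' hz'
    have h3 := (Finset.mem_filter.1 hz).2
    have h4 := (Finset.mem_filter.1 hz').2
    have h5 := h3.trans h4.symm
    rw [Prod.mk.injEq] at h5
    constructor
    · have h6 : (((z.1 : ℕ) : ℤ) : ZMod k.natAbs) = (((z'.1 : ℕ) : ℤ) : ZMod k.natAbs) := by
        push_cast
        exact h5.1
      exact Int.natAbs_dvd.1 ((ZMod.intCast_eq_intCast_iff_dvd_sub _ _ _).1 h6)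
    · have h6 : (((z.2 : ℕ) : ℤ) : ZMod k.natAbs) = (((z'.2 : ℕ) : ℤ) : ZMod k.natAbs) := by
        push_cast
        exact h5.2
      exact Int.natAbs_dvd.1 ((ZMod.intCast_eq_intCast_iff_dvd_sub _ _ _).1 h6)
  rw [Finset.sum_const, Finset.card_univ, Fintype.card_prod, ZMod.card, nsmul_eq_mul] at h2
  have h7 : ((k.natAbs * k.natAbs : ℕ) : ℝ) = (k : ℝ) ^ 2 := by
    have h8 : ((k.natAbs * k.natAbs : ℕ) : ℤ) = k ^ 2 := by
      push_cast
      rw [← sq, sq_abs]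
    calc ((k.natAbs * k.natAbs : ℕ) : ℝ) = (((k.natAbs * k.natAbs : ℕ) : ℤ) : ℝ) :=
          (Int.cast_natCast _).symm
      _ = ((k ^ 2 : ℤ) : ℝ) := by rw [h8]
      _ = (k : ℝ) ^ 2 := Int.cast_pow k 2
  rw [h7] at h2
  exact h2

end TwHL
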