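import Pool.Agent.LibTwHL.Defs2
import Pool.Agent.LibTwHL.P2

namespace TwHL

theorem P3_sqf {m n u v : ℕ} (hm : Squarefree m) (hn : Squarefree n) (hu : 0 < u) (hv : 0 < v)
    (h : m * u ^ 2 = n * v ^ 2) : m = n := by
  apply Nat.eq_of_factorization_eq hm.ne_zero hn.ne_zero
  intro p
  have h1 := congrArg (fun z : ℕ => z.factorization p) h
  rw [Nat.factorization_mul hm.ne_zero (pow_ne_zero 2 hu.ne'),
    Nat.factorization_mul hn.ne_zero (pow_ne_zero 2 hv.ne'), Nat.factorization_pow,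
    Nat.factorization_pow] at h1
  simp only [Finsupp.coe_add, Finsupp.coe_smul, Pi.add_apply, Pi.smul_apply, smul_eq_mul] at h1
  have h2 := hm.natFactorization_le_one p
  have h3 := hn.natFactorization_le_one p
  omega

/-- Row P3. `(2X + a D₁)^2 - g k (2w)^2 = Δ D₁^2` with `X = h k u^2`, `0 < X ≤ 2X + a D₁ ≤ 3 X`.
`D` is determined by `(D₁, g, k, 2X + a D₁, 2w)`: `X` determines `h k` (squarefree part, as
`X = (h k) u^2`), hence `h`. At most `2T`, `G`, `|b|` values of `D₁, g, k`; `pell_count` with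
`M = g k`, `k = Δ D₁^2`, `R + 2`. -/
theorem small_D1 (a b : ℤ) (hb : b ≠ 0) (hΔ : ¬ IsSquare (a ^ 2 - 4 * b)) :
    ∃ C : ℝ, 0 < C ∧ ∀ (T G : ℕ) (R : ℝ), 0 ≤ R → ∀ S : Finset ℤ,
    (∀ D ∈ S, ∃ (h g k u w : ℕ) (D₁ : ℤ), Dec a b D h g k u w D₁ ∧ |D₁| ≤ T ∧ g ≤ G ∧
      |a| * |D₁| ≤ ((h * k * u ^ 2 : ℕ) : ℤ) ∧ ((h * k * u ^ 2 : ℕ) : ℝ) ≤ Real.exp R) →
    (S.card : ℝ) ≤ C * (T : ℝ) ^ 5 * G * (R + 1) := by
  classical
  have hΔ0 : a ^ 2 - 4 * b ≠ 0 := by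
    intro h0
    apply hΔ
    rw [h0]
    exact ⟨0, by norm_num⟩
  have hΔ1 : (0 : ℝ) < ((a ^ 2 - 4 * b : ℤ) : ℝ) ^ 2 := by
    have : ((a ^ 2 - 4 * b : ℤ) : ℝ) ≠ 0 := by exact_mod_cast hΔ0
    positivity
  have hb1 : (0 : ℝ) < (b.natAbs : ℝ) := by exact_mod_cast Int.natAbs_pos.2 hb
  refine ⟨16 * (b.natAbs : ℝ) * ((a ^ 2 - 4 * b : ℤ) : ℝ) ^ 2, by positivity, ?_⟩
  intro T G R hR S hS
  choose! h g k u w D₁ hdec hT hG hlow hexp using hS
  -- basic facts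
  have hD1 : ∀ D ∈ S, D₁ D ≠ 0 := by
    intro D hD h0
    obtain ⟨-, -, -, -, -, hsq, hDe, -⟩ := hdec D hD
    rw [h0, mul_zero] at hDe
    exact hsq.ne_zero hDe
  have hXpos : ∀ D ∈ S, 0 < h D * k D * u D ^ 2 := by
    intro D hD
    obtain ⟨h1, -, h3, h4, -⟩ := hdec D hD
    positivity
  let P : ℤ → ℕ := fun D => (2 * ((h D * k D * u D ^ 2 : ℕ) : ℤ) + a * D₁ D).toNat
  have hPlow : ∀ D ∈ S, ((h D * k D * u D ^ 2 : ℕ) : ℤ) ≤
      2 * ((h D * k D * u D ^ 2 : ℕ) : ℤ) + a * D₁ D := by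
    intro D hD
    have h1 := hlow D hD
    rw [← abs_mul] at h1
    have h2 := neg_abs_le (a * D₁ D)
    linarith
  have hPup : ∀ D ∈ S, 2 * ((h D * k D * u D ^ 2 : ℕ) : ℤ) + a * D₁ D ≤
      3 * ((h D * k D * u D ^ 2 : ℕ) : ℤ) := by
    intro D hD
    have h1 := hlow D hD
    rw [← abs_mul] at h1
    have h2 := le_abs_self (a * D₁ D)
    linarith
  have hPe : ∀ D ∈ S, ((P D : ℕ) : ℤ) = 2 * ((h D * k D * u D ^ 2 : ℕ) : ℤ) + a * D₁ D := by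
    intro D hD
    refine Int.toNat_of_nonneg ?_
    exact le_trans (Int.natCast_nonneg _) (hPlow D hD)
  have hPpos : ∀ D ∈ S, 0 < P D := by
    intro D hD
    have h1 := hPlow D hD
    rw [← hPe D hD] at h1
    have h2 : h D * k D * u D ^ 2 ≤ P D := by exact_mod_cast h1
    exact lt_of_lt_of_le (hXpos D hD) h2
  have hPexp : ∀ D ∈ S, (P D : ℝ) ≤ Real.exp (R + 2) := by
    intro D hD
    have h1 := hPup D hD
    rw [← hPe D hD] at h1
    have h2 : P D ≤ 3 * (h D * k D * u D ^ 2) := by exact_mod_cast h1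
    have h3 : (P D : ℝ) ≤ 3 * ((h D * k D * u D ^ 2 : ℕ) : ℝ) := by exact_mod_cast h2
    have h4 := hexp D hD
    have h5 : (3 : ℝ) ≤ Real.exp 2 := by
      have := Real.add_one_le_exp (2 : ℝ)
      linarith
    rw [Real.exp_add]
    have h6 : 0 < Real.exp R := Real.exp_pos R
    nlinarith
  have hpell : ∀ D ∈ S, ((P D : ℕ) : ℤ) ^ 2 - ((g D * k D : ℕ) : ℤ) * ((2 * w D : ℕ) : ℤ) ^ 2 =
      (a ^ 2 - 4 * b) * D₁ D ^ 2 := by
    intro D hD
    obtain ⟨-, -, -, -, -, -, -, -, hq, -⟩ := hdec D hD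
    unfold qf at hq
    rw [hPe D hD]
    push_cast at hq ⊢
    linear_combination 4 * hq
  -- the fibers
  let f : ℤ → ℤ × ℕ × ℕ := fun D => (D₁ D, g D, k D)
  let t : Finset (ℤ × ℕ × ℕ) :=
    ((Finset.Icc (-(T : ℤ)) T).erase 0) ×ˢ (Finset.Icc 1 G ×ˢ Finset.Icc 1 b.natAbs)
  have hmaps : ∀ D ∈ S, f D ∈ t := by
    intro D hD
    obtain ⟨-, h2, h3, -, -, -, -, -, -, -, -, hkb⟩ := hdec D hD
    refine Finset.mem_product.2 ⟨?_, Finset.mem_product.2 ⟨?_, ?_⟩⟩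
    · exact Finset.mem_erase.2 ⟨hD1 D hD, Finset.mem_Icc.2 (abs_le.1 (hT D hD))⟩
    · exact Finset.mem_Icc.2 ⟨h2, hG D hD⟩
    · refine Finset.mem_Icc.2 ⟨h3, ?_⟩
      have h4 := Int.natAbs_dvd_natAbs.2 hkb
      rw [Int.natAbs_natCast] at h4
      exact Nat.le_of_dvd (Int.natAbs_pos.2 hb) h4
  have hfib : ∀ x ∈ t, ((S.filter fun D => f D = x).card : ℝ) ≤
      ((a ^ 2 - 4 * b : ℤ) : ℝ) ^ 2 * (T : ℝ) ^ 4 * (8 * (R + 1)) := by
    rintro ⟨d, g0, k0⟩ hx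
    obtain ⟨hxd, hxgk⟩ := Finset.mem_product.1 hx
    obtain ⟨hxg, hxk⟩ := Finset.mem_product.1 hxgk
    have hd0 : d ≠ 0 := (Finset.mem_erase.1 hxd).1
    have hdT := Finset.mem_Icc.1 (Finset.mem_erase.1 hxd).2
    have hg0 : 1 ≤ g0 := (Finset.mem_Icc.1 hxg).1
    have hk0 : 1 ≤ k0 := (Finset.mem_Icc.1 hxk).1
    have hmem : ∀ D ∈ S.filter (fun D => f D = (d, g0, k0)), D ∈ S ∧ D₁ D = d ∧ g D = g0 ∧
        k D = k0 := by
      intro D hD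
      obtain ⟨h1, h2⟩ := Finset.mem_filter.1 hD
      exact ⟨h1, congrArg Prod.fst h2, congrArg (fun z => z.2.1) h2,
        congrArg (fun z => z.2.2) h2⟩
    have hinj : Set.InjOn (fun D => (P D, 2 * w D))
        ((S.filter fun D => f D = (d, g0, k0)) : Finset ℤ) := by
      intro D hD D' hD' heq
      obtain ⟨hDS, hDd, hDg, hDk⟩ := hmem D (Finset.mem_coe.1 hD)
      obtain ⟨hDS', hDd', hDg', hDk'⟩ := hmem D' (Finset.mem_coe.1 hD')
      have h1 : P D = P D' := congrArg Prod.fst heq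
      have h2 : ((P D : ℕ) : ℤ) = ((P D' : ℕ) : ℤ) := by rw [h1]
      rw [hPe D hDS, hPe D' hDS', hDd, hDd'] at h2
      have h3 : ((h D * k D * u D ^ 2 : ℕ) : ℤ) = ((h D' * k D' * u D' ^ 2 : ℕ) : ℤ) := by
        linarith
      have h4 : h D * k D * u D ^ 2 = h D' * k D' * u D' ^ 2 := by exact_mod_cast h3
      obtain ⟨-, -, hkp, hup, -, -, hDe, -, -, hsq1, -, -⟩ := hdec D hDS
      obtain ⟨-, -, -, hup', -, -, hDe', -, -, hsq1', -, -⟩ := hdec D' hDS'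
      have h5 := P3_sqf hsq1 hsq1' hup hup' h4
      rw [hDk, hDk'] at h5
      have h6 : h D = h D' := Nat.eq_of_mul_eq_mul_right (by omega) h5
      rw [hDe, hDe', h6, hDg, hDg', hDd, hDd']
    have hM : 0 < g0 * k0 := Nat.mul_pos (by omega) (by omega)
    have hkk : (a ^ 2 - 4 * b) * d ^ 2 ≠ 0 := mul_ne_zero hΔ0 (pow_ne_zero 2 hd0)
    have hcount := pell_count (g0 * k0) hM ((a ^ 2 - 4 * b) * d ^ 2) hkk (R + 2) (by linarith)
      ((S.filter fun D => f D = (d, g0, k0)).image fun D => (P D, 2 * w D)) (by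
        intro z hz
        obtain ⟨D, hD, rfl⟩ := Finset.mem_image.1 hz
        obtain ⟨hDS, hDd, hDg, hDk⟩ := hmem D hD
        refine ⟨hPpos D hDS, ?_, ?_, hPexp D hDS⟩
        · obtain ⟨-, -, -, -, h5, -⟩ := hdec D hDS
          show 0 < 2 * w D
          omega
        · have h5 := hpell D hDS
          rw [hDd, hDg, hDk] at h5
          exact h5)
    rw [Finset.card_image_of_injOn hinj] at hcount
    refine hcount.trans ?_
    have hd4 : (d : ℝ) ^ 4 ≤ (T : ℝ) ^ 4 := by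
      have h1 : |(d : ℝ)| ≤ (T : ℝ) := by
        rw [abs_le]
        exact ⟨by exact_mod_cast hdT.1, by exact_mod_cast hdT.2⟩
      calc (d : ℝ) ^ 4 = |(d : ℝ)| ^ 4 := by rw [← abs_pow, abs_of_nonneg (by positivity)]
        _ ≤ (T : ℝ) ^ 4 := pow_le_pow_left₀ (abs_nonneg _) h1 4
    have e1 : ((((a ^ 2 - 4 * b) * d ^ 2 : ℤ) : ℝ)) ^ 2 * (2 * (R + 2) + 4) =
        ((a ^ 2 - 4 * b : ℤ) : ℝ) ^ 2 * (d : ℝ) ^ 4 * (2 * R + 8) := by
      push_cast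
      ring
    rw [e1]
    have h1 : (0 : ℝ) ≤ (d : ℝ) ^ 4 := by positivity
    gcongr
    linarith
  have hcard : (S.card : ℝ) = ∑ x ∈ t, ((S.filter fun D => f D = x).card : ℝ) := by
    rw [Finset.card_eq_sum_card_fiberwise hmaps]
    push_cast
    rfl
  have ht : (t.card : ℝ) = 2 * T * (G * b.natAbs) := by
    have h1 : ((Finset.Icc (-(T : ℤ)) T).erase 0).card = 2 * T := by
      rw [Finset.card_erase_of_mem (Finset.mem_Icc.2 ⟨by simp, by simp⟩), Int.card_Icc]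
      omega
    have h2 : t.card = 2 * T * (G * b.natAbs) := by
      rw [Finset.card_product, Finset.card_product, h1, Nat.card_Icc, Nat.card_Icc]
      simp
    rw [h2]
    push_cast
    ring
  rw [hcard]
  calc ∑ x ∈ t, ((S.filter fun D => f D = x).card : ℝ)
      ≤ ∑ _x ∈ t, ((a ^ 2 - 4 * b : ℤ) : ℝ) ^ 2 * (T : ℝ) ^ 4 * (8 * (R + 1)) :=
        Finset.sum_le_sum hfib
    _ = (t.card : ℝ) * (((a ^ 2 - 4 * b : ℤ) : ℝ) ^ 2 * (T : ℝ) ^ 4 * (8 * (R + 1))) := by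
        rw [Finset.sum_const, nsmul_eq_mul]
    _ = 16 * (b.natAbs : ℝ) * ((a ^ 2 - 4 * b : ℤ) : ℝ) ^ 2 * (T : ℝ) ^ 5 * G * (R + 1) := by
        rw [ht]
        ring

end TwHL
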