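import Pool.Agent.LibTwHL.F1
import Pool.Agent.LibTwHL.A2
import Pool.Agent.LibTwHL.G7
import Pool.Agent.LibTwHL.P3
import Pool.Agent.LibTwHL.K8

namespace TwHL

private theorem F2_ev1 (T₀ : ℕ) : ∀ᶠ N : ℕ in Filter.atTop,
    T₀ ≤ ⌊(Real.log N) ^ 5⌋₊ ∧ 1 ≤ ⌊(Real.log N) ^ 5⌋₊ ∧ ⌊(Real.log N) ^ 5⌋₊ ≤ N := by
  have hlog : Filter.Tendsto (fun N : ℕ => Real.log (N : ℝ)) Filter.atTop Filter.atTop :=
    Real.tendsto_log_atTop.comp tendsto_natCast_atTop_atTop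
  have h1 : ∀ᶠ x : ℝ in Filter.atTop, ‖Real.log x ^ 5‖ ≤ 1 * ‖(id x : ℝ)‖ :=
    (Real.isLittleO_pow_log_id_atTop (n := 5)).bound (by norm_num)
  filter_upwards [hlog.eventually_ge_atTop (max (T₀ + 1 : ℝ) 1),
    tendsto_natCast_atTop_atTop.eventually h1] with N hN1 hN2
  have hL1 : (1 : ℝ) ≤ Real.log N := (le_max_right _ _).trans hN1
  have hL2 : (T₀ : ℝ) + 1 ≤ Real.log N := (le_max_left _ _).trans hN1
  have hL3 : Real.log N ≤ (Real.log N) ^ 5 := by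
    calc Real.log N = (Real.log N) ^ 1 := (pow_one _).symm
      _ ≤ (Real.log N) ^ 5 := pow_le_pow_right₀ hL1 (by norm_num)
  refine ⟨Nat.le_floor (by linarith), Nat.le_floor (by push_cast; linarith), ?_⟩
  have h2 : (Real.log N) ^ 5 ≤ N := by
    have h3 : ‖Real.log (N : ℝ) ^ 5‖ ≤ 1 * ‖((N : ℝ))‖ := hN2
    rw [Real.norm_eq_abs, Real.norm_eq_abs, one_mul, abs_of_nonneg (by positivity),
      abs_of_nonneg (by positivity)] at h3
    exact h3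
  have h4 : ((⌊(Real.log N) ^ 5⌋₊ : ℕ) : ℝ) ≤ N := (Nat.floor_le (by positivity)).trans h2
  exact_mod_cast h4

private theorem F2_ev2 (C η : ℝ) (hC : 0 < C) (hη : 0 < η) : ∀ᶠ N : ℕ in Filter.atTop,
    C * ((N : ℝ) / (⌊(Real.log N) ^ 5⌋₊ : ℕ)) * (1 + Real.log N) ^ 3 ≤ η * N := by
  have hlog : Filter.Tendsto (fun N : ℕ => Real.log (N : ℝ)) Filter.atTop Filter.atTop :=
    Real.tendsto_log_atTop.comp tendsto_natCast_atTop_atTop
  filter_upwards [hlog.eventually_ge_atTop (max 2 (16 * C / η))] with N hN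
  set l := Real.log (N : ℝ) with hl
  have hl2 : 2 ≤ l := (le_max_left _ _).trans hN
  have hl3 : 16 * C / η ≤ l := (le_max_right _ _).trans hN
  have hN0 : (0 : ℝ) ≤ N := Nat.cast_nonneg N
  have h5 : (2 : ℝ) ≤ l ^ 5 := by
    calc (2 : ℝ) ≤ l := hl2
      _ = l ^ 1 := (pow_one _).symm
      _ ≤ l ^ 5 := pow_le_pow_right₀ (by linarith) (by norm_num)
  have hT : l ^ 5 / 2 ≤ ((⌊l ^ 5⌋₊ : ℕ) : ℝ) := by
    have := Nat.lt_floor_add_one (l ^ 5)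
    linarith
  have hT0 : (0 : ℝ) < ((⌊l ^ 5⌋₊ : ℕ) : ℝ) := by linarith
  have h6 : (N : ℝ) / ((⌊l ^ 5⌋₊ : ℕ) : ℝ) ≤ N / (l ^ 5 / 2) := by
    apply div_le_div_of_nonneg_left hN0 (by linarith) hT
  have h7 : (1 + l) ^ 3 ≤ 8 * l ^ 3 := by
    have : 1 + l ≤ 2 * l := by linarith
    calc (1 + l) ^ 3 ≤ (2 * l) ^ 3 := pow_le_pow_left₀ (by linarith) this 3
      _ = 8 * l ^ 3 := by ring
  calc C * ((N : ℝ) / ((⌊l ^ 5⌋₊ : ℕ) : ℝ)) * (1 + l) ^ 3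
      ≤ C * (N / (l ^ 5 / 2)) * (8 * l ^ 3) := by
        gcongr
    _ = (16 * C / l ^ 2) * N := by
        have : l ≠ 0 := by linarith
        field_simp
        ring
    _ ≤ η * N := by
        apply mul_le_mul_of_nonneg_right _ hN0
        rw [div_le_iff₀ (by positivity)]
        rw [div_le_iff₀ hη] at hl3
        have : l ≤ l ^ 2 := by nlinarith
        nlinarith

private theorem F2_ev3 (C η θ : ℝ) (hC : 0 < C) (hη : 0 < η) (hθ : θ < 1) :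
    ∀ᶠ N : ℕ in Filter.atTop,
      C * ((⌊(Real.log N) ^ 5⌋₊ : ℕ) : ℝ) ^ 5 * ((⌊(Real.log N) ^ 10⌋₊ : ℕ) : ℝ) *
        ((N : ℝ) ^ θ + 1 + 1) ≤ η * N := by
  have hlog : Filter.Tendsto (fun N : ℕ => Real.log (N : ℝ)) Filter.atTop Filter.atTop :=
    Real.tendsto_log_atTop.comp tendsto_natCast_atTop_atTop
  have h1 : ∀ᶠ x : ℝ in Filter.atTop, ‖Real.log x ^ 35‖ ≤ (η / (4 * C)) * ‖(id x : ℝ)‖ :=
    (Real.isLittleO_pow_log_id_atTop (n := 35)).bound (by positivity)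
  have h2 : ∀ᶠ x : ℝ in Filter.atTop, ‖Real.log x ^ (35 : ℝ)‖ ≤
      (η / (2 * C)) * ‖x ^ (1 - θ)‖ :=
    (isLittleO_log_rpow_rpow_atTop 35 (by linarith : 0 < 1 - θ)).bound (by positivity)
  filter_upwards [hlog.eventually_ge_atTop 1, tendsto_natCast_atTop_atTop.eventually h1,
    tendsto_natCast_atTop_atTop.eventually h2, Filter.eventually_ge_atTop 1] with N hN1 hN2 hN3 hN4
  set l := Real.log (N : ℝ) with hl
  have hN0 : (0 : ℝ) < N := by exact_mod_cast hN4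
  have hl0 : 0 ≤ l := by linarith
  have e1 : l ^ 35 ≤ (η / (4 * C)) * N := by
    have h3 : ‖l ^ 35‖ ≤ (η / (4 * C)) * ‖((N : ℝ))‖ := hN2
    rw [Real.norm_eq_abs, Real.norm_eq_abs, abs_of_nonneg (by positivity),
      abs_of_nonneg hN0.le] at h3
    exact h3
  have e2 : l ^ 35 ≤ (η / (2 * C)) * (N : ℝ) ^ (1 - θ) := by
    have h3 : ‖l ^ (35 : ℝ)‖ ≤ (η / (2 * C)) * ‖(N : ℝ) ^ (1 - θ)‖ := hN3
    have h4 : l ^ (35 : ℝ) = l ^ 35 := by exact_mod_cast Real.rpow_natCast l 35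
    rw [h4, Real.norm_eq_abs, Real.norm_eq_abs, abs_of_nonneg (by positivity),
      abs_of_nonneg (by positivity)] at h3
    exact h3
  have hT : ((⌊l ^ 5⌋₊ : ℕ) : ℝ) ≤ l ^ 5 := Nat.floor_le (by positivity)
  have hG : ((⌊l ^ 10⌋₊ : ℕ) : ℝ) ≤ l ^ 10 := Nat.floor_le (by positivity)
  have hNθ : (0 : ℝ) < (N : ℝ) ^ θ := Real.rpow_pos_of_pos hN0 _
  have e3 : l ^ 35 * (N : ℝ) ^ θ ≤ (η / (2 * C)) * N := by
    calc l ^ 35 * (N : ℝ) ^ θ ≤ ((η / (2 * C)) * (N : ℝ) ^ (1 - θ)) * (N : ℝ) ^ θ := by gcongr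
      _ = (η / (2 * C)) * ((N : ℝ) ^ (1 - θ) * (N : ℝ) ^ θ) := by ring
      _ = (η / (2 * C)) * N := by
        rw [← Real.rpow_add hN0, sub_add_cancel, Real.rpow_one]
  calc C * ((⌊l ^ 5⌋₊ : ℕ) : ℝ) ^ 5 * ((⌊l ^ 10⌋₊ : ℕ) : ℝ) * ((N : ℝ) ^ θ + 1 + 1)
      ≤ C * (l ^ 5) ^ 5 * l ^ 10 * ((N : ℝ) ^ θ + 1 + 1) := by gcongr
    _ = C * (l ^ 35 * (N : ℝ) ^ θ) + 2 * C * l ^ 35 := by ring
    _ ≤ C * ((η / (2 * C)) * N) + 2 * C * ((η / (4 * C)) * N) := by gcongr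
    _ = η * N := by
        field_simp
        ring

private theorem F2_ev5 (A δ : ℝ) (hδ : 0 < δ) : ∀ᶠ N : ℕ in Filter.atTop,
    A ≤ ((N : ℝ) / 2) ^ δ := by
  have h1 : Filter.Tendsto (fun N : ℕ => ((N : ℝ) / 2) ^ δ) Filter.atTop Filter.atTop :=
    (tendsto_rpow_atTop hδ).comp
      (tendsto_natCast_atTop_atTop.atTop_div_const (by norm_num : (0 : ℝ) < 2))
  exact h1.eventually_ge_atTop A

/-- Row F2. `b` arbitrary, dyadic range `N < 2|D| ≤ 2N`, points up to `exp (|D|^θ)`.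
`T = ⌊(log N)^5⌋`, `G = ⌊(log N)^10⌋`. From `point_dec` (`|D| ≥ N/2 ≥ D₀`):
(1) `|D₁| > T`: `big_D1` with `c₁ = 2 * 2^(2+δ)`, count `≤ C N (1+log N)^3/T = o(N)`;
(2) `|D₁| ≤ T`, `g ≤ G`: `small_D1` with `R = N^θ + 1` (`|a| |D₁| ≤ h k u^2` because
`h k u^2 ≥ |D|^(2+δ)/(2 h g) ≥ ...`; note `h g ≤ |D|`), count `≤ C T^5 G (N^θ + 2) = o(N)`;
(3) `|D₁| ≤ T`, `g > (log N)^10`: `n = |D| = h g |D₁|`, `K_lemma` with `Δ = a^2 - 4b`,
`W = (2 b Δ).natAbs`, `κ = b k` for each `k ≤ |b|` (`dec_h`, `dec_g`), each `n` comes from at most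
two `D`. -/
theorem dyadic_range (A₀ B₀ e : ℤ) (he : e ^ 3 + A₀ * e + B₀ = 0) (hb : 3 * e ^ 2 + A₀ ≠ 0)
    (hΔ : ¬ IsSquare (-3 * e ^ 2 - 4 * A₀)) (δ θ η : ℝ) (hδ : 0 < δ) (hθ : θ < 1) (hη : 0 < η) :
    ∃ N₀ : ℕ, ∀ N : ℕ, N₀ ≤ N → ∀ S : Finset ℤ,
    (∀ D ∈ S, Squarefree D ∧ (N : ℤ) < 2 * |D| ∧ |D| ≤ N ∧ ∃ x y : ℤ,
      y ^ 2 = x ^ 3 + A₀ * D ^ 2 * x + B₀ * D ^ 3 ∧
      ((|D| : ℤ) : ℝ) ^ (2 + δ) < ((|x| : ℤ) : ℝ) ∧
      ((|x| : ℤ) : ℝ) ≤ Real.exp (((|D| : ℤ) : ℝ) ^ θ)) →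
    (S.card : ℝ) ≤ η * N := by
  classical
  set a : ℤ := 3 * e with ha
  set b : ℤ := 3 * e ^ 2 + A₀ with hbdef
  have hΔeq : a ^ 2 - 4 * b = -3 * e ^ 2 - 4 * A₀ := by rw [ha, hbdef]; ring
  have hΔ' : ¬ IsSquare (a ^ 2 - 4 * b) := by rw [hΔeq]; exact hΔ
  obtain ⟨D₀, hD₀⟩ := point_dec A₀ B₀ e he hb hΔ δ hδ
  obtain ⟨C1, hC1, T₀, h1⟩ := big_D1 a b hb hΔ' δ (2 * 2 ^ (2 + δ)) hδ (by positivity)
  obtain ⟨C2, hC2, h2⟩ := small_D1 a b hb hΔ'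
  have hΔ0 : a ^ 2 - 4 * b ≠ 0 := by
    intro h
    apply hΔ'
    rw [h]
    exact ⟨0, by simp⟩
  set W : ℕ := (2 * b * (a ^ 2 - 4 * b)).natAbs with hW
  have hW0 : W ≠ 0 := by
    rw [hW, Ne, Int.natAbs_eq_zero]
    exact mul_ne_zero (mul_ne_zero (by norm_num) hb) hΔ0
  set β : ℕ := b.natAbs with hβ
  have hβ1 : 1 ≤ β := Nat.one_le_iff_ne_zero.2 (Int.natAbs_ne_zero.2 hb)
  have hβ0 : (0 : ℝ) < β := by exact_mod_cast hβ1
  choose N3 hN3 using fun k : ℕ => K_lemma (a ^ 2 - 4 * b) hΔ' W hW0 (b * k) (η / (6 * β))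
    (by positivity)
  set θ' : ℝ := max θ 0 with hθ'
  have hθ'1 : θ' < 1 := max_lt hθ (by norm_num)
  have hev : ∀ᶠ N : ℕ in Filter.atTop,
      (T₀ ≤ ⌊(Real.log N) ^ 5⌋₊ ∧ 1 ≤ ⌊(Real.log N) ^ 5⌋₊ ∧ ⌊(Real.log N) ^ 5⌋₊ ≤ N) ∧
      C1 * ((N : ℝ) / (⌊(Real.log N) ^ 5⌋₊ : ℕ)) * (1 + Real.log N) ^ 3 ≤ η / 3 * N ∧
      C2 * ((⌊(Real.log N) ^ 5⌋₊ : ℕ) : ℝ) ^ 5 * ((⌊(Real.log N) ^ 10⌋₊ : ℕ) : ℝ) *
        ((N : ℝ) ^ θ' + 1 + 1) ≤ η / 3 * N ∧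
      2 * (((|a| : ℤ)) : ℝ) ≤ ((N : ℝ) / 2) ^ δ ∧ 2 * D₀ + 1 ≤ N ∧
      (Finset.range (β + 1)).sup N3 ≤ N := by
    filter_upwards [F2_ev1 T₀, F2_ev2 C1 (η / 3) hC1 (by positivity),
      F2_ev3 C2 (η / 3) θ' hC2 (by positivity) hθ'1, F2_ev5 (2 * (((|a| : ℤ)) : ℝ)) δ hδ,
      Filter.eventually_ge_atTop (2 * D₀ + 1),
      Filter.eventually_ge_atTop ((Finset.range (β + 1)).sup N3)] with N e1 e2 e3 e4 e5 e6
    exact ⟨e1, e2, e3, e4, e5, e6⟩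
  obtain ⟨N₀, hN₀⟩ := Filter.eventually_atTop.1 hev
  refine ⟨N₀, fun N hN S hS => ?_⟩
  obtain ⟨⟨e1a, e1b, e1c⟩, e2, e3, e5, e4, e6⟩ := hN₀ N hN
  set T : ℕ := ⌊(Real.log N) ^ 5⌋₊ with hT
  set G : ℕ := ⌊(Real.log N) ^ 10⌋₊ with hG
  have hN1 : 1 ≤ N := by omega
  have hN1r : (1 : ℝ) ≤ N := by exact_mod_cast hN1
  have hlogN : 0 ≤ Real.log N := Real.log_nonneg hN1r
  have hexp2 : (2 : ℝ) ≤ Real.exp 1 := by
    have := Real.add_one_le_exp (1 : ℝ)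
    linarith
  -- the decomposition
  have hdec : ∀ D ∈ S, ∃ (h g k u w : ℕ) (D₁ : ℤ), Dec a b D h g k u w D₁ ∧
      (N : ℝ) ^ (2 + δ) ≤ 2 * 2 ^ (2 + δ) * ((h * g * (h * k * u ^ 2) : ℕ) : ℝ) ∧
      ((h * k * u ^ 2 : ℕ) : ℝ) ≤ Real.exp ((N : ℝ) ^ θ' + 1) ∧
      |a| * |D₁| ≤ ((h * k * u ^ 2 : ℕ) : ℤ) := by
    intro D hD
    obtain ⟨hsq, hD1, hD2, x, y, hxy, hx1, hx2⟩ := hS D hD
    have hDD₀ : (D₀ : ℤ) ≤ |D| := by
      have h5 : (2 * D₀ + 1 : ℤ) ≤ N := by exact_mod_cast e4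
      linarith
    obtain ⟨h, g, k, u, w, D₁, hDec, _, hlo, hup⟩ := hD₀ D x y hDD₀ hsq hxy hx1
    obtain ⟨hh, hg, hk, hu, hw, _, hDe, _, _, _, _, _⟩ := id hDec
    have hDr1 : (N : ℝ) ≤ 2 * ((|D| : ℤ) : ℝ) := by
      have : (N : ℤ) ≤ 2 * |D| := hD1.le
      exact_mod_cast this
    have hDr2 : ((|D| : ℤ) : ℝ) ≤ N := by exact_mod_cast hD2
    have hDpos : (0 : ℝ) < ((|D| : ℤ) : ℝ) := by linarith
    have hD1r : (1 : ℝ) ≤ ((|D| : ℤ) : ℝ) := by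
      have h5 : 0 < |D| := by exact_mod_cast hDpos
      exact_mod_cast h5
    refine ⟨h, g, k, u, w, D₁, hDec, ?_, ?_, ?_⟩
    · calc (N : ℝ) ^ (2 + δ) ≤ (2 * ((|D| : ℤ) : ℝ)) ^ (2 + δ) :=
            Real.rpow_le_rpow (by positivity) hDr1 (by linarith)
        _ = 2 ^ (2 + δ) * ((|D| : ℤ) : ℝ) ^ (2 + δ) :=
            Real.mul_rpow (by norm_num) hDpos.le
        _ ≤ 2 ^ (2 + δ) * (2 * ((h * g * (h * k * u ^ 2) : ℕ) : ℝ)) := by gcongr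
        _ = _ := by ring
    · have h5 : ((h * k * u ^ 2 : ℕ) : ℝ) ≤ ((h * g * (h * k * u ^ 2) : ℕ) : ℝ) := by
        have : h * k * u ^ 2 ≤ h * g * (h * k * u ^ 2) :=
          Nat.le_mul_of_pos_left _ (Nat.mul_pos hh hg)
        exact_mod_cast this
      have h6 : ((|D| : ℤ) : ℝ) ^ θ ≤ (N : ℝ) ^ θ' := by
        calc ((|D| : ℤ) : ℝ) ^ θ ≤ ((|D| : ℤ) : ℝ) ^ θ' :=
              Real.rpow_le_rpow_of_exponent_le hD1r (le_max_left _ _)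
          _ ≤ (N : ℝ) ^ θ' := Real.rpow_le_rpow hDpos.le hDr2 (le_max_right _ _)
      calc ((h * k * u ^ 2 : ℕ) : ℝ) ≤ 2 * ((|x| : ℤ) : ℝ) := h5.trans hup
        _ ≤ Real.exp 1 * Real.exp (((|D| : ℤ) : ℝ) ^ θ) := by
            apply mul_le_mul hexp2 hx2 _ (Real.exp_pos _).le
            have : (0 : ℤ) ≤ |x| := abs_nonneg x
            exact_mod_cast this
        _ ≤ Real.exp 1 * Real.exp ((N : ℝ) ^ θ') := by gcongr
        _ = Real.exp ((N : ℝ) ^ θ' + 1) := by rw [Real.exp_add, mul_comm]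
    · have hD₁0 : D₁ ≠ 0 := by
        rintro rfl
        rw [mul_zero] at hDe
        rw [hDe] at hDpos
        simp at hDpos
      have habs : |D| = h * g * |D₁| := by
        rw [hDe, abs_mul, abs_mul, Nat.abs_cast, Nat.abs_cast]
      have hD₁1 : 1 ≤ |D₁| := Int.one_le_abs hD₁0
      have hhg : ((h * g : ℕ) : ℝ) ≤ ((|D| : ℤ) : ℝ) := by
        have : ((h * g : ℕ) : ℤ) ≤ |D| := by
          rw [habs]
          push_cast
          have h7 : (0 : ℤ) ≤ (h : ℤ) * g := by positivity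
          nlinarith
        exact_mod_cast this
      have hhg1 : (1 : ℤ) ≤ (h : ℤ) * g := by
        have : 1 ≤ h * g := Nat.mul_pos hh hg
        exact_mod_cast this
      have hD₁D : |D₁| ≤ |D| := by
        rw [habs]
        nlinarith
      have h8 : ((|D| : ℤ) : ℝ) ^ (2 + δ) = ((|D| : ℤ) : ℝ) * (((|D| : ℤ) : ℝ) *
          ((|D| : ℤ) : ℝ) ^ δ) := by
        rw [Real.rpow_add hDpos, Real.rpow_two]
        ring
      have hZ : (0 : ℝ) ≤ ((h * k * u ^ 2 : ℕ) : ℝ) := Nat.cast_nonneg _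
      have h9 : ((|D| : ℤ) : ℝ) * (((|D| : ℤ) : ℝ) * ((|D| : ℤ) : ℝ) ^ δ) ≤
          ((|D| : ℤ) : ℝ) * (2 * ((h * k * u ^ 2 : ℕ) : ℝ)) := by
        rw [← h8]
        calc ((|D| : ℤ) : ℝ) ^ (2 + δ) ≤ 2 * ((h * g * (h * k * u ^ 2) : ℕ) : ℝ) := hlo
          _ = ((h * g : ℕ) : ℝ) * (2 * ((h * k * u ^ 2 : ℕ) : ℝ)) := by push_cast; ring
          _ ≤ _ := by gcongr
      have h10 := le_of_mul_le_mul_left h9 hDpos
      have h11 : 2 * (((|a| : ℤ)) : ℝ) ≤ ((|D| : ℤ) : ℝ) ^ δ :=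
        e5.trans (Real.rpow_le_rpow (by positivity) (by linarith) hδ.le)
      have h12 : ((|D| : ℤ) : ℝ) * (2 * (((|a| : ℤ)) : ℝ)) ≤
          ((|D| : ℤ) : ℝ) * ((|D| : ℤ) : ℝ) ^ δ := by gcongr
      have h13 : (((|a| * |D| : ℤ)) : ℝ) ≤ ((h * k * u ^ 2 : ℕ) : ℝ) := by
        push_cast at h10 h12 ⊢
        linarith
      have h14 : |a| * |D| ≤ ((h * k * u ^ 2 : ℕ) : ℤ) := by exact_mod_cast h13
      exact (mul_le_mul_of_nonneg_left hD₁D (abs_nonneg a)).trans h14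
  -- the three classes
  set S1 := S.filter (fun D => ∃ (h g k u w : ℕ) (D₁ : ℤ), Dec a b D h g k u w D₁ ∧
    (T : ℤ) < |D₁| ∧ (N : ℝ) ^ (2 + δ) ≤ 2 * 2 ^ (2 + δ) * ((h * g * (h * k * u ^ 2) : ℕ) : ℝ) ∧
    ((h * k * u ^ 2 : ℕ) : ℝ) ≤ Real.exp (2 * N)) with hS1
  set S2 := S.filter (fun D => ∃ (h g k u w : ℕ) (D₁ : ℤ), Dec a b D h g k u w D₁ ∧ |D₁| ≤ T ∧
    g ≤ G ∧ |a| * |D₁| ≤ ((h * k * u ^ 2 : ℕ) : ℤ) ∧
      ((h * k * u ^ 2 : ℕ) : ℝ) ≤ Real.exp ((N : ℝ) ^ θ' + 1)) with hS2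
  set S3 : ℕ → Finset ℤ := fun k => S.filter (fun D => ∃ (h g u w : ℕ) (D₁ : ℤ),
    Dec a b D h g k u w D₁ ∧ |D₁| ≤ T ∧ G < g) with hS3
  have hcover : S ⊆ S1 ∪ (S2 ∪ (Finset.Icc 1 β).biUnion S3) := by
    intro D hD
    obtain ⟨h, g, k, u, w, D₁, hDec, hlo, hup, ha'⟩ := hdec D hD
    rw [Finset.mem_union, Finset.mem_union]
    by_cases hT1 : (T : ℤ) < |D₁|
    · left
      rw [hS1, Finset.mem_filter]
      refine ⟨hD, h, g, k, u, w, D₁, hDec, hT1, hlo, hup.trans ?_⟩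
      apply Real.exp_le_exp.2
      have h5 : (N : ℝ) ^ θ' ≤ N := by
        calc (N : ℝ) ^ θ' ≤ (N : ℝ) ^ (1 : ℝ) :=
              Real.rpow_le_rpow_of_exponent_le hN1r hθ'1.le
          _ = N := Real.rpow_one _
      linarith
    · right
      push Not at hT1
      by_cases hG1 : g ≤ G
      · left
        rw [hS2, Finset.mem_filter]
        exact ⟨hD, h, g, k, u, w, D₁, hDec, hT1, hG1, ha', hup⟩
      · right
        push Not at hG1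
        rw [Finset.mem_biUnion]
        have hk := hDec.2.2.1
        have hkb := hDec.2.2.2.2.2.2.2.2.2.2.2
        refine ⟨k, ?_, ?_⟩
        · rw [Finset.mem_Icc]
          refine ⟨hk, ?_⟩
          have h5 : k ∣ b.natAbs := Int.natCast_dvd.1 hkb
          exact Nat.le_of_dvd hβ1 h5
        · rw [hS3, Finset.mem_filter]
          exact ⟨hD, h, g, u, w, D₁, hDec, hT1, hG1⟩
  have hc1 : (S1.card : ℝ) ≤ η / 3 * N := by
    refine le_trans (h1 N T e1a e1b e1c S1 ?_) e2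
    intro D hD
    rw [hS1, Finset.mem_filter] at hD
    exact ⟨(hS D hD.1).2.2.1, hD.2⟩
  have hc2 : (S2.card : ℝ) ≤ η / 3 * N := by
    refine le_trans (h2 T G ((N : ℝ) ^ θ' + 1) (by positivity) S2 ?_) e3
    intro D hD
    rw [hS2, Finset.mem_filter] at hD
    exact hD.2
  have hc3 : ∀ k ∈ Finset.Icc 1 β, ((S3 k).card : ℝ) ≤ 2 * (η / (6 * β) * N) := by
    intro k hk
    rw [Finset.mem_Icc] at hk
    set A : Finset ℕ := (S3 k).image Int.natAbs with hA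
    have hcard : (S3 k).card ≤ 2 * A.card := by
      have hsub : S3 k ⊆ A.image (fun n : ℕ => (n : ℤ)) ∪ A.image (fun n : ℕ => -(n : ℤ)) := by
        intro D hD
        rw [Finset.mem_union, Finset.mem_image, Finset.mem_image]
        have hm : D.natAbs ∈ A := Finset.mem_image_of_mem _ hD
        rcases Int.natAbs_eq D with h5 | h5
        · exact Or.inl ⟨_, hm, h5.symm⟩
        · exact Or.inr ⟨_, hm, h5.symm⟩
      calc (S3 k).card ≤ _ := Finset.card_le_card hsub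
        _ ≤ _ := Finset.card_union_le _ _
        _ ≤ A.card + A.card := Nat.add_le_add Finset.card_image_le Finset.card_image_le
        _ = 2 * A.card := by ring
    have hAc : (A.card : ℝ) ≤ η / (6 * β) * N := by
      have hkN : N3 k ≤ N := by
        refine le_trans ?_ e6
        exact Finset.le_sup (f := N3) (Finset.mem_range.2 (by omega))
      apply hN3 k N hkN A
      intro n hn
      rw [hA, Finset.mem_image] at hn
      obtain ⟨D, hD, rfl⟩ := hn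
      rw [hS3, Finset.mem_filter] at hD
      obtain ⟨hDS, h, g, u, w, D₁, hDec, hT1, hG1⟩ := hD
      obtain ⟨hsq, _, hD2, _⟩ := hS D hDS
      have hDe := hDec.2.2.2.2.2.2.1
      refine ⟨?_, ?_, h, g, D₁.natAbs, ?_, ?_, ?_, ?_, ?_⟩
      · rw [Int.abs_eq_natAbs] at hD2
        exact_mod_cast hD2
      · exact Int.squarefree_natAbs.2 hsq
      · rw [hDe, Int.natAbs_mul, Int.natAbs_mul, Int.natAbs_natCast, Int.natAbs_natCast]
      · rw [Int.abs_eq_natAbs] at hT1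
        have h5 : D₁.natAbs ≤ T := by exact_mod_cast hT1
        have h6 : ((D₁.natAbs : ℕ) : ℝ) ≤ T := by exact_mod_cast h5
        exact h6.trans (Nat.floor_le (by positivity))
      · have h5 : (Real.log N) ^ 10 < (G : ℝ) + 1 := Nat.lt_floor_add_one _
        have h6 : (G : ℝ) + 1 ≤ g := by exact_mod_cast hG1
        linarith
      · intro p hp hph hpW
        have h5 : ¬ (p : ℤ) ∣ 2 * b := by
          intro h6
          apply hpW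
          rw [hW]
          exact Int.natCast_dvd.1 (Dvd.dvd.mul_right h6 _)
        exact dec_h hDec hp hph h5
      · intro p hp hph hpW
        have h5 : ¬ (p : ℤ) ∣ 2 * (a ^ 2 - 4 * b) := by
          intro h6
          apply hpW
          rw [hW]
          have h7 : (2 : ℤ) * b * (a ^ 2 - 4 * b) = 2 * (a ^ 2 - 4 * b) * b := by ring
          rw [h7]
          exact Int.natCast_dvd.1 (Dvd.dvd.mul_right h6 _)
        exact dec_g hDec hp hph h5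
    have h5 : ((S3 k).card : ℝ) ≤ 2 * (A.card : ℝ) := by exact_mod_cast hcard
    linarith
  have hc3' : (((Finset.Icc 1 β).biUnion S3).card : ℝ) ≤ η / 3 * N := by
    calc (((Finset.Icc 1 β).biUnion S3).card : ℝ) ≤ ((∑ k ∈ Finset.Icc 1 β, (S3 k).card : ℕ) : ℝ) := by
          exact_mod_cast Finset.card_biUnion_le
      _ = ∑ k ∈ Finset.Icc 1 β, ((S3 k).card : ℝ) := by push_cast; rfl
      _ ≤ ∑ k ∈ Finset.Icc 1 β, 2 * (η / (6 * β) * N) := Finset.sum_le_sum hc3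
      _ = β * (2 * (η / (6 * β) * N)) := by
          rw [Finset.sum_const, Nat.card_Icc, nsmul_eq_mul, Nat.add_sub_cancel]
      _ = η / 3 * N := by
          field_simp
          ring
  have hfin : (S.card : ℝ) ≤ (S1.card : ℝ) + ((S2.card : ℝ) +
      (((Finset.Icc 1 β).biUnion S3).card : ℝ)) := by
    have h5 : S.card ≤ S1.card + (S2.card + ((Finset.Icc 1 β).biUnion S3).card) :=
      (Finset.card_le_card hcover).trans ((Finset.card_union_le _ _).trans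
        (Nat.add_le_add_left (Finset.card_union_le _ _) _))
    exact_mod_cast h5
  linarith

end TwHL
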