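import Pool.Agent.LibTwHL.M1
import Pool.Agent.LibTwHL.U1
import Pool.Agent.LibTwHL.S2a

namespace TwHL

/-- `LL (a b) ≤ LL a + LL b` -/
private theorem s3a_LL_mul {a b : ℕ} (ha : 1 ≤ a) (hb : 1 ≤ b) : LL (a * b) ≤ LL a + LL b := by
  have ha' : (1 : ℝ) ≤ a := by exact_mod_cast ha
  have hb' : (1 : ℝ) ≤ b := by exact_mod_cast hb
  have h1 : 0 ≤ Real.log a := Real.log_nonneg ha'
  have h2 : 0 ≤ Real.log b := Real.log_nonneg hb'
  unfold LL
  push_cast
  rw [← Real.log_mul (by linarith) (by linarith), Real.log_mul (by linarith) (by linarith)]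
  refine Real.log_le_log (by linarith) ?_
  have h3 := mul_nonneg h1 h2
  nlinarith

/-- Row S3a. `1_{J=-1} = (1 - J)/2 - 1_{J=0}/2`; `mertens`, `chi_upper` for `κ g`, and
`J(κ g|p) = 0` only for `p | 2 κ g` (`sum_dvd` for `g`, the primes dividing `2κ` give `O(1)`);
`LL (|κ| g) ≤ LL g + C`. -/
theorem sum_minus (κ : ℤ) (hκ : κ ≠ 0) : ∃ C : ℝ, 0 < C ∧ ∀ g x : ℕ, 1 ≤ g → 1 ≤ x →
    ¬ IsSquare (κ * g) →
    1 / 2 * LL x - 1 / 2 * LL g - 1 / 2 * Real.log (1 + LL g) - C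
      ≤ ∑ p ∈ (PP x).filter (fun p => jacobiSym (κ * g) p = -1), 1 / (p : ℝ) := by
  obtain ⟨C₁, hC₁, hm⟩ := mertens
  obtain ⟨C₂, hC₂, hu⟩ := chi_upper
  obtain ⟨C₃, hC₃, hd⟩ := sum_dvd
  set K : ℝ := ∑ p ∈ κ.natAbs.primeFactors, 1 / (p : ℝ) with hK
  have hK0 : 0 ≤ K := Finset.sum_nonneg fun p _ => by positivity
  have hκ1 : 1 ≤ κ.natAbs := Int.natAbs_pos.2 hκ
  have hLκ : 0 ≤ LL κ.natAbs := by
    have h1 : (1 : ℝ) ≤ (κ.natAbs : ℝ) := by exact_mod_cast hκ1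
    exact Real.log_nonneg (by linarith [Real.log_nonneg h1])
  refine ⟨(C₁ + C₂ + C₃ + K + LL κ.natAbs) / 2 + 1, by positivity, ?_⟩
  intro g x hg hx hsq
  have e1 := (abs_le.1 (hm x hx)).1
  have e2 := hu (κ * g) hsq x hx
  have e3 := hd g hg
  have e4 : LL (κ * (g : ℤ)).natAbs ≤ LL κ.natAbs + LL g := by
    rw [Int.natAbs_mul, Int.natAbs_natCast]
    exact s3a_LL_mul hκ1 hg
  -- the pointwise identity
  have hpt : ∀ p ∈ PP x, (if jacobiSym (κ * g) p = -1 then 1 / (p : ℝ) else 0) =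
      1 / 2 * (1 / (p : ℝ)) - 1 / 2 * ((jacobiSym (κ * g) p : ℝ) / p) -
        1 / 2 * (if jacobiSym (κ * g) p = 0 then 1 / (p : ℝ) else 0) := by
    intro p _
    rcases jacobiSym.trichotomy (κ * g) p with h | h | h
    · rw [h]
      norm_num
    · rw [h]
      norm_num
    · rw [h]
      norm_num
      ring
  have hzero : ∑ p ∈ PP x, (if jacobiSym (κ * g) p = 0 then 1 / (p : ℝ) else 0) ≤
      K + ∑ p ∈ g.primeFactors, 1 / (p : ℝ) := by
    rw [← Finset.sum_filter]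
    have hsub : (PP x).filter (fun p => jacobiSym (κ * g) p = 0) ⊆
        κ.natAbs.primeFactors ∪ g.primeFactors := by
      intro p hp
      rw [Finset.mem_filter] at hp
      unfold PP at hp
      rw [Finset.mem_filter] at hp
      have hpp : p.Prime := hp.1.2
      haveI : NeZero p := ⟨hpp.ne_zero⟩
      have h1 := jacobiSym.eq_zero_iff_not_coprime.1 hp.2
      have h2 : ¬ Nat.Coprime (κ * (g : ℤ)).natAbs p := h1
      have h3 : p ∣ (κ * (g : ℤ)).natAbs := by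
        by_contra hcon
        exact h2 ((Nat.coprime_comm).1 ((Nat.Prime.coprime_iff_not_dvd hpp).2 hcon))
      rw [Int.natAbs_mul, Int.natAbs_natCast, hpp.dvd_mul] at h3
      rw [Finset.mem_union]
      rcases h3 with h3 | h3
      · exact Or.inl (Nat.mem_primeFactors.2 ⟨hpp, h3, by omega⟩)
      · exact Or.inr (Nat.mem_primeFactors.2 ⟨hpp, h3, by omega⟩)
    refine (Finset.sum_le_sum_of_subset_of_nonneg hsub fun p _ _ => by positivity).trans ?_
    have h5 := Finset.sum_union_inter (s₁ := κ.natAbs.primeFactors) (s₂ := g.primeFactors)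
      (f := fun p : ℕ => 1 / (p : ℝ))
    have h6 : 0 ≤ ∑ p ∈ κ.natAbs.primeFactors ∩ g.primeFactors, 1 / (p : ℝ) :=
      Finset.sum_nonneg fun p _ => by positivity
    linarith
  have hmain : ∑ p ∈ (PP x).filter (fun p => jacobiSym (κ * g) p = -1), 1 / (p : ℝ) =
      1 / 2 * (∑ p ∈ PP x, 1 / (p : ℝ)) - 1 / 2 * (∑ p ∈ PP x, (jacobiSym (κ * g) p : ℝ) / p) -
        1 / 2 * ∑ p ∈ PP x, (if jacobiSym (κ * g) p = 0 then 1 / (p : ℝ) else 0) := by
    rw [Finset.sum_filter, Finset.sum_congr rfl hpt, Finset.sum_sub_distrib,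
      Finset.sum_sub_distrib, Finset.mul_sum, Finset.mul_sum, Finset.mul_sum]
  rw [hmain]
  linarith

end TwHL
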