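import Pool.Agent.LibTwHL.S1a
import Pool.Agent.LibTwHL.S3a

namespace TwHL

open Filter Topology in
private theorem s3_ev (K η : ℝ) (hη : 0 < η) :
    ∀ᶠ L : ℝ in atTop, 1 ≤ Real.log L ∧ (Real.exp (L / 2) + 1) * L ^ 15 ≤ Real.exp L ∧
      K * ((1 + 10 * Real.log L) ^ 4 * Real.exp (-(Real.log L / 2))) ≤ η := by
  have hhalf : Tendsto (fun L : ℝ => L / 2) atTop atTop := tendsto_id.atTop_div_const (by norm_num)
  have h1 : ∀ᶠ L : ℝ in atTop, 1 ≤ Real.log L := Real.tendsto_log_atTop.eventually_ge_atTop 1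
  have h2 : ∀ᶠ L : ℝ in atTop, (Real.exp (L / 2) + 1) * L ^ 15 ≤ Real.exp L := by
    have h3 := ((Real.tendsto_pow_mul_exp_neg_atTop_nhds_zero 15).comp hhalf).eventually
      (ge_mem_nhds (show (0 : ℝ) < 1 / 2 ^ 16 by norm_num))
    filter_upwards [h3, eventually_ge_atTop 0] with L hL hL0
    have h4 : (L / 2) ^ 15 * Real.exp (-(L / 2)) ≤ 1 / 2 ^ 16 := hL
    have h5 : 0 < Real.exp (L / 2) := Real.exp_pos _
    have h6 : Real.exp (-(L / 2)) * Real.exp (L / 2) = 1 := by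
      rw [← Real.exp_add]
      simp
    have h7 : (L / 2) ^ 15 ≤ 1 / 2 ^ 16 * Real.exp (L / 2) := by
      have h8 := mul_le_mul_of_nonneg_right h4 h5.le
      rwa [mul_assoc, h6, mul_one] at h8
    have h9 : L ^ 15 ≤ 1 / 2 * Real.exp (L / 2) := by
      have h10 : L ^ 15 = 2 ^ 15 * (L / 2) ^ 15 := by ring
      rw [h10]
      calc (2 : ℝ) ^ 15 * (L / 2) ^ 15 ≤ 2 ^ 15 * (1 / 2 ^ 16 * Real.exp (L / 2)) :=
            mul_le_mul_of_nonneg_left h7 (by norm_num)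
        _ = 1 / 2 * Real.exp (L / 2) := by ring
    have h11 : 1 ≤ Real.exp (L / 2) := Real.one_le_exp (by linarith)
    have h12 : Real.exp L = Real.exp (L / 2) * Real.exp (L / 2) := by
      rw [← Real.exp_add]
      congr 1
      ring
    calc (Real.exp (L / 2) + 1) * L ^ 15 ≤ (2 * Real.exp (L / 2)) * (1 / 2 * Real.exp (L / 2)) :=
          mul_le_mul (by linarith) h9 (by positivity) (by positivity)
      _ = Real.exp L := by rw [h12]; ring
  have h3 : ∀ᶠ L : ℝ in atTop,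
      K * ((1 + 10 * Real.log L) ^ 4 * Real.exp (-(Real.log L / 2))) ≤ η := by
    have g : ∀ k : ℕ, Tendsto (fun u : ℝ => (u / 2) ^ k * Real.exp (-(u / 2))) atTop (𝓝 0) :=
      fun k => (Real.tendsto_pow_mul_exp_neg_atTop_nhds_zero k).comp hhalf
    have g2 := ((((g 0).add ((g 1).const_mul 80)).add ((g 2).const_mul 2400)).add
      ((g 3).const_mul 32000)).add ((g 4).const_mul 160000)
    have g3 : Tendsto (fun u : ℝ => K * ((1 + 10 * u) ^ 4 * Real.exp (-(u / 2)))) atTop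
        (𝓝 (K * 0)) := by
      refine Tendsto.const_mul K ?_
      simp only [mul_zero, add_zero] at g2
      refine g2.congr fun u => ?_
      ring
    rw [mul_zero] at g3
    exact (g3.comp Real.tendsto_log_atTop).eventually (ge_mem_nhds hη)
  filter_upwards [h1, h2, h3] with L a b c
  exact ⟨a, b, c⟩

private theorem s3_harm (n : ℕ) (hn : 1 ≤ n) :
    ∑ k ∈ Finset.Icc 1 n, 1 / (k : ℝ) ≤ 1 + Real.log n := by
  have h1 := harmonic_le_one_add_log n
  have h2 : ((harmonic n : ℚ) : ℝ) = ∑ k ∈ Finset.Icc 1 n, 1 / (k : ℝ) := by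
    rw [harmonic_eq_sum_Icc]
    push_cast
    exact Finset.sum_congr rfl fun k _ => by rw [one_div]
  rw [← h2]
  exact h1

/-- one pair `(g, d)` -/
private theorem s3_pair {κ : ℤ} {W : ℕ} {C₁ C₂ : ℝ} (hC₁ : 0 < C₁)
    (hs : ∀ (κ : ℤ) (x z : ℕ), 1 ≤ z → z ≤ x →
      ∀ S : Finset ℕ, (∀ n ∈ S, n ≤ x ∧ Squarefree n ∧
        ∀ p : ℕ, p.Prime → p ∣ n → ¬ p ∣ W → jacobiSym κ p = 1) →
      (S.card : ℝ) ≤ C₁ * x *
        Real.exp (- ∑ p ∈ (PP z).filter (fun p => jacobiSym κ p = -1), 1 / (p:ℝ)))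
    (hm : ∀ g x : ℕ, 1 ≤ g → 1 ≤ x → ¬ IsSquare (κ * g) →
      1 / 2 * LL x - 1 / 2 * LL g - 1 / 2 * Real.log (1 + LL g) - C₂
        ≤ ∑ p ∈ (PP x).filter (fun p => jacobiSym (κ * g) p = -1), 1 / (p : ℝ))
    {N : ℕ} (hu : 1 ≤ Real.log (Real.log N))
    (hL : (Real.exp (Real.log N / 2) + 1) * Real.log N ^ 15 ≤ N)
    {g d : ℕ} (hg : 1 ≤ g) (hd : 1 ≤ d) (hg' : (g : ℝ) ≤ Real.log N ^ 10)
    (hd' : (d : ℝ) ≤ Real.log N ^ 5) (hsq : ¬ IsSquare (κ * g)) (T : Finset ℕ)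
    (hT : ∀ h ∈ T, h * g * d ≤ N ∧ Squarefree h ∧
      ∀ p : ℕ, p.Prime → p ∣ h → ¬ p ∣ W → jacobiSym (κ * g) p = 1) :
    (T.card : ℝ) ≤ C₁ * Real.exp C₂ * 2 * (Real.exp (-(Real.log (Real.log N) / 2)) *
      (1 + 10 * Real.log (Real.log N)) ^ 2) * N * (1 / (g : ℝ) * (1 / (d : ℝ))) := by
  set L : ℝ := Real.log N with hLd
  set u : ℝ := Real.log L with hud
  have hg1 : (1 : ℝ) ≤ g := by exact_mod_cast hg
  have hd1 : (1 : ℝ) ≤ d := by exact_mod_cast hd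
  have hgd : 1 ≤ g * d := Nat.mul_pos hg hd
  have hgd0 : (0 : ℝ) < (g : ℝ) * d := by positivity
  have hL1 : 1 < L := by
    by_contra hcon
    push Not at hcon
    rcases le_or_gt L 0 with h0 | h0
    · have h2 : 0 ≤ L := Real.log_natCast_nonneg N
      have h3 : L = 0 := le_antisymm h0 h2
      rw [hud, h3, Real.log_zero] at hu
      linarith
    · have h1 : u ≤ 0 := Real.log_nonpos h0.le hcon
      linarith
  have hL0 : 0 < L := by linarith
  set x : ℕ := N / (g * d) with hx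
  have hgdL : (g : ℝ) * d ≤ L ^ 15 := by
    calc (g : ℝ) * d ≤ L ^ 10 * L ^ 5 := mul_le_mul hg' hd' (by positivity) (by positivity)
      _ = L ^ 15 := by ring
  have hxreal : (x : ℝ) ≤ (N : ℝ) / (g * d) := by
    have h1 := Nat.cast_div_le (m := N) (n := g * d) (α := ℝ)
    rw [hx]
    push_cast at h1 ⊢
    exact h1
  have hxlow : Real.exp (L / 2) ≤ (x : ℝ) := by
    have h1 : (N : ℝ) / (g * d) < (x : ℝ) + 1 := by
      have h2 : N < (x + 1) * (g * d) := by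
        have h3 := Nat.lt_succ_floor ((N : ℝ) / ((g * d : ℕ) : ℝ))
        have h4 := Nat.div_add_mod N (g * d)
        have h5 := Nat.mod_lt N (Nat.pos_of_ne_zero (Nat.one_le_iff_ne_zero.1 hgd))
        rw [← hx] at h4
        nlinarith
      rw [div_lt_iff₀ hgd0]
      have h3 : ((N : ℕ) : ℝ) < (((x + 1) * (g * d) : ℕ) : ℝ) := by exact_mod_cast h2
      push_cast at h3
      exact h3
    have h2 : Real.exp (L / 2) + 1 ≤ (N : ℝ) / (g * d) := by
      rw [le_div_iff₀ hgd0]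
      refine le_trans ?_ hL
      exact mul_le_mul_of_nonneg_left hgdL (by positivity)
    linarith
  have hx1 : 1 ≤ x := by
    have h1 : (1 : ℝ) ≤ (x : ℝ) := (Real.one_le_exp (by linarith)).trans hxlow
    exact_mod_cast h1
  have hx0 : (0 : ℝ) < x := by exact_mod_cast hx1
  have hc := hs (κ * g) x x hx1 le_rfl T (fun h hh => by
    obtain ⟨h1, h2, h3⟩ := hT h hh
    refine ⟨?_, h2, h3⟩
    rw [hx, Nat.le_div_iff_mul_le (Nat.pos_of_ne_zero (Nat.one_le_iff_ne_zero.1 hgd)), ← mul_assoc]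
    exact h1)
  have hmm := hm g x hg hx1 hsq
  -- the exponent
  have hLLx : u - Real.log 2 ≤ LL x := by
    unfold LL
    rw [hud, ← Real.log_div hL0.ne' (by norm_num)]
    refine Real.log_le_log (by positivity) ?_
    have h1 : L / 2 ≤ Real.log x := by
      rw [Real.le_log_iff_exp_le hx0]
      exact hxlow
    linarith
  have hlg : Real.log g ≤ 10 * u := by
    calc Real.log g ≤ Real.log (L ^ 10) := Real.log_le_log (by linarith) hg'
      _ = 10 * u := by rw [Real.log_pow, hud]; norm_num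
  have hlg0 : 0 ≤ Real.log g := Real.log_nonneg hg1
  have hLLg0 : 0 ≤ LL g := Real.log_nonneg (by linarith)
  have hLLg : LL g ≤ Real.log g := by
    have h1 := Real.log_le_sub_one_of_pos (show 0 < 1 + Real.log g by linarith)
    unfold LL
    linarith
  have e1 : Real.exp (1 / 2 * LL g) ≤ 1 + 10 * u := by
    calc Real.exp (1 / 2 * LL g) ≤ Real.exp (LL g) := Real.exp_le_exp.2 (by linarith)
      _ = 1 + Real.log g := by unfold LL; rw [Real.exp_log (by linarith)]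
      _ ≤ 1 + 10 * u := by linarith
  have e2 : Real.exp (1 / 2 * Real.log (1 + LL g)) ≤ 1 + 10 * u := by
    have h1 : 0 ≤ Real.log (1 + LL g) := Real.log_nonneg (by linarith)
    calc Real.exp (1 / 2 * Real.log (1 + LL g)) ≤ Real.exp (Real.log (1 + LL g)) :=
          Real.exp_le_exp.2 (by linarith)
      _ = 1 + LL g := by rw [Real.exp_log (by linarith)]
      _ ≤ 1 + 10 * u := by linarith
  have e3 : Real.exp (-(1 / 2 * LL x)) ≤ 2 * Real.exp (-(u / 2)) := by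
    have h1 : Real.exp (1 / 2 * Real.log 2) ≤ 2 := by
      calc Real.exp (1 / 2 * Real.log 2) ≤ Real.exp (Real.log 2) :=
            Real.exp_le_exp.2 (by linarith [Real.log_nonneg (show (1 : ℝ) ≤ 2 by norm_num)])
        _ = 2 := Real.exp_log (by norm_num)
    calc Real.exp (-(1 / 2 * LL x)) ≤ Real.exp (1 / 2 * Real.log 2 + -(u / 2)) :=
          Real.exp_le_exp.2 (by linarith)
      _ = Real.exp (1 / 2 * Real.log 2) * Real.exp (-(u / 2)) := Real.exp_add _ _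
      _ ≤ 2 * Real.exp (-(u / 2)) := mul_le_mul_of_nonneg_right h1 (Real.exp_pos _).le
  have hu0 : 0 ≤ 1 + 10 * u := by linarith
  have hexp : Real.exp (- ∑ p ∈ (PP x).filter (fun p => jacobiSym (κ * g) p = -1), 1 / (p:ℝ)) ≤
      Real.exp C₂ * (2 * Real.exp (-(u / 2)) * ((1 + 10 * u) * (1 + 10 * u))) := by
    calc Real.exp (- ∑ p ∈ (PP x).filter (fun p => jacobiSym (κ * g) p = -1), 1 / (p:ℝ)) ≤
          Real.exp (C₂ + (-(1 / 2 * LL x) + (1 / 2 * LL g + 1 / 2 * Real.log (1 + LL g)))) :=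
          Real.exp_le_exp.2 (by linarith)
      _ = Real.exp C₂ * (Real.exp (-(1 / 2 * LL x)) * (Real.exp (1 / 2 * LL g) *
            Real.exp (1 / 2 * Real.log (1 + LL g)))) := by
          rw [Real.exp_add, Real.exp_add, Real.exp_add (1 / 2 * LL g)]
      _ ≤ _ := by
          refine mul_le_mul_of_nonneg_left ?_ (Real.exp_pos _).le
          refine mul_le_mul e3 ?_ (by positivity) (by positivity)
          exact mul_le_mul e1 e2 (Real.exp_pos _).le hu0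
  calc (T.card : ℝ) ≤ C₁ * x *
        Real.exp (- ∑ p ∈ (PP x).filter (fun p => jacobiSym (κ * g) p = -1), 1 / (p:ℝ)) := hc
    _ ≤ C₁ * ((N : ℝ) / (g * d)) *
        (Real.exp C₂ * (2 * Real.exp (-(u / 2)) * ((1 + 10 * u) * (1 + 10 * u)))) := by
        refine mul_le_mul (mul_le_mul_of_nonneg_left hxreal hC₁.le) hexp (Real.exp_pos _).le ?_
        positivity
    _ = _ := by ring

/-- Row S3. For fixed `(g, d)` and `x = z = N / (g d)` (`≥ √N`, `LL x ≥ LL N - 1`): by `sieve` and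
`sum_minus` at most `C x exp(- (1/2) LL N + (1/2) LL g + (1/2) log (1 + LL g) + C)` values of `h`;
`g ≤ (log N)^10` so `LL g ≤ log(1 + 10 LL N)`. Sum over `g, d` (`∑ 1/g ≤ 1 + 10 LL N`, `∑ 1/d` too):
`≤ C N exp(- (1/2) LL N) (1 + 10 LL N)^4 = o(N)`. -/
theorem S_lemma (W : ℕ) (hW : W ≠ 0) (κ : ℤ) (hκ : κ ≠ 0) (η : ℝ) (hη : 0 < η) :
    ∃ N₀ : ℕ, ∀ N : ℕ, N₀ ≤ N → ∀ S : Finset ℕ,
    (∀ n ∈ S, n ≤ N ∧ Squarefree n ∧ ∃ h g d : ℕ, n = h * g * d ∧
      (d : ℝ) ≤ (Real.log N) ^ 5 ∧ (g : ℝ) ≤ (Real.log N) ^ 10 ∧ ¬ IsSquare (κ * g) ∧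
      (∀ p : ℕ, p.Prime → p ∣ h → ¬ p ∣ W → jacobiSym (κ * g) p = 1)) →
    (S.card : ℝ) ≤ η * N := by
  classical
  obtain ⟨C₁, hC₁, hs⟩ := sieve W hW
  obtain ⟨C₂, hC₂, hm⟩ := sum_minus κ hκ
  have hev := (Real.tendsto_log_atTop.comp tendsto_natCast_atTop_atTop).eventually
    (s3_ev (C₁ * Real.exp C₂ * 2) η hη)
  obtain ⟨N₀, hN₀⟩ := Filter.eventually_atTop.1 (hev.and (Filter.eventually_ge_atTop 1))
  refine ⟨N₀, fun N hN S hS => ?_⟩
  obtain ⟨⟨hu, hL, hfin⟩, hN1⟩ := hN₀ N hN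
  have hN0 : (0 : ℝ) < N := by exact_mod_cast hN1
  simp only [Function.comp] at hu hL hfin
  rw [Real.exp_log hN0] at hL
  set L : ℝ := Real.log N with hLd
  set u : ℝ := Real.log L with hud
  set A : ℕ := ⌊L ^ 10⌋₊ with hA
  set B : ℕ := ⌊L ^ 5⌋₊ with hB
  have hL0 : 0 ≤ L := Real.log_natCast_nonneg N
  have hL1 : 1 ≤ L := by
    by_contra hcon
    push Not at hcon
    have h1 : u ≤ 0 := Real.log_nonpos hL0 hcon.le
    linarith
  have hA1 : 1 ≤ A := Nat.le_floor (by rw [Nat.cast_one]; exact one_le_pow₀ hL1)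
  have hB1 : 1 ≤ B := Nat.le_floor (by rw [Nat.cast_one]; exact one_le_pow₀ hL1)
  have hAL : (A : ℝ) ≤ L ^ 10 := Nat.floor_le (by positivity)
  have hBL : (B : ℝ) ≤ L ^ 5 := Nat.floor_le (by positivity)
  -- the sets
  set T : ℕ × ℕ → Finset ℕ := fun q => (Finset.range (N + 1)).filter (fun h =>
    h * q.1 * q.2 ∈ S ∧ ¬ IsSquare (κ * (q.1 : ℤ)) ∧
      ∀ p : ℕ, p.Prime → p ∣ h → ¬ p ∣ W → jacobiSym (κ * (q.1 : ℤ)) p = 1) with hT
  have hcover : S ⊆ (Finset.Icc 1 A ×ˢ Finset.Icc 1 B).biUnion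
      (fun q => (T q).image (fun h => h * q.1 * q.2)) := by
    intro n hn
    obtain ⟨h1, h2, h, g, d, h3, h4, h5, h6, h7⟩ := hS n hn
    have hn0 : n ≠ 0 := h2.ne_zero
    rw [h3] at hn0
    have hh0 : h ≠ 0 := fun h0 => hn0 (by rw [h0]; simp)
    have hg0 : g ≠ 0 := fun h0 => hn0 (by rw [h0]; simp)
    have hd0 : d ≠ 0 := fun h0 => hn0 (by rw [h0]; simp)
    rw [Finset.mem_biUnion]
    refine ⟨(g, d), ?_, ?_⟩
    · rw [Finset.mem_product, Finset.mem_Icc, Finset.mem_Icc]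
      exact ⟨⟨Nat.one_le_iff_ne_zero.2 hg0, Nat.le_floor h5⟩,
        ⟨Nat.one_le_iff_ne_zero.2 hd0, Nat.le_floor h4⟩⟩
    · rw [Finset.mem_image]
      refine ⟨h, ?_, h3.symm⟩
      rw [hT, Finset.mem_filter, Finset.mem_range]
      refine ⟨?_, by rw [← h3]; exact hn, h6, h7⟩
      have h8 : h ≤ n := by
        rw [h3, mul_assoc]
        exact Nat.le_mul_of_pos_right h (Nat.mul_pos (Nat.pos_of_ne_zero hg0)
          (Nat.pos_of_ne_zero hd0))
      omega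
  have hcard : (S.card : ℝ) ≤ ∑ q ∈ Finset.Icc 1 A ×ˢ Finset.Icc 1 B, ((T q).card : ℝ) := by
    have h1 := (Finset.card_le_card hcover).trans Finset.card_biUnion_le
    have h2 : ∑ q ∈ Finset.Icc 1 A ×ˢ Finset.Icc 1 B,
        ((T q).image (fun h => h * q.1 * q.2)).card ≤
        ∑ q ∈ Finset.Icc 1 A ×ˢ Finset.Icc 1 B, (T q).card :=
      Finset.sum_le_sum fun q _ => Finset.card_image_le
    exact_mod_cast h1.trans h2
  have hpair : ∀ q ∈ Finset.Icc 1 A ×ˢ Finset.Icc 1 B, ((T q).card : ℝ) ≤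
      C₁ * Real.exp C₂ * 2 * (Real.exp (-(u / 2)) * (1 + 10 * u) ^ 2) * N *
        (1 / (q.1 : ℝ) * (1 / (q.2 : ℝ))) := by
    intro q hq
    rw [Finset.mem_product, Finset.mem_Icc, Finset.mem_Icc] at hq
    by_cases hsq : IsSquare (κ * (q.1 : ℤ))
    · have h1 : T q = ∅ := by
        rw [hT, Finset.filter_eq_empty_iff]
        intro h _ h2
        exact h2.2.1 hsq
      rw [h1, Finset.card_empty, Nat.cast_zero]
      positivity
    · refine s3_pair hC₁ hs hm hu hL hq.1.1 hq.2.1 ?_ ?_ hsq (T q) ?_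
      · exact le_trans (by exact_mod_cast hq.1.2) hAL
      · exact le_trans (by exact_mod_cast hq.2.2) hBL
      · intro h hh
        rw [hT, Finset.mem_filter] at hh
        obtain ⟨_, h2, _, h4⟩ := hh
        obtain ⟨k1, k2, _⟩ := hS _ h2
        refine ⟨k1, k2.squarefree_of_dvd ?_, h4⟩
        rw [mul_assoc]
        exact Dvd.intro _ rfl
  have hharm : ∑ q ∈ Finset.Icc 1 A ×ˢ Finset.Icc 1 B, (1 / (q.1 : ℝ) * (1 / (q.2 : ℝ))) ≤
      (1 + 10 * u) * (1 + 10 * u) := by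
    have h0 : ∑ q ∈ Finset.Icc 1 A ×ˢ Finset.Icc 1 B, (1 / (q.1 : ℝ) * (1 / (q.2 : ℝ))) =
        (∑ k ∈ Finset.Icc 1 A, 1 / (k : ℝ)) * ∑ k ∈ Finset.Icc 1 B, 1 / (k : ℝ) := by
      rw [Finset.sum_mul_sum, Finset.sum_product]
    rw [h0]
    have h1 : ∑ k ∈ Finset.Icc 1 A, 1 / (k : ℝ) ≤ 1 + 10 * u := by
      refine (s3_harm A hA1).trans ?_
      have h2 : Real.log A ≤ Real.log (L ^ 10) :=
        Real.log_le_log (by exact_mod_cast hA1) hAL
      rw [Real.log_pow] at h2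
      norm_num at h2
      linarith
    have h3 : ∑ k ∈ Finset.Icc 1 B, 1 / (k : ℝ) ≤ 1 + 10 * u := by
      refine (s3_harm B hB1).trans ?_
      have h2 : Real.log B ≤ Real.log (L ^ 5) :=
        Real.log_le_log (by exact_mod_cast hB1) hBL
      rw [Real.log_pow] at h2
      norm_num at h2
      linarith
    exact mul_le_mul h1 h3 (Finset.sum_nonneg fun k _ => by positivity) (by linarith)
  calc (S.card : ℝ) ≤ ∑ q ∈ Finset.Icc 1 A ×ˢ Finset.Icc 1 B, ((T q).card : ℝ) := hcard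
    _ ≤ ∑ q ∈ Finset.Icc 1 A ×ˢ Finset.Icc 1 B,
        C₁ * Real.exp C₂ * 2 * (Real.exp (-(u / 2)) * (1 + 10 * u) ^ 2) * N *
          (1 / (q.1 : ℝ) * (1 / (q.2 : ℝ))) := Finset.sum_le_sum hpair
    _ = C₁ * Real.exp C₂ * 2 * (Real.exp (-(u / 2)) * (1 + 10 * u) ^ 2) * N *
          ∑ q ∈ Finset.Icc 1 A ×ˢ Finset.Icc 1 B, (1 / (q.1 : ℝ) * (1 / (q.2 : ℝ))) := by
        rw [Finset.mul_sum]
    _ ≤ C₁ * Real.exp C₂ * 2 * (Real.exp (-(u / 2)) * (1 + 10 * u) ^ 2) * N *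
          ((1 + 10 * u) * (1 + 10 * u)) := mul_le_mul_of_nonneg_left hharm (by positivity)
    _ = (C₁ * Real.exp C₂ * 2 * ((1 + 10 * u) ^ 4 * Real.exp (-(u / 2)))) * N := by ring
    _ ≤ η * N := mul_le_mul_of_nonneg_right hfin hN0.le

end TwHL
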