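import Pool.Agent.LibTwHL.F1
import Pool.Agent.LibTwHL.A2
import Pool.Agent.LibTwHL.K8
import Pool.Agent.LibTwHL.S3

namespace TwHL

private lemma F3_card (S : Finset ℤ) : S.card ≤ 2 * (S.image Int.natAbs).card := by
  classical
  apply Finset.card_le_mul_card_image
  intro m _
  have h : S.filter (fun x => x.natAbs = m) ⊆ {(m : ℤ), -(m : ℤ)} := by
    intro x hx
    rw [Finset.mem_filter] at hx
    rw [Finset.mem_insert, Finset.mem_singleton]
    have := hx.2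
    omega
  exact (Finset.card_le_card h).trans Finset.card_le_two

private lemma F3_jac {c k g : ℤ} {p : ℕ} (hp : p.Prime) (hpc : ¬ (p : ℤ) ∣ c)
    (h : jacobiSym (c * c * k * g) p = 1) : jacobiSym (k * g) p = 1 := by
  have h1 : c * c * k * g = (c * c) * (k * g) := by ring
  rw [h1, jacobiSym.mul_left] at h
  have hcop : IsCoprime c (p : ℤ) := by
    have h2 : IsCoprime (p : ℤ) c := by
      rw [Prime.coprime_iff_not_dvd (Nat.prime_iff_prime_int.1 hp)]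
      exact hpc
    exact h2.symm
  have h3 : jacobiSym (c * c) p = 1 := by
    rw [← sq]
    exact jacobiSym.sq_one' (by rw [Int.isCoprime_iff_gcd_eq_one] at hcop; exact hcop)
  rw [h3, one_mul] at h
  exact h

/-- Row F3. `b = c^2` a square: no upper limit. `n = |D| = (h |D₁|) g`; all primes
`p | h |D₁|`, `p ∤ 2bΔ`, have `J(k g|p) = 1` (`dec_h`: `J(b k g|p) = 1`, `J(b|p) = 1`; `dec_D`).
For each `k ≤ |b|`: if `g > (log N)^10`: `K_lemma` with `d = 1`, `κ = k`; if `g ≤ (log N)^10`: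
`S_lemma` with `κ = k`. -/
theorem dyadic_square (A₀ B₀ e : ℤ) (he : e ^ 3 + A₀ * e + B₀ = 0) (hb : 3 * e ^ 2 + A₀ ≠ 0)
    (hΔ : ¬ IsSquare (-3 * e ^ 2 - 4 * A₀)) (hsq : IsSquare (3 * e ^ 2 + A₀)) (δ η : ℝ)
    (hδ : 0 < δ) (hη : 0 < η) :
    ∃ N₀ : ℕ, ∀ N : ℕ, N₀ ≤ N → ∀ S : Finset ℤ,
    (∀ D ∈ S, Squarefree D ∧ (N : ℤ) < 2 * |D| ∧ |D| ≤ N ∧ ∃ x y : ℤ,
      y ^ 2 = x ^ 3 + A₀ * D ^ 2 * x + B₀ * D ^ 3 ∧
      ((|D| : ℤ) : ℝ) ^ (2 + δ) < ((|x| : ℤ) : ℝ)) →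
    (S.card : ℝ) ≤ η * N := by
  classical
  obtain ⟨D₀, hD₀⟩ := point_dec A₀ B₀ e he hb hΔ δ hδ
  obtain ⟨c, hc⟩ := hsq
  set b : ℤ := 3 * e ^ 2 + A₀ with hbdef
  have hΔeq : (3 * e) ^ 2 - 4 * b = -3 * e ^ 2 - 4 * A₀ := by rw [hbdef]; ring
  set Δ : ℤ := (3 * e) ^ 2 - 4 * b with hΔdef
  have hΔ' : ¬ IsSquare Δ := by rw [hΔeq]; exact hΔ
  have hΔ0 : Δ ≠ 0 := fun h => hΔ' (h ▸ IsSquare.zero)
  set W : ℕ := (2 * b * Δ).natAbs with hW
  have hW0 : W ≠ 0 := Int.natAbs_ne_zero.2 (mul_ne_zero (mul_ne_zero two_ne_zero hb) hΔ0)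
  have hWdvd : ∀ (p : ℕ) (m : ℤ), ¬ p ∣ W → m ∣ 2 * b * Δ → ¬ (p : ℤ) ∣ m := by
    intro p m hp hm h1
    exact hp (Int.natCast_dvd.1 (h1.trans hm))
  set K : ℕ := b.natAbs with hK
  have hK0 : 0 < K := Int.natAbs_pos.2 hb
  have hKr : (0 : ℝ) < K := by exact_mod_cast hK0
  set η' : ℝ := η / (4 * K) with hη'
  have hη'0 : 0 < η' := by positivity
  choose N1 hN1 using fun k : ℕ => K_lemma Δ hΔ' W hW0 (k : ℤ) η' hη'0
  have hS : ∀ k : ℕ, ∃ N₀ : ℕ, k ≠ 0 → ∀ N : ℕ, N₀ ≤ N → ∀ S : Finset ℕ,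
      (∀ n ∈ S, n ≤ N ∧ Squarefree n ∧ ∃ h g : ℕ, n = h * g ∧ (g : ℝ) ≤ (Real.log N) ^ 10 ∧
        ¬ IsSquare ((k : ℤ) * g) ∧
        (∀ p : ℕ, p.Prime → p ∣ h → ¬ p ∣ W → jacobiSym ((k : ℤ) * g) p = 1)) →
      (S.card : ℝ) ≤ η' * N := by
    intro k
    by_cases hk : k = 0
    · exact ⟨0, fun h => absurd hk h⟩
    · obtain ⟨N₀, h⟩ := S_lemma W hW0 (k : ℤ) (by exact_mod_cast hk) η' hη'0
      refine ⟨max N₀ 3, fun _ N hN S hSS => h N (le_of_max_le_left hN) S (fun n hn => ?_)⟩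
      obtain ⟨h1, h2, h', g', h3, h4, h5, h6⟩ := hSS n hn
      refine ⟨h1, h2, h', g', 1, by rw [h3, mul_one], ?_, h4, h5, h6⟩
      have h7 : (3 : ℝ) ≤ N := by exact_mod_cast le_of_max_le_right hN
      have h8 : 1 ≤ Real.log N := by
        rw [Real.le_log_iff_exp_le (by linarith)]
        have h1 := Real.exp_one_lt_d9
        linarith
      push_cast
      exact one_le_pow₀ h8
  choose N2 hN2 using hS
  refine ⟨max (2 * D₀) (max 3 ((Finset.range (K + 1)).sup (fun k => max (N1 k) (N2 k)))), ?_⟩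
  intro N hN S hSD
  have hN2D : 2 * D₀ ≤ N := (le_max_left _ _).trans hN
  have hN3 : 3 ≤ N := ((le_max_left _ _).trans (le_max_right _ _)).trans hN
  have hNk : ∀ k, k ≤ K → N1 k ≤ N ∧ N2 k ≤ N := by
    intro k hk
    have h1 : max (N1 k) (N2 k) ≤ (Finset.range (K + 1)).sup (fun k => max (N1 k) (N2 k)) :=
      Finset.le_sup (f := fun k => max (N1 k) (N2 k)) (Finset.mem_range.2 (by omega))
    have h2 := ((h1.trans (le_max_right _ _)).trans (le_max_right _ _)).trans hN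
    exact ⟨(le_max_left _ _).trans h2, (le_max_right _ _).trans h2⟩
  have hlogN : 1 ≤ Real.log N := by
    have h2 : (3 : ℝ) ≤ N := by exact_mod_cast hN3
    rw [Real.le_log_iff_exp_le (by linarith)]
    have h1 := Real.exp_one_lt_d9
    linarith
  set T := S.image Int.natAbs with hT
  set A : ℕ → Finset ℕ := fun k => T.filter (fun n => n ≤ N ∧ Squarefree n ∧
    ∃ h g d : ℕ, n = h * g * d ∧ (d : ℝ) ≤ (Real.log N) ^ 5 ∧
      (Real.log N) ^ 10 < (g : ℝ) ∧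
      (∀ p : ℕ, p.Prime → p ∣ h → ¬ p ∣ W → jacobiSym ((k : ℤ) * g) p = 1) ∧
      (∀ p : ℕ, p.Prime → p ∣ g → ¬ p ∣ W → jacobiSym Δ p = 1)) with hA
  set B : ℕ → Finset ℕ := fun k => T.filter (fun n => n ≤ N ∧ Squarefree n ∧
    ∃ h g : ℕ, n = h * g ∧ (g : ℝ) ≤ (Real.log N) ^ 10 ∧
        ¬ IsSquare ((k : ℤ) * g) ∧
        (∀ p : ℕ, p.Prime → p ∣ h → ¬ p ∣ W → jacobiSym ((k : ℤ) * g) p = 1)) with hB
  have hAc : ∀ k, k ≤ K → ((A k).card : ℝ) ≤ η' * N := fun k hk =>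
    hN1 k N (hNk k hk).1 (A k) (fun n hn => (Finset.mem_filter.1 hn).2)
  have hBc : ∀ k, k ≤ K → k ≠ 0 → ((B k).card : ℝ) ≤ η' * N := fun k hk hk0 =>
    hN2 k hk0 N (hNk k hk).2 (B k) (fun n hn => (Finset.mem_filter.1 hn).2)
  have hsub : T ⊆ (Finset.Icc 1 K).biUnion (fun k => A k ∪ B k) := by
    intro n hn
    obtain ⟨D, hD, hDn⟩ := Finset.mem_image.1 hn
    obtain ⟨hDsq, hDN, hDN', x, y, hxy, hx⟩ := hSD D hD
    have hD0 : (D₀ : ℤ) ≤ |D| := by omega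
    obtain ⟨h, g, k, u, w, D₁, hdec, hgk, -, -⟩ := hD₀ D x y hD0 hDsq hxy hx
    have hdec' := hdec
    obtain ⟨hh0, hg0, hk0, hu0, hw0, -, hDe, -, -, -, -, hkb⟩ := hdec
    have hkK : k ≤ K := by
      have h1 : k ∣ K := Int.natCast_dvd.1 hkb
      exact Nat.le_of_dvd hK0 h1
    have hnN : n ≤ N := by
      have h1 : (D.natAbs : ℤ) = |D| := Int.natCast_natAbs D
      have h2 : (D.natAbs : ℤ) ≤ N := h1 ▸ hDN'
      rw [← hDn]
      exact_mod_cast h2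
    have hnsq : Squarefree n := by rw [← hDn]; exact Int.squarefree_natAbs.2 hDsq
    have hne : n = h * D₁.natAbs * g := by
      rw [← hDn, hDe, Int.natAbs_mul, Int.natAbs_mul, Int.natAbs_natCast, Int.natAbs_natCast]
      ring
    have hc1 : ∀ p : ℕ, p.Prime → p ∣ h * D₁.natAbs → ¬ p ∣ W →
        jacobiSym ((k : ℤ) * g) p = 1 := by
      intro p hp hpd hpW
      rcases (Nat.Prime.dvd_mul hp).1 hpd with h1 | h1
      · have h2 := dec_h hdec' hp h1 (hWdvd p (2 * b) hpW (Dvd.intro _ rfl))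
        have h3 : ¬ (p : ℤ) ∣ c := by
          apply hWdvd p c hpW
          rw [hc]
          exact ⟨2 * c * Δ, by ring⟩
        rw [hc] at h2
        exact F3_jac hp h3 h2
      · apply dec_D hdec' hp (Int.natCast_dvd.2 h1)
        rintro rfl
        exact hWdvd 2 (2 * b * Δ) hpW (dvd_refl _) ⟨b * Δ, by push_cast; ring⟩
    have hc2 : ∀ p : ℕ, p.Prime → p ∣ g → ¬ p ∣ W → jacobiSym Δ p = 1 := by
      intro p hp hpd hpW
      apply dec_g hdec' hp hpd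
      apply hWdvd p _ hpW
      exact ⟨b, by rw [hΔdef]; ring⟩
    rw [Finset.mem_biUnion]
    refine ⟨k, Finset.mem_Icc.2 ⟨hk0, hkK⟩, ?_⟩
    rw [Finset.mem_union]
    by_cases hg : (Real.log N) ^ 10 < (g : ℝ)
    · left
      rw [hA, Finset.mem_filter]
      refine ⟨hn, hnN, hnsq, h * D₁.natAbs, g, 1, by rw [hne, mul_one], ?_, hg, hc1, hc2⟩
      push_cast
      exact one_le_pow₀ hlogN
    · right
      rw [hB, Finset.mem_filter]
      refine ⟨hn, hnN, hnsq, h * D₁.natAbs, g, hne, not_lt.1 hg, ?_, hc1⟩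
      rintro ⟨r, hr⟩
      apply hgk
      refine ⟨r.natAbs, ?_⟩
      have h1 : ((g * k : ℕ) : ℤ) = ((r.natAbs * r.natAbs : ℕ) : ℤ) := by
        rw [Int.natCast_mul r.natAbs, Int.natAbs_mul_self', ← hr]
        push_cast
        ring
      exact_mod_cast h1
  have hTc : (T.card : ℝ) ≤ K * (2 * (η' * N)) := by
    have h1 : T.card ≤ ∑ k ∈ Finset.Icc 1 K, (A k ∪ B k).card :=
      (Finset.card_le_card hsub).trans Finset.card_biUnion_le
    have h2 : (T.card : ℝ) ≤ ∑ k ∈ Finset.Icc 1 K, ((A k ∪ B k).card : ℝ) := by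
      exact_mod_cast h1
    refine h2.trans ?_
    have h3 : ∀ k ∈ Finset.Icc 1 K, ((A k ∪ B k).card : ℝ) ≤ 2 * (η' * N) := by
      intro k hk
      rw [Finset.mem_Icc] at hk
      have h4 : ((A k ∪ B k).card : ℝ) ≤ (A k).card + (B k).card := by
        exact_mod_cast Finset.card_union_le _ _
      have h5 := hAc k hk.2
      have h6 := hBc k hk.2 (by omega)
      linarith
    refine (Finset.sum_le_sum h3).trans ?_
    rw [Finset.sum_const, Nat.card_Icc, nsmul_eq_mul]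
    simp
  have hSc : (S.card : ℝ) ≤ 2 * T.card := by exact_mod_cast F3_card S
  calc (S.card : ℝ) ≤ 2 * (K * (2 * (η' * N))) := by linarith
    _ = η * N := by rw [hη']; field_simp; ring

end TwHL
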