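import Pool.Agent.LibTwHL.F2
import Pool.Agent.LibTwHL.F3

namespace TwHL

private lemma F4_aux (Q : ℤ → Prop) (η : ℝ) (hη : 0 < η)
    (h : ∃ N₁ : ℕ, ∀ N : ℕ, N₁ ≤ N → ∀ S : Finset ℤ,
      (∀ D ∈ S, Q D ∧ (N : ℤ) < 2 * |D| ∧ |D| ≤ N) → (S.card : ℝ) ≤ η / 8 * N) :
    ∃ N₀ : ℕ, ∀ N : ℕ, N₀ ≤ N → ∀ S : Finset ℤ,
      (∀ D ∈ S, Q D ∧ |D| ≤ N) → (S.card : ℝ) ≤ η * N := by
  classical
  obtain ⟨N₁, hN₁⟩ := h
  have key : ∀ N : ℕ, ∀ S : Finset ℤ, (∀ D ∈ S, Q D ∧ |D| ≤ N) →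
      (S.card : ℝ) ≤ η / 4 * N + (2 * (N₁ + 1) + 1) := by
    intro N
    induction N using Nat.strong_induction_on with
    | _ N ih =>
      intro S hS
      by_cases hN : N < N₁ + 1
      · have h1 : S ⊆ Finset.Icc (-(N : ℤ)) N := by
          intro D hD
          rw [Finset.mem_Icc]
          exact abs_le.1 (hS D hD).2
        have h2 := Finset.card_le_card h1
        rw [Int.card_Icc] at h2
        have h3 : S.card ≤ 2 * (N₁ + 1) + 1 := by omega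
        have h4 : (S.card : ℝ) ≤ 2 * (N₁ + 1) + 1 := by exact_mod_cast h3
        have h5 : 0 ≤ η / 4 * N := by positivity
        linarith
      · have hN' : N₁ + 1 ≤ N := by omega
        have h1 : ((S.filter (fun D => (N : ℤ) < 2 * |D|)).card : ℝ) ≤ η / 8 * N := by
          apply hN₁ N (by omega)
          intro D hD
          rw [Finset.mem_filter] at hD
          exact ⟨(hS D hD.1).1, hD.2, (hS D hD.1).2⟩
        have h2 : ((S.filter (fun D => ¬ (N : ℤ) < 2 * |D|)).card : ℝ) ≤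
            η / 4 * ((N / 2 : ℕ) : ℝ) + (2 * (N₁ + 1) + 1) := by
          apply ih (N / 2) (by omega)
          intro D hD
          rw [Finset.mem_filter] at hD
          refine ⟨(hS D hD.1).1, ?_⟩
          have := hD.2
          push_cast
          omega
        have h3 : S.card = (S.filter (fun D => (N : ℤ) < 2 * |D|)).card +
            (S.filter (fun D => ¬ (N : ℤ) < 2 * |D|)).card :=
          (Finset.card_filter_add_card_filter_not _).symm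
        have h4 : (S.card : ℝ) = ((S.filter (fun D => (N : ℤ) < 2 * |D|)).card : ℝ) +
            ((S.filter (fun D => ¬ (N : ℤ) < 2 * |D|)).card : ℝ) := by exact_mod_cast h3
        have h5 : ((N / 2 : ℕ) : ℝ) ≤ N / 2 := Nat.cast_div_le
        have h6 : η / 4 * ((N / 2 : ℕ) : ℝ) ≤ η / 4 * (N / 2) :=
          mul_le_mul_of_nonneg_left h5 (by positivity)
        linarith
  obtain ⟨M, hM⟩ := exists_nat_ge ((2 * ((N₁ : ℝ) + 1) + 1) / (η / 2))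
  refine ⟨M, fun N hN S hS => ?_⟩
  have h1 := key N S hS
  have h2 : (2 * ((N₁ : ℝ) + 1) + 1) / (η / 2) ≤ N := hM.trans (by exact_mod_cast hN)
  rw [div_le_iff₀ (by positivity)] at h2
  have h3 : (0 : ℝ) ≤ N := Nat.cast_nonneg _
  nlinarith [mul_nonneg hη.le h3]

/-- Row F4. Sum of `dyadic_range` or `dyadic_square` (with `η/8`) over `N / 2^i ≥ N₀` (natural
division; `D` with `N/2^(i+1) < |D| ≤ N/2^i`), plus at most `2 N₀ + 1 ≤ η N / 2`. -/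
theorem final (A₀ B₀ e : ℤ) (he : e ^ 3 + A₀ * e + B₀ = 0) (hb : 3 * e ^ 2 + A₀ ≠ 0)
    (hΔ : ¬ IsSquare (-3 * e ^ 2 - 4 * A₀)) (δ θ η : ℝ) (hδ : 0 < δ) (hθ : θ < 1) (hη : 0 < η) :
    ∃ N₀ : ℕ, ∀ N : ℕ, N₀ ≤ N → ∀ S : Finset ℤ,
    (∀ D ∈ S, Squarefree D ∧ |D| ≤ N ∧ ∃ x y : ℤ,
      y ^ 2 = x ^ 3 + A₀ * D ^ 2 * x + B₀ * D ^ 3 ∧
      ((|D| : ℤ) : ℝ) ^ (2 + δ) < ((|x| : ℤ) : ℝ) ∧
      (((|x| : ℤ) : ℝ) ≤ Real.exp (((|D| : ℤ) : ℝ) ^ θ) ∨ IsSquare (3 * e ^ 2 + A₀))) →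
    (S.card : ℝ) ≤ η * N := by
  by_cases hsq : IsSquare (3 * e ^ 2 + A₀)
  · obtain ⟨N₁, hN₁⟩ := dyadic_square A₀ B₀ e he hb hΔ hsq δ (η / 8) hδ (by positivity)
    obtain ⟨N₀, hN₀⟩ := F4_aux (fun D => Squarefree D ∧ ∃ x y : ℤ,
      y ^ 2 = x ^ 3 + A₀ * D ^ 2 * x + B₀ * D ^ 3 ∧
      ((|D| : ℤ) : ℝ) ^ (2 + δ) < ((|x| : ℤ) : ℝ)) η hη ⟨N₁, fun N hN S hS => hN₁ N hN S
        (fun D hD => ⟨(hS D hD).1.1, (hS D hD).2.1, (hS D hD).2.2, (hS D hD).1.2⟩)⟩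
    refine ⟨N₀, fun N hN S hS => hN₀ N hN S (fun D hD => ?_)⟩
    obtain ⟨h1, h2, x, y, h3, h4, _⟩ := hS D hD
    exact ⟨⟨h1, x, y, h3, h4⟩, h2⟩
  · obtain ⟨N₁, hN₁⟩ := dyadic_range A₀ B₀ e he hb hΔ δ θ (η / 8) hδ hθ (by positivity)
    obtain ⟨N₀, hN₀⟩ := F4_aux (fun D => Squarefree D ∧ ∃ x y : ℤ,
      y ^ 2 = x ^ 3 + A₀ * D ^ 2 * x + B₀ * D ^ 3 ∧
      ((|D| : ℤ) : ℝ) ^ (2 + δ) < ((|x| : ℤ) : ℝ) ∧
      ((|x| : ℤ) : ℝ) ≤ Real.exp (((|D| : ℤ) : ℝ) ^ θ)) η hη ⟨N₁, fun N hN S hS => hN₁ N hN S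
        (fun D hD => ⟨(hS D hD).1.1, (hS D hD).2.1, (hS D hD).2.2, (hS D hD).1.2⟩)⟩
    refine ⟨N₀, fun N hN S hS => hN₀ N hN S (fun D hD => ?_)⟩
    obtain ⟨h1, h2, x, y, h3, h4, h5⟩ := hS D hD
    exact ⟨⟨h1, x, y, h3, h4, h5.resolve_right hsq⟩, h2⟩

end TwHL
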