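import Pool.Agent.LibTwHL.Defs

namespace TwHL

/-- Row G1. Hensel's lemma for a quadratic polynomial, by induction on `K`. -/
theorem hensel (a b : ℤ) (p : ℕ) (hp : p.Prime) (ρ₀ : ℤ) (h0 : (p : ℤ) ∣ ρ₀ ^ 2 + a * ρ₀ + b)
    (h1 : ¬ (p : ℤ) ∣ 2 * ρ₀ + a) (K : ℕ) :
    ∃ ρ : ℤ, (p : ℤ) ^ K ∣ ρ ^ 2 + a * ρ + b ∧ (p : ℤ) ∣ ρ - ρ₀ := by
  have key : ∀ K : ℕ, ∃ ρ : ℤ, (p : ℤ) ^ (K + 1) ∣ ρ ^ 2 + a * ρ + b ∧ (p : ℤ) ∣ ρ - ρ₀ := by
    intro K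
    induction K with
    | zero => exact ⟨ρ₀, by simpa using h0, by simp⟩
    | succ K ih =>
      obtain ⟨ρ, ⟨c, hc⟩, ⟨e, he⟩⟩ := ih
      have h2 : ¬ (p : ℤ) ∣ 2 * ρ + a := by
        intro h
        apply h1
        have h3 : 2 * ρ₀ + a = (2 * ρ + a) - (p : ℤ) * (2 * e) := by linear_combination (-2) * he
        rw [h3]
        exact dvd_sub h (dvd_mul_right _ _)
      have hcop : IsCoprime (p : ℤ) (2 * ρ + a) :=
        ((Nat.prime_iff_prime_int.1 hp).irreducible.coprime_iff_not_dvd).2 h2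
      obtain ⟨u, v, huv⟩ := hcop
      refine ⟨ρ + (p : ℤ) ^ (K + 1) * (-c * v), ?_, ?_⟩
      · refine ⟨c * u + (p : ℤ) ^ K * (c * v) ^ 2, ?_⟩
        linear_combination hc - (p : ℤ) ^ (K + 1) * c * huv
      · refine ⟨e + (p : ℤ) ^ K * (-c * v), ?_⟩
        linear_combination he
  cases K with
  | zero => exact ⟨ρ₀, by simp, by simp⟩
  | succ K => exact key K

end TwHL
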