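import Pool.Agent.LibTwHL.G1

namespace TwHL

theorem G2_key (p : ℕ) [Fact p.Prime] (t u m Z : ℤ) (K : ℕ) (ht : t ≠ 0) (hu : ¬ (p : ℤ) ∣ u)
    (hm : ¬ (p : ℤ) ∣ m) (hK : padicValInt p t < K) (hd : (p : ℤ) ^ K ∣ u * t - m * Z ^ 2) :
    Even (padicValInt p t) := by
  have hpI : Prime (p : ℤ) := Nat.prime_iff_prime_int.1 Fact.out
  set n := padicValInt p t with hn
  have h1 : (p : ℤ) ^ n ∣ t := (padicValInt_dvd_iff n t).2 (Or.inr le_rfl)
  have h2 : ¬ (p : ℤ) ^ (n + 1) ∣ t := by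
    intro h
    rcases (padicValInt_dvd_iff (n + 1) t).1 h with h3 | h3
    · exact ht h3
    · omega
  have hcop : IsCoprime ((p : ℤ) ^ (n + 1)) u :=
    IsCoprime.pow_left ((Prime.coprime_iff_not_dvd hpI).2 hu)
  have h3 : ¬ (p : ℤ) ^ (n + 1) ∣ u * t := fun h => h2 (hcop.dvd_of_dvd_mul_left h)
  have h4 : (p : ℤ) ^ (n + 1) ∣ u * t - m * Z ^ 2 := (pow_dvd_pow _ (by omega)).trans hd
  have h5 : (p : ℤ) ^ n ∣ m * Z ^ 2 := by
    have h6 : (p : ℤ) ^ n ∣ u * t - m * Z ^ 2 := (pow_dvd_pow _ (by omega)).trans hd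
    have h7 : m * Z ^ 2 = u * t - (u * t - m * Z ^ 2) := by ring
    rw [h7]
    exact dvd_sub (h1.mul_left u) h6
  have h6 : ¬ (p : ℤ) ^ (n + 1) ∣ m * Z ^ 2 := by
    intro h
    apply h3
    have h7 : u * t = (u * t - m * Z ^ 2) + m * Z ^ 2 := by ring
    rw [h7]
    exact dvd_add h4 h
  have hZ : Z ≠ 0 := by
    rintro rfl
    apply h6
    simp
  have hm0 : m ≠ 0 := by
    rintro rfl
    exact hm (dvd_zero _)
  have hZ2 : Z ^ 2 ≠ 0 := pow_ne_zero 2 hZ
  have h7 : padicValInt p (m * Z ^ 2) = n := by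
    apply le_antisymm
    · by_contra hlt
      exact h6 ((padicValInt_dvd_iff (n + 1) _).2 (Or.inr (by omega)))
    · rcases (padicValInt_dvd_iff n _).1 h5 with h8 | h8
      · exact absurd h8 (mul_ne_zero hm0 hZ2)
      · exact h8
  rw [padicValInt.mul hm0 hZ2, padicValInt.eq_zero_of_not_dvd hm, zero_add, pow_two,
    padicValInt.mul hZ hZ] at h7
  exact ⟨padicValInt p Z, h7.symm⟩

/-- the root modulo `p` -/
theorem G2_ndvd (a b m X D w : ℤ) (p : ℤ) (hp : Prime p) (hc : IsCoprime X D)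
    (h : X ^ 2 + a * X * D + b * D ^ 2 = m * w ^ 2) (hw : p ∣ w) : ¬ p ∣ D := by
  intro hD
  have h1 : p ∣ X ^ 2 := by
    have h2 : X ^ 2 = m * w ^ 2 - (a * X * D + b * D ^ 2) := by linear_combination h
    rw [h2]
    refine dvd_sub ?_ (dvd_add (hD.mul_left _) ?_)
    · exact (dvd_pow hw two_ne_zero).mul_left _
    · exact (dvd_pow hD two_ne_zero).mul_left _
  have h3 : p ∣ X := hp.dvd_of_dvd_pow h1
  exact hp.not_isUnit (hc.isUnit_of_dvd' h3 hD)

/-- Row G2. Let `t = tau`, `t' =` the same with `-2 m w w'`; `t t' = Δ c^2`,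
`c = X D' + X' D + a D D'`, `t - t' = 4 m w w'`. If `p ∤ t'`: `v(t) = 2 v(c)`. If `p ∤ t`: `0`.
If `p | t, t'`: `p | w w'` and `p | c`; then `p` divides both `w` and `w'` (if `p | w` then
`p | q(X, D)`, `p ∤ D`, `X ≡ ρ₀ D` with `ρ₀` a root of `z^2 + a z + b` mod `p`, and `c ≡ 0` gives
`X' ≡ (-a-ρ₀) D'`, the other root, so `p | q(X', D')`; same with the roles exchanged). Take
`K > v_p(t)` and `ρ` from `hensel` (`(2ρ₀ + a)^2 ≡ Δ`), `ρ' = -a - ρ`, `L = X - ρ D`,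
`M = X - ρ' D`, `L' = X' - ρ D'`, `M' = X' - ρ' D'`: mod `p^K`, `L M ≡ m w^2`, `L' M' ≡ m w'^2`,
`t ≡ L L' + M M' + 2 m w w'`, and `M`, `L'` are prime to `p`. So
`M L' t ≡ m (w L' + w' M)^2 mod p^K` and `v_p(t) = 2 v_p(w L' + w' M)`. (Checked numerically.) -/
theorem parity (a b m X D w X' D' w' : ℤ) (p : ℕ) (hp : p.Prime)
    (hpm : ¬ (p : ℤ) ∣ 2 * (a ^ 2 - 4 * b) * m) (hc : IsCoprime X D) (hc' : IsCoprime X' D')
    (h : qf a b X D = m * w ^ 2) (h' : qf a b X' D' = m * w' ^ 2)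
    (ht : tau a b m X D w X' D' w' ≠ 0) :
    Even (padicValInt p (tau a b m X D w X' D' w')) := by
  have hfact : Fact p.Prime := ⟨hp⟩
  have hpI : Prime (p : ℤ) := Nat.prime_iff_prime_int.1 hp
  have hp2 : ¬ (p : ℤ) ∣ 2 := fun hd => hpm ((hd.mul_right _).mul_right _)
  have hpΔ : ¬ (p : ℤ) ∣ a ^ 2 - 4 * b := fun hd => hpm ((hd.mul_left _).mul_right _)
  have hpm' : ¬ (p : ℤ) ∣ m := fun hd => hpm (hd.mul_left _)
  unfold qf at h h'
  have htdef : tau a b m X D w X' D' w' =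
    2 * X * X' + a * (X * D' + X' * D) + (a ^ 2 - 2 * b) * D * D' + 2 * m * w * w' := rfl
  set t := tau a b m X D w X' D' w' with hts
  set t' := 2 * X * X' + a * (X * D' + X' * D) + (a ^ 2 - 2 * b) * D * D' - 2 * m * w * w'
    with ht'
  set c := X * D' + X' * D + a * D * D' with hcdef
  have hprod : t' * t = (a ^ 2 - 4 * b) * c ^ 2 := by
    rw [htdef, ht', hcdef]
    linear_combination 4 * (X' ^ 2 + a * X' * D' + b * D' ^ 2) * h + 4 * (m * w ^ 2) * h'
  by_cases h1 : (p : ℤ) ∣ t'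
  swap
  · refine G2_key p t t' (a ^ 2 - 4 * b) c (padicValInt p t + 1) ht h1 hpΔ (Nat.lt_succ_self _) ?_
    rw [hprod, sub_self]
    exact dvd_zero _
  by_cases h2 : (p : ℤ) ∣ t
  swap
  · rw [padicValInt.eq_zero_of_not_dvd h2]
    exact Even.zero
  have hpc : (p : ℤ) ∣ c := by
    have h3 : (p : ℤ) ∣ (a ^ 2 - 4 * b) * c ^ 2 := by
      rw [← hprod]
      exact h1.mul_right _
    exact hpI.dvd_of_dvd_pow ((hpI.dvd_or_dvd h3).resolve_left hpΔ)
  have hww : (p : ℤ) ∣ w * w' := by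
    have h3 : (p : ℤ) ∣ 2 * (2 * (m * (w * w'))) := by
      have h4 : 2 * (2 * (m * (w * w'))) = t - t' := by
        rw [htdef, ht']
        ring
      rw [h4]
      exact dvd_sub h2 h1
    have h4 := (hpI.dvd_or_dvd h3).resolve_left hp2
    have h5 := (hpI.dvd_or_dvd h4).resolve_left hp2
    exact (hpI.dvd_or_dvd h5).resolve_left hpm'
  have hid : D ^ 2 * (m * w' ^ 2) - D' ^ 2 * (m * w ^ 2) = (X' * D - X * D') * c := by
    rw [hcdef]
    linear_combination D' ^ 2 * h - D ^ 2 * h'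
  have hboth : (p : ℤ) ∣ w ∧ (p : ℤ) ∣ w' := by
    rcases hpI.dvd_or_dvd hww with hw | hw
    · refine ⟨hw, ?_⟩
      have hnD := G2_ndvd a b m X D w p hpI hc h hw
      have h3 : (p : ℤ) ∣ D ^ 2 * (m * w' ^ 2) := by
        have h4 : D ^ 2 * (m * w' ^ 2) = (X' * D - X * D') * c + D' ^ 2 * (m * w ^ 2) := by
          linear_combination hid
        rw [h4]
        exact dvd_add (hpc.mul_left _) (((dvd_pow hw two_ne_zero).mul_left _).mul_left _)
      have h5 := (hpI.dvd_or_dvd h3).resolve_left fun h6 => hnD (hpI.dvd_of_dvd_pow h6)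
      exact hpI.dvd_of_dvd_pow ((hpI.dvd_or_dvd h5).resolve_left hpm')
    · refine ⟨?_, hw⟩
      have hnD := G2_ndvd a b m X' D' w' p hpI hc' h' hw
      have h3 : (p : ℤ) ∣ D' ^ 2 * (m * w ^ 2) := by
        have h4 : D' ^ 2 * (m * w ^ 2) = D ^ 2 * (m * w' ^ 2) - (X' * D - X * D') * c := by
          linear_combination -hid
        rw [h4]
        exact dvd_sub (((dvd_pow hw two_ne_zero).mul_left _).mul_left _) (hpc.mul_left _)
      have h5 := (hpI.dvd_or_dvd h3).resolve_left fun h6 => hnD (hpI.dvd_of_dvd_pow h6)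
      exact hpI.dvd_of_dvd_pow ((hpI.dvd_or_dvd h5).resolve_left hpm')
  obtain ⟨hw, hw'⟩ := hboth
  have hnD := G2_ndvd a b m X D w p hpI hc h hw
  have hnD' := G2_ndvd a b m X' D' w' p hpI hc' h' hw'
  obtain ⟨r, s, hrs⟩ := (Prime.coprime_iff_not_dvd hpI).2 hnD
  -- the root
  have hX : (p : ℤ) ∣ X - s * X * D := ⟨X * r, by linear_combination (-X) * hrs⟩
  have hroot : (p : ℤ) ∣ (s * X) ^ 2 + a * (s * X) + b := by
    have h3 : (p : ℤ) ∣ D ^ 2 * ((s * X) ^ 2 + a * (s * X) + b) := by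
      have h4 : D ^ 2 * ((s * X) ^ 2 + a * (s * X) + b) =
          m * w ^ 2 - (X - s * X * D) * (X + s * X * D + a * D) := by
        linear_combination h
      rw [h4]
      exact dvd_sub ((dvd_pow hw two_ne_zero).mul_left _) (hX.mul_right _)
    exact (hpI.dvd_or_dvd h3).resolve_left fun h6 => hnD (hpI.dvd_of_dvd_pow h6)
  have hsimple : ¬ (p : ℤ) ∣ 2 * (s * X) + a := by
    intro h3
    apply hpΔ
    have h4 : a ^ 2 - 4 * b = (2 * (s * X) + a) * (2 * (s * X) + a) -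
        4 * ((s * X) ^ 2 + a * (s * X) + b) := by ring
    rw [h4]
    exact dvd_sub (h3.mul_left _) (hroot.mul_left _)
  obtain ⟨ρ, hρ, hρ0⟩ := hensel a b p hp (s * X) hroot hsimple (padicValInt p t + 1)
  have hX' : (p : ℤ) ∣ X' + a * D' + s * X * D' := by
    have h3 : (p : ℤ) ∣ D * (X' + a * D' + s * X * D') := by
      have h4 : D * (X' + a * D' + s * X * D') = c - (X - s * X * D) * D' := by
        rw [hcdef]
        ring
      rw [h4]
      exact dvd_sub hpc (hX.mul_right _)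
    exact (hpI.dvd_or_dvd h3).resolve_left hnD
  have hM : ¬ (p : ℤ) ∣ X + a * D + ρ * D := by
    intro h3
    have h4 : (p : ℤ) ∣ (2 * (s * X) + a) * D := by
      have h5 : (2 * (s * X) + a) * D = (X + a * D + ρ * D) - (X - s * X * D) -
          (ρ - s * X) * D := by ring
      rw [h5]
      exact dvd_sub (dvd_sub h3 hX) (hρ0.mul_right _)
    rcases hpI.dvd_or_dvd h4 with h5 | h5
    · exact hsimple h5
    · exact hnD h5
  have hL' : ¬ (p : ℤ) ∣ X' - ρ * D' := by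
    intro h3
    have h4 : (p : ℤ) ∣ (2 * (s * X) + a) * D' := by
      have h5 : (2 * (s * X) + a) * D' = (X' + a * D' + s * X * D') - (X' - ρ * D') -
          (ρ - s * X) * D' := by ring
      rw [h5]
      exact dvd_sub (dvd_sub hX' h3) (hρ0.mul_right _)
    rcases hpI.dvd_or_dvd h4 with h5 | h5
    · exact hsimple h5
    · exact hnD' h5
  refine G2_key p t ((X + a * D + ρ * D) * (X' - ρ * D')) m
    (w * (X' - ρ * D') + w' * (X + a * D + ρ * D)) (padicValInt p t + 1) ht ?_ hpm'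
    (Nat.lt_succ_self _) ?_
  · intro h3
    rcases hpI.dvd_or_dvd h3 with h4 | h4
    · exact hM h4
    · exact hL' h4
  · have h3 : (X + a * D + ρ * D) * (X' - ρ * D') * t -
        m * (w * (X' - ρ * D') + w' * (X + a * D + ρ * D)) ^ 2 =
        (ρ ^ 2 + a * ρ + b) * (-(D ^ 2 * (X' - ρ * D') ^ 2) - D' ^ 2 * (X + a * D + ρ * D) ^ 2 -
          2 * D * D' * ((X + a * D + ρ * D) * (X' - ρ * D'))) := by
      rw [htdef]
      linear_combination (X' - ρ * D') ^ 2 * h + (X + a * D + ρ * D) ^ 2 * h'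
    rw [h3]
    exact hρ.mul_right _

end TwHL
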