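import Pool.Agent.LibTwHL.Defs

namespace TwHL

/-- Row G2b. `Nat.sq_mul_squarefree`; a prime dividing the squarefree part has odd valuation. -/
theorem sqf_class (t M : ℕ) (ht : 0 < t) (hM : 0 < M)
    (h : ∀ p : ℕ, p.Prime → ¬ p ∣ M → Even (padicValNat p t)) :
    ∃ r s : ℕ, 0 < r ∧ 0 < s ∧ t = r * s ^ 2 ∧ r ∣ M := by
  obtain ⟨r, s, hrs, hsq⟩ := Nat.sq_mul_squarefree t
  have hr : r ≠ 0 := by
    rintro rfl
    omega
  have hs : s ≠ 0 := by
    rintro rfl
    simp at hrs
    omega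
  refine ⟨r, s, Nat.pos_of_ne_zero hr, Nat.pos_of_ne_zero hs, by rw [← hrs]; ring, ?_⟩
  rw [← Nat.prod_primeFactors_of_squarefree hsq]
  refine Finset.prod_primes_dvd M (fun p hp => (Nat.prime_of_mem_primeFactors hp).prime) fun p hp => ?_
  have hp1 := Nat.prime_of_mem_primeFactors hp
  have hp2 := Nat.dvd_of_mem_primeFactors hp
  by_contra hpM
  have hev := h p hp1 hpM
  have := Fact.mk hp1
  rw [← hrs, padicValNat.mul (pow_ne_zero 2 hs) hr, padicValNat.pow] at hev
  have h1 : 1 ≤ padicValNat p r := one_le_padicValNat_of_dvd hr hp2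
  have h2 : padicValNat p r ≤ 1 := by
    rw [← Nat.factorization_def r hp1]
    exact hsq.natFactorization_le_one p
  have h3 : padicValNat p r = 1 := le_antisymm h2 h1
  rw [h3] at hev
  obtain ⟨k, hk⟩ := hev
  omega

end TwHL
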