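import Pool.Agent.LibTwHL.Defs

namespace TwHL

theorem tau_prod (a b m X D w X1 D1 w1 X2 D2 w2 : ℤ) (h0 : qf a b X D = m * w ^ 2)
    (h1 : qf a b X1 D1 = m * w1 ^ 2) (h2 : qf a b X2 D2 = m * w2 ^ 2) :
    tau a b m X D w X1 D1 w1 * tau a b m X D w X2 D2 w2 * tau a b m X1 D1 w1 X2 D2 w2
      = (2*X*X1*X2 + a*(X*X1*D2+X*D1*X2+D*X1*X2) + (a^2-2*b)*(X*D1*D2+D*X1*D2+D*D1*X2)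
        + (a^3-3*a*b)*D*D1*D2
        + m*(w*w1*(2*X2+a*D2)+w*w2*(2*X1+a*D1)+w1*w2*(2*X+a*D)))^2 := by
  simp only [qf, tau] at *
  linear_combination
    -(-a^3*X1*D1*D2^2 -a^3*X2*D1^2*D2 -2*a^2*b*D1^2*D2^2 +2*a^2*m*D1*D2*w1*w2 -a^2*X1^2*D2^2 -4*a^2*X1*X2*D1*D2 -a^2*X2^2*D1^2 -4*a*X1^2*X2*D2 -4*a*X1*X2^2*D1 +4*b^2*D1^2*D2^2 -8*b*m*D1*D2*w1*w2 +4*m^2*w1^2*w2^2 -4*X1^2*X2^2) * h0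
    -(-a^3*X2*D^2*D2 -a^2*b*D^2*D2^2 +2*a^2*m*D*D2*w*w2 -a^2*m*D2^2*w^2 -a^2*X2^2*D^2 +4*a*b*X2*D^2*D2 -4*a*m*X2*D2*w^2 +4*b^2*D^2*D2^2 -8*b*m*D*D2*w*w2 +4*b*X2^2*D^2 +4*m^2*w^2*w2^2 -4*m*X2^2*w^2) * h1
    -(-a^2*m*D^2*w1^2 +2*a^2*m*D*D1*w*w1 -a^2*m*D1^2*w^2 +4*b*m*D^2*w1^2 -8*b*m*D*D1*w*w1 +4*b*m*D1^2*w^2) * h2

theorem tau_square (a b m X D w X1 D1 w1 X2 D2 w2 r s1 s2 : ℤ) (h0 : qf a b X D = m * w ^ 2)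
    (h1 : qf a b X1 D1 = m * w1 ^ 2) (h2 : qf a b X2 D2 = m * w2 ^ 2) (hr : r ≠ 0)
    (hs1 : s1 ≠ 0) (hs2 : s2 ≠ 0)
    (e1 : tau a b m X D w X1 D1 w1 = r * s1 ^ 2) (e2 : tau a b m X D w X2 D2 w2 = r * s2 ^ 2) :
    ∃ T : ℤ, tau a b m X1 D1 w1 X2 D2 w2 = T ^ 2 := by
  have h := tau_prod a b m X D w X1 D1 w1 X2 D2 w2 h0 h1 h2
  rw [e1, e2] at h
  set Z := (2*X*X1*X2 + a*(X*X1*D2+X*D1*X2+D*X1*X2) + (a^2-2*b)*(X*D1*D2+D*X1*D2+D*D1*X2)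
        + (a^3-3*a*b)*D*D1*D2
        + m*(w*w1*(2*X2+a*D2)+w*w2*(2*X1+a*D1)+w1*w2*(2*X+a*D))) with hZ
  have hd : (r * s1 * s2) ^ 2 ∣ Z ^ 2 := ⟨tau a b m X1 D1 w1 X2 D2 w2, by rw [← h]; ring⟩
  rw [Int.pow_dvd_pow_iff (by norm_num)] at hd
  obtain ⟨T, hT⟩ := hd
  refine ⟨T, ?_⟩
  have hne : (r * s1 * s2) ^ 2 ≠ 0 := by positivity
  apply mul_left_cancel₀ hne
  calc (r * s1 * s2) ^ 2 * tau a b m X1 D1 w1 X2 D2 w2 = Z ^ 2 := by rw [← h]; ring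
    _ = (r * s1 * s2) ^ 2 * T ^ 2 := by rw [hT]; ring

end TwHL
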