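import Pool.Agent.LibTwHL.Defs

namespace TwHL

private theorem G4_qf (a b B X D : ℤ) (hB : 1 ≤ B) (hD : |D| ≤ B)
    (hX : 4 * (|a| + |b| + 1) * B ≤ X) : 3 * X ^ 2 ≤ 4 * qf a b X D := by
  unfold qf
  have ha := abs_nonneg a
  have hb := abs_nonneg b
  have h1 : |a * X * D| ≤ |a| * B * X := by
    have hB0 : (0 : ℤ) ≤ B := by linarith
    have g1 := mul_nonneg ha hB0
    have g2 := mul_nonneg hb hB0
    have hX0 : 0 ≤ X := by nlinarith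
    rw [abs_mul, abs_mul, abs_of_nonneg hX0]
    calc |a| * X * |D| ≤ |a| * X * B := mul_le_mul_of_nonneg_left hD (mul_nonneg ha hX0)
      _ = _ := by ring
  have h2 : |b * D ^ 2| ≤ |b| * B ^ 2 := by
    rw [abs_mul, abs_pow]
    exact mul_le_mul_of_nonneg_left (pow_le_pow_left₀ (abs_nonneg D) hD 2) hb
  have h3 := (abs_le.1 h1).1
  have h4 := (abs_le.1 h2).1
  have hab : 0 ≤ |a| * B := mul_nonneg ha (by linarith)
  have hbb : 0 ≤ |b| * B := mul_nonneg hb (by linarith)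
  have hXB : B ≤ X := by nlinarith
  have hX0 : 0 ≤ X := by linarith
  have h5 : 4 * (|a| * B) + 4 * (|b| * B) ≤ X := by nlinarith
  have h6 : |b| * B ^ 2 ≤ |b| * B * X := by
    calc |b| * B ^ 2 = |b| * B * B := by ring
      _ ≤ |b| * B * X := mul_le_mul_of_nonneg_left hXB hbb
  have h7 : (4 * (|a| * B) + 4 * (|b| * B)) * X ≤ X * X := mul_le_mul_of_nonneg_right h5 hX0
  nlinarith

/-- Row G4. The gap. WLOG `T > 0`. `P = X₁X₂ - b D₁D₂`, `S = X₁D₂ + X₂D₁ + a D₁D₂`,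
`n = m w₁ w₂ > 0`, `Δ = a^2 - 4b`; identities `P^2 + aPS + bS^2 = n^2`, `T^2 = 2P + aS + 2n`.
Put `p₀ = (P + n)/T`, `p₁ = S/T` (rationals). Then (1) `p₀^2 - b p₁^2 = P`, (2) `2p₀ + a p₁ = T`,
(3) `Δ p₁^2 = T^2 - 4n`. By (3) `T^2 | (Δ S)^2` so `Δ p₁` is an integer and `2 Δ p₀ = ΔT - aΔp₁`
too. Size: `|S| ≤ 3 X₂ B`, `n ≥ X₁X₂/2`, `T^2 ≥ 2 X₁X₂`, so `|p₁^2 - D₁D₂| ≤ 6 B^2 X₂/X₁` and
`|p₀ - k₀| = |b| |p₁^2 - D₁D₂| / (p₀ + k₀) ≤ 6 |b| B^2 X₂ / (X₁ k₀) < 1/(2|Δ|)`, so `p₀ = k₀` and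
`p₁^2 = D₁D₂`. Now `p₁ T = S` gives `2 k₀ p₁ = X₁D₂ + X₂D₁`, squared:
`(X₁D₂ - X₂D₁)^2 = 0`; coprimality and positivity finish. -/
theorem gap (a b m B X₁ D₁ w₁ X₂ D₂ w₂ k₀ T : ℤ) (hb : b ≠ 0) (hΔ : a ^ 2 - 4 * b ≠ 0)
    (hm : 0 < m) (hw₁ : 0 < w₁) (hw₂ : 0 < w₂) (hB : 1 ≤ B) (hD₁ : |D₁| ≤ B) (hD₂ : |D₂| ≤ B)
    (hX : 4 * (|a| + |b| + 1) * B ≤ X₁) (hle : X₁ ≤ X₂)
    (h₁ : qf a b X₁ D₁ = m * w₁ ^ 2) (h₂ : qf a b X₂ D₂ = m * w₂ ^ 2)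
    (hk : X₁ * X₂ = k₀ ^ 2) (hk₀ : 0 < k₀) (hT : tau a b m X₁ D₁ w₁ X₂ D₂ w₂ = T ^ 2)
    (hc₁ : IsCoprime X₁ D₁) (hc₂ : IsCoprime X₂ D₂)
    (hgap : 400 * b ^ 2 * (a ^ 2 - 4 * b) ^ 2 * B ^ 4 * X₂ < X₁ ^ 3) :
    X₁ = X₂ ∧ D₁ = D₂ := by
  -- `T > 0`
  wlog hTpos : 0 ≤ T generalizing T with H
  · exact H (-T) (by rw [hT]; ring) (by linarith)
  have ha := abs_nonneg a
  have hb' := abs_nonneg b
  have hB0 : (0 : ℤ) ≤ B := by linarith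
  have hab : 0 ≤ |a| * B := mul_nonneg ha hB0
  have hbb : 0 ≤ |b| * B := mul_nonneg hb' hB0
  have hXB : B ≤ X₁ := by nlinarith
  have hX1 : 0 < X₁ := by linarith
  have hX2 : 0 < X₂ := by linarith
  have hX12 : 0 < X₁ * X₂ := mul_pos hX1 hX2
  have haB : 4 * (|a| * B) ≤ X₁ := by nlinarith
  have hbB : 4 * (|b| * B) ≤ X₁ := by nlinarith
  obtain ⟨P, hP⟩ : ∃ P : ℤ, P = X₁ * X₂ - b * D₁ * D₂ := ⟨_, rfl⟩
  obtain ⟨S, hS⟩ : ∃ S : ℤ, S = X₁ * D₂ + X₂ * D₁ + a * D₁ * D₂ := ⟨_, rfl⟩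
  obtain ⟨n, hn⟩ : ∃ n : ℤ, n = m * w₁ * w₂ := ⟨_, rfl⟩
  have hn0 : 0 < n := by rw [hn]; exact mul_pos (mul_pos hm hw₁) hw₂
  -- identities
  have hTeq : T ^ 2 = 2 * P + a * S + 2 * n := by
    rw [← hT, hP, hS, hn]
    unfold tau
    ring
  have hnorm : P ^ 2 + a * P * S + b * S ^ 2 = n ^ 2 := by
    have h3 : n ^ 2 = qf a b X₁ D₁ * qf a b X₂ D₂ := by rw [h₁, h₂, hn]; ring
    rw [h3, hP, hS]
    unfold qf
    ring
  -- sizes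
  have hDD : |D₁ * D₂| ≤ B ^ 2 := by
    rw [abs_mul, sq]
    exact mul_le_mul hD₁ hD₂ (abs_nonneg _) hB0
  have q1 : 3 * X₁ ^ 2 ≤ 4 * (m * w₁ ^ 2) := by rw [← h₁]; exact G4_qf a b B X₁ D₁ hB hD₁ hX
  have q2 : 3 * X₂ ^ 2 ≤ 4 * (m * w₂ ^ 2) := by
    rw [← h₂]; exact G4_qf a b B X₂ D₂ hB hD₂ (hX.trans hle)
  have hn1 : 3 * (X₁ * X₂) ≤ 4 * n := by
    have h3 : (3 * (X₁ * X₂)) ^ 2 ≤ (4 * n) ^ 2 := by
      calc (3 * (X₁ * X₂)) ^ 2 = (3 * X₁ ^ 2) * (3 * X₂ ^ 2) := by ring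
        _ ≤ (4 * (m * w₁ ^ 2)) * (4 * (m * w₂ ^ 2)) := mul_le_mul q1 q2 (by positivity)
            (by positivity)
        _ = (4 * n) ^ 2 := by rw [hn]; ring
    exact (abs_le_of_sq_le_sq' h3 (by linarith)).2
  have hbDD : |b * D₁ * D₂| ≤ |b| * B ^ 2 := by
    rw [mul_assoc, abs_mul]
    exact mul_le_mul_of_nonneg_left hDD hb'
  have haDD : |a * D₁ * D₂| ≤ |a| * B ^ 2 := by
    rw [mul_assoc, abs_mul]
    exact mul_le_mul_of_nonneg_left hDD ha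
  have hP1 : 3 * (X₁ * X₂) ≤ 4 * P := by
    have h3 := (abs_le.1 hbDD).2
    have h4 : 4 * (|b| * B ^ 2) ≤ X₁ * X₂ := by
      calc 4 * (|b| * B ^ 2) = (4 * (|b| * B)) * B := by ring
        _ ≤ X₁ * X₂ := mul_le_mul hbB (hXB.trans hle) hB0 hX1.le
    rw [hP]
    linarith
  have hS1 : |S| ≤ 3 * X₂ * B := by
    have e1 : |X₁ * D₂| ≤ X₂ * B := by
      rw [abs_mul, abs_of_pos hX1]
      exact mul_le_mul hle hD₂ (abs_nonneg _) hX2.le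
    have e2 : |X₂ * D₁| ≤ X₂ * B := by
      rw [abs_mul, abs_of_pos hX2]
      exact mul_le_mul_of_nonneg_left hD₁ hX2.le
    have e3 : |a * D₁ * D₂| ≤ X₂ * B := by
      refine haDD.trans ?_
      calc |a| * B ^ 2 = (|a| * B) * B := by ring
        _ ≤ X₂ * B := mul_le_mul_of_nonneg_right (by linarith) hB0
    calc |S| ≤ |X₁ * D₂ + X₂ * D₁| + |a * D₁ * D₂| := by rw [hS]; exact abs_add_le _ _
      _ ≤ (|X₁ * D₂| + |X₂ * D₁|) + |a * D₁ * D₂| := by linarith [abs_add_le (X₁ * D₂) (X₂ * D₁)]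
      _ ≤ _ := by linarith
  have hT1 : 2 * (X₁ * X₂) ≤ T ^ 2 := by
    have e1 : |a * S| ≤ |a| * (3 * X₂ * B) := by
      rw [abs_mul]
      exact mul_le_mul_of_nonneg_left hS1 ha
    have e2 := (abs_le.1 e1).1
    have e3 : 4 * (|a| * (3 * X₂ * B)) ≤ 3 * (X₁ * X₂) := by
      calc 4 * (|a| * (3 * X₂ * B)) = 3 * X₂ * (4 * (|a| * B)) := by ring
        _ ≤ 3 * X₂ * X₁ := mul_le_mul_of_nonneg_left haB (by linarith)
        _ = _ := by ring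
    rw [hTeq]
    linarith
  have hT0 : 0 < T := by
    rcases hTpos.eq_or_lt with h | h
    · rw [← h] at hT1
      norm_num at hT1
      linarith
    · exact h
  obtain ⟨Δ, hΔd⟩ : ∃ Δ : ℤ, Δ = a ^ 2 - 4 * b := ⟨_, rfl⟩
  rw [← hΔd] at hΔ hgap
  -- the integer `V`
  have hdiv : T ∣ Δ * S := by
    have h3 : (Δ * S) ^ 2 = T ^ 2 * (Δ * (T ^ 2 - 4 * n)) := by
      have h4 : Δ * S ^ 2 = T ^ 2 * (T ^ 2 - 4 * n) := by
        rw [hTeq, hΔd]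
        linear_combination (-4) * hnorm
      linear_combination Δ * h4
    exact (Int.pow_dvd_pow_iff (by norm_num)).1 ⟨_, h3⟩
  obtain ⟨U, hU⟩ := hdiv
  obtain ⟨q, hq⟩ : ∃ q : ℤ, q = P + n := ⟨_, rfl⟩
  have hV : T * (Δ * T - a * U) = 2 * Δ * q := by
    linear_combination Δ * hTeq + a * hU - 2 * Δ * hq
  have hq0 : 0 < q := by linarith
  have hprod : (q - k₀ * T) * (q + k₀ * T) = b * (S ^ 2 - D₁ * D₂ * T ^ 2) := by
    have h3 : q ^ 2 = T ^ 2 * P + b * S ^ 2 := by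
      rw [hq, hTeq]
      linear_combination (-1) * hnorm
    have h4 : P = k₀ ^ 2 - b * D₁ * D₂ := by rw [← hk, hP]
    linear_combination h3 + T ^ 2 * h4
  -- the key estimate
  have hΔb : 0 ≤ |Δ * b| := abs_nonneg _
  have h5 : 11 * |Δ * b| * B ^ 2 * X₂ < k₀ * X₁ := by
    have h6 : (11 * |Δ * b| * B ^ 2 * X₂) ^ 2 < (k₀ * X₁) ^ 2 := by
      have e1 : (11 * |Δ * b| * B ^ 2 * X₂) ^ 2 = 121 * (b ^ 2 * Δ ^ 2 * B ^ 4 * X₂) * X₂ := by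
        have : |Δ * b| ^ 2 = (Δ * b) ^ 2 := sq_abs _
        linear_combination 121 * B ^ 4 * X₂ ^ 2 * this
      have e2 : (k₀ * X₁) ^ 2 = X₁ ^ 3 * X₂ := by
        linear_combination (-X₁ ^ 2) * hk
      have e3 : 0 ≤ b ^ 2 * Δ ^ 2 * B ^ 4 * X₂ := by positivity
      rw [e1, e2]
      apply mul_lt_mul_of_pos_right _ hX2
      linarith
    exact lt_of_pow_lt_pow_left₀ 2 (mul_pos hk₀ hX1).le h6
  have h6 : 2 * |Δ * b| * |S ^ 2 - D₁ * D₂ * T ^ 2| < k₀ * T ^ 2 := by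
    have e1 : |S ^ 2 - D₁ * D₂ * T ^ 2| ≤ (3 * X₂ * B) ^ 2 + B ^ 2 * T ^ 2 := by
      calc |S ^ 2 - D₁ * D₂ * T ^ 2| ≤ |S ^ 2| + |D₁ * D₂ * T ^ 2| := abs_sub _ _
        _ ≤ _ := by
          rw [abs_pow, abs_mul, abs_of_nonneg (sq_nonneg T)]
          exact add_le_add (pow_le_pow_left₀ (abs_nonneg _) hS1 2)
            (mul_le_mul_of_nonneg_right hDD (sq_nonneg T))
    have e2 : 2 * X₁ * |S ^ 2 - D₁ * D₂ * T ^ 2| ≤ 11 * B ^ 2 * X₂ * T ^ 2 := by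
      have f1 : 2 * X₁ * (3 * X₂ * B) ^ 2 ≤ 9 * B ^ 2 * X₂ * T ^ 2 := by
        calc 2 * X₁ * (3 * X₂ * B) ^ 2 = (9 * B ^ 2 * X₂) * (2 * (X₁ * X₂)) := by ring
          _ ≤ (9 * B ^ 2 * X₂) * T ^ 2 := mul_le_mul_of_nonneg_left hT1 (by positivity)
      have f2 : 2 * X₁ * (B ^ 2 * T ^ 2) ≤ 2 * B ^ 2 * X₂ * T ^ 2 := by
        calc 2 * X₁ * (B ^ 2 * T ^ 2) = (2 * B ^ 2 * T ^ 2) * X₁ := by ring
          _ ≤ (2 * B ^ 2 * T ^ 2) * X₂ := mul_le_mul_of_nonneg_left hle (by positivity)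
          _ = _ := by ring
      calc 2 * X₁ * |S ^ 2 - D₁ * D₂ * T ^ 2| ≤ 2 * X₁ * ((3 * X₂ * B) ^ 2 + B ^ 2 * T ^ 2) :=
            mul_le_mul_of_nonneg_left e1 (by positivity)
        _ = 2 * X₁ * (3 * X₂ * B) ^ 2 + 2 * X₁ * (B ^ 2 * T ^ 2) := by ring
        _ ≤ _ := by linarith
    have e3 : X₁ * (2 * |Δ * b| * |S ^ 2 - D₁ * D₂ * T ^ 2|) < X₁ * (k₀ * T ^ 2) := by
      calc X₁ * (2 * |Δ * b| * |S ^ 2 - D₁ * D₂ * T ^ 2|)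
          = |Δ * b| * (2 * X₁ * |S ^ 2 - D₁ * D₂ * T ^ 2|) := by ring
        _ ≤ |Δ * b| * (11 * B ^ 2 * X₂ * T ^ 2) := mul_le_mul_of_nonneg_left e2 hΔb
        _ = (11 * |Δ * b| * B ^ 2 * X₂) * T ^ 2 := by ring
        _ < (k₀ * X₁) * T ^ 2 := mul_lt_mul_of_pos_right h5 (by positivity)
        _ = _ := by ring
    exact lt_of_mul_lt_mul_left e3 hX1.le
  have hW : 0 < q + k₀ * T := by positivity
  have h7 : |2 * Δ * (q - k₀ * T)| < T := by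
    have e1 : |2 * Δ * (q - k₀ * T)| * (q + k₀ * T) < T * (q + k₀ * T) := by
      calc |2 * Δ * (q - k₀ * T)| * (q + k₀ * T)
          = |2 * Δ * (q - k₀ * T)| * |q + k₀ * T| := by rw [abs_of_pos hW]
        _ = |2 * (Δ * b) * (S ^ 2 - D₁ * D₂ * T ^ 2)| := by
            rw [← abs_mul]
            congr 1
            linear_combination 2 * Δ * hprod
        _ = 2 * |Δ * b| * |S ^ 2 - D₁ * D₂ * T ^ 2| := by
            rw [abs_mul, abs_mul, abs_of_pos (by norm_num : (0 : ℤ) < 2)]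
        _ < k₀ * T ^ 2 := h6
        _ ≤ T * (q + k₀ * T) := by nlinarith
    exact lt_of_mul_lt_mul_right e1 hW.le
  have h8 : 2 * Δ * (q - k₀ * T) = T * (Δ * T - a * U - 2 * Δ * k₀) := by
    linear_combination -hV
  have h9 : q = k₀ * T := by
    have e1 : Δ * T - a * U - 2 * Δ * k₀ = 0 := by
      by_contra hne
      have e2 : 1 ≤ |Δ * T - a * U - 2 * Δ * k₀| := Int.one_le_abs hne
      rw [h8, abs_mul, abs_of_pos hT0] at h7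
      nlinarith
    rw [e1, mul_zero] at h8
    have e3 : q - k₀ * T = 0 := by
      rcases mul_eq_zero.1 h8 with h | h
      · exfalso
        rcases mul_eq_zero.1 h with h' | h'
        · norm_num at h'
        · exact hΔ h'
      · exact h
    linarith
  have h10 : S ^ 2 = D₁ * D₂ * T ^ 2 := by
    rw [h9, sub_self, zero_mul] at hprod
    rcases mul_eq_zero.1 hprod.symm with h | h
    · exact absurd h hb
    · linarith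
  have h11 : T ^ 2 = 2 * (k₀ * T) + a * S := by
    rw [← h9, hq, hTeq]
    ring
  have h12 : T * (X₁ * D₂ + X₂ * D₁) = 2 * k₀ * S := by
    have e1 : T * (T * (X₁ * D₂ + X₂ * D₁)) = T * (2 * k₀ * S) := by
      have e2 : S * T ^ 2 = 2 * k₀ * T * S + a * S ^ 2 := by rw [h11]; ring
      rw [h10] at e2
      have e3 : X₁ * D₂ + X₂ * D₁ = S - a * D₁ * D₂ := by rw [hS]; ring
      rw [e3]
      linear_combination e2
    exact mul_left_cancel₀ hT0.ne' e1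
  have h13 : X₁ * D₂ = X₂ * D₁ := by
    have e1 : T ^ 2 * (X₁ * D₂ - X₂ * D₁) ^ 2 = 0 := by
      have e2 : T ^ 2 * (X₁ * D₂ + X₂ * D₁) ^ 2 = 4 * k₀ ^ 2 * S ^ 2 := by
        calc T ^ 2 * (X₁ * D₂ + X₂ * D₁) ^ 2 = (T * (X₁ * D₂ + X₂ * D₁)) ^ 2 := by ring
          _ = _ := by rw [h12]; ring
      rw [h10, ← hk] at e2
      linear_combination e2
    have e3 : (X₁ * D₂ - X₂ * D₁) ^ 2 = 0 :=
      (mul_eq_zero.1 e1).resolve_left (by positivity)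
    have e4 := pow_eq_zero_iff (two_ne_zero) |>.1 e3
    linarith
  have h14 : X₁ ∣ X₂ := hc₁.dvd_of_dvd_mul_right ⟨D₂, h13.symm⟩
  have h15 : X₂ ∣ X₁ := hc₂.dvd_of_dvd_mul_right ⟨D₁, h13⟩
  have h16 : X₁ = X₂ := le_antisymm hle (Int.le_of_dvd hX1 h15)
  refine ⟨h16, ?_⟩
  rw [← h16] at h13
  exact (mul_left_cancel₀ hX1.ne' h13).symm

end TwHL
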