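import Pool.Agent.LibTwHL.Defs

namespace TwHL

private lemma chain_aux (F : Finset ℕ) (c R : ℝ) (hc : 1 < c)
    (hF : ∀ x ∈ F, 1 ≤ Real.log x ∧ Real.log x ≤ R)
    (h : ∀ x ∈ F, ∀ y ∈ F, x < y → c * Real.log x ≤ Real.log y) (s : Finset ℕ) :
    s ⊆ F → ∀ y ∈ F, (∀ x ∈ s, x < y) → c ^ s.card ≤ Real.log y := by
  induction s using Finset.induction_on_max with
  | empty =>
    intro _ y hy _
    rw [Finset.card_empty, pow_zero]
    exact (hF y hy).1
  | insert a s has ih =>
    intro hs y hy hlt
    have haF : a ∈ F := hs (Finset.mem_insert_self a s)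
    have h1 := ih ((Finset.subset_insert a s).trans hs) a haF has
    have h2 := h a haF y hy (hlt a (Finset.mem_insert_self a s))
    have hn : a ∉ s := fun hm => (has a hm).ne rfl
    rw [Finset.card_insert_of_notMem hn, pow_succ']
    exact (mul_le_mul_of_nonneg_left h1 (by linarith)).trans h2

/-- Row G5a. Chain: the `i`-th smallest element has logarithm `≥ c^(i-1)` (induction on the card,
remove the maximum). -/
theorem chain (F : Finset ℕ) (c R : ℝ) (hc : 1 < c) (hR : 1 ≤ R)
    (hF : ∀ x ∈ F, 1 ≤ Real.log x ∧ Real.log x ≤ R)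
    (h : ∀ x ∈ F, ∀ y ∈ F, x < y → c * Real.log x ≤ Real.log y) :
    (F.card : ℝ) ≤ 1 + Real.log R / Real.log c := by
  have hlc : 0 < Real.log c := Real.log_pos hc
  have hlR : 0 ≤ Real.log R := Real.log_nonneg hR
  rcases F.eq_empty_or_nonempty with he | hne
  · rw [he, Finset.card_empty]
    push_cast
    positivity
  · have hm : F.max' hne ∈ F := F.max'_mem hne
    have h1 := chain_aux F c R hc hF h (F.erase (F.max' hne)) (Finset.erase_subset _ _) _ hm
      (fun x hx => lt_of_le_of_ne (F.le_max' x (Finset.mem_of_mem_erase hx)) (Finset.ne_of_mem_erase hx))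
    have h2 := h1.trans (hF _ hm).2
    have h3 := Real.log_le_log (by positivity) h2
    rw [Real.log_pow] at h3
    have h4 : (F.card : ℝ) = (((F.erase (F.max' hne)).card : ℕ) : ℝ) + 1 := by
      rw [← Finset.card_erase_add_one hm]
      push_cast
      ring
    have h5 : (((F.erase (F.max' hne)).card : ℕ) : ℝ) ≤ Real.log R / Real.log c := by
      rw [le_div_iff₀ hlc]
      exact h3
    linarith

end TwHL
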