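import Pool.Agent.LibTwHL.Defs

namespace TwHL

/-- Row G5b. Size of tau: positive. -/
theorem tau_pos (a b m B X₁ D₁ w₁ X₂ D₂ w₂ : ℤ) (hm : 0 < m) (hw₁ : 0 < w₁) (hw₂ : 0 < w₂)
    (hB : 1 ≤ B) (hD₁ : |D₁| ≤ B) (hD₂ : |D₂| ≤ B)
    (hX₁ : 4 * (|a| + |b| + 1) ^ 2 * B ≤ X₁) (hX₂ : 4 * (|a| + |b| + 1) ^ 2 * B ≤ X₂) :
    0 < tau a b m X₁ D₁ w₁ X₂ D₂ w₂ := by
  obtain ⟨A, hA⟩ : ∃ A : ℤ, A = |a| := ⟨_, rfl⟩
  obtain ⟨N, hN⟩ : ∃ N : ℤ, N = |b| := ⟨_, rfl⟩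
  have hA0 : 0 ≤ A := by rw [hA]; exact abs_nonneg a
  have hN0 : 0 ≤ N := by rw [hN]; exact abs_nonneg b
  rw [← hA, ← hN] at hX₁ hX₂
  obtain ⟨Q, hQ⟩ : ∃ Q : ℤ, Q = (A + N + 1) ^ 2 := ⟨_, rfl⟩
  rw [← hQ] at hX₁ hX₂
  have hQA : A ≤ Q := by rw [hQ]; nlinarith
  have hQ1 : 1 ≤ Q := by rw [hQ]; nlinarith
  have hQ2 : A ^ 2 + 2 * N ≤ Q := by rw [hQ]; nlinarith
  have hAB : A * B ≤ Q * B := mul_le_mul_of_nonneg_right hQA (by linarith)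
  have hQB : 1 * 1 ≤ Q * B := mul_le_mul hQ1 hB (by norm_num) (by linarith)
  have hX1 : 0 < X₁ := by linarith
  have hX2 : 0 < X₂ := by linarith
  have hlin : ∀ D : ℤ, |D| ≤ B → -(A * B) ≤ a * D := by
    intro D hD
    have h1 : |a * D| ≤ A * B := by
      rw [abs_mul, ← hA]
      exact mul_le_mul_of_nonneg_left hD hA0
    exact (abs_le.1 h1).1
  have h1 : -(X₁ * (A * B)) ≤ X₁ * (a * D₂) := by
    have := mul_le_mul_of_nonneg_left (hlin D₂ hD₂) hX1.le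
    linarith
  have h2 : -(X₂ * (A * B)) ≤ X₂ * (a * D₁) := by
    have := mul_le_mul_of_nonneg_left (hlin D₁ hD₁) hX2.le
    linarith
  have h3 : X₁ * (4 * (A * B)) ≤ X₁ * X₂ := mul_le_mul_of_nonneg_left (by linarith) hX1.le
  have h4 : X₂ * (4 * (A * B)) ≤ X₂ * X₁ := mul_le_mul_of_nonneg_left (by linarith) hX2.le
  have h5 : |(a ^ 2 - 2 * b) * (D₁ * D₂)| ≤ Q * (B * B) := by
    rw [abs_mul, abs_mul]
    refine mul_le_mul ?_ ?_ (by positivity) (by linarith)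
    · have h6 : |a ^ 2 - 2 * b| ≤ |a ^ 2| + |2 * b| := abs_sub _ _
      have h7 : |a ^ 2| = A ^ 2 := by rw [abs_pow, ← hA]
      have h8 : |2 * b| = 2 * N := by rw [abs_mul, ← hN]; norm_num
      linarith
    · exact mul_le_mul hD₁ hD₂ (abs_nonneg _) (by linarith)
  have h6 := (abs_le.1 h5).1
  have h7 : (4 * Q * B) * (4 * Q * B) ≤ X₁ * X₂ :=
    mul_le_mul hX₁ hX₂ (by nlinarith) hX1.le
  have h8 : Q * (B * B) ≤ Q * B * (Q * B) := by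
    have h9 : 0 ≤ Q * (B * B) := by positivity
    have h10 : Q * (B * B) * 1 ≤ Q * (B * B) * Q := mul_le_mul_of_nonneg_left hQ1 h9
    calc Q * (B * B) = Q * (B * B) * 1 := by ring
      _ ≤ Q * (B * B) * Q := h10
      _ = Q * B * (Q * B) := by ring
  have h9 : 0 < m * w₁ * w₂ := by positivity
  have h10 : 0 < X₁ * X₂ := by positivity
  unfold tau
  have e : 2 * X₁ * X₂ + a * (X₁ * D₂ + X₂ * D₁) + (a ^ 2 - 2 * b) * D₁ * D₂ + 2 * m * w₁ * w₂ =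
      2 * (X₁ * X₂) + X₁ * (a * D₂) + X₂ * (a * D₁) + (a ^ 2 - 2 * b) * (D₁ * D₂) +
        2 * (m * w₁ * w₂) := by ring
  rw [e]
  nlinarith

end TwHL
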