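import Pool.Agent.LibTwHL.Defs2
import Pool.Agent.LibTwHL.G2
import Pool.Agent.LibTwHL.G2b
import Pool.Agent.LibTwHL.G3
import Pool.Agent.LibTwHL.G4
import Pool.Agent.LibTwHL.G5a
import Pool.Agent.LibTwHL.G5b

namespace TwHL

private lemma g5_card_div (P k b g : ℕ) (hP : 0 < P) (hb : 0 < b) (hkb : k ∣ b) :
    (Nat.divisors (P * k * g)).card ≤ (Nat.divisors (P * b)).card * g.divisors.card := by
  rw [Nat.divisors_mul]
  refine Finset.card_mul_le.trans ?_
  apply Nat.mul_le_mul_right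
  apply Finset.card_le_card
  exact Nat.divisors_subset_of_dvd (by positivity) (Nat.mul_dvd_mul_left P hkb)

/-- size: from the gap inequality to logarithms -/
private lemma g5_log {δ c₀ A B X₁ X₂ L : ℝ} (hδ : 0 < δ) (hc₀ : 0 < c₀) (hA : 0 < A) (hB : 1 ≤ B)
    (h1 : c₀ * B ^ (2 + δ) ≤ X₁) (hX₁ : 0 < X₁) (hX₂ : 0 < X₂)
    (hgap : X₁ ^ 3 ≤ A * B ^ 4 * X₂)
    (hL : L ≤ Real.log X₁)
    (hK : Real.log A - 4 / (2 + δ) * Real.log c₀ ≤ δ / (2 + δ) * L) :
    (1 + δ / (2 + δ)) * Real.log X₁ ≤ Real.log X₂ := by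
  have hB0 : 0 < B := by linarith
  have h2 : 0 < 2 + δ := by linarith
  have e1 : Real.log c₀ + (2 + δ) * Real.log B ≤ Real.log X₁ := by
    have := Real.log_le_log (by positivity) h1
    rwa [Real.log_mul hc₀.ne' (by positivity), Real.log_rpow hB0] at this
  have e2 : 3 * Real.log X₁ ≤ Real.log A + 4 * Real.log B + Real.log X₂ := by
    have := Real.log_le_log (by positivity) hgap
    rw [Real.log_mul (by positivity) hX₂.ne', Real.log_mul hA.ne' (by positivity), Real.log_pow,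
      Real.log_pow] at this
    push_cast at this
    exact this
  have e3 : Real.log B ≤ (Real.log X₁ - Real.log c₀) / (2 + δ) := by
    rw [le_div_iff₀ h2]
    linarith
  have e4 : δ / (2 + δ) * L ≤ δ / (2 + δ) * Real.log X₁ :=
    mul_le_mul_of_nonneg_left hL (by positivity)
  have e5 : (1 + δ / (2 + δ)) * Real.log X₁
      = 3 * Real.log X₁ - 4 * ((Real.log X₁ - Real.log c₀) / (2 + δ))
        - 4 / (2 + δ) * Real.log c₀ - δ / (2 + δ) * Real.log X₁ := by
    field_simp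
    ring
  rw [e5]
  linarith

/-- Row G5. Fix `h, g, k`, `m = g k`. Choose `u, w` for every `D₁ ∈ F`, `X = h k u^2`. Take one
`D₀ ∈ F` as base: for every `D₁ ∈ F`, `t = tau(base, D₁) > 0` (`tau_pos`) and by `parity`,
`sqf_class`, `t = r s^2` with `r | 2 |Δ| g k`; at most
`card (divisors (2 |Δ| |b|)) * card (divisors g)` values of `r` (`k | b`). For two elements with the
same `r`, `tau` is a square (`tau_square`), and `X₁ X₂ = (h k u₁ u₂)^2`, so by `gap` different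
elements with `X₁ ≤ X₂` have `400 b^2 Δ^2 B^4 X₂ ≥ X₁^3`. Since `X₁ ≥ c₀ B^(2+δ)`,
`B^4 ≤ (X₁/c₀)^(4/(2+δ))` and `log X₂ ≥ (1 + 2δ/(2+δ)) log X₁ - C ≥ (1 + δ/(2+δ)) log X₁` for
`B ≥ B₀`; so `X` is injective on the class and `chain` applies. -/
theorem per_class (a b : ℤ) (hb : b ≠ 0) (hΔ : ¬ IsSquare (a ^ 2 - 4 * b)) (δ c₀ : ℝ)
    (hδ : 0 < δ) (hc₀ : 0 < c₀) : ∃ C : ℝ, 0 < C ∧ ∃ B₀ : ℕ, ∀ h g k B : ℕ, B₀ ≤ B → 0 < h →
    0 < g → 0 < k → Squarefree (g * k) → (k : ℤ) ∣ b → ∀ R : ℝ, 1 ≤ R → ∀ F : Finset ℤ,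
    (∀ D₁ ∈ F, |D₁| ≤ B ∧ ∃ u w : ℕ, 0 < u ∧ 0 < w ∧
      IsCoprime ((h * k * u ^ 2 : ℕ) : ℤ) D₁ ∧
      qf a b ((h * k * u ^ 2 : ℕ) : ℤ) D₁ = ((g * k * w ^ 2 : ℕ) : ℤ) ∧
      c₀ * (B : ℝ) ^ (2 + δ) ≤ ((h * k * u ^ 2 : ℕ) : ℝ) ∧
      ((h * k * u ^ 2 : ℕ) : ℝ) ≤ Real.exp R) →
    (F.card : ℝ) ≤ C * (g.divisors.card : ℝ) * (1 + Real.log R) := by
  classical
  have hΔ0 : a ^ 2 - 4 * b ≠ 0 := by
    intro h0
    exact hΔ ⟨0, by rw [h0]; ring⟩
  set Δ : ℤ := a ^ 2 - 4 * b with hΔdef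
  have h2δ : 0 < 2 + δ := by linarith
  have hcpos : 0 < δ / (2 + δ) := by positivity
  set c : ℝ := 1 + δ / (2 + δ) with hc
  have hc1 : 1 < c := by linarith
  have hlogc : 0 < Real.log c := Real.log_pos hc1
  set A : ℝ := 400 * (b : ℝ) ^ 2 * (Δ : ℝ) ^ 2 with hA
  have hbR : (b : ℝ) ≠ 0 := by exact_mod_cast hb
  have hΔR : (Δ : ℝ) ≠ 0 := by exact_mod_cast hΔ0
  have hApos : 0 < A := by positivity
  set K : ℝ := Real.log A - 4 / (2 + δ) * Real.log c₀ with hK
  set L : ℝ := max 1 (K * ((2 + δ) / δ)) with hL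
  have hL1 : 1 ≤ L := le_max_left _ _
  have hKL : K ≤ δ / (2 + δ) * L := by
    have h1 : K * ((2 + δ) / δ) ≤ L := le_max_right _ _
    have h2 := mul_le_mul_of_nonneg_left h1 hcpos.le
    have h3 : δ / (2 + δ) * (K * ((2 + δ) / δ)) = K := by field_simp
    linarith
  set P : ℕ := 2 * Δ.natAbs with hP
  have hPpos : 0 < P := by
    have : 0 < Δ.natAbs := Int.natAbs_pos.2 hΔ0
    omega
  have hbnat : 0 < b.natAbs := Int.natAbs_pos.2 hb
  -- the threshold
  have htend : Filter.Tendsto (fun B : ℕ => c₀ * (B : ℝ) ^ (1 + δ)) Filter.atTop Filter.atTop :=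
    Filter.Tendsto.const_mul_atTop hc₀
      ((tendsto_rpow_atTop (by linarith : 0 < 1 + δ)).comp tendsto_natCast_atTop_atTop)
  set q : ℝ := 4 * ((|a| + |b| + 1 : ℤ) : ℝ) ^ 2 with hq
  obtain ⟨B₁, hB₁⟩ := Filter.eventually_atTop.1 (htend.eventually_ge_atTop (max q (Real.exp L)))
  refine ⟨((P * b.natAbs).divisors.card : ℝ) * (1 + 1 / Real.log c), ?_, max B₁ 1, ?_⟩
  · have h1 : 0 < (P * b.natAbs).divisors.card :=
      Finset.card_pos.2 ⟨1, Nat.one_mem_divisors.2 (by positivity)⟩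
    have h2 : (0 : ℝ) < (P * b.natAbs).divisors.card := by exact_mod_cast h1
    positivity
  intro h g k B hBB hh hg hk hsq hkb R hR F hF
  have hB1 : 1 ≤ B := (le_max_right _ _).trans hBB
  have hBR : (1 : ℝ) ≤ B := by exact_mod_cast hB1
  have hBR0 : (0 : ℝ) < B := by linarith
  have hBt := hB₁ B ((le_max_left _ _).trans hBB)
  have hBq : q ≤ c₀ * (B : ℝ) ^ (1 + δ) := (le_max_left _ _).trans hBt
  have hBL : Real.exp L ≤ c₀ * (B : ℝ) ^ (1 + δ) := (le_max_right _ _).trans hBt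
  have hpow : (B : ℝ) ^ (2 + δ) = B * (B : ℝ) ^ (1 + δ) := by
    rw [show (2 + δ) = 1 + (1 + δ) by ring, Real.rpow_add hBR0, Real.rpow_one]
  have hlogR : 0 ≤ Real.log R := Real.log_nonneg hR
  have hex : ∀ D ∈ F, ∃ u w : ℕ, 0 < u ∧ 0 < w ∧
      IsCoprime ((h * k * u ^ 2 : ℕ) : ℤ) D ∧
      qf a b ((h * k * u ^ 2 : ℕ) : ℤ) D = ((g * k * w ^ 2 : ℕ) : ℤ) ∧
      c₀ * (B : ℝ) ^ (2 + δ) ≤ ((h * k * u ^ 2 : ℕ) : ℝ) ∧
      ((h * k * u ^ 2 : ℕ) : ℝ) ≤ Real.exp R := fun D hD => (hF D hD).2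
  choose! u w hu hw hcop hqf hXlow hXup using hex
  set X : ℤ → ℕ := fun D => h * k * (u D) ^ 2 with hX
  set m : ℤ := ((g * k : ℕ) : ℤ) with hm
  have hmpos : 0 < m := by
    have h1 : 0 < g * k := Nat.mul_pos hg hk
    rw [hm]
    exact_mod_cast h1
  have hXpos : ∀ D ∈ F, 0 < X D := fun D hD => by
    have := hu D hD
    positivity
  have hXposR : ∀ D ∈ F, (0 : ℝ) < (X D : ℝ) := fun D hD => by exact_mod_cast hXpos D hD
  have hqf' : ∀ D ∈ F, qf a b (X D : ℤ) D = m * ((w D : ℤ)) ^ 2 := fun D hD => by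
    rw [hqf D hD, hm]
    push_cast
    ring
  have hXlogL : ∀ D ∈ F, L ≤ Real.log (X D : ℝ) := by
    intro D hD
    rw [Real.le_log_iff_exp_le (hXposR D hD)]
    refine hBL.trans (le_trans ?_ (hXlow D hD))
    rw [hpow]
    have h1 : 0 ≤ c₀ * (B : ℝ) ^ (1 + δ) := by positivity
    nlinarith
  have hXbig : ∀ D ∈ F, 4 * (|a| + |b| + 1) ^ 2 * (B : ℤ) ≤ (X D : ℤ) := by
    intro D hD
    have h1 : q * B ≤ (X D : ℝ) := by
      refine le_trans ?_ (hXlow D hD)
      rw [hpow]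
      have := mul_le_mul_of_nonneg_right hBq hBR0.le
      nlinarith
    have h2 : ((4 * (|a| + |b| + 1) ^ 2 * (B : ℤ) : ℤ) : ℝ) ≤ ((X D : ℤ) : ℝ) := by
      rw [hq] at h1
      push_cast at h1 ⊢
      exact h1
    exact_mod_cast h2
  have habs1 : 1 ≤ |a| + |b| + 1 := by
    have := abs_nonneg a
    have := abs_nonneg b
    linarith
  have hXbig' : ∀ D ∈ F, 4 * (|a| + |b| + 1) * (B : ℤ) ≤ (X D : ℤ) := by
    intro D hD
    refine le_trans ?_ (hXbig D hD)
    have hBZ : (0 : ℤ) ≤ B := by positivity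
    have h1 : (|a| + |b| + 1) ≤ (|a| + |b| + 1) ^ 2 := by nlinarith
    nlinarith
  rcases F.eq_empty_or_nonempty with h0 | ⟨D₀, hD₀⟩
  · rw [h0, Finset.card_empty]
    have h1 : (0 : ℝ) ≤ g.divisors.card := Nat.cast_nonneg _
    have h2 : 0 ≤ 1 + 1 / Real.log c := by positivity
    push_cast
    positivity
  -- classes
  set t : ℤ → ℤ := fun D => tau a b m (X D₀) D₀ (w D₀) (X D) D (w D) with ht
  have htpos : ∀ D ∈ F, 0 < t D := by
    intro D hD
    exact tau_pos a b m B (X D₀) D₀ (w D₀) (X D) D (w D) hmpos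
      (by exact_mod_cast hw D₀ hD₀) (by exact_mod_cast hw D hD) (by exact_mod_cast hB1)
      (hF D₀ hD₀).1 (hF D hD).1 (hXbig D₀ hD₀) (hXbig D hD)
  have hcls : ∀ D ∈ F, ∃ r s : ℕ, 0 < r ∧ 0 < s ∧ t D = (r : ℤ) * (s : ℤ) ^ 2 ∧
      r ∣ P * k * g := by
    intro D hD
    have htD := htpos D hD
    have hM : 0 < P * k * g := by positivity
    obtain ⟨r, s, hr, hs, hrs, hdiv⟩ := sqf_class (t D).natAbs (P * k * g)
      (Int.natAbs_pos.2 htD.ne') hM (by
        intro p hp hpM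
        have h1 := parity a b m (X D₀) D₀ (w D₀) (X D) D (w D) p hp (by
          intro h2
          apply hpM
          have h3 := Int.natCast_dvd.1 h2
          rw [Int.natAbs_mul, Int.natAbs_mul] at h3
          have h4 : m.natAbs = g * k := by rw [hm]; exact Int.natAbs_natCast _
          rw [h4] at h3
          have h5 : (2 : ℤ).natAbs * (a ^ 2 - 4 * b).natAbs * (g * k) = P * k * g := by
            rw [hP, hΔdef]
            have h6 : (2 : ℤ).natAbs = 2 := rfl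
            rw [h6]
            ring
          rwa [h5] at h3) (hcop D₀ hD₀) (hcop D hD) (hqf' D₀ hD₀) (hqf' D hD) htD.ne'
        exact h1)
    refine ⟨r, s, hr, hs, ?_, hdiv⟩
    have h6 : ((t D).natAbs : ℤ) = t D := Int.natAbs_of_nonneg htD.le
    rw [← h6, hrs]
    push_cast
    ring
  choose! r s hr hs hrs hdiv using hcls
  -- the key inequality
  have hkey : ∀ D ∈ F, ∀ E ∈ F, r D = r E → D ≠ E → X D ≤ X E →
      c * Real.log (X D : ℝ) ≤ Real.log (X E : ℝ) := by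
    intro D hD E hE hre hne hle
    obtain ⟨T, hT⟩ := tau_square a b m (X D₀) D₀ (w D₀) (X D) D (w D) (X E) E (w E) (r D) (s D) (s E)
      (hqf' D₀ hD₀) (hqf' D hD) (hqf' E hE) (by exact_mod_cast (hr D hD).ne')
      (by exact_mod_cast (hs D hD).ne') (by exact_mod_cast (hs E hE).ne') (hrs D hD)
      (by rw [hre]; exact hrs E hE)
    have hgap : ((X D : ℤ)) ^ 3 ≤ 400 * b ^ 2 * (a ^ 2 - 4 * b) ^ 2 * (B : ℤ) ^ 4 * (X E : ℤ) := by
      by_contra hcon
      push Not at hcon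
      have h1 := gap a b m B (X D) D (w D) (X E) E (w E) ((h * k * u D * u E : ℕ) : ℤ) T hb hΔ0 hmpos
        (by exact_mod_cast hw D hD) (by exact_mod_cast hw E hE) (by exact_mod_cast hB1)
        (hF D hD).1 (hF E hE).1 (hXbig' D hD) (by exact_mod_cast hle) (hqf' D hD) (hqf' E hE)
        (by
          simp only [hX]
          push_cast
          ring)
        (by
          have h2 := hu D hD
          have h3 := hu E hE
          have h4 : 0 < h * k * u D * u E := by positivity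
          exact_mod_cast h4) hT (hcop D hD) (hcop E hE) hcon
      exact hne h1.2
    have hgapR : ((X D : ℝ)) ^ 3 ≤ A * (B : ℝ) ^ 4 * (X E : ℝ) := by
      have h1 : (((X D : ℤ) ^ 3 : ℤ) : ℝ)
          ≤ ((400 * b ^ 2 * (a ^ 2 - 4 * b) ^ 2 * (B : ℤ) ^ 4 * (X E : ℤ) : ℤ) : ℝ) := by
        exact_mod_cast hgap
      rw [hA, hΔdef]
      push_cast at h1 ⊢
      exact h1
    exact g5_log hδ hc₀ hApos hBR (hXlow D hD) (hXposR D hD) (hXposR E hE) hgapR (hXlogL D hD) hKL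
  have hinj : ∀ D ∈ F, ∀ E ∈ F, r D = r E → X D = X E → D = E := by
    intro D hD E hE hre hXX
    by_contra hne
    have h1 := hkey D hD E hE hre hne hXX.le
    rw [← hXX] at h1
    have h2 := hXlogL D hD
    nlinarith
  -- one class
  have hone : ∀ ρ : ℕ, ((F.filter (fun D => r D = ρ)).card : ℝ)
      ≤ (1 + 1 / Real.log c) * (1 + Real.log R) := by
    intro ρ
    have h1 : (F.filter (fun D => r D = ρ)).card = ((F.filter (fun D => r D = ρ)).image X).card := by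
      rw [Finset.card_image_of_injOn]
      intro D hD E hE hXX
      rw [Finset.mem_coe, Finset.mem_filter] at hD hE
      exact hinj D hD.1 E hE.1 (hD.2.trans hE.2.symm) hXX
    rw [h1]
    have h2 := chain ((F.filter (fun D => r D = ρ)).image X) c R hc1 hR (by
      intro x hx
      obtain ⟨D, hD, rfl⟩ := Finset.mem_image.1 hx
      have hD' := (Finset.mem_filter.1 hD).1
      refine ⟨hL1.trans (hXlogL D hD'), ?_⟩
      have h3 := Real.log_le_log (hXposR D hD') (hXup D hD')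
      rwa [Real.log_exp] at h3) (by
      intro x hx y hy hxy
      obtain ⟨D, hD, rfl⟩ := Finset.mem_image.1 hx
      obtain ⟨E, hE, rfl⟩ := Finset.mem_image.1 hy
      rw [Finset.mem_filter] at hD hE
      exact hkey D hD.1 E hE.1 (hD.2.trans hE.2.symm) (fun hDE => by
        rw [hDE] at hxy
        exact lt_irrefl _ hxy) hxy.le)
    refine h2.trans ?_
    have h4 : 0 ≤ 1 / Real.log c := by positivity
    have h5 : Real.log R / Real.log c = 1 / Real.log c * Real.log R := by ring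
    rw [h5]
    nlinarith
  have hsum : F.card = ∑ ρ ∈ (P * k * g).divisors, (F.filter (fun D => r D = ρ)).card := by
    apply Finset.card_eq_sum_card_fiberwise
    intro D hD
    rw [Finset.mem_coe] at hD ⊢
    exact Nat.mem_divisors.2 ⟨hdiv D hD, by positivity⟩
  have hkb' : k ∣ b.natAbs := Int.natCast_dvd.1 hkb
  have hcard := g5_card_div P k b.natAbs g hPpos hbnat hkb'
  calc (F.card : ℝ) = ∑ ρ ∈ (P * k * g).divisors, ((F.filter (fun D => r D = ρ)).card : ℝ) := by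
        rw [hsum]
        push_cast
        rfl
    _ ≤ ∑ ρ ∈ (P * k * g).divisors, (1 + 1 / Real.log c) * (1 + Real.log R) :=
        Finset.sum_le_sum (fun ρ _ => hone ρ)
    _ = ((P * k * g).divisors.card : ℝ) * ((1 + 1 / Real.log c) * (1 + Real.log R)) := by
        rw [Finset.sum_const, nsmul_eq_mul]
    _ ≤ (((P * b.natAbs).divisors.card : ℝ) * (g.divisors.card : ℝ))
          * ((1 + 1 / Real.log c) * (1 + Real.log R)) := by
        apply mul_le_mul_of_nonneg_right _ (by positivity)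
        exact_mod_cast hcard
    _ = _ := by ring

end TwHL
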