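import Pool.Agent.LibTwHL.M1
import Pool.Agent.LibTwHL.M3
import Pool.Agent.LibTwHL.H1

namespace TwHL

/-- the weights -/
private noncomputable def h2w (Δ : ℤ) (W p : ℕ) : ℝ :=
  if ¬ p ∣ W ∧ jacobiSym Δ p = 1 then 6 / 5 else 1

private theorem h2_nonneg (Δ : ℤ) (W p : ℕ) : 0 ≤ h2w Δ W p := by
  unfold h2w
  split_ifs <;> norm_num

private theorem h2_le (Δ : ℤ) (W p : ℕ) : h2w Δ W p ≤ 2 := by
  unfold h2w
  split_ifs <;> norm_num

private theorem h2_le' (Δ : ℤ) (W p : ℕ) :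
    h2w Δ W p ≤ 11 / 10 + 1 / 10 * (jacobiSym Δ p : ℝ) := by
  unfold h2w
  split_ifs with h
  · rw [h.2]
    norm_num
  · rcases jacobiSym.trichotomy Δ p with h1 | h1 | h1 <;> rw [h1] <;> norm_num

private theorem h2_FF (Δ : ℤ) (W n : ℕ) (hn : Squarefree n) :
    FF (h2w Δ W) n = (6 / 5 : ℝ) ^ op Δ W n := by
  unfold FF h2w op
  rw [if_pos hn, Finset.prod_ite, Finset.prod_const, Finset.prod_const_one, mul_one]

private theorem h2_FF_nonneg (Δ : ℤ) (W n : ℕ) : 0 ≤ FF (h2w Δ W) n := by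
  unfold FF
  split_ifs
  · exact Finset.prod_nonneg fun p _ => h2_nonneg Δ W p
  · exact le_rfl

private theorem h2_log : (18 / 100 : ℝ) ≤ Real.log (6 / 5) := by
  have h1 : (2 : ℝ) ^ 6 ≤ (6 / 5) ^ 23 := by norm_num
  have h2 := Real.log_le_log (by norm_num) h1
  rw [Real.log_pow, Real.log_pow] at h2
  have h3 := Real.log_two_gt_d9
  push_cast at h2
  linarith

/-- Row H2. Rankin: with `w p = 6/5` if `p ∤ W`, `J(Δ|p) = 1` and `w p = 1` otherwise,
`FF w n = (6/5)^(op Δ W n)` for squarefree `n`, so the number is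
`≤ exp(- 0.6 log(6/5) LL N) ∑ FF w n`, and by `HR`, `mertens`, `sum_chi` (ε = 1/100)
`∑_{p ≤ N} w p / p ≤ LL N + (1/5) ∑_{J = 1} 1/p + C ≤ LL N + (1/10 + 1/1000) LL N + C`
(`1_{J=1} ≤ (1 + J)/2`). `0.6 * log (6/5) > 0.1093`, so the exponent is `≤ 0.101 - 0.1093`. -/
theorem typical (Δ : ℤ) (h : ¬ IsSquare Δ) (W : ℕ) : ∃ C : ℝ, 0 < C ∧ ∀ N : ℕ, 1 ≤ N →
    (((Finset.Icc 1 N).filter
      (fun n => Squarefree n ∧ 3 / 5 * LL N < (op Δ W n : ℝ))).card : ℝ)
      ≤ C * N * Real.exp (- (1 / 200) * LL N) := by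
  obtain ⟨C1, hC1, hHR⟩ := HR
  obtain ⟨C2, hC2, hM⟩ := mertens
  obtain ⟨K, hK⟩ := sum_chi Δ h (1 / 100) (by norm_num)
  refine ⟨C1 * Real.exp (11 / 10 * C2 + 1 / 10 * K), by positivity, fun N hN => ?_⟩
  have hN' : (1 : ℝ) ≤ N := by exact_mod_cast hN
  have hl : 0 ≤ Real.log N := Real.log_nonneg hN'
  have hL : 0 ≤ LL N := Real.log_nonneg (by linarith)
  have hexp : Real.exp (LL N) = 1 + Real.log N := Real.exp_log (by linarith)
  set L : ℝ := LL N with hLdef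
  have hlog := h2_log
  have hA : (((Finset.Icc 1 N).filter
      (fun n => Squarefree n ∧ 3 / 5 * L < (op Δ W n : ℝ))).card : ℝ) ≤
      Real.exp (-(3 / 5 * Real.log (6 / 5) * L)) *
        ∑ n ∈ Finset.Icc 1 N, FF (h2w Δ W) n := by
    rw [Finset.mul_sum]
    have h1 : ∀ n ∈ (Finset.Icc 1 N).filter
        (fun n => Squarefree n ∧ 3 / 5 * L < (op Δ W n : ℝ)),
        (1 : ℝ) ≤ Real.exp (-(3 / 5 * Real.log (6 / 5) * L)) * FF (h2w Δ W) n := by
      intro n hn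
      rw [Finset.mem_filter] at hn
      rw [h2_FF Δ W n hn.2.1]
      have h2 : ((6 : ℝ) / 5) ^ op Δ W n = Real.exp ((op Δ W n : ℝ) * Real.log (6 / 5)) := by
        rw [Real.exp_nat_mul, Real.exp_log (by norm_num)]
      rw [h2, ← Real.exp_add]
      apply Real.one_le_exp
      have h3 : 0 ≤ Real.log (6 / 5) * ((op Δ W n : ℝ) - 3 / 5 * L) :=
        mul_nonneg (by linarith) (by linarith [hn.2.2])
      linarith
    calc (((Finset.Icc 1 N).filter
          (fun n => Squarefree n ∧ 3 / 5 * L < (op Δ W n : ℝ))).card : ℝ)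
        = ∑ n ∈ (Finset.Icc 1 N).filter
          (fun n => Squarefree n ∧ 3 / 5 * L < (op Δ W n : ℝ)), (1 : ℝ) := by simp
      _ ≤ ∑ n ∈ (Finset.Icc 1 N).filter
          (fun n => Squarefree n ∧ 3 / 5 * L < (op Δ W n : ℝ)),
            Real.exp (-(3 / 5 * Real.log (6 / 5) * L)) * FF (h2w Δ W) n :=
          Finset.sum_le_sum h1
      _ ≤ ∑ n ∈ Finset.Icc 1 N, Real.exp (-(3 / 5 * Real.log (6 / 5) * L)) * FF (h2w Δ W) n :=
          Finset.sum_le_sum_of_subset_of_nonneg (Finset.filter_subset _ _)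
            (fun n _ _ => mul_nonneg (Real.exp_pos _).le (h2_FF_nonneg Δ W n))
  have hB := hHR (h2w Δ W) (h2_nonneg Δ W) (h2_le Δ W) N hN
  have hC : ∑ p ∈ PP N, h2w Δ W p / p ≤ 11 / 10 * (L + C2) + 1 / 10 * (1 / 100 * L + K) := by
    have h1 : ∀ p ∈ PP N, h2w Δ W p / p ≤
        11 / 10 * (1 / (p : ℝ)) + 1 / 10 * ((jacobiSym Δ p : ℝ) / p) := by
      intro p hp
      have hp0 : (0 : ℝ) ≤ (p : ℝ) := Nat.cast_nonneg p
      refine (div_le_div_of_nonneg_right (h2_le' Δ W p) hp0).trans (le_of_eq ?_)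
      ring
    refine (Finset.sum_le_sum h1).trans ?_
    rw [Finset.sum_add_distrib, ← Finset.mul_sum, ← Finset.mul_sum]
    have h2 := (abs_le.1 (hM N hN)).2
    have h3 := (abs_le.1 (hK N hN)).2
    linarith
  have hD : (N : ℝ) / (1 + Real.log N) = N * Real.exp (-L) := by
    rw [← hexp, Real.exp_neg]
    rfl
  rw [hD] at hB
  have hE : ∑ n ∈ Finset.Icc 1 N, FF (h2w Δ W) n ≤ C1 * (N * Real.exp (-L)) *
      Real.exp (11 / 10 * (L + C2) + 1 / 10 * (1 / 100 * L + K)) :=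
    hB.trans (mul_le_mul_of_nonneg_left (Real.exp_le_exp.2 hC) (by positivity))
  refine hA.trans ((mul_le_mul_of_nonneg_left hE (Real.exp_pos _).le).trans ?_)
  have hF : Real.exp (-(3 / 5 * Real.log (6 / 5) * L)) * (C1 * (N * Real.exp (-L)) *
      Real.exp (11 / 10 * (L + C2) + 1 / 10 * (1 / 100 * L + K))) =
      C1 * N * Real.exp (-(3 / 5 * Real.log (6 / 5) * L) + (-L) +
        (11 / 10 * (L + C2) + 1 / 10 * (1 / 100 * L + K))) := by
    rw [Real.exp_add (-(3 / 5 * Real.log (6 / 5) * L) + (-L))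
      (11 / 10 * (L + C2) + 1 / 10 * (1 / 100 * L + K)),
      Real.exp_add (-(3 / 5 * Real.log (6 / 5) * L)) (-L)]
    generalize Real.exp (-(3 / 5 * Real.log (6 / 5) * L)) = e1
    generalize Real.exp (11 / 10 * (L + C2) + 1 / 10 * (1 / 100 * L + K)) = e2
    ring
  have hG : C1 * Real.exp (11 / 10 * C2 + 1 / 10 * K) * N * Real.exp (- (1 / 200) * L) =
      C1 * N * Real.exp ((11 / 10 * C2 + 1 / 10 * K) + - (1 / 200) * L) := by
    rw [Real.exp_add (11 / 10 * C2 + 1 / 10 * K) (- (1 / 200) * L)]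
    generalize Real.exp (11 / 10 * C2 + 1 / 10 * K) = e1
    generalize Real.exp (- (1 / 200) * L) = e2
    ring
  rw [hF, hG]
  apply mul_le_mul_of_nonneg_left _ (by positivity)
  apply Real.exp_le_exp.2
  have h5 : 0 ≤ (Real.log (6 / 5) - 18 / 100) * L := mul_nonneg (by linarith) hL
  nlinarith

end TwHL
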