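import Pool.Agent.LibTwHL.Defs2
import Pool.Agent.LibTwHL.M1
import Pool.Agent.LibTwHL.M3
import Pool.Agent.LibTwHL.H1

namespace TwHL

private lemma K1a_tri (Δ : ℤ) (p : ℕ) :
    (jacobiSym Δ p : ℝ) = 0 ∨ (jacobiSym Δ p : ℝ) = 1 ∨ (jacobiSym Δ p : ℝ) = -1 := by
  rcases jacobiSym.trichotomy Δ p with h | h | h
  · left; rw [h]; norm_num
  · right; left; rw [h]; norm_num
  · right; right; rw [h]; norm_num

private lemma K1a_nonneg (Δ : ℤ) (W p : ℕ) : 0 ≤ wg Δ W p := by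
  unfold wg
  split_ifs <;> norm_num

private lemma K1a_le_two (Δ : ℤ) (W p : ℕ) : wg Δ W p ≤ 2 := by
  unfold wg
  split_ifs <;> norm_num

private lemma K1a_bound (Δ : ℤ) (W p : ℕ) :
    wg Δ W p ≤ 2 / 5 + 2 / 5 * (jacobiSym Δ p : ℝ) + (if p ∣ W then 1 else 0) := by
  unfold wg
  by_cases h1 : p ∣ W
  · rw [if_pos h1, if_pos h1]
    rcases K1a_tri Δ p with h | h | h <;> rw [h] <;> norm_num
  · rw [if_neg h1, if_neg h1]
    by_cases h2 : jacobiSym Δ p = 1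
    · rw [if_pos h2, h2]
      norm_num
    · rw [if_neg h2]
      rcases K1a_tri Δ p with h | h | h <;> rw [h] <;> norm_num

private lemma K1a_div (W x : ℕ) (hW : W ≠ 0) :
    ∑ p ∈ PP x, (if p ∣ W then (1 : ℝ) else 0) / p ≤ (W.primeFactors.card : ℝ) := by
  have h1 : ∑ p ∈ PP x, (if p ∣ W then (1 : ℝ) else 0) / p
      ≤ ∑ p ∈ PP x, (if p ∣ W then (1 : ℝ) else 0) := by
    refine Finset.sum_le_sum fun p hp => ?_
    unfold PP at hp
    rw [Finset.mem_filter] at hp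
    have hp1 : (1 : ℝ) ≤ (p : ℝ) := by exact_mod_cast hp.2.one_lt.le
    split_ifs with h
    · rw [div_le_one (by linarith)]
      exact hp1
    · simp
  refine h1.trans ?_
  rw [Finset.sum_ite, Finset.sum_const, Finset.sum_const_zero, add_zero, nsmul_eq_mul, mul_one]
  have h2 : (PP x).filter (fun p => p ∣ W) ⊆ W.primeFactors := by
    intro p hp
    rw [Finset.mem_filter] at hp
    unfold PP at hp
    rw [Finset.mem_filter] at hp
    exact Nat.mem_primeFactors.2 ⟨hp.1.2, hp.2, hW⟩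
  exact_mod_cast Finset.card_le_card h2

/-- Row K1. `HR`; `wg ≤ (4/5)(1 + J(Δ|p))/2 + 1_{p | W}`, `mertens`, `sum_chi` with small ε:
`∑ wg p / p ≤ 0.4 LL x + 0.0001 LL x + C`, and `x/(1 + log x) = x exp (- LL x)`. -/
theorem sum_wg (Δ : ℤ) (h : ¬ IsSquare Δ) (W : ℕ) (hW : W ≠ 0) : ∃ C : ℝ, 0 < C ∧
    ∀ x : ℕ, 1 ≤ x → ∑ n ∈ Finset.Icc 1 x, FF (wg Δ W) n
      ≤ C * x * Real.exp (- (599 / 1000) * LL x) := by
  obtain ⟨C₀, hC₀, hHR⟩ := HR
  obtain ⟨C₁, hC₁, hM⟩ := mertens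
  obtain ⟨K, hK⟩ := sum_chi Δ h (1 / 400) (by norm_num)
  refine ⟨C₀ * Real.exp (2 / 5 * C₁ + 2 / 5 * K + (W.primeFactors.card : ℝ)), by positivity, ?_⟩
  intro x hx
  have hx1 : (1 : ℝ) ≤ (x : ℝ) := by exact_mod_cast hx
  have hlog : 0 ≤ Real.log x := Real.log_nonneg hx1
  have hsum : ∑ p ∈ PP x, wg Δ W p / p
      ≤ 401 / 1000 * LL x + (2 / 5 * C₁ + 2 / 5 * K + (W.primeFactors.card : ℝ)) := by
    have h1 : ∑ p ∈ PP x, wg Δ W p / p ≤ ∑ p ∈ PP x,
        (2 / 5 * (1 / (p : ℝ)) + 2 / 5 * ((jacobiSym Δ p : ℝ) / p) + (if p ∣ W then (1 : ℝ) else 0) / p) := by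
      refine Finset.sum_le_sum fun p _ => ?_
      calc wg Δ W p / p ≤ (2 / 5 + 2 / 5 * (jacobiSym Δ p : ℝ) + (if p ∣ W then 1 else 0)) / p :=
            div_le_div_of_nonneg_right (K1a_bound Δ W p) (Nat.cast_nonneg p)
        _ = _ := by ring
    rw [Finset.sum_add_distrib, Finset.sum_add_distrib, ← Finset.mul_sum, ← Finset.mul_sum] at h1
    have h2 := (abs_le.1 (hM x hx)).2
    have h3 := (abs_le.1 (hK x hx)).2
    have h4 := K1a_div W x hW
    linarith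
  have h5 := hHR (wg Δ W) (K1a_nonneg Δ W) (K1a_le_two Δ W) x hx
  have hLL : Real.exp (LL x) = 1 + Real.log x := by
    unfold LL
    exact Real.exp_log (by linarith)
  have h6 : (x : ℝ) / (1 + Real.log x) = x * Real.exp (- LL x) := by
    rw [Real.exp_neg, hLL, div_eq_mul_inv]
  rw [h6] at h5
  refine h5.trans ?_
  calc C₀ * (x * Real.exp (- LL x)) * Real.exp (∑ p ∈ PP x, wg Δ W p / p)
      ≤ C₀ * (x * Real.exp (- LL x)) * Real.exp (401 / 1000 * LL x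
        + (2 / 5 * C₁ + 2 / 5 * K + (W.primeFactors.card : ℝ))) :=
        mul_le_mul_of_nonneg_left (Real.exp_le_exp.2 hsum) (by positivity)
    _ = C₀ * Real.exp (2 / 5 * C₁ + 2 / 5 * K + (W.primeFactors.card : ℝ)) * x
        * (Real.exp (- LL x) * Real.exp (401 / 1000 * LL x)) := by
        rw [Real.exp_add (401 / 1000 * LL x)]
        ring
    _ = C₀ * Real.exp (2 / 5 * C₁ + 2 / 5 * K + (W.primeFactors.card : ℝ)) * x
        * Real.exp (- (599 / 1000) * LL x) := by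
        rw [← Real.exp_add]
        congr 2
        ring

end TwHL
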