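import Pool.Agent.LibTwHL.Defs2

namespace TwHL

private theorem K4_prod (s : Finset ℕ) (P : ℕ → Prop) [DecidablePred P] (f : ℕ → ℝ)
    (hf : ∀ p ∈ s, f p = if P p then 4 / 5 else 1) :
    ∏ p ∈ s, f p = (4 / 5 : ℝ) ^ (s.filter P).card := by
  rw [Finset.prod_congr rfl hf, Finset.prod_ite, Finset.prod_const, Finset.prod_const_one, mul_one]

/-- Row K4. `FF (wh Δ κ W) h = (4/5)^A`, `FF (wg Δ W) g = (4/5)^B` with `A`, `B` the numbers of
primes `p ∤ W`, `J(Δ|p) = 1` dividing `h`, `g` (by the hypotheses no factor is 0);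
`A + B ≤ op Δ W n ≤ 3/5 LL N`. -/
theorem weight (Δ κ : ℤ) (W n h g d N : ℕ) (hn : n = h * g * d) (hsq : Squarefree n)
    (hop : (op Δ W n : ℝ) ≤ 3 / 5 * LL N)
    (hA : ∀ p : ℕ, p.Prime → p ∣ h → ¬ p ∣ W → jacobiSym κ p = 1)
    (hB : ∀ p : ℕ, p.Prime → p ∣ g → ¬ p ∣ W → jacobiSym Δ p = 1) :
    1 ≤ Real.exp (3 / 5 * Real.log (5 / 4) * LL N) * (FF (wh Δ κ W) h * FF (wg Δ W) g) := by
  have hn0 : n ≠ 0 := hsq.ne_zero
  have hh : h ∣ n := ⟨g * d, by rw [hn]; ring⟩
  have hg : g ∣ n := ⟨h * d, by rw [hn]; ring⟩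
  have hhg : h * g ∣ n := ⟨d, hn⟩
  have hsh : Squarefree h := hsq.squarefree_of_dvd hh
  have hsg : Squarefree g := hsq.squarefree_of_dvd hg
  have hcop : Nat.Coprime h g := Nat.coprime_of_squarefree_mul (hsq.squarefree_of_dvd hhg)
  set P : ℕ → Prop := fun p => ¬ p ∣ W ∧ jacobiSym Δ p = 1 with hP
  have e1 : FF (wh Δ κ W) h = (4 / 5 : ℝ) ^ (h.primeFactors.filter P).card := by
    unfold FF
    rw [if_pos hsh]
    apply K4_prod
    intro p hp
    have hp1 := Nat.prime_of_mem_primeFactors hp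
    have hp2 := Nat.dvd_of_mem_primeFactors hp
    unfold wh
    by_cases hW : p ∣ W
    · simp [hW, hP]
    · by_cases hJ : jacobiSym Δ p = 1
      · simp [hW, hP, hJ, hA p hp1 hp2 hW]
      · simp [hW, hP, hJ, hA p hp1 hp2 hW]
  have e2 : FF (wg Δ W) g = (4 / 5 : ℝ) ^ (g.primeFactors.filter P).card := by
    unfold FF
    rw [if_pos hsg]
    apply K4_prod
    intro p hp
    have hp1 := Nat.prime_of_mem_primeFactors hp
    have hp2 := Nat.dvd_of_mem_primeFactors hp
    unfold wg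
    by_cases hW : p ∣ W
    · simp [hW, hP]
    · simp [hW, hP, hB p hp1 hp2 hW]
  have hcard : (h.primeFactors.filter P).card + (g.primeFactors.filter P).card ≤ op Δ W n := by
    unfold op
    rw [← Finset.card_union_of_disjoint]
    · apply Finset.card_le_card
      intro p hp
      rcases Finset.mem_union.1 hp with h1 | h1
      · obtain ⟨h2, h3⟩ := Finset.mem_filter.1 h1
        exact Finset.mem_filter.2 ⟨Nat.primeFactors_mono hh hn0 h2, h3⟩
      · obtain ⟨h2, h3⟩ := Finset.mem_filter.1 h1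
        exact Finset.mem_filter.2 ⟨Nat.primeFactors_mono hg hn0 h2, h3⟩
    · exact Finset.disjoint_filter_filter hcop.disjoint_primeFactors
  have hcard' : (((h.primeFactors.filter P).card + (g.primeFactors.filter P).card : ℕ) : ℝ) ≤
      3 / 5 * LL N := (by exact_mod_cast hcard : _ ≤ (op Δ W n : ℝ)).trans hop
  rw [e1, e2, ← pow_add]
  set k := (h.primeFactors.filter P).card + (g.primeFactors.filter P).card with hk
  have e3 : (4 / 5 : ℝ) ^ k = Real.exp (-(Real.log (5 / 4) * k)) := by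
    rw [← Real.rpow_natCast, Real.rpow_def_of_pos (by norm_num)]
    congr 1
    have : Real.log (4 / 5) = -Real.log (5 / 4) := by
      rw [← Real.log_inv]
      norm_num
    rw [this]
    ring
  rw [e3, ← Real.exp_add]
  apply Real.one_le_exp
  have h5 : 0 < Real.log (5 / 4) := Real.log_pos (by norm_num)
  nlinarith

end TwHL
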