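import Pool.Agent.LibTwHL.M1

namespace TwHL

private lemma pp_split (f : ℕ → ℝ) {a b : ℕ} (hab : a ≤ b) :
    ∑ p ∈ PP b, f p = ∑ p ∈ PP a, f p + ∑ p ∈ (Finset.Ioc a b).filter Nat.Prime, f p := by
  rw [← Finset.sum_union]
  · apply Finset.sum_congr _ (fun _ _ => rfl)
    ext p
    simp only [PP, Finset.mem_union, Finset.mem_filter, Finset.mem_Icc, Finset.mem_Ioc]
    constructor
    · rintro ⟨⟨h1, h2⟩, h3⟩
      by_cases h4 : p ≤ a
      · exact Or.inl ⟨⟨h1, h4⟩, h3⟩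
      · exact Or.inr ⟨⟨by omega, h2⟩, h3⟩
    · rintro (⟨⟨h1, h2⟩, h3⟩ | ⟨⟨h1, h2⟩, h3⟩)
      · exact ⟨⟨h1, by omega⟩, h3⟩
      · exact ⟨⟨h3.one_lt.le, h2⟩, h3⟩
  · rw [Finset.disjoint_left]
    intro p hp hq
    simp only [PP, Finset.mem_filter, Finset.mem_Icc, Finset.mem_Ioc] at hp hq
    omega

private lemma pb_eq (f : ℕ → ℝ) (j : ℕ) :
    ∑ p ∈ PB j, f p = ∑ p ∈ PP (2 ^ (j + 1)), f p - ∑ p ∈ PP (2 ^ j), f p := by
  have h := pp_split f (Nat.pow_le_pow_right (n := 2) (by norm_num) (Nat.le_succ j))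
  rw [PB]
  simp only [Nat.succ_eq_add_one] at h
  linarith

private lemma pb_block (j z : ℕ) (hz : z < 2 ^ (j + 1)) :
    ∑ p ∈ (Finset.Ioc (2 ^ j) z).filter Nat.Prime, 1 / (p : ℝ) ≤ 1 := by
  have h1 : ∀ p ∈ (Finset.Ioc (2 ^ j) z).filter Nat.Prime, 1 / (p : ℝ) ≤ 1 / 2 ^ j := by
    intro p hp
    simp only [Finset.mem_filter, Finset.mem_Ioc] at hp
    apply one_div_le_one_div_of_le (by positivity)
    exact_mod_cast hp.1.1.le
  have h2 := Finset.sum_le_card_nsmul _ _ _ h1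
  have h3 : ((Finset.Ioc (2 ^ j) z).filter Nat.Prime).card ≤ 2 ^ j := by
    refine (Finset.card_filter_le _ _).trans ?_
    rw [Nat.card_Ioc]
    rw [pow_succ] at hz
    omega
  have h4 : (((Finset.Ioc (2 ^ j) z).filter Nat.Prime).card : ℝ) ≤ 2 ^ j := by exact_mod_cast h3
  rw [nsmul_eq_mul] at h2
  refine h2.trans ?_
  have h5 : (0 : ℝ) < 2 ^ j := by positivity
  rw [mul_one_div, div_le_one h5]
  exact h4

private lemma abs_term (s : ℕ → ℝ) (hs : ∀ p, |s p| ≤ 1) (g p : ℕ) :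
    |s p * (jacobiSym (g : ℤ) p : ℝ) / p| ≤ 1 / (p : ℝ) := by
  rw [abs_div, abs_mul, Nat.abs_cast]
  apply div_le_div_of_nonneg_right _ (Nat.cast_nonneg p)
  have h1 : |((jacobiSym (g : ℤ) p : ℤ) : ℝ)| ≤ 1 := by
    rcases jacobiSym.trichotomy (g : ℤ) p with h | h | h <;> rw [h] <;> norm_num
  calc |s p| * |((jacobiSym (g : ℤ) p : ℤ) : ℝ)| ≤ 1 * 1 :=
        mul_le_mul (hs p) h1 (abs_nonneg _) zero_le_one
    _ = 1 := one_mul 1

private lemma abs_sum (s : ℕ → ℝ) (hs : ∀ p, |s p| ≤ 1) (g : ℕ) (A : Finset ℕ) :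
    |∑ p ∈ A, s p * (jacobiSym (g : ℤ) p : ℝ) / p| ≤ ∑ p ∈ A, 1 / (p : ℝ) :=
  (Finset.abs_sum_le_sum_abs _ _).trans (Finset.sum_le_sum (fun p _ => abs_term s hs g p))

private lemma LL_two_pow (j : ℕ) : LL (2 ^ j) = Real.log (1 + j * Real.log 2) := by
  rw [LL]
  push_cast
  rw [Real.log_pow]

private lemma log2_pos : (0 : ℝ) < Real.log 2 := Real.log_pos (by norm_num)

private lemma log2_lt : Real.log 2 < 1 := by
  have := Real.log_two_lt_d9
  linarith

/-- the bad blocks -/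
private lemma bad_sum {C : ℝ} (hM : ∀ x : ℕ, 1 ≤ x → |∑ p ∈ PP x, 1 / (p : ℝ) - LL x| ≤ C)
    (hC : 0 < C) (Y : ℕ) (hY : 1 ≤ Y) (B : Finset ℕ)
    (hB : ∀ j ∈ B, Y < 16 * 2 ^ (4 * j) ∧ 2 ^ j < Y ^ 3) :
    ∑ j ∈ B, ∑ p ∈ PB j, 1 / (p : ℝ) ≤ Real.log 14 + 2 * C := by
  rcases B.eq_empty_or_nonempty with h0 | hne
  · rw [h0, Finset.sum_empty]
    have := Real.log_pos (show (1 : ℝ) < 14 by norm_num)
    linarith
  · set j1 := B.min' hne with hj1
    set j2 := B.max' hne with hj2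
    have h12 : j1 ≤ j2 := B.min'_le_max' hne
    have hsub : B ⊆ Finset.Ico j1 (j2 + 1) := by
      intro j hj
      rw [Finset.mem_Ico]
      exact ⟨B.min'_le j hj, Nat.lt_succ_of_le (B.le_max' j hj)⟩
    have hb1 := hB j1 (B.min'_mem hne)
    have hb2 := hB j2 (B.max'_mem hne)
    have h1 : ∑ j ∈ B, ∑ p ∈ PB j, 1 / (p : ℝ)
        ≤ ∑ j ∈ Finset.Ico j1 (j2 + 1), ∑ p ∈ PB j, 1 / (p : ℝ) :=
      Finset.sum_le_sum_of_subset_of_nonneg hsub
        (fun j _ _ => Finset.sum_nonneg (fun p _ => by positivity))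
    have h2 : ∑ j ∈ Finset.Ico j1 (j2 + 1), ∑ p ∈ PB j, 1 / (p : ℝ)
        = ∑ p ∈ PP (2 ^ (j2 + 1)), 1 / (p : ℝ) - ∑ p ∈ PP (2 ^ j1), 1 / (p : ℝ) := by
      rw [← Finset.sum_Ico_sub (fun j => ∑ p ∈ PP (2 ^ j), 1 / (p : ℝ)) (by omega : j1 ≤ j2 + 1)]
      apply Finset.sum_congr rfl
      intro j _
      exact pb_eq _ j
    have h3 := abs_le.1 (hM (2 ^ (j2 + 1)) Nat.one_le_two_pow)
    have h4 := abs_le.1 (hM (2 ^ j1) Nat.one_le_two_pow)
    rw [LL_two_pow] at h3 h4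
    push_cast at h3
    have hl := log2_pos
    have hl1 := log2_lt
    have hYpos : (0 : ℝ) < Y := by exact_mod_cast hY
    -- log Y < 4 (j1 + 1) log 2
    have h5 : Real.log Y < 4 * (j1 + 1) * Real.log 2 := by
      have h5a : (Y : ℝ) < 2 ^ (4 * (j1 + 1)) := by
        have : Y < 2 ^ (4 * (j1 + 1)) := by
          refine hb1.1.trans_eq ?_
          rw [mul_add, pow_add]
          ring
        exact_mod_cast this
      have h5b := Real.log_lt_log hYpos h5a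
      rw [Real.log_pow] at h5b
      push_cast at h5b
      linarith
    have h6 : (j2 : ℝ) * Real.log 2 < 3 * Real.log Y := by
      have h6a : (2 : ℝ) ^ j2 < (Y : ℝ) ^ 3 := by exact_mod_cast hb2.2
      have h6b := Real.log_lt_log (by positivity) h6a
      rw [Real.log_pow, Real.log_pow] at h6b
      push_cast at h6b
      exact h6b
    have hj1n : (0 : ℝ) ≤ (j1 : ℝ) * Real.log 2 := by positivity
    have hj2n : (0 : ℝ) ≤ (j2 : ℝ) * Real.log 2 := by positivity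
    have h7 : 1 + ((j2 : ℝ) + 1) * Real.log 2 ≤ 14 * (1 + (j1 : ℝ) * Real.log 2) := by
      nlinarith
    have h8 : Real.log (1 + ((j2 : ℝ) + 1) * Real.log 2)
        ≤ Real.log 14 + Real.log (1 + (j1 : ℝ) * Real.log 2) := by
      rw [← Real.log_mul (by norm_num) (by positivity)]
      exact Real.log_le_log (by positivity) h7
    rw [h2] at h1
    linarith [h3.2, h4.1]

/-- Row L7. Split the primes `p ≤ z` into `p ≤ 2^j0` (sum of `1/p` is `≤ log (1 + j0) + C` by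
`mertens`), the full blocks `PB j` with `j ≥ j0`, `2^(j+1) ≤ z` and `16 * 2^(4j) ≤ Y` or
`Y^3 ≤ 2^j` (each `≤ ε / j`; `∑_{j ≤ J} 1/j ≤ 1 + log J ≤ 1 + log (1+J)`), the full blocks with
`16 * 2^(4j) > Y` and `2^j < Y^3` (all primes in `(Y^(1/4)/2, 2 Y^3]`: sum of `1/p` bounded by an
absolute constant by `mertens`), and the last incomplete block (sum of `1/p` `≤ 1` as there are
at most `2^j` integers in it). `Y ≥ 1`. -/
theorem good_sum : ∃ C : ℝ, 0 < C ∧ ∀ ε : ℝ, 0 < ε → ∀ s : ℕ → ℝ, (∀ p, |s p| ≤ 1) →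
    ∀ j₀ J Y g : ℕ, 1 ≤ j₀ → 1 ≤ Y → Y < g → g ≤ 2 * Y → Squarefree g → g ∉ Exc s ε j₀ J Y →
    ∀ z : ℕ, 1 ≤ z → z ≤ 2 ^ J →
    |∑ p ∈ PP z, s p * (jacobiSym (g : ℤ) p : ℝ) / p|
      ≤ Real.log (1 + j₀) + ε * (1 + Real.log (1 + J)) + C := by
  classical
  obtain ⟨C, hC, hM⟩ := mertens
  have hl14 := Real.log_pos (show (1 : ℝ) < 14 by norm_num)
  refine ⟨3 * C + 1 + Real.log 14, by positivity, ?_⟩
  intro ε hε s hs j₀ J Y g hj₀ hY hYg hg2 hsq hexc z hz hzJ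
  have hl := log2_pos
  have hl1 := log2_lt
  set a : ℕ → ℝ := fun p => s p * (jacobiSym (g : ℤ) p : ℝ) / p with ha
  have hlogJ : 0 ≤ Real.log (1 + J) := Real.log_nonneg (by
    have : (0 : ℝ) ≤ J := Nat.cast_nonneg J
    linarith)
  -- the initial segment
  have hinit : ∑ p ∈ PP (2 ^ j₀), 1 / (p : ℝ) ≤ Real.log (1 + j₀) + C := by
    have h1 := (abs_le.1 (hM (2 ^ j₀) Nat.one_le_two_pow)).2
    rw [LL_two_pow] at h1
    have h2 : Real.log (1 + j₀ * Real.log 2) ≤ Real.log (1 + j₀) := by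
      apply Real.log_le_log (by positivity)
      have : (j₀ : ℝ) * Real.log 2 ≤ j₀ * 1 := mul_le_mul_of_nonneg_left hl1.le (Nat.cast_nonneg _)
      linarith
    linarith
  by_cases hcase : z ≤ 2 ^ j₀
  · have h1 := abs_sum s hs g (PP z)
    have h2 := pp_split (fun p => 1 / (p : ℝ)) hcase
    have h3 : 0 ≤ ∑ p ∈ (Finset.Ioc z (2 ^ j₀)).filter Nat.Prime, 1 / (p : ℝ) :=
      Finset.sum_nonneg (fun p _ => by positivity)
    have h4 : 0 ≤ ε * (1 + Real.log (1 + J)) := by positivity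
    linarith
  · push Not at hcase
    set J' := Nat.log 2 z with hJ'
    have hz0 : z ≠ 0 := by omega
    have hJz : 2 ^ J' ≤ z := Nat.pow_log_le_self 2 hz0
    have hzJ' : z < 2 ^ (J' + 1) := Nat.lt_pow_succ_log_self (by norm_num) z
    have hjJ' : j₀ ≤ J' := by
      have h1 : 2 ^ j₀ < 2 ^ (J' + 1) := hcase.trans hzJ'
      have h2 := (Nat.pow_lt_pow_iff_right (by norm_num : 1 < 2)).1 h1
      omega
    have hJJ' : J' ≤ J := (Nat.pow_le_pow_iff_right (by norm_num : 1 < 2)).1 (hJz.trans hzJ)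
    -- decomposition
    have hdec : ∑ p ∈ PP z, a p = ∑ p ∈ PP (2 ^ j₀), a p
        + ∑ j ∈ Finset.Ico j₀ J', ∑ p ∈ PB j, a p
        + ∑ p ∈ (Finset.Ioc (2 ^ J') z).filter Nat.Prime, a p := by
      have h1 := pp_split a hJz
      have h2 : ∑ j ∈ Finset.Ico j₀ J', ∑ p ∈ PB j, a p
          = ∑ p ∈ PP (2 ^ J'), a p - ∑ p ∈ PP (2 ^ j₀), a p := by
        rw [← Finset.sum_Ico_sub (fun j => ∑ p ∈ PP (2 ^ j), a p) hjJ']
        apply Finset.sum_congr rfl
        intro j _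
        exact pb_eq a j
      rw [h1, h2]
      ring
    -- good and bad blocks
    set P : ℕ → Prop := fun j => 16 * 2 ^ (4 * j) ≤ Y ∨ Y ^ 3 ≤ 2 ^ j with hP
    have hsplit := Finset.sum_filter_add_sum_filter_not (Finset.Ico j₀ J') P
      (fun j => ∑ p ∈ PB j, a p)
    have hgood : |∑ j ∈ (Finset.Ico j₀ J').filter P, ∑ p ∈ PB j, a p|
        ≤ ε * (1 + Real.log (1 + J)) := by
      have h1 : ∀ j ∈ (Finset.Ico j₀ J').filter P, |∑ p ∈ PB j, a p| ≤ ε * (j : ℝ)⁻¹ := by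
        intro j hj
        rw [Finset.mem_filter, Finset.mem_Ico] at hj
        by_contra hcon
        push Not at hcon
        apply hexc
        rw [Exc, Finset.mem_filter, Finset.mem_Ioc]
        refine ⟨⟨hYg, hg2⟩, hsq, j, Finset.mem_Icc.2 ⟨hj.1.1, by omega⟩, hj.2, ?_⟩
        rw [div_eq_mul_inv, SS]
        exact hcon
      refine (Finset.abs_sum_le_sum_abs _ _).trans ((Finset.sum_le_sum h1).trans ?_)
      rw [← Finset.mul_sum]
      apply mul_le_mul_of_nonneg_left _ hε.le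
      have h2 : ∑ j ∈ (Finset.Ico j₀ J').filter P, (j : ℝ)⁻¹ ≤ ∑ j ∈ Finset.Icc 1 J, (j : ℝ)⁻¹ := by
        apply Finset.sum_le_sum_of_subset_of_nonneg
        · intro j hj
          rw [Finset.mem_filter, Finset.mem_Ico] at hj
          rw [Finset.mem_Icc]
          omega
        · intro j _ _
          positivity
      have h3 := harmonic_le_one_add_log J
      rw [harmonic_eq_sum_Icc] at h3
      push_cast at h3
      have h4 : Real.log J ≤ Real.log (1 + J) := by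
        rcases Nat.eq_zero_or_pos J with h0 | h0
        · rw [h0]
          simp
        · exact Real.log_le_log (by exact_mod_cast h0) (by linarith)
      linarith
    have hbad : |∑ j ∈ (Finset.Ico j₀ J').filter (fun j => ¬ P j), ∑ p ∈ PB j, a p|
        ≤ Real.log 14 + 2 * C := by
      refine (Finset.abs_sum_le_sum_abs _ _).trans ((Finset.sum_le_sum
        (fun j _ => abs_sum s hs g (PB j))).trans ?_)
      apply bad_sum hM hC Y hY
      intro j hj
      rw [Finset.mem_filter] at hj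
      have h1 := hj.2
      simp only [hP, not_or, not_le] at h1
      exact h1
    have hlast : |∑ p ∈ (Finset.Ioc (2 ^ J') z).filter Nat.Prime, a p| ≤ 1 :=
      (abs_sum s hs g _).trans (pb_block J' z hzJ')
    have hfirst : |∑ p ∈ PP (2 ^ j₀), a p| ≤ Real.log (1 + j₀) + C :=
      (abs_sum s hs g _).trans hinit
    have e1 := abs_le.1 hgood
    have e2 := abs_le.1 hbad
    have e3 := abs_le.1 hlast
    have e4 := abs_le.1 hfirst
    rw [hdec, ← hsplit, abs_le]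
    constructor
    · linarith [e1.1, e2.1, e3.1, e4.1]
    · linarith [e1.2, e2.2, e3.2, e4.2]

end TwHL
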