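import Pool.Agent.LibTwHL.Defs2
import Pool.Agent.LibTwHL.L7

namespace TwHL

private lemma K7a_abs (a : ℤ) (p : ℕ) : |(jacobiSym a p : ℝ)| ≤ 1 := by
  rcases jacobiSym.trichotomy a p with h | h | h <;>
  · rw [h]; norm_num

private lemma K7a_num (C : ℝ) (hC : 0 < C) (N : ℕ)
    (hN : ⌈Real.exp (Real.exp (1600 * (C + 1 + Real.log 160000)))⌉₊ ≤ N) :
    1 ≤ ⌈20 * LL N⌉₊ ∧ Real.log (1 + (⌈20 * LL N⌉₊ : ℕ))
      + 1 / 4000 * (1 + Real.log (1 + ((Nat.log 2 N + 1 : ℕ) : ℝ))) + C ≤ 1 / 1000 * LL N := by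
  have hl : 0 < Real.log 160000 := Real.log_pos (by norm_num)
  set T : ℝ := 1600 * (C + 1 + Real.log 160000) with hT
  have hT0 : 0 < T := by positivity
  have h1 : Real.exp (Real.exp T) ≤ N := (Nat.le_ceil _).trans (by exact_mod_cast hN)
  have hNpos : (0 : ℝ) < N := (Real.exp_pos _).trans_le h1
  have h2 : Real.exp T ≤ Real.log N := by
    rw [← Real.log_exp (Real.exp T)]
    exact Real.log_le_log (Real.exp_pos _) h1
  have hlogN : 0 < Real.log N := (Real.exp_pos _).trans_le h2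
  have h3 : T ≤ LL N := by
    unfold LL
    rw [← Real.log_exp T]
    exact Real.log_le_log (Real.exp_pos _) (by linarith)
  have hLpos : 0 < LL N := hT0.trans_le h3
  refine ⟨Nat.one_le_iff_ne_zero.2 (Nat.ceil_pos.2 (by positivity)).ne', ?_⟩
  have h4 : ((⌈20 * LL N⌉₊ : ℕ) : ℝ) ≤ 20 * LL N + 1 := (Nat.ceil_lt_add_one (by positivity)).le
  have h5 : Real.log (1 + (⌈20 * LL N⌉₊ : ℕ)) ≤ LL N / 8000 + 2 / 160000 + Real.log 160000 := by
    have h6 : (0 : ℝ) < 1 + (⌈20 * LL N⌉₊ : ℕ) := by positivity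
    have h7 : Real.log ((1 + (⌈20 * LL N⌉₊ : ℕ)) / 160000)
        ≤ (1 + (⌈20 * LL N⌉₊ : ℕ)) / 160000 - 1 :=
      Real.log_le_sub_one_of_pos (by positivity)
    rw [Real.log_div h6.ne' (by norm_num)] at h7
    have h8 : ((1 : ℝ) + (⌈20 * LL N⌉₊ : ℕ)) / 160000 ≤ (2 + 20 * LL N) / 160000 :=
      div_le_div_of_nonneg_right (by linarith) (by norm_num)
    have h9 : (2 + 20 * LL N) / 160000 = LL N / 8000 + 2 / 160000 := by ring
    linarith
  have hNat : N ≠ 0 := by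
    rintro rfl
    simp at hNpos
  have h10 : ((Nat.log 2 N : ℕ) : ℝ) * Real.log 2 ≤ Real.log N := by
    have h11 : (2 : ℝ) ^ (Nat.log 2 N) ≤ N := by exact_mod_cast Nat.pow_log_le_self 2 hNat
    have h12 := Real.log_le_log (by positivity) h11
    rwa [Real.log_pow] at h12
  have hl2 : (0.6931471803 : ℝ) < Real.log 2 := Real.log_two_gt_d9
  have h13 : ((Nat.log 2 N : ℕ) : ℝ) ≤ 2 * Real.log N := by
    have h14 : (0 : ℝ) ≤ (Nat.log 2 N : ℕ) := Nat.cast_nonneg _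
    nlinarith
  have h15 : Real.log (1 + ((Nat.log 2 N + 1 : ℕ) : ℝ)) ≤ 1 + LL N := by
    have h16 : 1 + ((Nat.log 2 N + 1 : ℕ) : ℝ) ≤ 2 * (1 + Real.log N) := by
      push_cast
      linarith
    have h17 : Real.log (1 + ((Nat.log 2 N + 1 : ℕ) : ℝ)) ≤ Real.log (2 * (1 + Real.log N)) :=
      Real.log_le_log (by positivity) h16
    rw [Real.log_mul (by norm_num) (by linarith)] at h17
    have h18 : Real.log 2 ≤ 1 := by
      have := Real.log_two_lt_d9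
      linarith
    unfold LL
    linarith
  linarith

/-- Row K7a. For `g` not good and `Y < g ≤ 2Y`, `g` squarefree, `g ∈ Exc s ε j₀ J Y` for `s = J(κ|·)` or
`s = J(κΔ|·)`, `ε = 1/4000`, `j₀ = ⌈20 LL N⌉`, `2^J ≥ N`: by `good_sum`
`log (1 + j₀) + ε (1 + log (1 + J)) + C ≤ LL N / 1000` for `N ≥ N₀`. -/
theorem not_good (Δ κ : ℤ) : ∃ N₀ : ℕ, ∀ N : ℕ, N₀ ≤ N → ∀ Y g : ℕ, 1 ≤ Y → Y < g → g ≤ 2 * Y →
    Squarefree g → ¬ Good Δ κ N g →
    g ∈ Exc (fun p => (jacobiSym κ p : ℝ)) (1 / 4000) ⌈20 * LL N⌉₊ (Nat.log 2 N + 1) Y ∨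
    g ∈ Exc (fun p => (jacobiSym (κ * Δ) p : ℝ)) (1 / 4000) ⌈20 * LL N⌉₊ (Nat.log 2 N + 1) Y := by
  obtain ⟨C, hC, hgood⟩ := good_sum
  refine ⟨⌈Real.exp (Real.exp (1600 * (C + 1 + Real.log 160000)))⌉₊, ?_⟩
  intro N hN Y g hY hYg hg2 hsq hng
  obtain ⟨hj, hnum⟩ := K7a_num C hC N hN
  by_contra hcon
  obtain ⟨hc1, hc2⟩ := not_or.1 hcon
  apply hng
  intro x hx hxN
  have hxJ : x ≤ 2 ^ (Nat.log 2 N + 1) :=
    hxN.trans (Nat.lt_pow_succ_log_self (by norm_num) N).le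
  have key : ∀ s : ℕ → ℝ, (∀ p, |s p| ≤ 1) →
      g ∉ Exc s (1 / 4000) ⌈20 * LL N⌉₊ (Nat.log 2 N + 1) Y →
      |∑ p ∈ PP x, s p * (jacobiSym (g : ℤ) p : ℝ) / p| ≤ 1 / 1000 * LL N := by
    intro s hs hns
    exact (hgood (1 / 4000) (by norm_num) s hs _ _ Y g hj hY hYg hg2 hsq hns x hx hxJ).trans hnum
  constructor
  · have h1 := key _ (K7a_abs κ) hc1
    have h2 : ∑ p ∈ PP x, (jacobiSym (κ * g) p : ℝ) / p
        = ∑ p ∈ PP x, (jacobiSym κ p : ℝ) * (jacobiSym (g : ℤ) p : ℝ) / p := by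
      refine Finset.sum_congr rfl fun p _ => ?_
      rw [jacobiSym.mul_left]
      push_cast
      ring
    rw [h2]
    exact h1
  · have h1 := key _ (K7a_abs (κ * Δ)) hc2
    have h2 : ∑ p ∈ PP x, (jacobiSym (κ * g) p : ℝ) * (jacobiSym Δ p : ℝ) / p
        = ∑ p ∈ PP x, (jacobiSym (κ * Δ) p : ℝ) * (jacobiSym (g : ℤ) p : ℝ) / p := by
      refine Finset.sum_congr rfl fun p _ => ?_
      rw [jacobiSym.mul_left, jacobiSym.mul_left]
      push_cast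
      ring
    rw [h2]
    exact h1

end TwHL
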