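import Pool.Agent.LibTwHL.Defs

namespace TwHL

/-- Row L0. Periodic function with mean zero: sums over intervals are bounded by the period. -/
theorem per_sum (f : ℕ → ℝ) (q : ℕ) (hq : 0 < q) (per : ∀ n, f (n + q) = f n)
    (bd : ∀ n, |f n| ≤ 1) (zero : ∑ i ∈ Finset.range q, f i = 0) (A B : ℕ) :
    |∑ n ∈ Finset.Ioc A B, f n| ≤ q := by
  set S : ℕ → ℝ := fun n => ∑ i ∈ Finset.range n, f i with hS
  have h1 : ∀ n, S (n + q) = S n := by
    intro n
    simp only [hS]
    rw [add_comm n q, Finset.sum_range_add, zero, zero_add]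
    apply Finset.sum_congr rfl
    intro i _
    rw [add_comm, per]
  have h2 : ∀ k n, S (n + q * k) = S n := by
    intro k
    induction k with
    | zero => intro n; simp
    | succ k ih =>
      intro n
      rw [mul_add, mul_one, ← add_assoc, h1, ih]
  have h3 : ∀ n, S n = S (n % q) := by
    intro n
    conv_lhs => rw [← Nat.mod_add_div n q]
    exact h2 _ _
  have h4 : ∀ a b : ℕ, a ≤ b → |S b - S a| ≤ (b : ℝ) - a := by
    intro a b hab
    have h5 : S b - S a = ∑ i ∈ Finset.Ico a b, f i := by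
      simp only [hS]
      rw [Finset.sum_Ico_eq_sub _ hab]
    rw [h5]
    calc |∑ i ∈ Finset.Ico a b, f i| ≤ ∑ i ∈ Finset.Ico a b, |f i| := Finset.abs_sum_le_sum_abs _ _
      _ ≤ ∑ i ∈ Finset.Ico a b, (1 : ℝ) := Finset.sum_le_sum fun i _ => bd i
      _ = (b : ℝ) - a := by
        rw [Finset.sum_const, Nat.card_Ico, nsmul_eq_mul, mul_one, Nat.cast_sub hab]
  rcases le_total A B with hAB | hAB
  · have h5 : ∑ n ∈ Finset.Ioc A B, f n = S (B + 1) - S (A + 1) := by
      have : Finset.Ioc A B = Finset.Ico (A + 1) (B + 1) := by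
        ext x
        simp only [Finset.mem_Ioc, Finset.mem_Ico]
        omega
      rw [this]
      simp only [hS]
      rw [Finset.sum_Ico_eq_sub _ (by omega)]
    rw [h5, h3 (B + 1), h3 (A + 1)]
    have hb : (((B + 1) % q : ℕ) : ℝ) ≤ q := by exact_mod_cast (Nat.mod_lt _ hq).le
    have ha : (((A + 1) % q : ℕ) : ℝ) ≤ q := by exact_mod_cast (Nat.mod_lt _ hq).le
    have hb0 : (0 : ℝ) ≤ (((B + 1) % q : ℕ) : ℝ) := Nat.cast_nonneg _
    have ha0 : (0 : ℝ) ≤ (((A + 1) % q : ℕ) : ℝ) := Nat.cast_nonneg _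
    rcases le_total ((A + 1) % q) ((B + 1) % q) with h | h
    · have := h4 _ _ h
      linarith
    · have := h4 _ _ h
      rw [abs_sub_comm]
      linarith
  · rw [Finset.Ioc_eq_empty (by omega)]
    simp

end TwHL
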