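import Pool.Agent.LibTwHL.L0

namespace TwHL

private lemma l1_range_zmod (N : ℕ) [NeZero N] (F : ZMod N → ℝ) :
    ∑ g ∈ Finset.range N, F (g : ZMod N) = ∑ x : ZMod N, F x := by
  apply Finset.sum_nbij' (fun g : ℕ => (g : ZMod N)) (fun x : ZMod N => x.val)
  · intro g _
    exact Finset.mem_univ _
  · intro x _
    exact Finset.mem_range.2 (ZMod.val_lt x)
  · intro g hg
    exact ZMod.val_cast_of_lt (Finset.mem_range.1 hg)
  · intro x _
    exact ZMod.natCast_zmod_val x
  · intro g _
    rfl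

private lemma l1_val_cast (N g : ℕ) : jacobiSym (((g : ZMod N).val : ℕ) : ℤ) N = jacobiSym (g : ℤ) N := by
  rw [ZMod.val_natCast]
  push_cast
  exact (jacobiSym.mod_left _ _).symm

/-- Row L1. `g ↦ J(g|p) J(g|r)` is periodic mod `p r` with sum zero over a period (Chinese
remainder theorem, or multiply by `n0` with `J(n0|p) = -1`, `n0 ≡ 1 mod r`). -/
theorem sum_pr (p r : ℕ) (hp : p.Prime) (hr : r.Prime) (hp2 : p ≠ 2) (hr2 : r ≠ 2) (hpr : p ≠ r)
    (A B : ℕ) :
    |∑ g ∈ Finset.Ioc A B, ((jacobiSym (g : ℤ) p : ℝ) * (jacobiSym (g : ℤ) r : ℝ))|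
      ≤ (p : ℝ) * r := by
  have hN : 0 < p * r := Nat.mul_pos hp.pos hr.pos
  have : NeZero (p * r) := ⟨hN.ne'⟩
  have : NeZero p := ⟨hp.ne_zero⟩
  have : NeZero r := ⟨hr.ne_zero⟩
  have : Fact p.Prime := ⟨hp⟩
  have hJ : ∀ g : ℤ, (jacobiSym g p : ℝ) * (jacobiSym g r : ℝ) = (jacobiSym g (p * r) : ℝ) := by
    intro g
    rw [jacobiSym.mul_right]
    push_cast
    ring
  have key := per_sum (fun g : ℕ => (jacobiSym (g : ℤ) p : ℝ) * (jacobiSym (g : ℤ) r : ℝ)) (p * r) hN
    (by
      intro n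
      simp only [hJ]
      congr 1
      rw [jacobiSym.mod_left (((n + p * r : ℕ) : ℤ)), jacobiSym.mod_left ((n : ℤ))]
      congr 1
      push_cast
      simp)
    (by
      intro n
      simp only [hJ]
      rcases jacobiSym.trichotomy (n : ℤ) (p * r) with h | h | h <;> rw [h] <;> simp)
    (by
      -- a multiplier
      obtain ⟨a, ha⟩ : ∃ a : ℤ, jacobiSym a p = -1 := by
        have hc : ringChar (ZMod p) ≠ 2 := by
          rw [ZMod.ringChar_zmod_n]
          exact hp2
        obtain ⟨x, hx⟩ := quadraticChar_exists_neg_one hc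
        refine ⟨(x.val : ℤ), ?_⟩
        rw [← jacobiSym.legendreSym.to_jacobiSym, legendreSym]
        rw [Int.cast_natCast, ZMod.natCast_zmod_val]
        exact hx
      have hcop : Nat.Coprime p r := (Nat.coprime_primes hp hr).2 hpr
      obtain ⟨n0, hn1, hn2⟩ := Nat.chineseRemainder hcop (a % p).toNat 1
      have hap : ((a % p).toNat : ℤ) = a % p :=
        Int.toNat_of_nonneg (Int.emod_nonneg _ (by exact_mod_cast hp.ne_zero))
      have h1 : jacobiSym (n0 : ℤ) p = -1 := by
        rw [jacobiSym.mod_left, ← ha, jacobiSym.mod_left a]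
        congr 1
        have h2 : (n0 : ℤ) ≡ ((a % p).toNat : ℤ) [ZMOD p] := (Int.natCast_modEq_iff).2 hn1
        rw [hap] at h2
        have h3 := h2.trans (Int.mod_modEq a p)
        exact h3
      have h2 : jacobiSym (n0 : ℤ) r = 1 := by
        rw [jacobiSym.mod_left]
        have h3 : (n0 : ℤ) ≡ ((1 : ℕ) : ℤ) [ZMOD r] := (Int.natCast_modEq_iff).2 hn2
        have h4 : (n0 : ℤ) % r = ((1 : ℕ) : ℤ) % r := h3
        rw [h4, ← jacobiSym.mod_left]
        push_cast
        exact jacobiSym.one_left r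
      have h3 : jacobiSym (n0 : ℤ) (p * r) = -1 := by
        rw [jacobiSym.mul_right, h1, h2]
        norm_num
      have hunit : IsUnit (n0 : ZMod (p * r)) := by
        rw [ZMod.isUnit_iff_coprime]
        by_contra hcon
        have h4 : jacobiSym (n0 : ℤ) (p * r) = 0 := by
          rw [jacobiSym.eq_zero_iff]
          refine ⟨hN.ne', ?_⟩
          rw [Int.gcd_natCast_natCast]
          exact hcon
        rw [h3] at h4
        norm_num at h4
      obtain ⟨u, hu⟩ := hunit
      have hsum : ∑ i ∈ Finset.range (p * r), (jacobiSym (i : ℤ) p : ℝ) * (jacobiSym (i : ℤ) r : ℝ) =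
          ∑ x : ZMod (p * r), ((jacobiSym ((x.val : ℕ) : ℤ) (p * r) : ℤ) : ℝ) := by
        rw [← l1_range_zmod (p * r) (fun x => ((jacobiSym ((x.val : ℕ) : ℤ) (p * r) : ℤ) : ℝ))]
        apply Finset.sum_congr rfl
        intro i _
        rw [hJ, l1_val_cast]
      rw [hsum]
      have hinv : ∑ x : ZMod (p * r), ((jacobiSym ((x.val : ℕ) : ℤ) (p * r) : ℤ) : ℝ) =
          ∑ x : ZMod (p * r), -((jacobiSym ((x.val : ℕ) : ℤ) (p * r) : ℤ) : ℝ) := by
        rw [← Equiv.sum_comp (Units.mulLeft u)]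
        apply Finset.sum_congr rfl
        intro x _
        have h5 : (Units.mulLeft u) x = (n0 : ZMod (p * r)) * x := by
          rw [Units.mulLeft_apply, hu]
        rw [h5]
        have h6 : (n0 : ZMod (p * r)) * x = ((n0 * x.val : ℕ) : ZMod (p * r)) := by
          push_cast
          rw [ZMod.natCast_zmod_val]
        rw [h6, l1_val_cast]
        push_cast
        rw [jacobiSym.mul_left, h3]
        push_cast
        ring
      rw [Finset.sum_neg_distrib] at hinv
      linarith) A B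
  have hcast : ((p * r : ℕ) : ℝ) = (p : ℝ) * r := by push_cast; ring
  rw [hcast] at key
  exact key

end TwHL
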