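import Pool.Agent.LibTwHL.L1

namespace TwHL

private lemma l2_mem {j p : ℕ} (hp : p ∈ PB j) : 2 ^ j < p ∧ p ≤ 2 ^ (j + 1) ∧ p.Prime := by
  unfold PB at hp
  rw [Finset.mem_filter, Finset.mem_Ioc] at hp
  exact ⟨hp.1.1, hp.1.2, hp.2⟩

private lemma l2_card (j : ℕ) : (PB j).card ≤ 2 ^ j := by
  unfold PB
  refine (Finset.card_filter_le _ _).trans ?_
  rw [Nat.card_Ioc, pow_succ]
  omega

private lemma l2_jac (a : ℤ) (b : ℕ) : |(jacobiSym a b : ℝ)| ≤ 1 := by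
  rcases jacobiSym.trichotomy a b with h | h | h <;> rw [h] <;> simp

/-- Row L2. Expand the square; diagonal terms `≤ Y / p^2 ≤ Y / 4^j`, at most `2^j` primes; the
other terms `≤ (1/(p r)) * p r = 1`, at most `4^j` pairs. -/
theorem ls_direct (s : ℕ → ℝ) (hs : ∀ p, |s p| ≤ 1) (j : ℕ) (hj : 1 ≤ j) (Y : ℕ) :
    ∑ g ∈ Finset.Ioc Y (2 * Y), (SS s j g) ^ 2 ≤ (Y : ℝ) / 2 ^ j + 4 ^ j := by
  have h2j : (0 : ℝ) < 2 ^ j := by positivity
  have hexp : ∑ g ∈ Finset.Ioc Y (2 * Y), (SS s j g) ^ 2 =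
      ∑ p ∈ PB j, ∑ r ∈ PB j, (s p * s r / (p * r)) *
        ∑ g ∈ Finset.Ioc Y (2 * Y), ((jacobiSym (g : ℤ) p : ℝ) * (jacobiSym (g : ℤ) r : ℝ)) := by
    have h1 : ∀ g : ℕ, (SS s j g) ^ 2 = ∑ p ∈ PB j, ∑ r ∈ PB j, (s p * s r / (p * r)) *
        ((jacobiSym (g : ℤ) p : ℝ) * (jacobiSym (g : ℤ) r : ℝ)) := by
      intro g
      unfold SS
      rw [sq, Finset.sum_mul_sum]
      refine Finset.sum_congr rfl fun p _ => Finset.sum_congr rfl fun r _ => ?_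
      rw [div_mul_div_comm]
      ring
    simp_rw [h1]
    rw [Finset.sum_comm]
    refine Finset.sum_congr rfl fun p _ => ?_
    rw [Finset.sum_comm]
    refine Finset.sum_congr rfl fun r _ => ?_
    rw [Finset.mul_sum]
  rw [hexp]
  have hdiag : ∀ p ∈ PB j, (s p * s p / (p * p)) *
      ∑ g ∈ Finset.Ioc Y (2 * Y), ((jacobiSym (g : ℤ) p : ℝ) * (jacobiSym (g : ℤ) p : ℝ)) ≤
        (Y : ℝ) / 4 ^ j := by
    intro p hp
    obtain ⟨hp1, _, _⟩ := l2_mem hp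
    have hpr : (2 : ℝ) ^ j ≤ p := by exact_mod_cast hp1.le
    have hsum : ∑ g ∈ Finset.Ioc Y (2 * Y), ((jacobiSym (g : ℤ) p : ℝ) * (jacobiSym (g : ℤ) p : ℝ)) ≤
        Y := by
      calc ∑ g ∈ Finset.Ioc Y (2 * Y), ((jacobiSym (g : ℤ) p : ℝ) * (jacobiSym (g : ℤ) p : ℝ))
          ≤ ∑ g ∈ Finset.Ioc Y (2 * Y), (1 : ℝ) := by
            refine Finset.sum_le_sum fun g _ => ?_
            have h := l2_jac (g : ℤ) p
            have h2 := abs_le.1 h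
            nlinarith
        _ = Y := by
            rw [Finset.sum_const, Nat.card_Ioc, nsmul_eq_mul, mul_one]
            congr 1
            omega
    have hsum0 : 0 ≤ ∑ g ∈ Finset.Ioc Y (2 * Y),
        ((jacobiSym (g : ℤ) p : ℝ) * (jacobiSym (g : ℤ) p : ℝ)) :=
      Finset.sum_nonneg fun g _ => mul_self_nonneg _
    have hsp : s p * s p / (p * p) ≤ 1 / 4 ^ j := by
      have h4 : (4 : ℝ) ^ j = 2 ^ j * 2 ^ j := by
        rw [← mul_pow]; norm_num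
      rw [h4]
      have h5 : s p * s p ≤ 1 := by
        have h2 := abs_le.1 (hs p)
        nlinarith
      apply div_le_div₀ (by norm_num) h5 (by positivity)
      gcongr
    have hsp0 : 0 ≤ s p * s p / ((p : ℝ) * p) := by
      apply div_nonneg (mul_self_nonneg _) (by positivity)
    calc (s p * s p / (p * p)) *
        ∑ g ∈ Finset.Ioc Y (2 * Y), ((jacobiSym (g : ℤ) p : ℝ) * (jacobiSym (g : ℤ) p : ℝ))
        ≤ (1 / 4 ^ j) * Y := mul_le_mul hsp hsum hsum0 (by positivity)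
      _ = (Y : ℝ) / 4 ^ j := by ring
  have hoff : ∀ p ∈ PB j, ∀ r ∈ PB j, p ≠ r → (s p * s r / (p * r)) *
      ∑ g ∈ Finset.Ioc Y (2 * Y), ((jacobiSym (g : ℤ) p : ℝ) * (jacobiSym (g : ℤ) r : ℝ)) ≤ 1 := by
    intro p hp r hr hpr
    obtain ⟨hp1, _, hpp⟩ := l2_mem hp
    obtain ⟨hr1, _, hrp⟩ := l2_mem hr
    have h2 : 2 ≤ 2 ^ j := by
      calc 2 = 2 ^ 1 := by norm_num
        _ ≤ 2 ^ j := Nat.pow_le_pow_right (by norm_num) hj
    have h3 := sum_pr p r hpp hrp (by omega) (by omega) hpr Y (2 * Y)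
    have hp0 : (0 : ℝ) < p := by exact_mod_cast hpp.pos
    have hr0 : (0 : ℝ) < r := by exact_mod_cast hrp.pos
    have hss : |s p * s r| ≤ 1 := by
      rw [abs_mul]
      have := hs p
      have := hs r
      nlinarith [abs_nonneg (s p), abs_nonneg (s r)]
    refine (le_abs_self _).trans ?_
    rw [abs_mul, abs_div, abs_of_pos (mul_pos hp0 hr0), div_mul_eq_mul_div,
      div_le_one (mul_pos hp0 hr0)]
    calc |s p * s r| * |∑ g ∈ Finset.Ioc Y (2 * Y),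
          ((jacobiSym (g : ℤ) p : ℝ) * (jacobiSym (g : ℤ) r : ℝ))|
        ≤ 1 * (p * r) := mul_le_mul hss h3 (abs_nonneg _) (by norm_num)
      _ = p * r := one_mul _
  have hcard : ((PB j).card : ℝ) ≤ 2 ^ j := by exact_mod_cast l2_card j
  have hcard0 : (0 : ℝ) ≤ (PB j).card := Nat.cast_nonneg _
  have hrow : ∀ p ∈ PB j, ∑ r ∈ PB j, (s p * s r / (p * r)) *
      ∑ g ∈ Finset.Ioc Y (2 * Y), ((jacobiSym (g : ℤ) p : ℝ) * (jacobiSym (g : ℤ) r : ℝ)) ≤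
        (Y : ℝ) / 4 ^ j + 2 ^ j := by
    intro p hp
    rw [← Finset.add_sum_erase _ _ hp]
    refine add_le_add (hdiag p hp) ?_
    calc ∑ r ∈ (PB j).erase p, (s p * s r / (p * r)) *
          ∑ g ∈ Finset.Ioc Y (2 * Y), ((jacobiSym (g : ℤ) p : ℝ) * (jacobiSym (g : ℤ) r : ℝ))
        ≤ ∑ r ∈ (PB j).erase p, (1 : ℝ) := by
          refine Finset.sum_le_sum fun r hr => ?_
          rw [Finset.mem_erase] at hr
          exact hoff p hp r hr.2 (Ne.symm hr.1)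
      _ = (((PB j).erase p).card : ℝ) := by
          rw [Finset.sum_const, nsmul_eq_mul, mul_one]
      _ ≤ ((PB j).card : ℝ) := by exact_mod_cast Finset.card_erase_le
      _ ≤ 2 ^ j := hcard
  calc ∑ p ∈ PB j, ∑ r ∈ PB j, (s p * s r / (p * r)) *
        ∑ g ∈ Finset.Ioc Y (2 * Y), ((jacobiSym (g : ℤ) p : ℝ) * (jacobiSym (g : ℤ) r : ℝ))
      ≤ ∑ p ∈ PB j, ((Y : ℝ) / 4 ^ j + 2 ^ j) := Finset.sum_le_sum hrow
    _ = ((PB j).card : ℝ) * ((Y : ℝ) / 4 ^ j + 2 ^ j) := by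
        rw [Finset.sum_const, nsmul_eq_mul]
    _ ≤ 2 ^ j * ((Y : ℝ) / 4 ^ j + 2 ^ j) := by gcongr
    _ = (Y : ℝ) / 2 ^ j + 4 ^ j := by
        have h4 : (4 : ℝ) ^ j = 2 ^ j * 2 ^ j := by
          rw [← mul_pow]; norm_num
        rw [h4]
        field_simp

end TwHL
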