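import Pool.Agent.LibTwHL.Defs

namespace TwHL

/-- Row M2a. A non-square integer has an odd `n` with Jacobi symbol `-1`.
Proof: `Δ = s k ^ 2` with `s` squarefree (`Int` or `Nat.sq_mul_squarefree` for `Δ.natAbs`), `s ≠ 1`.
If some odd prime `q` divides `s`: by the Chinese remainder theorem choose `n ≡ 1 mod 8`,
`n ≡ 1` mod every other odd prime dividing `Δ`, `n ≡` a nonresidue mod `q`; quadratic
reciprocity (`n ≡ 1 mod 4`) gives `J(s | n) = -1`, and `J(k^2 | n) = 1` as `n` is coprime to `Δ`.
If `s ∈ {-1, 2, -2}`: `n ≡ 3, 5, 5 mod 8` (for `s = -1`: `n ≡ 3 mod 4`) and `n ≡ 1` mod the odd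
part of `Δ`. -/
theorem exists_neg (Δ : ℤ) (h : ¬ IsSquare Δ) :
    ∃ n : ℕ, Odd n ∧ n.Coprime (4 * Δ.natAbs) ∧ jacobiSym Δ n = -1 := by
  have h0 : Δ ≠ 0 := fun e => h ⟨0, by rw [e]; rfl⟩
  have hN : Δ.natAbs ≠ 0 := Int.natAbs_ne_zero.2 h0
  have hsgn : Δ = Δ.sign * (Δ.natAbs : ℤ) := (Int.sign_mul_natAbs Δ).symm
  have hsgn1 : Δ.sign = 1 ∨ Δ.sign = -1 := by
    rcases lt_or_gt_of_ne h0 with h1 | h1
    · right; exact Int.sign_eq_neg_one_of_neg h1
    · left; exact Int.sign_eq_one_of_pos h1
  by_cases hA : ∃ q : ℕ, q.Prime ∧ q ≠ 2 ∧ Odd (Δ.natAbs.factorization q)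
  · obtain ⟨q, hq, hq2, hv⟩ := hA
    have : Fact q.Prime := ⟨hq⟩
    obtain ⟨u, hu⟩ : ∃ u : ZMod q, ¬ IsSquare u :=
      FiniteField.exists_nonsquare (by rw [ZMod.ringChar_zmod_n]; exact hq2)
    obtain ⟨r, hr⟩ : ∃ r : ℕ, r = Δ.natAbs / q ^ Δ.natAbs.factorization q := ⟨_, rfl⟩
    have hqr : q ^ Δ.natAbs.factorization q * r = Δ.natAbs := by
      rw [hr]; exact Nat.ordProj_mul_ordCompl_eq_self _ _
    have hcop : Nat.Coprime q r := by rw [hr]; exact Nat.coprime_ordCompl hq hN
    have hr0 : 0 < r := Nat.pos_of_ne_zero fun e => by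
      rw [e, mul_zero] at hqr; exact hN hqr.symm
    have hqodd : Odd q := hq.odd_of_ne_two hq2
    have hcop8 : Nat.Coprime (8 * r) q := by
      refine Nat.Coprime.mul_left ?_ hcop.symm
      have h2 : Nat.Coprime 2 q := (Nat.coprime_two_left).2 hqodd
      have : Nat.Coprime (2 ^ 3) q := h2.pow_left 3
      simpa using this
    obtain ⟨n, hn1, hn2⟩ := Nat.chineseRemainder hcop8 1 u.val
    have hn4r : n ≡ 1 [MOD 4 * r] := hn1.of_dvd ⟨2, by ring⟩
    have hn8 : n ≡ 1 [MOD 8] := Nat.ModEq.of_mul_right r hn1
    have hn4 : n % 4 = 1 := by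
      have : n % 8 = 1 % 8 := hn8
      omega
    have hnodd : Odd n := by rw [Nat.odd_iff]; omega
    have hnr : n.Coprime r := by
      have h3 : n ≡ 1 [MOD r] := Nat.ModEq.of_mul_left 8 hn1
      have h4 := h3.gcd_eq
      rw [Nat.Coprime, h4]
      exact Nat.gcd_one_left _
    have hnq : n.Coprime q := by
      rw [Nat.coprime_comm, hq.coprime_iff_not_dvd]
      intro hd
      have h3 : (n : ZMod q) = 0 := (ZMod.natCast_eq_zero_iff _ _).2 hd
      have h4 : (n : ZMod q) = u := by
        have := (ZMod.natCast_eq_natCast_iff _ _ _).2 hn2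
        rw [this, ZMod.natCast_zmod_val]
      rw [h4] at h3
      exact hu (h3 ▸ ⟨0, by simp⟩)
    refine ⟨n, hnodd, ?_, ?_⟩
    · refine Nat.Coprime.mul_right ?_ ?_
      · have h2 : n.Coprime 2 := (Nat.coprime_two_right).2 hnodd
        have : n.Coprime (2 ^ 2) := h2.pow_right 2
        simpa using this
      · rw [← hqr]
        exact (hnq.pow_right _).mul_right hnr
    · have hJ1 : jacobiSym (Δ.sign * (r : ℤ)) n = 1 := by
        rw [jacobiSym.mod_right _ hnodd]
        have h3 : (Δ.sign * (r : ℤ)).natAbs = r := by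
          rw [Int.natAbs_mul]
          rcases hsgn1 with e | e <;> rw [e] <;> simp
        rw [h3]
        have h4 : n % (4 * r) = 1 := by
          have : n % (4 * r) = 1 % (4 * r) := hn4r
          rw [this]
          exact Nat.mod_eq_of_lt (by omega)
        rw [h4, jacobiSym.one_right]
      have hJ2 : jacobiSym (q : ℤ) n = -1 := by
        rw [← jacobiSym.quadratic_reciprocity_one_mod_four hn4 hqodd,
          ← jacobiSym.legendreSym.to_jacobiSym, legendreSym.eq_neg_one_iff]
        have h4 : (((n : ℕ) : ℤ) : ZMod q) = u := by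
          have := (ZMod.natCast_eq_natCast_iff _ _ _).2 hn2
          rw [Int.cast_natCast, this, ZMod.natCast_zmod_val]
        rw [h4]
        exact hu
      have hΔ : Δ = (Δ.sign * (r : ℤ)) * (q : ℤ) ^ Δ.natAbs.factorization q := by
        conv_lhs => rw [hsgn, ← hqr]
        push_cast
        ring
      rw [hΔ, jacobiSym.mul_left, jacobiSym.pow_left, hJ2, hJ1, one_mul]
      exact hv.neg_one_pow
  · push Not at hA
    obtain ⟨a, b, hab, hsq⟩ := Nat.sq_mul_squarefree Δ.natAbs
    have hb0 : b ≠ 0 := by
      rintro rfl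
      simp at hab
      exact hN hab.symm
    have ha0 : a ≠ 0 := by
      rintro rfl
      simp at hab
      exact hN hab.symm
    have ha2 : ∀ q ∈ a.primeFactors, q = 2 := by
      intro q hq
      have hqp := Nat.prime_of_mem_primeFactors hq
      by_contra hne
      apply hA q hqp hne
      have h3 : Δ.natAbs.factorization q = 2 * b.factorization q + a.factorization q := by
        rw [← hab, Nat.factorization_mul (pow_ne_zero _ hb0) ha0, Nat.factorization_pow]
        simp
      have h4 : a.factorization q = 1 :=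
        Nat.factorization_eq_one_of_squarefree hsq hqp (Nat.dvd_of_mem_primeFactors hq)
      rw [h3, h4]
      exact ⟨b.factorization q, rfl⟩
    have ha12 : a = 1 ∨ a = 2 := by
      have h3 := Nat.prod_primeFactors_of_squarefree hsq
      have h4 : a.primeFactors ⊆ {2} := fun q hq => by
        rw [Finset.mem_singleton]; exact ha2 q hq
      rcases Finset.subset_singleton_iff.1 h4 with h5 | h5
      · left; rw [← h3, h5, Finset.prod_empty]
      · right; rw [← h3, h5, Finset.prod_singleton]
    obtain ⟨m, hm⟩ : ∃ m : ℕ, m = b / 2 ^ b.factorization 2 := ⟨_, rfl⟩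
    have hbm : 2 ^ b.factorization 2 * m = b := by
      rw [hm]; exact Nat.ordProj_mul_ordCompl_eq_self _ _
    have hm2 : Nat.Coprime 2 m := by rw [hm]; exact Nat.coprime_ordCompl Nat.prime_two hb0
    have hcop8 : Nat.Coprime 8 m := by
      have : Nat.Coprime (2 ^ 3) m := hm2.pow_left 3
      simpa using this
    obtain ⟨n, hn1, hn2⟩ := Nat.chineseRemainder hcop8 (if a = 1 then 3 else 5) 1
    have hn8 : n % 8 = if a = 1 then 3 else 5 := by
      have : n % 8 = (if a = 1 then 3 else 5) % 8 := hn1
      rw [this]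
      split_ifs <;> rfl
    have hnodd : Odd n := by
      rw [Nat.odd_iff]
      split_ifs at hn8 <;> omega
    have hnm : n.Coprime m := by
      rw [Nat.Coprime, hn2.gcd_eq]
      exact Nat.gcd_one_left _
    have hn2' : n.Coprime 2 := (Nat.coprime_two_right).2 hnodd
    have hnb : n.Coprime b := by
      rw [← hbm]
      exact (hn2'.pow_right _).mul_right hnm
    have hna : n.Coprime a := by
      rcases ha12 with e | e <;> rw [e]
      · exact Nat.coprime_one_right n
      · exact hn2'
    refine ⟨n, hnodd, ?_, ?_⟩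
    · refine Nat.Coprime.mul_right ?_ ?_
      · have : n.Coprime (2 ^ 2) := hn2'.pow_right 2
        simpa using this
      · rw [← hab]
        exact (hnb.pow_right _).mul_right hna
    · have hΔ : Δ = (Δ.sign * (a : ℤ)) * (b : ℤ) ^ 2 := by
        conv_lhs => rw [hsgn, ← hab]
        push_cast
        ring
      have hJb : jacobiSym (b : ℤ) n ^ 2 = 1 := by
        apply jacobiSym.sq_one
        rw [Int.gcd_natCast_natCast]
        exact hnb.symm
      have hmain : jacobiSym (Δ.sign * (a : ℤ)) n = -1 := by
        rcases ha12 with e | e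
        · subst e
          rw [if_pos rfl] at hn8
          have hs : Δ.sign = -1 := by
            rcases hsgn1 with e' | e'
            · exfalso
              apply h
              rw [hΔ, e']
              exact ⟨(b : ℤ), by push_cast; ring⟩
            · exact e'
          rw [hs]
          have h3 : (-1 : ℤ) * ((1 : ℕ) : ℤ) = -1 := by norm_num
          rw [h3, jacobiSym.at_neg_one hnodd]
          exact ZMod.χ₄_nat_three_mod_four (by omega)
        · subst e
          rw [if_neg (by norm_num)] at hn8
          have hJ2 : jacobiSym 2 n = -1 := by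
            rw [jacobiSym.at_two hnodd, ZMod.χ₈_nat_eq_if_mod_eight]
            rw [if_neg (by omega), if_neg (by omega)]
          have hJm : jacobiSym (-1) n = 1 := by
            rw [jacobiSym.at_neg_one hnodd]
            exact ZMod.χ₄_nat_one_mod_four (by omega)
          rcases hsgn1 with e' | e' <;> rw [e', jacobiSym.mul_left]
          · have h3 : jacobiSym 1 n = 1 := jacobiSym.one_left n
            rw [h3, one_mul]
            exact_mod_cast hJ2
          · rw [hJm, one_mul]
            exact_mod_cast hJ2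
      rw [hΔ, jacobiSym.mul_left, jacobiSym.pow_left, hmain, hJb]
      norm_num

end TwHL
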