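import Pool.Agent.LibTwHL.M2b
import Pool.Agent.LibMaier.Mertens1
import Pool.Agent.LibHU21.S3

namespace TwHL


/-- Row M2c. From `LibHU.mertens_AP` (file LibHU21/S3.lean; lower bound `c (log y - log x) - K`
for the sum of `log p / p` over `p ≡ a mod q`, every `c < 1/φ(q)`), with `q = 4|Δ|`, `x = 1`:
sum over the `φ(q)/2` classes with `J = 1` and over the `φ(q)/2` classes with `J = -1`
(`sum_coprime`, `jacobiSym.mod_right`); both sums are `≥ (1/2 - ε') log y - K`, the sum of both is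
`≤ log y + log 4` (`TN_le` of LibMaier/Mertens1.lean), so each is `≤ (1/2 + ε') log y + K`. The
primes dividing `4Δ` contribute `O(1)`. -/
theorem sum_log (Δ : ℤ) (h : ¬ IsSquare Δ) (ε : ℝ) (hε : 0 < ε) : ∃ K : ℝ, ∀ x : ℕ, 1 ≤ x →
    |∑ p ∈ PP x, (jacobiSym Δ p : ℝ) * (Real.log p / p)| ≤ ε * Real.log x + K := by
  have hΔ : Δ ≠ 0 := by
    rintro rfl
    exact h ⟨0, rfl⟩
  have hΔn : 0 < Δ.natAbs := Int.natAbs_pos.2 hΔ
  obtain ⟨q, hq⟩ : ∃ q : ℕ, q = 4 * Δ.natAbs := ⟨_, rfl⟩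
  have hq4 : 4 ≤ q := by omega
  have : NeZero q := ⟨by omega⟩
  obtain ⟨R, hR⟩ : ∃ R : Finset ℕ, R = (Finset.range q).filter (fun r => r.Coprime q) := ⟨_, rfl⟩
  have hsum0 : ∑ r ∈ R, jacobiSym Δ r = 0 := by
    have := sum_coprime Δ h
    rw [← hq, ← hR] at this
    exact this
  have hRcard : R.card = q.totient := by
    rw [hR, Nat.totient, Finset.card_filter, Finset.card_filter]
    exact Finset.sum_congr rfl fun r _ => by simp [Nat.coprime_comm]
  have hf : 0 < q.totient := Nat.totient_pos.2 (by omega)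
  have hf' : (0:ℝ) < (q.totient : ℝ) := by exact_mod_cast hf
  obtain ⟨c, hc⟩ : ∃ c : ℝ, c = (1 - ε) / (q.totient : ℝ) := ⟨_, rfl⟩
  have hcf : c * (q.totient : ℝ) = 1 - ε := by
    rw [hc]; field_simp
  have hclt : c < (q.totient : ℝ)⁻¹ := by
    rw [hc, div_eq_mul_inv]
    have : 0 < (q.totient : ℝ)⁻¹ := by positivity
    nlinarith
  have hKr : ∀ r : ℕ, ∃ K : ℝ, r ∈ R → ∀ x y : ℝ, 1 ≤ x → x ≤ y →
      c * (Real.log y - Real.log x) - K
      ≤ ∑ p ∈ (Finset.Icc 1 ⌊y⌋₊).filter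
          (fun p : ℕ => p.Prime ∧ (p : ZMod q) = (r : ZMod q) ∧ x < (p : ℝ)), Real.log p / p := by
    intro r
    by_cases hr : r ∈ R
    · have hu : IsUnit (r : ZMod q) := by
        rw [ZMod.isUnit_iff_coprime]
        rw [hR, Finset.mem_filter] at hr
        exact hr.2
      obtain ⟨K, hK⟩ := LibHU.mertens_AP q (r : ZMod q) hu c hclt
      exact ⟨K, fun _ => hK⟩
    · exact ⟨0, fun h' => absurd h' hr⟩
  choose Kr hKr using hKr
  obtain ⟨K1, hK1⟩ : ∃ K1 : ℝ, K1 = ∑ r ∈ R, |Kr r| := ⟨_, rfl⟩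
  have hK1r : ∀ r ∈ R, Kr r ≤ K1 := by
    intro r hr
    rw [hK1]
    exact (le_abs_self _).trans
      (Finset.single_le_sum (f := fun r => |Kr r|) (fun _ _ => abs_nonneg _) hr)
  obtain ⟨K0, hK0⟩ : ∃ K0 : ℝ, K0 = ∑ p ∈ q.primeFactors, Real.log p / p := ⟨_, rfl⟩
  refine ⟨K0 + Real.log 4 + (q.totient : ℝ) * K1, fun x hx => ?_⟩
  have hw : ∀ p : ℕ, 0 ≤ Real.log p / p := fun p =>
    div_nonneg (Real.log_natCast_nonneg p) (Nat.cast_nonneg p)
  have hJle : ∀ p : ℕ, |(jacobiSym Δ p : ℝ)| ≤ 1 := by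
    intro p
    rcases jacobiSym.trichotomy Δ p with h1 | h1 | h1 <;> rw [h1] <;> simp
  obtain ⟨P, hP⟩ : ∃ P : Finset ℕ, P = (PP x).filter (fun p => p.Coprime q) := ⟨_, rfl⟩
  obtain ⟨S, hS⟩ : ∃ S : ℕ → ℝ, S = fun r => ∑ p ∈ P.filter (fun p => p % q = r),
    Real.log p / p := ⟨_, rfl⟩
  have hmaps : ∀ p ∈ P, p % q ∈ R := by
    intro p hp
    rw [hP, Finset.mem_filter] at hp
    rw [hR, Finset.mem_filter, Finset.mem_range]
    refine ⟨Nat.mod_lt _ (by omega), ?_⟩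
    have h1 := hp.2
    rw [Nat.coprime_comm, Nat.Coprime, Nat.gcd_rec] at h1
    exact h1
  have hsplit : ∑ p ∈ PP x, (jacobiSym Δ p : ℝ) * (Real.log p / p)
      = ∑ p ∈ P, (jacobiSym Δ p : ℝ) * (Real.log p / p)
        + ∑ p ∈ (PP x).filter (fun p => ¬ p.Coprime q),
          (jacobiSym Δ p : ℝ) * (Real.log p / p) := by
    rw [hP, Finset.sum_filter_add_sum_filter_not]
  have hbad : |∑ p ∈ (PP x).filter (fun p => ¬ p.Coprime q),
          (jacobiSym Δ p : ℝ) * (Real.log p / p)| ≤ K0 := by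
    refine (Finset.abs_sum_le_sum_abs _ _).trans ?_
    rw [hK0]
    refine (Finset.sum_le_sum fun p _ => ?_).trans
      (Finset.sum_le_sum_of_subset_of_nonneg ?_ fun p _ _ => hw p)
    · rw [abs_mul, abs_of_nonneg (hw p)]
      exact (mul_le_mul_of_nonneg_right (hJle p) (hw p)).trans_eq (one_mul _)
    · intro p hp
      rw [Finset.mem_filter, PP, Finset.mem_filter] at hp
      have h1 : p ∣ q := by
        by_contra hnd
        exact hp.2 ((Nat.Prime.coprime_iff_not_dvd hp.1.2).2 hnd)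
      exact Nat.mem_primeFactors.2 ⟨hp.1.2, h1, by omega⟩
  have hJmod : ∀ p ∈ P, jacobiSym Δ p = jacobiSym Δ (p % q : ℕ) := by
    intro p hp
    rw [hP, Finset.mem_filter] at hp
    have hodd : Odd p := by
      rw [← Nat.coprime_two_right]
      exact Nat.Coprime.coprime_dvd_right ⟨2 * Δ.natAbs, by rw [hq]; ring⟩ hp.2
    rw [hq]
    exact jacobiSym.mod_right Δ hodd
  have hmain : ∑ p ∈ P, (jacobiSym Δ p : ℝ) * (Real.log p / p)
      = ∑ r ∈ R, (jacobiSym Δ r : ℝ) * S r := by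
    rw [← Finset.sum_fiberwise_of_maps_to hmaps]
    refine Finset.sum_congr rfl fun r hr => ?_
    rw [hS, Finset.mul_sum]
    refine Finset.sum_congr rfl fun p hp => ?_
    rw [Finset.mem_filter] at hp
    rw [hJmod p hp.1, hp.2]
  have hSlow : ∀ r ∈ R, 0 ≤ S r - c * Real.log x + K1 := by
    intro r hr
    have h1 := hKr r hr 1 x le_rfl (by exact_mod_cast hx)
    rw [Real.log_one, sub_zero, Nat.floor_natCast] at h1
    have h2 : ∑ p ∈ (Finset.Icc 1 x).filter
          (fun p : ℕ => p.Prime ∧ (p : ZMod q) = (r : ZMod q) ∧ (1:ℝ) < (p : ℝ)),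
          Real.log p / p ≤ S r := by
      rw [hS]
      refine Finset.sum_le_sum_of_subset_of_nonneg ?_ fun p _ _ => hw p
      intro p hp
      rw [Finset.mem_filter] at hp
      have hr' := hr
      rw [hR, Finset.mem_filter, Finset.mem_range] at hr'
      have h3 : p % q = r := by
        have := (ZMod.natCast_eq_natCast_iff' p r q).1 hp.2.2.1
        rwa [Nat.mod_eq_of_lt hr'.1] at this
      rw [Finset.mem_filter, hP, Finset.mem_filter, PP, Finset.mem_filter]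
      refine ⟨⟨⟨hp.1, hp.2.1⟩, ?_⟩, h3⟩
      rw [Nat.coprime_comm, Nat.Coprime, Nat.gcd_rec, h3]
      exact hr'.2
    have h3 := hK1r r hr
    linarith
  have hSsum : ∑ r ∈ R, S r ≤ Real.log x + Real.log 4 := by
    have h1 : ∑ r ∈ R, S r = ∑ p ∈ P, Real.log p / p := by
      rw [hS]
      exact Finset.sum_fiberwise_of_maps_to hmaps _
    rw [h1]
    refine le_trans ?_ (Pool.Agent.LibMaier.TN_le x hx)
    rw [Pool.Agent.LibMaier.TN]
    refine Finset.sum_le_sum_of_subset_of_nonneg ?_ fun p _ _ => hw p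
    intro p hp
    rw [hP, Finset.mem_filter, PP, Finset.mem_filter, Finset.mem_Icc] at hp
    rw [Pool.Agent.LibMaier.mem_PN]
    exact ⟨hp.1.1.2, hp.1.2⟩
  have hmain2 : ∑ r ∈ R, (jacobiSym Δ r : ℝ) * S r
      = ∑ r ∈ R, (jacobiSym Δ r : ℝ) * (S r - c * Real.log x + K1) := by
    have h1 : ∑ r ∈ R, (jacobiSym Δ r : ℝ) = 0 := by exact_mod_cast hsum0
    have h2 : ∑ r ∈ R, (jacobiSym Δ r : ℝ) * (S r - c * Real.log x + K1)
        = ∑ r ∈ R, (jacobiSym Δ r : ℝ) * S r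
          + (K1 - c * Real.log x) * ∑ r ∈ R, (jacobiSym Δ r : ℝ) := by
      rw [Finset.mul_sum, ← Finset.sum_add_distrib]
      exact Finset.sum_congr rfl fun r _ => by ring
    rw [h2, h1, mul_zero, add_zero]
  have hb2 : |∑ r ∈ R, (jacobiSym Δ r : ℝ) * (S r - c * Real.log x + K1)|
      ≤ ε * Real.log x + Real.log 4 + (q.totient : ℝ) * K1 := by
    refine (Finset.abs_sum_le_sum_abs _ _).trans ?_
    have h1 : ∑ r ∈ R, |(jacobiSym Δ r : ℝ) * (S r - c * Real.log x + K1)|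
        ≤ ∑ r ∈ R, (S r - c * Real.log x + K1) := by
      refine Finset.sum_le_sum fun r hr => ?_
      rw [abs_mul, abs_of_nonneg (hSlow r hr)]
      exact (mul_le_mul_of_nonneg_right (hJle r) (hSlow r hr)).trans_eq (one_mul _)
    refine h1.trans ?_
    have h2 : ∑ r ∈ R, (S r - c * Real.log x + K1)
        = ∑ r ∈ R, S r - (c * (q.totient : ℝ)) * Real.log x + (q.totient : ℝ) * K1 := by
      rw [Finset.sum_add_distrib, Finset.sum_sub_distrib, Finset.sum_const, Finset.sum_const,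
        hRcard, nsmul_eq_mul, nsmul_eq_mul]
      ring
    rw [h2, hcf]
    linarith
  rw [hsplit, hmain, hmain2]
  refine (abs_add_le _ _).trans ?_
  linarith

end TwHL
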