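import Pool.Agent.LibTwHL.Defs

namespace TwHL

/-- Row P1. Two solutions of `X^2 - M w^2 = k` with the same residues mod `k`: `U, V` integers with
`(X' + w' √M)(X - w √M) = k (U + V √M)`, `U^2 - M V^2 = 1`, and
`ρ = U + V √M = (X' + w' √M)/(X + w √M)`. If `X' > X` then `ρ > 1`, `2U = ρ + 1/ρ > 2`, `V ≥ 0`, so
`ρ ≥ U ≥ 2`. -/
theorem pell_ratio (M X w X' w' k : ℤ) (hM : 0 < M) (hk : k ≠ 0) (hX : 0 < X) (hw : 0 < w)
    (hw' : 0 < w') (h : X ^ 2 - M * w ^ 2 = k) (h' : X' ^ 2 - M * w' ^ 2 = k)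
    (h1 : k ∣ X' - X) (h2 : k ∣ w' - w) (hlt : X < X') :
    2 * ((X : ℝ) + w * √(M : ℝ)) ≤ X' + w' * √(M : ℝ) := by
  obtain ⟨a, ha⟩ := h1
  obtain ⟨b, hb⟩ := h2
  have hX' : X' = X + k * a := by linarith
  have hw'' : w' = w + k * b := by linarith
  have hU : ∃ U : ℤ, k * U = X * X' - M * w * w' := by
    refine ⟨1 + X * a - M * w * b, ?_⟩
    rw [hX', hw'']
    linear_combination -h
  have hV : ∃ V : ℤ, k * V = X * w' - X' * w := by
    refine ⟨X * b - a * w, ?_⟩
    rw [hX', hw'']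
    ring
  obtain ⟨U, hU⟩ := hU
  obtain ⟨V, hV⟩ := hV
  have hN : U ^ 2 - M * V ^ 2 = 1 := by
    have h3 : k ^ 2 * (U ^ 2 - M * V ^ 2) = k ^ 2 * 1 := by
      have h4 : k ^ 2 * (U ^ 2 - M * V ^ 2) = (k * U) ^ 2 - M * (k * V) ^ 2 := by ring
      rw [h4, hU, hV]
      have h5 : (X * X' - M * w * w') ^ 2 - M * (X * w' - X' * w) ^ 2 =
          (X ^ 2 - M * w ^ 2) * (X' ^ 2 - M * w' ^ 2) := by ring
      rw [h5, h, h']
      ring
    exact mul_left_cancel₀ (pow_ne_zero 2 hk) h3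
  have hX2 : X' = U * X + M * V * w := by
    apply mul_left_cancel₀ hk
    have h3 : k * (U * X + M * V * w) = (k * U) * X + M * (k * V) * w := by ring
    rw [h3, hU, hV]
    linear_combination (-X') * h
  have hw2 : w' = U * w + V * X := by
    apply mul_left_cancel₀ hk
    have h3 : k * (U * w + V * X) = (k * U) * w + (k * V) * X := by ring
    rw [h3, hU, hV]
    linear_combination (-w') * h
  have hww : w < w' := by
    have h3 : w ^ 2 < w' ^ 2 := by
      have h4 : X ^ 2 < X' ^ 2 := by nlinarith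
      have h5 : M * w ^ 2 < M * w' ^ 2 := by linarith
      exact lt_of_mul_lt_mul_left h5 hM.le
    exact lt_of_pow_lt_pow_left₀ 2 hw'.le h3
  have hMr : (0 : ℝ) < M := by exact_mod_cast hM
  set s : ℝ := √(M : ℝ) with hs
  have hs0 : 0 < s := Real.sqrt_pos.2 hMr
  have hs2 : s ^ 2 = M := Real.sq_sqrt hMr.le
  have hXr : (0 : ℝ) < X := by exact_mod_cast hX
  have hwr : (0 : ℝ) < w := by exact_mod_cast hw
  have hltr : (X : ℝ) < X' := by exact_mod_cast hlt
  have hwwr : (w : ℝ) < w' := by exact_mod_cast hww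
  have hNr : (U : ℝ) ^ 2 - M * (V : ℝ) ^ 2 = 1 := by exact_mod_cast hN
  have hX2r : (X' : ℝ) = U * X + M * V * w := by exact_mod_cast hX2
  have hw2r : (w' : ℝ) = U * w + V * X := by exact_mod_cast hw2
  have hden : 0 < (X : ℝ) + w * s := by positivity
  have hprod : (X' : ℝ) + w' * s = ((U : ℝ) + V * s) * (X + w * s) := by
    rw [hX2r, hw2r, ← hs2]
    ring
  have hgt : (X : ℝ) + w * s < X' + w' * s := by
    have := mul_lt_mul_of_pos_right hwwr hs0
    linarith
  have hab : ((U : ℝ) + V * s) * ((U : ℝ) - V * s) = 1 := by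
    have h3 : ((U : ℝ) + V * s) * ((U : ℝ) - V * s) = (U : ℝ) ^ 2 - s ^ 2 * (V : ℝ) ^ 2 := by ring
    rw [h3, hs2, hNr]
  set α : ℝ := (U : ℝ) + V * s with hα
  set β : ℝ := (U : ℝ) - V * s with hβ
  have hα1 : 1 < α := by
    rw [hprod] at hgt
    by_contra hcon
    have := mul_le_mul_of_nonneg_right (not_lt.1 hcon) hden.le
    linarith
  have hβ0 : 0 < β := by
    by_contra hcon
    have := mul_nonpos_of_nonneg_of_nonpos (by linarith : (0 : ℝ) ≤ α) (not_lt.1 hcon)
    linarith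
  have hβ1 : β < 1 := by
    by_contra hcon
    have h3 := mul_le_mul_of_nonneg_left (not_lt.1 hcon) (by linarith : (0 : ℝ) ≤ α)
    linarith
  have hsum : α + β = 2 * U := by rw [hα, hβ]; ring
  have hU1 : (1 : ℝ) < U := by
    have h3 : 0 < (α - 1) * (1 - β) := mul_pos (by linarith) (by linarith)
    have h4 : (α - 1) * (1 - β) = α + β - 1 - α * β := by ring
    rw [h4, hab, hsum] at h3
    linarith
  have hU2 : (2 : ℝ) ≤ U := by
    have h3 : 1 < U := by exact_mod_cast hU1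
    have h4 : 2 ≤ U := by omega
    exact_mod_cast h4
  have hα2 : 2 ≤ α := by
    have h3 : α - β = 2 * (V * s) := by rw [hα, hβ]; ring
    have h4 : α = U + V * s := hα
    linarith
  rw [hprod]
  exact mul_le_mul_of_nonneg_right hα2 hden.le

end TwHL
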