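import Pool.Agent.LibTwHL.M1
import Pool.Agent.LibTwHL.M3
import Pool.Agent.LibTwHL.H1

namespace TwHL

/-- Row S1a. `HR` with `w p = 0` if `p ≤ z`, `p ∤ W`, `J(κ|p) = -1`, and `1` otherwise; `mertens`.
(Elements `n ≥ 1`.) -/
theorem sieve (W : ℕ) (hW : W ≠ 0) : ∃ C : ℝ, 0 < C ∧ ∀ (κ : ℤ) (x z : ℕ), 1 ≤ z → z ≤ x →
    ∀ S : Finset ℕ, (∀ n ∈ S, n ≤ x ∧ Squarefree n ∧
      ∀ p : ℕ, p.Prime → p ∣ n → ¬ p ∣ W → jacobiSym κ p = 1) →
    (S.card : ℝ) ≤ C * x * Real.exp (- ∑ p ∈ (PP z).filter (fun p => jacobiSym κ p = -1), 1 / (p:ℝ))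
    := by
  classical
  obtain ⟨C₁, hC₁, hHR⟩ := HR
  obtain ⟨C₂, hC₂, hM⟩ := mertens
  set ω : ℝ := ∑ p ∈ W.primeFactors, 1 / (p : ℝ) with hω
  refine ⟨C₁ * Real.exp (C₂ + ω), by positivity, ?_⟩
  intro κ x z hz hzx S hS
  have hx : 1 ≤ x := hz.trans hzx
  set w : ℕ → ℝ := fun p => if p ≤ z ∧ ¬ p ∣ W ∧ jacobiSym κ p = -1 then 0 else 1 with hw
  have hw0 : ∀ p, 0 ≤ w p := by
    intro p; simp only [hw]; split_ifs <;> norm_num
  have hw2 : ∀ p, w p ≤ 2 := by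
    intro p; simp only [hw]; split_ifs <;> norm_num
  have hFF0 : ∀ n, 0 ≤ FF w n := by
    intro n
    unfold FF
    split_ifs
    · exact Finset.prod_nonneg fun p _ => hw0 p
    · exact le_rfl
  have hFF1 : ∀ n ∈ S, FF w n = 1 := by
    intro n hn
    obtain ⟨_, hsq, hp⟩ := hS n hn
    unfold FF
    rw [if_pos hsq]
    refine Finset.prod_eq_one fun p hpn => ?_
    rw [Nat.mem_primeFactors] at hpn
    simp only [hw]
    rw [if_neg]
    rintro ⟨_, h2, h3⟩
    have h4 := hp p hpn.1 hpn.2.1 h2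
    rw [h3] at h4
    norm_num at h4
  have hcard : (S.card : ℝ) ≤ ∑ n ∈ Finset.Icc 1 x, FF w n := by
    calc (S.card : ℝ) = ∑ n ∈ S, FF w n := by
          rw [Finset.sum_congr rfl hFF1, Finset.sum_const, nsmul_eq_mul, mul_one]
      _ ≤ ∑ n ∈ Finset.Icc 1 x, FF w n := by
          apply Finset.sum_le_sum_of_subset_of_nonneg
          · intro n hn
            obtain ⟨h1, hsq, _⟩ := hS n hn
            rw [Finset.mem_Icc]
            exact ⟨Nat.one_le_iff_ne_zero.2 hsq.ne_zero, h1⟩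
          · intro n _ _
            exact hFF0 n
  have h1 := hHR w hw0 hw2 x hx
  set B := (PP z).filter (fun p => jacobiSym κ p = -1) with hB
  set B' := B.filter (fun p => ¬ p ∣ W) with hB'
  have hsub : B' ⊆ PP x := by
    intro p hp
    rw [hB', Finset.mem_filter, hB, Finset.mem_filter] at hp
    have hp1 := hp.1.1
    unfold PP at hp1 ⊢
    rw [Finset.mem_filter, Finset.mem_Icc] at hp1 ⊢
    exact ⟨⟨hp1.1.1, hp1.1.2.trans hzx⟩, hp1.2⟩
  have hsum : ∑ p ∈ PP x, w p / p = ∑ p ∈ PP x, 1 / (p : ℝ) - ∑ p ∈ B', 1 / (p : ℝ) := by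
    rw [← Finset.sum_sdiff hsub, ← Finset.sum_sdiff hsub (f := fun p : ℕ => 1 / (p : ℝ))]
    have e1 : ∑ p ∈ B', w p / (p : ℝ) = 0 := by
      refine Finset.sum_eq_zero fun p hp => ?_
      rw [hB', Finset.mem_filter, hB, Finset.mem_filter] at hp
      have hp1 := hp.1.1
      unfold PP at hp1
      rw [Finset.mem_filter, Finset.mem_Icc] at hp1
      simp only [hw]
      rw [if_pos ⟨hp1.1.2, hp.2, hp.1.2⟩, zero_div]
    have e2 : ∑ p ∈ PP x \ B', w p / (p : ℝ) = ∑ p ∈ PP x \ B', 1 / (p : ℝ) := by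
      refine Finset.sum_congr rfl fun p hp => ?_
      rw [Finset.mem_sdiff] at hp
      simp only [hw]
      rw [if_neg]
      rintro ⟨h2, h3, h4⟩
      apply hp.2
      have hp1 := hp.1
      unfold PP at hp1
      rw [Finset.mem_filter, Finset.mem_Icc] at hp1
      rw [hB', Finset.mem_filter, hB, Finset.mem_filter]
      refine ⟨⟨?_, h4⟩, h3⟩
      unfold PP
      rw [Finset.mem_filter, Finset.mem_Icc]
      exact ⟨⟨hp1.1.1, h2⟩, hp1.2⟩
    rw [e1, e2]
    ring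
  have hBB : ∑ p ∈ B, 1 / (p : ℝ) ≤ ∑ p ∈ B', 1 / (p : ℝ) + ω := by
    rw [hB', ← Finset.sum_filter_add_sum_filter_not B (fun p => ¬ p ∣ W)]
    gcongr
    rw [hω]
    apply Finset.sum_le_sum_of_subset_of_nonneg
    · intro p hp
      rw [Finset.mem_filter, hB, Finset.mem_filter] at hp
      have hp1 := hp.1.1
      unfold PP at hp1
      rw [Finset.mem_filter, Finset.mem_Icc] at hp1
      rw [Nat.mem_primeFactors]
      exact ⟨hp1.2, not_not.1 hp.2, hW⟩
    · intro p _ _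
      positivity
  have hMx := (abs_le.1 (hM x hx)).2
  have hlog : 0 ≤ Real.log x := Real.log_natCast_nonneg x
  have hLL : Real.exp (LL x) = 1 + Real.log x := by
    unfold LL
    rw [Real.exp_log (by linarith)]
  have hexp : Real.exp (∑ p ∈ PP x, w p / p) ≤
      (1 + Real.log x) * (Real.exp (C₂ + ω) * Real.exp (-∑ p ∈ B, 1 / (p : ℝ))) := by
    rw [← hLL, ← Real.exp_add, ← Real.exp_add]
    apply Real.exp_le_exp.2
    rw [hsum]
    linarith
  have hx0 : (0 : ℝ) ≤ x := Nat.cast_nonneg x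
  calc (S.card : ℝ) ≤ C₁ * (x / (1 + Real.log x)) * Real.exp (∑ p ∈ PP x, w p / p) :=
        hcard.trans h1
    _ ≤ C₁ * (x / (1 + Real.log x)) *
        ((1 + Real.log x) * (Real.exp (C₂ + ω) * Real.exp (-∑ p ∈ B, 1 / (p : ℝ)))) := by
        gcongr
    _ = C₁ * Real.exp (C₂ + ω) * x * Real.exp (-∑ p ∈ B, 1 / (p : ℝ)) := by
        have : 1 + Real.log x ≠ 0 := by positivity
        field_simp

end TwHL
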